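import Pool.Agent.CK.ChB

set_option autoImplicit false

/-!
CK-BS. The theorem of Baur and Strassen for chains: all derivatives of `f` lie in `W * W`, where `W` arises with three times as many products.
-/

namespace Pool.Agent.CK

open MvPolynomial

variable {R : Type} [CommRing R] [Algebra ℚ R]

/-- The span of the functions `δ ↦ ω * δ f`, `ω ∈ W`, `f ∈ V`. -/
private def Msp (W V : Submodule ℚ R) : Submodule ℚ (Derivation ℚ R R → R) :=
  Submodule.span ℚ {Φ | ∃ ω ∈ W, ∃ f ∈ V, Φ = fun δ => ω * δ f}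

private theorem Msp_mono {W W' V V' : Submodule ℚ R} (h : W ≤ W') (h' : V ≤ V') :
    Msp W V ≤ Msp W' V' := by
  apply Submodule.span_mono
  rintro Φ ⟨ω, hω, f, hf, rfl⟩
  exact ⟨ω, h hω, f, h' hf, rfl⟩

private theorem Msp_mem {W V : Submodule ℚ R} {ω f : R} (h : ω ∈ W) (h' : f ∈ V) :
    (fun δ : Derivation ℚ R R => ω * δ f) ∈ Msp W V :=
  Submodule.subset_span ⟨ω, h, f, h', rfl⟩

private theorem key {W V : Submodule ℚ R} {u : R} {Φ : Derivation ℚ R R → R}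
    (hΦ : Φ ∈ Msp W (V ⊔ Submodule.span ℚ {u})) :
    ∃ Φ₁ ∈ Msp W V, ∃ Ω ∈ W, Φ = Φ₁ + fun δ : Derivation ℚ R R => Ω * δ u := by
  unfold Msp at hΦ
  induction hΦ using Submodule.span_induction with
  | mem Φ h =>
    obtain ⟨ω, hω, f, hf, rfl⟩ := h
    obtain ⟨v, hv, y, hy, rfl⟩ := Submodule.mem_sup.1 hf
    obtain ⟨c, rfl⟩ := Submodule.mem_span_singleton.1 hy
    refine ⟨_, Msp_mem hω hv, c • ω, W.smul_mem c hω, ?_⟩
    funext δ
    simp only [Pi.add_apply, map_add]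
    rw [mul_add, Derivation.map_smul_of_tower, mul_smul_comm, smul_mul_assoc]
  | zero =>
    refine ⟨0, Submodule.zero_mem _, 0, W.zero_mem, ?_⟩
    funext δ
    simp
  | add Φ Ψ _ _ h1 h2 =>
    obtain ⟨Φ₁, hΦ₁, Ω, hΩ, rfl⟩ := h1
    obtain ⟨Ψ₁, hΨ₁, Ω', hΩ', rfl⟩ := h2
    refine ⟨Φ₁ + Ψ₁, Submodule.add_mem _ hΦ₁ hΨ₁, Ω + Ω', W.add_mem hΩ hΩ', ?_⟩
    funext δ
    simp only [Pi.add_apply]
    ring
  | smul c Φ _ h1 =>
    obtain ⟨Φ₁, hΦ₁, Ω, hΩ, rfl⟩ := h1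
    refine ⟨c • Φ₁, Submodule.smul_mem _ c hΦ₁, c • Ω, W.smul_mem c hΩ, ?_⟩
    funext δ
    simp only [Pi.add_apply, Pi.smul_apply, smul_add, smul_mul_assoc]

private theorem claim {V₀ V : Submodule ℚ R} {k : ℕ} (h : Ch V₀ k V) :
    ∀ (W : Submodule ℚ R) (Φ : Derivation ℚ R R → R), V ≤ W → Φ ∈ Msp W V →
      ∃ W', Ch W (2 * k) W' ∧ Φ ∈ Msp W' V₀ := by
  induction h with
  | base k =>
    intro W Φ _ hΦ
    exact ⟨W, Ch.base _, hΦ⟩
  | @step k V a b h ha hb ih =>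
    intro W Φ hVW hΦ
    have hV : V ≤ W := le_sup_left.trans hVW
    obtain ⟨Φ₁, hΦ₁, Ω, hΩ, hEq⟩ := key hΦ
    have c1 : Ch W 1 (W ⊔ Submodule.span ℚ {Ω * a}) := Ch.step (Ch.base 0) hΩ (hV ha)
    have c2 : Ch W 2 (W ⊔ Submodule.span ℚ {Ω * a} ⊔ Submodule.span ℚ {Ω * b}) :=
      Ch.step c1 (Submodule.mem_sup_left hΩ) (Submodule.mem_sup_left (hV hb))
    have hle : W ≤ W ⊔ Submodule.span ℚ {Ω * a} ⊔ Submodule.span ℚ {Ω * b} := c2.le
    have hmem : Φ ∈ Msp (W ⊔ Submodule.span ℚ {Ω * a} ⊔ Submodule.span ℚ {Ω * b}) V := by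
      have e : Φ = Φ₁ + ((fun δ : Derivation ℚ R R => (Ω * a) * δ b) +
          fun δ : Derivation ℚ R R => (Ω * b) * δ a) := by
        rw [hEq]
        funext δ
        simp only [Pi.add_apply, Derivation.leibniz, smul_eq_mul]
        ring
      rw [e]
      refine Submodule.add_mem _ (Msp_mono hle le_rfl hΦ₁) (Submodule.add_mem _ ?_ ?_)
      · exact Msp_mem (Submodule.mem_sup_left (Submodule.mem_sup_right
          (Submodule.mem_span_singleton_self _))) hb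
      · exact Msp_mem (Submodule.mem_sup_right (Submodule.mem_span_singleton_self _)) ha
    obtain ⟨W', h1, h2⟩ := ih _ Φ (hV.trans hle) hmem
    refine ⟨W', ?_, h2⟩
    have h3 := c2.trans h1
    have e2 : 2 + 2 * k = 2 * (k + 1) := by ring
    rw [e2] at h3
    exact h3

theorem bs {V₀ V : Submodule ℚ R} {k : ℕ} (h : Ch V₀ k V) (h1 : (1 : R) ∈ V₀) {f : R}
    (hf : f ∈ V) : ∃ W, Ch V₀ (3 * k) W ∧ V ≤ W ∧
      ∀ δ : Derivation ℚ R R, (∀ v ∈ V₀, δ v ∈ V₀) → δ f ∈ W * W := by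
  obtain ⟨W, hW, hΦ⟩ := claim h V _ le_rfl (Msp_mem (h.le h1) hf)
  have hVW : V ≤ W := hW.le
  have hc := h.trans hW
  have e : k + 2 * k = 3 * k := by ring
  rw [e] at hc
  refine ⟨W, hc, hVW, fun δ hδ => ?_⟩
  have hgen : ∀ Ψ ∈ Msp W V₀, Ψ δ ∈ W * W := by
    intro Ψ hΨ
    unfold Msp at hΨ
    induction hΨ using Submodule.span_induction with
    | mem Ψ h =>
      obtain ⟨ω, hω, g, hg, rfl⟩ := h
      exact Submodule.mul_mem_mul hω (hc.le (hδ g hg))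
    | zero => exact Submodule.zero_mem _
    | add Ψ Ψ' _ _ h1 h2 => exact Submodule.add_mem _ h1 h2
    | smul c Ψ _ h1 => exact Submodule.smul_mem _ c h1
  have h2 := hgen _ hΦ
  simp only [one_mul] at h2
  exact h2

end Pool.Agent.CK
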