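import Pool.Agent.CK.Defs

set_option autoImplicit false

/-!
CK-ChB. Elementary facts about chains of products.
-/

namespace Pool.Agent.CK

open MvPolynomial

variable {R S : Type} [CommRing R] [Algebra ℚ R] [CommRing S] [Algebra ℚ S]

theorem Ch.le {V₀ V : Submodule ℚ R} {k : ℕ} (h : Ch V₀ k V) : V₀ ≤ V := by
  induction h with
  | base k => exact le_rfl
  | step h ha hb ih => exact ih.trans le_sup_left

theorem Ch.mono {V₀ V : Submodule ℚ R} {k k' : ℕ} (h : Ch V₀ k V) (hk : k ≤ k') : Ch V₀ k' V := by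
  induction h generalizing k' with
  | base k => exact Ch.base k'
  | step h ha hb ih =>
    obtain ⟨j, rfl⟩ : ∃ j, k' = j + 1 := ⟨k' - 1, by omega⟩
    exact Ch.step (ih (by omega)) ha hb

theorem Ch.trans {V₀ V W : Submodule ℚ R} {k j : ℕ} (h : Ch V₀ k V) (h' : Ch V j W) :
    Ch V₀ (k + j) W := by
  induction h' with
  | base j => exact h.mono (Nat.le_add_right _ _)
  | step h' ha hb ih => exact Ch.step ih ha hb

theorem Ch.up {V₀ V₀' V : Submodule ℚ R} {k : ℕ} (h : Ch V₀ k V) (h0 : V₀ ≤ V₀') :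
    ∃ V', V ≤ V' ∧ Ch V₀' k V' := by
  induction h with
  | base k => exact ⟨V₀', h0, Ch.base k⟩
  | step h ha hb ih =>
    obtain ⟨V', h1, h2⟩ := ih
    exact ⟨_, sup_le_sup_right h1 _, Ch.step h2 (h1 ha) (h1 hb)⟩

theorem Ch.map {V₀ V : Submodule ℚ R} {k : ℕ} (h : Ch V₀ k V) (φ : R →ₐ[ℚ] S) :
    Ch (V₀.map φ.toLinearMap) k (V.map φ.toLinearMap) := by
  induction h with
  | base k => exact Ch.base k
  | @step k V a b h ha hb ih =>
    rw [Submodule.map_sup, Submodule.map_span, Set.image_singleton]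
    have h1 : φ.toLinearMap (a * b) = φ.toLinearMap a * φ.toLinearMap b := map_mul φ a b
    rw [h1]
    exact Ch.step ih (Submodule.mem_map_of_mem ha) (Submodule.mem_map_of_mem hb)

end Pool.Agent.CK
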