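import Pool.Agent.CK.Defs

set_option autoImplicit false

/-!
CK-EvB. Evaluation of circuits.

Inductions on formulas, and on the list of the gates from the right.
-/

namespace Pool.Agent.CK

open MvPolynomial

variable {A B : Type} [CommSemiring A] [Algebra ℚ A] [CommSemiring B] [Algebra ℚ B]

theorem Fr.evl_map (φ : A →ₐ[ℚ] B) (σ y : ℕ → A) (F : Fr) :
    φ (F.evl σ y) = F.evl (fun i => φ (σ i)) fun j => φ (y j) := by
  induction F with
  | const q => exact φ.commutes q
  | var i => rfl
  | ref j => rfl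
  | add F G ihF ihG =>
    change φ (F.evl σ y + G.evl σ y) = F.evl (fun i => φ (σ i)) (fun j => φ (y j)) +
      G.evl (fun i => φ (σ i)) (fun j => φ (y j))
    rw [map_add, ihF, ihG]
  | mul F G ihF ihG =>
    change φ (F.evl σ y * G.evl σ y) = F.evl (fun i => φ (σ i)) (fun j => φ (y j)) *
      G.evl (fun i => φ (σ i)) (fun j => φ (y j))
    rw [map_mul, ihF, ihG]

theorem Fr.evl_congr {F : Fr} {σ σ' y y' : ℕ → A} (h : ∀ i ∈ F.lvs, σ i = σ' i)
    (h' : ∀ j ∈ F.rfs, y j = y' j) : F.evl σ y = F.evl σ' y' := by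
  induction F with
  | const q => rfl
  | var i => exact h i (Multiset.mem_singleton_self i)
  | ref j => exact h' j (Finset.mem_singleton_self j)
  | add F G ihF ihG =>
    change F.evl σ y + G.evl σ y = F.evl σ' y' + G.evl σ' y'
    rw [ihF (fun i hi => h i (Multiset.mem_add.mpr (Or.inl hi)))
      (fun j hj => h' j (Finset.mem_union_left _ hj)),
      ihG (fun i hi => h i (Multiset.mem_add.mpr (Or.inr hi)))
      (fun j hj => h' j (Finset.mem_union_right _ hj))]
  | mul F G ihF ihG =>
    change F.evl σ y * G.evl σ y = F.evl σ' y' * G.evl σ' y'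
    rw [ihF (fun i hi => h i (Multiset.mem_add.mpr (Or.inl hi)))
      (fun j hj => h' j (Finset.mem_union_left _ hj)),
      ihG (fun i hi => h i (Multiset.mem_add.mpr (Or.inr hi)))
      (fun j hj => h' j (Finset.mem_union_right _ hj))]

theorem vals_append (σ : ℕ → A) (l : List Fr) (F : Fr) :
    vals σ (l ++ [F]) = vals σ l ++ [F.evl σ fun j => (vals σ l).getD j 0] := by
  unfold vals
  rw [List.foldl_append]
  rfl

theorem vals_length (σ : ℕ → A) (l : List Fr) : (vals σ l).length = l.length := by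
  induction l using List.reverseRecOn with
  | nil => rfl
  | append_singleton l F ih =>
    rw [vals_append, List.length_append, List.length_append, ih]
    rfl

private theorem getD_map_zero (φ : A →ₐ[ℚ] B) (l : List A) (j : ℕ) :
    (l.map φ).getD j 0 = φ (l.getD j 0) := by
  induction l generalizing j with
  | nil => exact (map_zero φ).symm
  | cons a l ih =>
    rcases j with _ | j
    · rfl
    · exact ih j

private theorem vals_map (φ : A →ₐ[ℚ] B) (σ : ℕ → A) (l : List Fr) :
    vals (fun i => φ (σ i)) l = (vals σ l).map φ := by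
  induction l using List.reverseRecOn with
  | nil => rfl
  | append_singleton l F ih =>
    rw [vals_append, vals_append, ih, List.map_append, List.map_singleton, Fr.evl_map]
    have h : (fun j => ((vals σ l).map φ).getD j 0) = fun j => φ ((vals σ l).getD j 0) := by
      funext j
      exact getD_map_zero φ _ j
    rw [h]

private theorem mem_sum_lvs (l : List Fr) (i : ℕ) :
    i ∈ (l.map Fr.lvs).sum ↔ ∃ F ∈ l, i ∈ F.lvs := by
  induction l with
  | nil => simp
  | cons F l ih =>
    rw [List.map_cons, List.sum_cons, Multiset.mem_add, ih]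
    simp

private theorem vals_congr {σ σ' : ℕ → A} (l : List Fr)
    (h : ∀ F ∈ l, ∀ i ∈ F.lvs, σ i = σ' i) : vals σ l = vals σ' l := by
  induction l using List.reverseRecOn with
  | nil => rfl
  | append_singleton l F ih =>
    rw [vals_append, vals_append, ih (fun G hG => h G (List.mem_append_left _ hG)),
      Fr.evl_congr (h F (List.mem_append_right _ List.mem_cons_self)) (fun j _ => rfl)]

theorem Cir.evl_map (φ : A →ₐ[ℚ] B) (σ : ℕ → A) (C : Cir) :
    φ (C.evl σ) = C.evl fun i => φ (σ i) := by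
  unfold Cir.evl
  rw [Fr.evl_map, vals_map]
  have h : (fun j => ((vals σ C.gates).map φ).getD j 0) =
      fun j => φ ((vals σ C.gates).getD j 0) := by
    funext j
    exact getD_map_zero φ _ j
  rw [h]

theorem Cir.evl_congr {C : Cir} {σ σ' : ℕ → A} (h : ∀ i ∈ C.lvs, σ i = σ' i) :
    C.evl σ = C.evl σ' := by
  have h1 : vals σ C.gates = vals σ' C.gates :=
    vals_congr _ fun F hF i hi =>
      h i (Multiset.mem_add.mpr (Or.inl ((mem_sum_lvs _ i).mpr ⟨F, hF, hi⟩)))
  unfold Cir.evl
  rw [h1]
  exact Fr.evl_congr (fun i hi => h i (Multiset.mem_add.mpr (Or.inr hi))) (fun j _ => rfl)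

theorem aeval_poly (σ : ℕ → A) (C : Cir) : aeval σ C.poly = C.evl σ := by
  unfold Cir.poly
  rw [Cir.evl_map]
  simp only [aeval_X]

theorem eval_poly (a : ℕ → ℚ) (C : Cir) : eval a C.poly = C.evl a := by
  rw [← MvPolynomial.coe_aeval_eq_eval]
  exact aeval_poly a C

private theorem vars_Fr (S : Set ℕ) (y : ℕ → MvPolynomial ℕ ℚ) (F : Fr)
    (h : ∀ i ∈ F.lvs, i ∈ S) (h' : ∀ j, ∀ v ∈ (y j).vars, v ∈ S) :
    ∀ v ∈ (F.evl X y).vars, v ∈ S := by
  induction F with
  | const q =>
    intro v hv
    have h1 : v ∈ (MvPolynomial.C q : MvPolynomial ℕ ℚ).vars := hv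
    rw [vars_C] at h1
    exact absurd h1 (Finset.notMem_empty v)
  | var i =>
    intro v hv
    have h1 : v ∈ (X i : MvPolynomial ℕ ℚ).vars := hv
    rw [vars_X, Finset.mem_singleton] at h1
    rw [h1]
    exact h i (Multiset.mem_singleton_self i)
  | ref j =>
    intro v hv
    exact h' j v hv
  | add F G ihF ihG =>
    intro v hv
    have h1 : v ∈ (F.evl X y + G.evl X y).vars := hv
    rcases Finset.mem_union.mp (vars_add_subset _ _ h1) with h2 | h2
    · exact ihF (fun i hi => h i (Multiset.mem_add.mpr (Or.inl hi))) v h2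
    · exact ihG (fun i hi => h i (Multiset.mem_add.mpr (Or.inr hi))) v h2
  | mul F G ihF ihG =>
    intro v hv
    have h1 : v ∈ (F.evl X y * G.evl X y).vars := hv
    rcases Finset.mem_union.mp (vars_mul _ _ h1) with h2 | h2
    · exact ihF (fun i hi => h i (Multiset.mem_add.mpr (Or.inl hi))) v h2
    · exact ihG (fun i hi => h i (Multiset.mem_add.mpr (Or.inr hi))) v h2

private theorem vars_vals (S : Set ℕ) (l : List Fr) (h : ∀ F ∈ l, ∀ i ∈ F.lvs, i ∈ S) :
    ∀ j, ∀ v ∈ ((vals (X : ℕ → MvPolynomial ℕ ℚ) l).getD j 0).vars, v ∈ S := by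
  induction l using List.reverseRecOn with
  | nil =>
    intro j v hv
    have h1 : v ∈ (0 : MvPolynomial ℕ ℚ).vars := hv
    rw [vars_0] at h1
    exact absurd h1 (Finset.notMem_empty v)
  | append_singleton l F ih =>
    have ih' := ih (fun G hG => h G (List.mem_append_left _ hG))
    intro j v hv
    rw [vals_append] at hv
    rcases Nat.lt_or_ge j (vals (X : ℕ → MvPolynomial ℕ ℚ) l).length with hj | hj
    · rw [List.getD_append _ _ _ _ hj] at hv
      exact ih' j v hv
    · rw [List.getD_append_right _ _ _ _ hj] at hv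
      obtain ⟨k, hk⟩ : ∃ k, k = j - (vals (X : ℕ → MvPolynomial ℕ ℚ) l).length := ⟨_, rfl⟩
      rw [← hk] at hv
      rcases k with _ | k
      · exact vars_Fr S _ F (h F (List.mem_append_right _ List.mem_cons_self)) ih' v hv
      · have h1 : v ∈ (0 : MvPolynomial ℕ ℚ).vars := hv
        rw [vars_0] at h1
        exact absurd h1 (Finset.notMem_empty v)

theorem vars_poly (C : Cir) : ∀ v ∈ C.poly.vars, v ∈ C.lvs := by
  refine vars_Fr {v | v ∈ C.lvs} _ C.out (fun i hi => Multiset.mem_add.mpr (Or.inr hi)) ?_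
  exact vars_vals {v | v ∈ C.lvs} C.gates fun F hF i hi =>
    Multiset.mem_add.mpr (Or.inl ((mem_sum_lvs _ i).mpr ⟨F, hF, hi⟩))

end Pool.Agent.CK
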