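import Pool.Agent.CK.Ctr
import Pool.Agent.CK.EvB

set_option autoImplicit false

/-!
CK-CirCh. The value of a circuit lies in a chain with `3 * C.refs` products: the gates are treated
one after another, each of them needs at most `3 * F.refs` products.
-/

namespace Pool.Agent.CK

open MvPolynomial

private theorem getD_mem {R : Type} [CommRing R] [Algebra ℚ R] {V : Submodule ℚ R} {l : List R}
    (h : ∀ v ∈ l, v ∈ V) (j : ℕ) : l.getD j 0 ∈ V := by
  by_cases hj : j < l.length
  · rw [List.getD_eq_getElem _ _ hj]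
    exact h _ (List.getElem_mem hj)
  · rw [List.getD_eq_default _ _ (not_lt.1 hj)]
    exact zero_mem V

private theorem gatesCh {R : Type} [CommRing R] [Algebra ℚ R] {P : ℕ → Submodule ℚ R}
    {V₀ : Submodule ℚ R} {S : ℕ} (h0 : (1 : R) ∈ P 0) (hmul : ∀ a b, P a * P b ≤ P (a + b))
    (hmono : Monotone P) (hS : P S ≤ V₀) {σ : ℕ → R} (l : List Fr) :
    (∀ i ∈ (l.map Fr.lvs).sum, σ i ∈ P 1) → (l.map Fr.lvs).sum.card ≤ S →
      ∃ W, Ch V₀ (3 * (l.map Fr.refs).sum) W ∧ ∀ v ∈ vals σ l, v ∈ W := by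
  induction l using List.reverseRecOn with
  | nil =>
    intro _ _
    refine ⟨V₀, Ch.base _, ?_⟩
    intro v hv
    simp [vals] at hv
  | append_singleton l F ih =>
    intro hσ hC
    rw [List.map_append, List.sum_append, List.map_singleton, List.sum_singleton] at hσ hC
    rw [Multiset.card_add] at hC
    obtain ⟨W, hW, hv⟩ := ih (fun i hi => hσ i (Multiset.mem_add.2 (Or.inl hi))) (by omega)
    obtain ⟨W', hW', hF⟩ := con h0 hmul hmono hS hW.le F
      (y := fun j => (vals σ l).getD j 0)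
      (fun i hi => hσ i (Multiset.mem_add.2 (Or.inr hi))) (fun j _ => getD_mem hv j) (by omega)
    refine ⟨W', ?_, ?_⟩
    · rw [List.map_append, List.sum_append, List.map_singleton, List.sum_singleton, mul_add]
      exact hW.trans hW'
    · intro v hv2
      rw [vals_append, List.mem_append, List.mem_singleton] at hv2
      rcases hv2 with hv2 | rfl
      · exact hW'.le (hv v hv2)
      · exact hF

theorem cirCh {R : Type} [CommRing R] [Algebra ℚ R] {P : ℕ → Submodule ℚ R}
    {V₀ : Submodule ℚ R} {S : ℕ} (h0 : (1 : R) ∈ P 0) (hmul : ∀ a b, P a * P b ≤ P (a + b))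
    (hmono : Monotone P) (hS : P S ≤ V₀) {σ : ℕ → R} (C : Cir) (hσ : ∀ i ∈ C.lvs, σ i ∈ P 1)
    (hC : C.lvs.card ≤ S) : ∃ W, Ch V₀ (3 * C.refs) W ∧ C.evl σ ∈ W := by
  rw [Cir.lvs, Multiset.card_add] at hC
  obtain ⟨W, hW, hv⟩ := gatesCh h0 hmul hmono hS (σ := σ) C.gates
    (fun i hi => hσ i (Multiset.mem_add.2 (Or.inl hi))) (by omega)
  obtain ⟨W', hW', hF⟩ := con h0 hmul hmono hS hW.le C.out
    (y := fun j => (vals σ C.gates).getD j 0)
    (fun i hi => hσ i (Multiset.mem_add.2 (Or.inr hi))) (fun j _ => getD_mem hv j) (by omega)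
  refine ⟨W', ?_, hF⟩
  rw [Cir.refs, mul_add]
  exact hW.trans hW'

end Pool.Agent.CK
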