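import Pool.Agent.CK.Ind

set_option autoImplicit false

/-!
Counting the independent elements: the products of the `Q_θ` and the monomials in the first `m`
variables with exponents below `N` are independent elements of `U`.
-/

namespace Pool.Agent.CK

open MvPolynomial

theorem cnt {m r B N : ℕ} {Z : Finset ℕ} {f : MvPolynomial ℕ ℚ} (Θ : Finset (ℕ → ℕ))
    (hΘ : ∀ θ ∈ Θ, SepP m r f θ Z) (hB : ∀ θ ∈ Θ, ∀ l, θ l < B)
    (hZ : ∀ θ ∈ Θ, ∀ θ' ∈ Θ, θ ≠ θ' → ∃ l ∈ Finset.range m \ Z, θ l ≠ θ' l) (hN : 0 < N)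
    (U : Submodule ℚ (MvPolynomial ℕ ℚ)) [FiniteDimensional ℚ U]
    (hU : ∀ θ ∈ Θ, ∀ a : ℕ →₀ ℕ, a.support ⊆ Finset.range m → (∀ l, a l < N) →
      qq m r B Z θ f * monomial a (1 : ℚ) ∈ U) :
    Θ.card * N ^ m ≤ Module.finrank ℚ U := by
  classical
  -- the exponent vector of a function
  let ex : (Fin m → Fin N) → (ℕ →₀ ℕ) := fun a =>
    Finsupp.onFinset (Finset.range m) (fun l => if h : l < m then (a ⟨l, h⟩ : ℕ) else 0)
      (by
        intro l hl
        rw [Finset.mem_range]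
        by_contra h
        exact hl (dif_neg h))
  have hex : ∀ a l, ex a l = if h : l < m then (a ⟨l, h⟩ : ℕ) else 0 := fun a l => rfl
  have hsup : ∀ a, (ex a).support ⊆ Finset.range m := fun a => Finsupp.support_onFinset_subset
  have hlt : ∀ a l, ex a l < N := by
    intro a l
    rw [hex]
    by_cases h : l < m
    · rw [dif_pos h]; exact (a ⟨l, h⟩).isLt
    · rw [dif_neg h]; exact hN
  have hinj : Function.Injective ex := by
    intro a b hab
    funext i
    have h1 : ex a i = ex b i := by rw [hab]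
    rw [hex, hex, dif_pos i.isLt, dif_pos i.isLt] at h1
    exact Fin.ext h1
  let e : {θ // θ ∈ Θ} × (Fin m → Fin N) →
      {θ // θ ∈ Θ} × {a : ℕ →₀ ℕ // a.support ⊆ Finset.range m} := fun p =>
    (p.1, ⟨ex p.2, hsup p.2⟩)
  have he : Function.Injective e := by
    rintro ⟨θ, a⟩ ⟨θ', a'⟩ h
    have h1 : θ = θ' := congrArg Prod.fst h
    have h2 : ex a = ex a' := congrArg (fun p => p.2.1) h
    rw [h1, hinj h2]
  have hli := (ind (r := r) Θ hΘ hB hZ).comp e he
  let v : {θ // θ ∈ Θ} × (Fin m → Fin N) → U := fun p =>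
    ⟨qq m r B Z p.1.1 f * monomial (ex p.2) (1 : ℚ), hU p.1.1 p.1.2 (ex p.2) (hsup p.2) (hlt p.2)⟩
  have hv : LinearIndependent ℚ v := by
    apply LinearIndependent.of_comp U.subtype
    exact hli
  have hc := hv.fintype_card_le_finrank
  rw [Fintype.card_prod, Fintype.card_coe, Fintype.card_fun, Fintype.card_fin,
    Fintype.card_fin] at hc
  exact hc

end Pool.Agent.CK
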