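import Pool.Agent.CK.ChB

set_option autoImplicit false

/-!
CK-Ctr. A formula with `F.refs` references needs at most `3 * F.refs` products.
-/

namespace Pool.Agent.CK

open MvPolynomial

private theorem ctr_zero {R : Type} [CommRing R] [Algebra ℚ R] {P : ℕ → Submodule ℚ R}
    (h0 : (1 : R) ∈ P 0) (hmul : ∀ a b, P a * P b ≤ P (a + b)) (hmono : Monotone P)
    {σ y : ℕ → R} (F : Fr) (hσ : ∀ i ∈ F.lvs, σ i ∈ P 1) (hr : F.refs = 0) :
    F.evl σ y ∈ P (Multiset.card F.lvs) := by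
  induction F with
  | const q =>
    rw [Fr.evl, Algebra.algebraMap_eq_smul_one]
    exact (P _).smul_mem q (hmono (Nat.zero_le _) h0)
  | var i =>
    have h1 : Multiset.card (Fr.var i).lvs = 1 := by
      rw [Fr.lvs, Multiset.card_singleton]
    rw [Fr.evl, h1]
    exact hσ i (by rw [Fr.lvs]; exact Multiset.mem_singleton_self i)
  | ref j =>
    rw [Fr.refs] at hr
    exact absurd hr one_ne_zero
  | add F G ihF ihG =>
    rw [Fr.refs] at hr
    have hF := ihF (fun i hi => hσ i (by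
      rw [Fr.lvs]
      exact Multiset.mem_add.2 (Or.inl hi))) (by omega)
    have hG := ihG (fun i hi => hσ i (by
      rw [Fr.lvs]
      exact Multiset.mem_add.2 (Or.inr hi))) (by omega)
    rw [Fr.evl, Fr.lvs, Multiset.card_add]
    exact (P _).add_mem (hmono (Nat.le_add_right _ _) hF) (hmono (Nat.le_add_left _ _) hG)
  | mul F G ihF ihG =>
    rw [Fr.refs] at hr
    have hF := ihF (fun i hi => hσ i (by
      rw [Fr.lvs]
      exact Multiset.mem_add.2 (Or.inl hi))) (by omega)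
    have hG := ihG (fun i hi => hσ i (by
      rw [Fr.lvs]
      exact Multiset.mem_add.2 (Or.inr hi))) (by omega)
    rw [Fr.evl, Fr.lvs, Multiset.card_add]
    exact hmul _ _ (Submodule.mul_mem_mul hF hG)

private theorem ctr_step {R : Type} [CommRing R] [Algebra ℚ R] {V : Submodule ℚ R} {a z b : R}
    (hb : b ∈ V) : a * z + b ∈ V ⊔ Submodule.span ℚ {a * z} :=
  Submodule.add_mem _ (Submodule.mem_sup_right (Submodule.mem_span_singleton_self _))
    (Submodule.mem_sup_left hb)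

private theorem ctr_pos {R : Type} [CommRing R] [Algebra ℚ R] {P : ℕ → Submodule ℚ R}
    {V₀ : Submodule ℚ R} {S : ℕ} (h0 : (1 : R) ∈ P 0) (hmul : ∀ a b, P a * P b ≤ P (a + b))
    (hmono : Monotone P) (hS : P S ≤ V₀) {σ y : ℕ → R} (F : Fr) :
    ∀ V : Submodule ℚ R, V₀ ≤ V → (∀ i ∈ F.lvs, σ i ∈ P 1) → (∀ j ∈ F.rfs, y j ∈ V) →
      Multiset.card F.lvs ≤ S → 1 ≤ F.refs →
      ∃ (W : Submodule ℚ R) (a z b : R), Ch V (3 * (F.refs - 1)) W ∧ z ∈ W ∧
        a ∈ P (Multiset.card F.lvs) ∧ b ∈ P (Multiset.card F.lvs) ∧ F.evl σ y = a * z + b := by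
  -- the binary case
  have hbin : ∀ (F G : Fr) (V : Submodule ℚ R), V₀ ≤ V →
      (∀ V : Submodule ℚ R, V₀ ≤ V → (∀ i ∈ F.lvs, σ i ∈ P 1) → (∀ j ∈ F.rfs, y j ∈ V) →
        Multiset.card F.lvs ≤ S → 1 ≤ F.refs →
        ∃ (W : Submodule ℚ R) (a z b : R), Ch V (3 * (F.refs - 1)) W ∧ z ∈ W ∧
          a ∈ P (Multiset.card F.lvs) ∧ b ∈ P (Multiset.card F.lvs) ∧
          F.evl σ y = a * z + b) →
      (∀ V : Submodule ℚ R, V₀ ≤ V → (∀ i ∈ G.lvs, σ i ∈ P 1) → (∀ j ∈ G.rfs, y j ∈ V) →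
        Multiset.card G.lvs ≤ S → 1 ≤ G.refs →
        ∃ (W : Submodule ℚ R) (a z b : R), Ch V (3 * (G.refs - 1)) W ∧ z ∈ W ∧
          a ∈ P (Multiset.card G.lvs) ∧ b ∈ P (Multiset.card G.lvs) ∧
          G.evl σ y = a * z + b) →
      (∀ i ∈ F.lvs, σ i ∈ P 1) → (∀ i ∈ G.lvs, σ i ∈ P 1) →
      (∀ j ∈ F.rfs, y j ∈ V) → (∀ j ∈ G.rfs, y j ∈ V) →
      Multiset.card F.lvs ≤ S → Multiset.card G.lvs ≤ S → 1 ≤ F.refs → 1 ≤ G.refs →
      ∃ W : Submodule ℚ R, Ch V (3 * (F.refs - 1) + 3 * (G.refs - 1) + 2) W ∧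
        F.evl σ y ∈ W ∧ G.evl σ y ∈ W := by
    intro F G V hV ihF ihG hσF hσG hyF hyG hF hG hrF hrG
    obtain ⟨W₁, a₁, z₁, b₁, hW₁, hz₁, ha₁, hb₁, he₁⟩ := ihF V hV hσF hyF hF hrF
    have hVW₁ := hW₁.le
    obtain ⟨W₂, a₂, z₂, b₂, hW₂, hz₂, ha₂, hb₂, he₂⟩ := ihG W₁ (hV.trans hVW₁) hσG
      (fun j hj => hVW₁ (hyG j hj)) hG hrG
    have hW₁₂ := hW₂.le
    have hP : ∀ k, k ≤ S → P k ≤ W₂ := fun k hk =>
      (hmono hk).trans (hS.trans (hV.trans (hVW₁.trans hW₁₂)))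
    have h3 : Ch V (3 * (F.refs - 1) + 3 * (G.refs - 1) + 1)
        (W₂ ⊔ Submodule.span ℚ {a₁ * z₁}) :=
      Ch.step (hW₁.trans hW₂) (hP _ hF ha₁) (hW₁₂ hz₁)
    have h4 : Ch V (3 * (F.refs - 1) + 3 * (G.refs - 1) + 1 + 1)
        (W₂ ⊔ Submodule.span ℚ {a₁ * z₁} ⊔ Submodule.span ℚ {a₂ * z₂}) :=
      Ch.step h3 (Submodule.mem_sup_left (hP _ hG ha₂)) (Submodule.mem_sup_left hz₂)
    refine ⟨_, h4, ?_, ?_⟩
    · rw [he₁]
      exact Submodule.mem_sup_left (ctr_step (hP _ hF hb₁))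
    · rw [he₂]
      exact ctr_step (Submodule.mem_sup_left (hP _ hG hb₂))
  induction F with
  | const q =>
    intro V _ _ _ _ hr
    rw [Fr.refs] at hr
    exact absurd hr (by norm_num)
  | var i =>
    intro V _ _ _ _ hr
    rw [Fr.refs] at hr
    exact absurd hr (by norm_num)
  | ref j =>
    intro V hV hσ hy hF hr
    refine ⟨V, 1, y j, 0, Ch.base _, hy j (by rw [Fr.rfs]; exact Finset.mem_singleton_self j),
      hmono (Nat.zero_le _) h0, (P _).zero_mem, ?_⟩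
    rw [Fr.evl, one_mul, add_zero]
  | add F G ihF ihG =>
    intro V hV hσ hy hF hr
    have hσF : ∀ i ∈ F.lvs, σ i ∈ P 1 := fun i hi => hσ i (by
      rw [Fr.lvs]
      exact Multiset.mem_add.2 (Or.inl hi))
    have hσG : ∀ i ∈ G.lvs, σ i ∈ P 1 := fun i hi => hσ i (by
      rw [Fr.lvs]
      exact Multiset.mem_add.2 (Or.inr hi))
    have hyF : ∀ j ∈ F.rfs, y j ∈ V := fun j hj => hy j (by
      rw [Fr.rfs]
      exact Finset.mem_union_left _ hj)
    have hyG : ∀ j ∈ G.rfs, y j ∈ V := fun j hj => hy j (by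
      rw [Fr.rfs]
      exact Finset.mem_union_right _ hj)
    rw [Fr.refs] at hr
    rw [Fr.lvs, Multiset.card_add] at hF
    rw [Fr.evl, Fr.lvs, Multiset.card_add, Fr.refs]
    have hmF := @hmono (Multiset.card F.lvs) (Multiset.card F.lvs + Multiset.card G.lvs)
      (Nat.le_add_right _ _)
    have hmG := @hmono (Multiset.card G.lvs) (Multiset.card F.lvs + Multiset.card G.lvs)
      (Nat.le_add_left _ _)
    by_cases hF0 : F.refs = 0
    · obtain ⟨W, a, z, b, hW, hz, ha, hb, he⟩ := ihG V hV hσG hyG (by omega) (by omega)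
      refine ⟨W, a, z, F.evl σ y + b, ?_, hz, hmG ha,
        (P _).add_mem (hmF (ctr_zero h0 hmul hmono F hσF hF0)) (hmG hb), ?_⟩
      · rw [hF0, zero_add]
        exact hW
      · rw [he]
        ring
    by_cases hG0 : G.refs = 0
    · obtain ⟨W, a, z, b, hW, hz, ha, hb, he⟩ := ihF V hV hσF hyF (by omega) (by omega)
      refine ⟨W, a, z, b + G.evl σ y, ?_, hz, hmF ha,
        (P _).add_mem (hmF hb) (hmG (ctr_zero h0 hmul hmono G hσG hG0)), ?_⟩
      · rw [hG0, add_zero]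
        exact hW
      · rw [he]
        ring
    obtain ⟨W, hW, h1, h2⟩ := hbin F G V hV ihF ihG hσF hσG hyF hyG (by omega) (by omega)
      (by omega) (by omega)
    exact ⟨W, 1, F.evl σ y + G.evl σ y, 0, hW.mono (by omega), W.add_mem h1 h2,
      hmono (Nat.zero_le _) h0, (P _).zero_mem, by rw [one_mul, add_zero]⟩
  | mul F G ihF ihG =>
    intro V hV hσ hy hF hr
    have hσF : ∀ i ∈ F.lvs, σ i ∈ P 1 := fun i hi => hσ i (by
      rw [Fr.lvs]
      exact Multiset.mem_add.2 (Or.inl hi))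
    have hσG : ∀ i ∈ G.lvs, σ i ∈ P 1 := fun i hi => hσ i (by
      rw [Fr.lvs]
      exact Multiset.mem_add.2 (Or.inr hi))
    have hyF : ∀ j ∈ F.rfs, y j ∈ V := fun j hj => hy j (by
      rw [Fr.rfs]
      exact Finset.mem_union_left _ hj)
    have hyG : ∀ j ∈ G.rfs, y j ∈ V := fun j hj => hy j (by
      rw [Fr.rfs]
      exact Finset.mem_union_right _ hj)
    rw [Fr.refs] at hr
    rw [Fr.lvs, Multiset.card_add] at hF
    rw [Fr.evl, Fr.lvs, Multiset.card_add, Fr.refs]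
    by_cases hF0 : F.refs = 0
    · obtain ⟨W, a, z, b, hW, hz, ha, hb, he⟩ := ihG V hV hσG hyG (by omega) (by omega)
      have hF1 := ctr_zero (y := y) h0 hmul hmono F hσF hF0
      refine ⟨W, F.evl σ y * a, z, F.evl σ y * b, ?_, hz,
        hmul _ _ (Submodule.mul_mem_mul hF1 ha), hmul _ _ (Submodule.mul_mem_mul hF1 hb), ?_⟩
      · rw [hF0, zero_add]
        exact hW
      · rw [he]
        ring
    by_cases hG0 : G.refs = 0
    · obtain ⟨W, a, z, b, hW, hz, ha, hb, he⟩ := ihF V hV hσF hyF (by omega) (by omega)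
      have hG1 := ctr_zero (y := y) h0 hmul hmono G hσG hG0
      refine ⟨W, a * G.evl σ y, z, b * G.evl σ y, ?_, hz,
        hmul _ _ (Submodule.mul_mem_mul ha hG1), hmul _ _ (Submodule.mul_mem_mul hb hG1), ?_⟩
      · rw [hG0, add_zero]
        exact hW
      · rw [he]
        ring
    obtain ⟨W, hW, h1, h2⟩ := hbin F G V hV ihF ihG hσF hσG hyF hyG (by omega) (by omega)
      (by omega) (by omega)
    refine ⟨W ⊔ Submodule.span ℚ {F.evl σ y * G.evl σ y}, 1, F.evl σ y * G.evl σ y, 0,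
      (Ch.step hW h1 h2).mono (by omega),
      Submodule.mem_sup_right (Submodule.mem_span_singleton_self _),
      hmono (Nat.zero_le _) h0, (P _).zero_mem, by rw [one_mul, add_zero]⟩

theorem con {R : Type} [CommRing R] [Algebra ℚ R] {P : ℕ → Submodule ℚ R}
    {V₀ V : Submodule ℚ R} {S : ℕ} (h0 : (1 : R) ∈ P 0) (hmul : ∀ a b, P a * P b ≤ P (a + b))
    (hmono : Monotone P) (hS : P S ≤ V₀) (hV : V₀ ≤ V) {σ y : ℕ → R} (F : Fr)
    (hσ : ∀ i ∈ F.lvs, σ i ∈ P 1) (hy : ∀ j ∈ F.rfs, y j ∈ V) (hF : F.lvs.card ≤ S) :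
    ∃ W, Ch V (3 * F.refs) W ∧ F.evl σ y ∈ W := by
  by_cases hr : F.refs = 0
  · refine ⟨V, Ch.base _, ?_⟩
    exact hV (hS (hmono hF (ctr_zero h0 hmul hmono F hσ hr)))
  · obtain ⟨W, a, z, b, hW, hz, ha, hb, he⟩ := ctr_pos (y := y) h0 hmul hmono hS F V hV hσ hy hF
      (by omega)
    have hPW : P (Multiset.card F.lvs) ≤ W :=
      (hmono hF).trans (hS.trans (hV.trans hW.le))
    refine ⟨W ⊔ Submodule.span ℚ {a * z}, (Ch.step hW (hPW ha) hz).mono (by omega), ?_⟩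
    rw [he]
    exact ctr_step (hPW hb)

end Pool.Agent.CK
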