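import Pool.Agent.QH.Defs
import Pool.Agent.Helper6.WB.Defs

set_option autoImplicit false

/-!
Arithmetic circuits with reused gates, chains of products, and the hitting set.
-/

namespace Pool.Agent.CK

open MvPolynomial

/-! ### Circuits -/

/-- Formulas over `ℚ` whose leaves are rational constants, variables and references to the gates
of a circuit. -/
inductive Fr : Type
  | const (q : ℚ) : Fr
  | var (i : ℕ) : Fr
  | ref (j : ℕ) : Fr
  | add (F G : Fr) : Fr
  | mul (F G : Fr) : Fr

namespace Fr

/-- The value of a formula, if `x_i` has the value `σ i` and gate `j` has the value `y j`. -/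
def evl {A : Type} [CommSemiring A] [Algebra ℚ A] (σ y : ℕ → A) : Fr → A
  | const q => algebraMap ℚ A q
  | var i => σ i
  | ref j => y j
  | add F G => F.evl σ y + G.evl σ y
  | mul F G => F.evl σ y * G.evl σ y

/-- The number of the leaves labelled by the variable `x_i`. -/
def occ (i : ℕ) : Fr → ℕ
  | const _ => 0
  | var j => if j = i then 1 else 0
  | ref _ => 0
  | add F G => F.occ i + G.occ i
  | mul F G => F.occ i + G.occ i

/-- The labels of the leaves labelled by variables. -/
def lvs : Fr → Multiset ℕ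
  | const _ => 0
  | var i => {i}
  | ref _ => 0
  | add F G => F.lvs + G.lvs
  | mul F G => F.lvs + G.lvs

/-- The number of the leaves labelled by references. -/
def refs : Fr → ℕ
  | const _ => 0
  | var _ => 0
  | ref _ => 1
  | add F G => F.refs + G.refs
  | mul F G => F.refs + G.refs

/-- The gates to which the formula refers. -/
def rfs : Fr → Finset ℕ
  | const _ => ∅
  | var _ => ∅
  | ref j => {j}
  | add F G => F.rfs ∪ G.rfs
  | mul F G => F.rfs ∪ G.rfs

/-- The formula in postfix notation: `(0, q)` stands for the constant `q`, `(1, 0)` for `+`,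
`(2, 0)` for `×`, `(2 * i + 3, 0)` for the variable `x_i` and `(2 * j + 4, 0)` for gate `j`. -/
def code : Fr → List (ℕ × ℚ)
  | const q => [(0, q)]
  | var i => [(2 * i + 3, 0)]
  | ref j => [(2 * j + 4, 0)]
  | add F G => F.code ++ G.code ++ [(1, 0)]
  | mul F G => F.code ++ G.code ++ [(2, 0)]

end Fr

/-- A circuit: the list of its reused gates (gate `0`, gate `1`, ...), each given by a formula
which may refer to the gates before it, and the output formula, which may refer to all gates. -/
structure Cir where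
  /-- the reused gates -/
  gates : List Fr
  /-- the output -/
  out : Fr

/-- The values of the gates, if `x_i` has the value `σ i`. A reference to a gate which does not
come before has the value `0`. -/
def vals {A : Type} [CommSemiring A] [Algebra ℚ A] (σ : ℕ → A) (l : List Fr) : List A :=
  l.foldl (fun ys F => ys ++ [F.evl σ fun j => ys.getD j 0]) []

namespace Cir

/-- The value of the circuit, if `x_i` has the value `σ i`. -/
def evl {A : Type} [CommSemiring A] [Algebra ℚ A] (σ : ℕ → A) (C : Cir) : A :=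
  C.out.evl σ fun j => (vals σ C.gates).getD j 0

/-- The polynomial computed by the circuit. -/
noncomputable def poly (C : Cir) : MvPolynomial ℕ ℚ := C.evl X

/-- The number of the leaves labelled by references, i.e. the number of the wires which leave the
reused gates. -/
def refs (C : Cir) : ℕ := (C.gates.map Fr.refs).sum + C.out.refs

/-- The labels of the leaves labelled by variables. -/
def lvs (C : Cir) : Multiset ℕ := (C.gates.map Fr.lvs).sum + C.out.lvs

/-- The variable `x_i` is heavy if it occurs in a reused gate or labels more than `r` leaves. -/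
def Heavy (r : ℕ) (C : Cir) (i : ℕ) : Prop := (∃ F ∈ C.gates, i ∈ F.lvs) ∨ r < C.out.occ i

instance (r : ℕ) (C : Cir) (i : ℕ) : Decidable (C.Heavy r i) :=
  inferInstanceAs (Decidable ((∃ F ∈ C.gates, i ∈ F.lvs) ∨ r < C.out.occ i))

/-- The number of the leaves labelled by heavy variables. -/
def heavy (r : ℕ) (C : Cir) : ℕ := (C.lvs.filter fun i => C.Heavy r i).card

/-- The input of the algorithm. -/
def code (C : Cir) : List (List (ℕ × ℚ)) × List (ℕ × ℚ) := (C.gates.map Fr.code, C.out.code)

end Cir

/-! ### Chains of products -/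

/-- `Ch V₀ k V`: the space `V` arises from `V₀` by adding successively at most `k` products of two
elements. -/
inductive Ch {R : Type} [CommRing R] [Algebra ℚ R] (V₀ : Submodule ℚ R) :
    ℕ → Submodule ℚ R → Prop
  | base (k : ℕ) : Ch V₀ k V₀
  | step {k : ℕ} {V : Submodule ℚ R} {a b : R} (h : Ch V₀ k V) (ha : a ∈ V) (hb : b ∈ V) :
      Ch V₀ (k + 1) (V ⊔ Submodule.span ℚ {a * b})

/-- the polynomials of degree at most `D` in the variables `x_i`, `i < n` -/
noncomputable def Vd (n D : ℕ) : Submodule ℚ (MvPolynomial ℕ ℚ) :=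
  restrictSupport ℚ {s : ℕ →₀ ℕ | (∀ i ∈ s.support, i < n) ∧ s.degree ≤ D}

/-! ### The subspaces `z_i = w_i(θ)`, `z_i = x_(m + i)` -/

/-- the linear form `∑ l < m, (l + 1) ^ i * θ l * x_l` -/
noncomputable def wl (m : ℕ) (θ : ℕ → ℕ) (i : ℕ) : MvPolynomial ℕ ℚ :=
  ∑ l ∈ Finset.range m, C ((((l + 1) ^ i * θ l : ℕ)) : ℚ) * X l

/-- the substitution -/
noncomputable def sb (m : ℕ) (θ : ℕ → ℕ) (v : ℕ) : MvPolynomial ℕ ℚ :=
  if v < m then X v else wl m θ (v - m)

/-- the substitution `z_i ↦ w_i(θ) + τ s_i` -/
noncomputable def ph (m : ℕ) (θ : ℕ → ℕ) (v : ℕ) : Polynomial (MvPolynomial ℕ ℚ) :=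
  if v < m then Polynomial.C (X v) else Polynomial.C (wl m θ (v - m)) +
    Polynomial.X * Polynomial.C (X v)

/-- the form `c_l` -/
noncomputable def cc (m r l : ℕ) (f : MvPolynomial ℕ ℚ) : MvPolynomial ℕ ℚ :=
  ∑ i ∈ Finset.range r, C (((l + 1) ^ i : ℕ) : ℚ) * pderiv (m + i) f

/-- the product `Q_θ` -/
noncomputable def qq (m r B : ℕ) (Z : Finset ℕ) (θ : ℕ → ℕ) (f : MvPolynomial ℕ ℚ) :
    MvPolynomial ℕ ℚ :=
  ∏ l ∈ Finset.range m \ Z, ∏ b ∈ (Finset.range B).erase (θ l),
    (pderiv l f + C ((b : ℕ) : ℚ) * cc m r l f)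

/-! ### The hitting set -/

/-- the point `(y, w(θ))` -/
def lf (m : ℕ) (θ y : ℕ → ℕ) (v : ℕ) : ℕ :=
  if v < m then y v else ∑ l ∈ Finset.range m, (l + 1) ^ (v - m) * θ l * y l

/-- the digit number `l` of `i` in base `2 ^ (T / m)` -/
def dg (T m i l : ℕ) : ℕ := i / 2 ^ (T / m * l) % 2 ^ (T / m)

/-- the point number `i` for `n` variables, with `J` levels -/
def Pt (T : ℕ) : ℕ → ℕ → ℕ → ℕ → ℕ
  | 0, _, i => dg T 3 i
  | J + 1, n, i => lf (n - n / 4) (dg T (n - n / 4) i) (Pt T J (n - n / 4) (i / 2 ^ T))

/-- the number of the variables after `J` levels -/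
def nx : ℕ → ℕ → ℕ
  | 0, n => n
  | J + 1, n => nx J (n - n / 4)

end Pool.Agent.CK
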