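import Pool.Agent.CK.Defs
import Pool.Agent.QH.WForm

set_option autoImplicit false

/-!
The parameters and the points of the hitting set for circuits; unfolding of circuits.
-/

namespace Pool.Agent.CK

open MvPolynomial Pool.Agent.QH
open Pool.Agent.Helper6.WB (Fm)

/-! ### Parameters: `s` leaves labelled by variables, `t` references -/

/-- the number of the variables of the multilinear polynomial -/
def LC (d s t : ℕ) : ℕ :=
  (2 * (4 * rt 1 s + 5 * t + 1 + rt 1 s * 2 ^ (d - 1))).size + 1

/-- the number of the cuts -/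
def KC (s : ℕ) : ℕ := kc s (rt 1 s)

/-- a bound for the hash values -/
def QC (d s t : ℕ) : ℕ := qb (rtc d s) d (LC d s t)

/-- the number of the seeds -/
def nC (d s t : ℕ) : ℕ := KC s + 1 + 2 ^ LC d s t + (KC s + 1) * LC d s t * QC d s t

/-- the logarithm of the degree -/
def eC (d s t : ℕ) : ℕ := ((LC d s t + 1) * s).size

/-- the number of the bits of one level -/
def TC (d s t : ℕ) : ℕ := 12 * (3 * t) + (21 + 3 * eC d s t) * nC d s t

/-- the number of the levels -/
def JC (d s t : ℕ) : ℕ := 3 * (nC d s t).size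

/-- the seeds with number `i` -/
def sdC (d s t i : ℕ) : ℕ → ℕ := Pt (TC d s t) (JC d s t) (nC d s t) i

/-- the coordinate `v` of the point number `i` -/
def ptC (d s t i v : ℕ) : ℕ :=
  gen (rtc d s) d (LC d s t)
    (fun v => ((Finset.range (KC s)).filter fun k => i / (s + 1) ^ k % (s + 1) ≤ v).card)
    (fun S => sdC d s t (i / (s + 1) ^ KC s) (KC s + 1 + S))
    (fun k => sdC d s t (i / (s + 1) ^ KC s) k)
    (fun k a h => sdC d s t (i / (s + 1) ^ KC s)
      (KC s + 1 + 2 ^ LC d s t + ((k * LC d s t + a) * QC d s t + h))) v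

/-- the generator whose seeds are the variables `X j` -/
noncomputable def gX (b d K L Q : ℕ) (β : ℕ → ℕ) (v : ℕ) : MvPolynomial ℕ ℚ :=
  gen b d L β (fun S => X (K + 1 + S)) (fun k => X k)
    (fun k a h => X (K + 1 + 2 ^ L + ((k * L + a) * Q + h))) v

/-! ### Unfolding -/

/-- the formula, the references being replaced by the formulas `ys` -/
def Fr.unf (ys : List Fm) : Fr → Fm
  | .const q => .const q
  | .var i => .var i
  | .ref j => ys.getD j (.const 0)
  | .add F G => .add (F.unf ys) (G.unf ys)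
  | .mul F G => .mul (F.unf ys) (G.unf ys)

/-- the unfolded gates -/
def unfs (l : List Fr) : List Fm := l.foldl (fun ys F => ys ++ [F.unf ys]) []

/-- the unfolded circuit -/
def Cir.unf (C : Cir) : Fm := C.out.unf (unfs C.gates)

/-- the unfolded token -/
def tku (ys : List (List (ℕ × ℚ))) (t : ℕ × ℚ) : List (ℕ × ℚ) :=
  if t.1 ≤ 2 then [t] else if t.1 % 2 = 1 then [((t.1 - 3) / 2 + 3, 0)] else
    ys.getD ((t.1 - 4) / 2) [(0, 0)]

/-- the unfolded code -/
def cdu (ys : List (List (ℕ × ℚ))) (l : List (ℕ × ℚ)) : List (ℕ × ℚ) := l.flatMap (tku ys)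

/-- the unfolded codes of the gates, cut off at length `N` -/
def cdus (N : ℕ) (gl : List (List (ℕ × ℚ))) : List (List (ℕ × ℚ)) :=
  gl.foldl (fun ys l => ys ++ [(cdu ys l).take N]) []

/-- the unfolded code of a circuit, cut off at length `N` -/
def cduC (N : ℕ) (p : List (List (ℕ × ℚ)) × List (ℕ × ℚ)) : List (ℕ × ℚ) :=
  (cdu (cdus N p.1) p.2).take N

/-- all tokens -/
def tks (p : List (List (ℕ × ℚ)) × List (ℕ × ℚ)) : List (ℕ × ℚ) := p.1.flatten ++ p.2

/-- the number of the tokens `n` -/
def ctk (n : ℕ) (l : List (ℕ × ℚ)) : ℕ := (l.filter fun t => decide (t.1 = n)).length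

/-- the variable `x_i` is heavy -/
def isHC (r : ℕ) (p : List (List (ℕ × ℚ)) × List (ℕ × ℚ)) (i : ℕ) : Bool :=
  decide (1 ≤ ctk (2 * i + 3) p.1.flatten) || decide (r + 1 ≤ ctk (2 * i + 3) p.2)

/-- the labels of the leaves labelled by heavy variables -/
def hlC (r : ℕ) (p : List (List (ℕ × ℚ)) × List (ℕ × ℚ)) : List ℕ :=
  ((tks p).filter fun t => (decide (3 ≤ t.1) && decide (t.1 % 2 = 1)) &&
    isHC r p ((t.1 - 3) / 2)).map fun t => (t.1 - 3) / 2

/-- the references, in unary -/
def rlC (p : List (List (ℕ × ℚ)) × List (ℕ × ℚ)) : List Bool :=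
  ((tks p).filter fun t => decide (4 ≤ t.1) && decide (t.1 % 2 = 0)).map fun _ => true

/-- the substitution of numbers for the heavy variables in the code of a formula -/
def subC (r : ℕ) (p : List (List (ℕ × ℚ)) × List (ℕ × ℚ)) (x : List ℕ) (l : List (ℕ × ℚ)) :
    List (ℕ × ℚ) :=
  l.map fun t => if decide (3 ≤ t.1) && isHC r p (t.1 - 3) then
    (0, ((x.getD ((hlC r p).idxOf (t.1 - 3)) 0 : ℕ) : ℚ)) else t

/-- heavy variables are renamed, constants are substituted for the other variables -/
def Fr.ren (H : ℕ → Prop) [DecidablePred H] (ix : ℕ → ℕ) (a : ℕ → ℚ) : Fr → Fr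
  | .const q => .const q
  | .var i => if H i then .var (ix i) else .const (a i)
  | .ref j => .ref j
  | .add F G => .add (F.ren H ix a) (G.ren H ix a)
  | .mul F G => .mul (F.ren H ix a) (G.ren H ix a)

/-- heavy variables are renamed, constants are substituted for the other variables -/
def Cir.ren (H : ℕ → Prop) [DecidablePred H] (ix : ℕ → ℕ) (a : ℕ → ℚ) (C : Cir) : Cir :=
  ⟨C.gates.map (Fr.ren H ix a), C.out.ren H ix a⟩

end Pool.Agent.CK
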