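import Pool.Agent.CK.Defs

set_option autoImplicit false

/-!
CK-Der. Chain rules for the substitution `ph`: the general chain rule for a derivation applied to `aeval g p`,
the coefficientwise partial derivatives of polynomials, and the three derivatives of `aeval (ph m θ) f`.
-/

namespace Pool.Agent.CK

open MvPolynomial

private lemma der_aux {R' : Type} [CommRing R'] [Algebra ℚ R'] (δ : Derivation ℚ R' R') (g : ℕ → R')
    (p : MvPolynomial ℕ ℚ) : ∃ s₀ : Finset ℕ, ∀ s, s₀ ⊆ s →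
      δ (aeval g p) = ∑ i ∈ s, aeval g (pderiv i p) * δ (g i) := by
  classical
  induction p using MvPolynomial.induction_on with
  | C a =>
    refine ⟨∅, fun s _ => ?_⟩
    simp
  | add p q hp hq =>
    obtain ⟨s1, h1⟩ := hp
    obtain ⟨s2, h2⟩ := hq
    refine ⟨s1 ∪ s2, fun s hs => ?_⟩
    rw [map_add, map_add, h1 s (Finset.union_subset_left hs), h2 s (Finset.union_subset_right hs),
      ← Finset.sum_add_distrib]
    refine Finset.sum_congr rfl fun i _ => ?_
    rw [map_add, map_add, add_mul]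
  | mul_X p n hp =>
    obtain ⟨s1, h1⟩ := hp
    refine ⟨insert n s1, fun s hs => ?_⟩
    have hn : n ∈ s := hs (Finset.mem_insert_self _ _)
    rw [map_mul, aeval_X, Derivation.leibniz, smul_eq_mul, smul_eq_mul,
      h1 s ((Finset.subset_insert _ _).trans hs)]
    have e : ∀ i ∈ s, aeval g (pderiv i (p * X n)) * δ (g i) =
        (if i = n then aeval g p * δ (g n) else 0) + g n * (aeval g (pderiv i p) * δ (g i)) := by
      intro i _
      rw [pderiv_mul, map_add, map_mul, map_mul, aeval_X]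
      split_ifs with h
      · subst h
        rw [pderiv_X_self, map_one]
        ring
      · rw [pderiv_X_of_ne (fun h' => h h'.symm), map_zero]
        ring
    rw [Finset.sum_congr rfl e, Finset.sum_add_distrib, Finset.sum_ite_eq' s n, if_pos hn,
      Finset.mul_sum]

private lemma der_sub {R' : Type} [CommRing R'] [Algebra ℚ R'] (δ : Derivation ℚ R' R') (g : ℕ → R')
    (p : MvPolynomial ℕ ℚ) (s : Finset ℕ) (hs : p.vars ⊆ s) :
    δ (aeval g p) = ∑ i ∈ s, aeval g (pderiv i p) * δ (g i) := by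
  classical
  obtain ⟨s₀, h⟩ := der_aux δ g p
  rw [h (s₀ ∪ s) Finset.subset_union_left]
  refine (Finset.sum_subset Finset.subset_union_right ?_).symm
  intro i _ hi
  rw [pderiv_eq_zero_of_notMem_vars (fun h' => hi (hs h')), map_zero, zero_mul]

theorem der {R' : Type} [CommRing R'] [Algebra ℚ R'] (δ : Derivation ℚ R' R') (g : ℕ → R')
    (p : MvPolynomial ℕ ℚ) : δ (aeval g p) = ∑ i ∈ p.vars, aeval g (pderiv i p) * δ (g i) :=
  der_sub δ g p p.vars (Finset.Subset.refl _)

theorem co_deriv (v : ℕ) : ∃ δ : Derivation ℚ (Polynomial (MvPolynomial ℕ ℚ))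
    (Polynomial (MvPolynomial ℕ ℚ)), (∀ p j, (δ p).coeff j = pderiv v (p.coeff j)) ∧
      δ Polynomial.X = 0 := by
  have h1 : ∀ p j, ((PolynomialModule.equivPolynomialSelf.compDer
      (pderiv v : Derivation ℚ (MvPolynomial ℕ ℚ) (MvPolynomial ℕ ℚ)).mapCoeffs :
      Derivation ℚ (Polynomial (MvPolynomial ℕ ℚ)) (Polynomial (MvPolynomial ℕ ℚ))) p).coeff j =
      pderiv v (p.coeff j) := fun p j => rfl
  refine ⟨_, h1, ?_⟩
  ext1 j
  rw [h1, Polynomial.coeff_X]
  split_ifs <;> simp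

private lemma co_C {v : ℕ}
    (δ : Derivation ℚ (Polynomial (MvPolynomial ℕ ℚ)) (Polynomial (MvPolynomial ℕ ℚ)))
    (hδ : ∀ p j, (δ p).coeff j = pderiv v (p.coeff j)) (a : MvPolynomial ℕ ℚ) :
    δ (Polynomial.C a) = Polynomial.C (pderiv v a) := by
  ext1 j
  rw [hδ, Polynomial.coeff_C, Polynomial.coeff_C]
  split_ifs
  · rfl
  · exact map_zero _

private lemma co_XC {v : ℕ}
    (δ : Derivation ℚ (Polynomial (MvPolynomial ℕ ℚ)) (Polynomial (MvPolynomial ℕ ℚ)))
    (hδ : ∀ p j, (δ p).coeff j = pderiv v (p.coeff j)) (a : MvPolynomial ℕ ℚ) :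
    δ (Polynomial.X * Polynomial.C a) = Polynomial.X * Polynomial.C (pderiv v a) := by
  ext1 j
  rw [hδ]
  cases j with
  | zero => simp
  | succ j =>
    rw [Polynomial.coeff_X_mul, Polynomial.coeff_X_mul, Polynomial.coeff_C, Polynomial.coeff_C]
    split_ifs
    · rfl
    · exact map_zero _

private lemma pd_wl_ge {m v : ℕ} (hv : m ≤ v) (θ : ℕ → ℕ) (k : ℕ) : pderiv v (wl m θ k) = 0 := by
  rw [wl, map_sum]
  refine Finset.sum_eq_zero fun l hl => ?_
  rw [Finset.mem_range] at hl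
  rw [pderiv_C_mul, pderiv_X_of_ne (by omega), mul_zero]

private lemma pd_wl_lt {m v : ℕ} (hv : v < m) (θ : ℕ → ℕ) (k : ℕ) :
    pderiv v (wl m θ k) = C ((((v + 1) ^ k * θ v : ℕ)) : ℚ) := by
  rw [wl, map_sum, Finset.sum_eq_single v]
  · rw [pderiv_C_mul, pderiv_X_self, mul_one]
  · intro l _ hl
    rw [pderiv_C_mul, pderiv_X_of_ne hl, mul_zero]
  · intro h
    exact absurd (Finset.mem_range.2 hv) h

private lemma der_ph {m r : ℕ} {θ : ℕ → ℕ} {f : MvPolynomial ℕ ℚ} (hv : ∀ i ∈ f.vars, i < m + r)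
    (δ : Derivation ℚ (Polynomial (MvPolynomial ℕ ℚ)) (Polynomial (MvPolynomial ℕ ℚ))) :
    δ (aeval (ph m θ) f) =
      ∑ w ∈ Finset.range m, aeval (ph m θ) (pderiv w f) * δ (Polynomial.C (X w)) +
      ∑ i ∈ Finset.range r, aeval (ph m θ) (pderiv (m + i) f) *
        δ (Polynomial.C (wl m θ i) + Polynomial.X * Polynomial.C (X (m + i))) := by
  rw [der_sub δ _ f (Finset.range (m + r)) (fun i hi => Finset.mem_range.2 (hv i hi)),
    Finset.sum_range_add]
  refine congrArg₂ (fun a b => a + b) (Finset.sum_congr rfl fun w hw => ?_)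
    (Finset.sum_congr rfl fun i _ => ?_)
  · rw [Finset.mem_range] at hw
    rw [ph, if_pos hw]
  · have e : ph m θ (m + i) = Polynomial.C (wl m θ i) +
        Polynomial.X * Polynomial.C (X (m + i)) := by
      rw [ph, if_neg (by omega), Nat.add_sub_cancel_left]
    rw [e]

private lemma pd_zero {m r : ℕ} {f : MvPolynomial ℕ ℚ} (hv : ∀ i ∈ f.vars, i < m + r) {i : ℕ}
    (hi : ¬ i < r) : pderiv (m + i) f = 0 :=
  pderiv_eq_zero_of_notMem_vars fun h => hi (by have := hv _ h; omega)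

theorem phZ {m r : ℕ} {θ : ℕ → ℕ} {f : MvPolynomial ℕ ℚ} (hv : ∀ i ∈ f.vars, i < m + r) {i : ℕ}
    (δ : Derivation ℚ (Polynomial (MvPolynomial ℕ ℚ)) (Polynomial (MvPolynomial ℕ ℚ)))
    (hδ : ∀ p j, (δ p).coeff j = pderiv (m + i) (p.coeff j)) :
    δ (aeval (ph m θ) f) = Polynomial.X * aeval (ph m θ) (pderiv (m + i) f) := by
  rw [der_ph hv δ, Finset.sum_eq_zero, zero_add]
  · have e : ∀ k ∈ Finset.range r, aeval (ph m θ) (pderiv (m + k) f) *
        δ (Polynomial.C (wl m θ k) + Polynomial.X * Polynomial.C (X (m + k))) =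
        if k = i then Polynomial.X * aeval (ph m θ) (pderiv (m + i) f) else 0 := by
      intro k _
      rw [map_add, co_C δ hδ, co_XC δ hδ, pd_wl_ge (by omega), Polynomial.C_0, zero_add]
      split_ifs with h
      · subst h
        rw [pderiv_X_self, Polynomial.C_1, mul_one, mul_comm]
      · rw [pderiv_X_of_ne (by omega), Polynomial.C_0, mul_zero, mul_zero]
    rw [Finset.sum_congr rfl e, Finset.sum_ite_eq']
    split_ifs with h
    · rfl
    · rw [Finset.mem_range] at h
      rw [pd_zero hv h, map_zero, mul_zero]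
  · intro w hw
    rw [Finset.mem_range] at hw
    rw [co_C δ hδ, pderiv_X_of_ne (by omega), Polynomial.C_0, mul_zero]

theorem phY {m r : ℕ} {θ : ℕ → ℕ} {f : MvPolynomial ℕ ℚ} (hv : ∀ i ∈ f.vars, i < m + r) {l : ℕ}
    (hl : l < m)
    (δ : Derivation ℚ (Polynomial (MvPolynomial ℕ ℚ)) (Polynomial (MvPolynomial ℕ ℚ)))
    (hδ : ∀ p j, (δ p).coeff j = pderiv l (p.coeff j)) :
    δ (aeval (ph m θ) f) = aeval (ph m θ) (pderiv l f + C ((θ l : ℕ) : ℚ) * cc m r l f) := by
  have e1 : ∀ w ∈ Finset.range m, aeval (ph m θ) (pderiv w f) * δ (Polynomial.C (X w)) =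
      if w = l then aeval (ph m θ) (pderiv l f) else 0 := by
    intro w _
    rw [co_C δ hδ]
    split_ifs with h
    · subst h
      rw [pderiv_X_self, Polynomial.C_1, mul_one]
    · rw [pderiv_X_of_ne h, Polynomial.C_0, mul_zero]
  have e2 : ∀ k ∈ Finset.range r, aeval (ph m θ) (pderiv (m + k) f) *
      δ (Polynomial.C (wl m θ k) + Polynomial.X * Polynomial.C (X (m + k))) =
      aeval (ph m θ) (C ((θ l : ℕ) : ℚ) * (C (((l + 1) ^ k : ℕ) : ℚ) * pderiv (m + k) f)) := by
    intro k _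
    have e3 : Polynomial.C (C (((l + 1) ^ k * θ l : ℕ) : ℚ)) =
        algebraMap ℚ (Polynomial (MvPolynomial ℕ ℚ)) (((l + 1) ^ k * θ l : ℕ) : ℚ) := rfl
    rw [map_add, co_C δ hδ, co_XC δ hδ, pd_wl_lt hl, pderiv_X_of_ne (by omega), Polynomial.C_0,
      mul_zero, add_zero, map_mul, map_mul, aeval_C, aeval_C, e3, Nat.cast_mul, map_mul]
    ring
  rw [der_ph hv δ, Finset.sum_congr rfl e1, Finset.sum_congr rfl e2, Finset.sum_ite_eq',
    if_pos (Finset.mem_range.2 hl), ← map_sum, ← Finset.mul_sum, ← cc, ← map_add]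

theorem phT {m r : ℕ} {θ : ℕ → ℕ} {f : MvPolynomial ℕ ℚ} (hv : ∀ i ∈ f.vars, i < m + r) :
    Polynomial.derivative (aeval (ph m θ) f) =
      ∑ i ∈ Finset.range r, Polynomial.C (X (m + i)) * aeval (ph m θ) (pderiv (m + i) f) := by
  obtain ⟨δ, hδ⟩ : ∃ δ : Derivation ℚ (Polynomial (MvPolynomial ℕ ℚ))
      (Polynomial (MvPolynomial ℕ ℚ)), ∀ p, δ p = Polynomial.derivative p := by
    refine ⟨Derivation.mk' (Polynomial.derivative.restrictScalars ℚ) ?_, fun p => rfl⟩
    intro a b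
    simp only [LinearMap.coe_restrictScalars, Polynomial.derivative_mul, smul_eq_mul]
    ring
  rw [← hδ, der_ph hv δ, Finset.sum_eq_zero, zero_add]
  · refine Finset.sum_congr rfl fun i _ => ?_
    rw [hδ, Polynomial.derivative_add, Polynomial.derivative_C, zero_add, Polynomial.derivative_mul,
      Polynomial.derivative_X, Polynomial.derivative_C, mul_zero, add_zero, one_mul, mul_comm]
  · intro w _
    rw [hδ, Polynomial.derivative_C, mul_zero]

end Pool.Agent.CK
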