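import Pool.Agent.CK.Defs

set_option autoImplicit false

/-!
CK-Dig. Digits, the number of levels, and the parameters of the levels.
-/

namespace Pool.Agent.CK

open MvPolynomial

private theorem digs {b : ℕ} (hb : 0 < b) (c : ℕ) : ∀ (m : ℕ) (θ : ℕ → ℕ), (∀ l, θ l < b) →
    (∀ l < m, (∑ l ∈ Finset.range m, θ l * b ^ l + b ^ m * c) / b ^ l % b = θ l) ∧
      (∑ l ∈ Finset.range m, θ l * b ^ l + b ^ m * c) / b ^ m = c := by
  intro m
  induction m with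
  | zero =>
    intro θ _
    refine ⟨fun l hl => absurd hl (Nat.not_lt_zero l), ?_⟩
    simp
  | succ m ih =>
    intro θ hθ
    obtain ⟨h1, h2⟩ := ih (fun l => θ (l + 1)) (fun l => hθ (l + 1))
    set i₁ := ∑ l ∈ Finset.range m, θ (l + 1) * b ^ l + b ^ m * c with hi₁
    have hi : ∑ l ∈ Finset.range (m + 1), θ l * b ^ l + b ^ (m + 1) * c = θ 0 + b * i₁ := by
      rw [Finset.sum_range_succ', hi₁, Nat.mul_add, Finset.mul_sum]
      have h3 : ∀ l ∈ Finset.range m, θ (l + 1) * b ^ (l + 1) = b * (θ (l + 1) * b ^ l) := by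
        intro l _
        ring
      rw [Finset.sum_congr rfl h3]
      ring
    have hdiv : (θ 0 + b * i₁) / b = i₁ := by
      rw [Nat.add_mul_div_left _ _ hb, Nat.div_eq_of_lt (hθ 0), Nat.zero_add]
    have hdd : ∀ l, (θ 0 + b * i₁) / b ^ (l + 1) = i₁ / b ^ l := by
      intro l
      rw [pow_succ', ← Nat.div_div_eq_div_mul, hdiv]
    rw [hi]
    refine ⟨?_, ?_⟩
    · intro l hl
      rcases l with _ | l
      · rw [pow_zero, Nat.div_one, Nat.add_mul_mod_self_left, Nat.mod_eq_of_lt (hθ 0)]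
      · rw [hdd]
        exact h1 l (by omega)
    · rw [hdd]
      exact h2

theorem dig {T m : ℕ} (hm : 0 < m) (θ : ℕ → ℕ) (hθ : ∀ l, θ l < 2 ^ (T / m)) (i' : ℕ) :
    ∃ i, (∀ l < m, dg T m i l = θ l) ∧ i / 2 ^ T = i' ∧ ∀ N, i' < 2 ^ N → i < 2 ^ (T + N) := by
  have hq : T / m * m ≤ T := Nat.div_mul_le_self T m
  obtain ⟨h1, h2⟩ := digs (b := 2 ^ (T / m)) (by positivity) (2 ^ (T - T / m * m) * i') m θ hθ
  have hT : (2 ^ (T / m)) ^ m * 2 ^ (T - T / m * m) = 2 ^ T := by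
    rw [← pow_mul, ← pow_add, Nat.add_sub_cancel' hq]
  set i := ∑ l ∈ Finset.range m, θ l * (2 ^ (T / m)) ^ l +
    (2 ^ (T / m)) ^ m * (2 ^ (T - T / m * m) * i') with hi
  have h3 : i / 2 ^ T = i' := by
    rw [← hT, ← Nat.div_div_eq_div_mul, h2]
    exact Nat.mul_div_cancel_left i' (by positivity)
  refine ⟨i, ?_, h3, ?_⟩
  · intro l hl
    have h4 := h1 l hl
    rw [← pow_mul] at h4
    exact h4
  · intro N hN
    rw [pow_add, mul_comm, ← Nat.div_lt_iff_lt_mul (by positivity), h3]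
    exact hN

private theorem nx_aux : ∀ J n : ℕ, 4 ^ J * (nx J n - 3) ≤ 3 ^ J * (n - 3) := by
  intro J
  induction J with
  | zero =>
    intro n
    exact le_rfl
  | succ J ih =>
    intro n
    have h1 := ih (n - n / 4)
    have h2 : 4 * ((n - n / 4) - 3) ≤ 3 * (n - 3) := by omega
    change 4 ^ (J + 1) * (nx J (n - n / 4) - 3) ≤ 3 ^ (J + 1) * (n - 3)
    calc 4 ^ (J + 1) * (nx J (n - n / 4) - 3) = 4 * (4 ^ J * (nx J (n - n / 4) - 3)) := by ring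
      _ ≤ 4 * (3 ^ J * ((n - n / 4) - 3)) := Nat.mul_le_mul_left _ h1
      _ = 3 ^ J * (4 * ((n - n / 4) - 3)) := by ring
      _ ≤ 3 ^ J * (3 * (n - 3)) := Nat.mul_le_mul_left _ h2
      _ = 3 ^ (J + 1) * (n - 3) := by ring

theorem nx_le (n : ℕ) : nx (3 * n.size) n ≤ 3 := by
  have h1 := nx_aux (3 * n.size) n
  have h2 : n < 2 ^ n.size := Nat.lt_size_self n
  rw [pow_mul, pow_mul] at h1
  by_contra h3
  have h4 : 1 ≤ nx (3 * n.size) n - 3 := by omega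
  have h5 : 27 ^ n.size * (n - 3) < 27 ^ n.size * 2 ^ n.size :=
    Nat.mul_lt_mul_of_pos_left (by omega) (by positivity)
  have h6 : (27 : ℕ) ^ n.size * 2 ^ n.size ≤ 64 ^ n.size := by
    rw [← mul_pow]
    exact Nat.pow_le_pow_left (by norm_num) _
  have h7 : (64 : ℕ) ^ n.size * 1 ≤ 64 ^ n.size * (nx (3 * n.size) n - 3) :=
    Nat.mul_le_mul_left _ h4
  norm_num at h1
  omega

theorem lev_num {T k e n₀ n : ℕ} (hT : 12 * k + (21 + 3 * e) * n₀ ≤ T) (h4 : 4 ≤ n) (hn : n ≤ n₀) :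
    1 ≤ n / 4 ∧ 2 * (n / 4) ≤ n - n / 4 ∧ n - n / 4 + n / 4 = n ∧
      (n - n / 4) + 3 * k + 4 * ((n - n / 4) + n / 4) + e * (n / 4) <
        T / (n - n / 4) * ((n - n / 4) + 1 - 2 * (n / 4)) := by
  refine ⟨by omega, by omega, by omega, ?_⟩
  obtain ⟨r, hr⟩ : ∃ r, r = n / 4 := ⟨_, rfl⟩
  rw [← hr]
  obtain ⟨m, hm⟩ : ∃ m, m = n - r := ⟨_, rfl⟩
  rw [← hm]
  obtain ⟨D, hD⟩ : ∃ D, D = m + 1 - 2 * r := ⟨_, rfl⟩
  rw [← hD]
  have h1 : m ≤ 4 * D := by omega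
  have hm0 : 0 < m := by omega
  have h2 : T < T / m * m + m := Nat.lt_div_mul_add hm0
  obtain ⟨q, hq⟩ : ∃ q, q = T / m := ⟨_, rfl⟩
  rw [← hq] at h2 ⊢
  have h3 : q * m ≤ 4 * (q * D) := by
    calc q * m ≤ q * (4 * D) := Nat.mul_le_mul_left _ h1
      _ = 4 * (q * D) := by ring
  have h5 : e * n ≤ e * n₀ := Nat.mul_le_mul_left _ hn
  have h6 : 4 * (e * r) ≤ e * n := by
    calc 4 * (e * r) = e * (4 * r) := by ring
      _ ≤ e * n := Nat.mul_le_mul_left _ (by omega)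
  have h7 : (21 + 3 * e) * n₀ = 21 * n₀ + 3 * (e * n₀) := by ring
  rw [h7] at hT
  omega

end Pool.Agent.CK
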