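import Pool.Agent.CK.Defs

set_option autoImplicit false

/-!
CK-Hil. The Hilbert function of a chain at most doubles with every product: if `V'` arises from
`V ∋ 1, a, b` by adding the product `u = a * b`, then `V' ^ (E + 1) = V ^ (E + 1) ⊔ u V' ^ E`, and
`u V ^ E ≤ V ^ (E + 2)`; comparing dimensions gives `dim V' ^ (E + 1) ≤ dim V ^ (E + 1) + dim V ^ E`.
-/

namespace Pool.Agent.CK

open MvPolynomial

variable {R : Type} [CommRing R] [Algebra ℚ R]

private theorem fd_pow (V : Submodule ℚ R) [FiniteDimensional ℚ V] (E : ℕ) :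
    FiniteDimensional ℚ ↥(V ^ E) :=
  Module.Finite.iff_fg.2 ((Module.Finite.iff_fg.1 inferInstance).pow E)

private theorem fd_ch {V₀ V : Submodule ℚ R} {k : ℕ} (h : Ch V₀ k V) [FiniteDimensional ℚ V₀] :
    FiniteDimensional ℚ V := by
  induction h with
  | base k => infer_instance
  | step h ha hb ih => infer_instance

private theorem one_ch {V₀ V : Submodule ℚ R} {k : ℕ} (h : Ch V₀ k V) (h1 : (1 : R) ∈ V₀) :
    (1 : R) ∈ V := by
  induction h with
  | base k => exact h1
  | step h ha hb ih => exact Submodule.mem_sup_left ih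

theorem hil_fd {V₀ V : Submodule ℚ R} {k : ℕ} (h : Ch V₀ k V) [FiniteDimensional ℚ V₀] (E : ℕ) :
    FiniteDimensional ℚ ↥(V ^ E) := by
  have := fd_ch h
  exact fd_pow V E

private theorem rk (f : R →ₗ[ℚ] R) (Q : Submodule ℚ R) [FiniteDimensional ℚ Q] :
    Module.finrank ℚ ↥(Q.map f) + Module.finrank ℚ ↥(Q ⊓ LinearMap.ker f) =
      Module.finrank ℚ Q := by
  have h := (f.domRestrict Q).finrank_range_add_finrank_ker
  have h1 : LinearMap.range (f.domRestrict Q) = Q.map f := LinearMap.range_domRestrict _ _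
  have h2 : LinearMap.ker (f.domRestrict Q) = (LinearMap.ker f).comap Q.subtype := rfl
  have h3 : Module.finrank ℚ ↥((LinearMap.ker f).comap Q.subtype) =
      Module.finrank ℚ ↥(Q ⊓ LinearMap.ker f) := by
    rw [← Submodule.map_comap_subtype, Submodule.finrank_map_subtype_eq]
  rw [h1, h2, h3] at h
  exact h

/-- A linear map does not increase the codimension of a subspace. -/
private theorem cod (f : R →ₗ[ℚ] R) {P Q : Submodule ℚ R} [FiniteDimensional ℚ Q] (hPQ : P ≤ Q) :
    Module.finrank ℚ ↥(Q.map f) + Module.finrank ℚ P ≤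
      Module.finrank ℚ Q + Module.finrank ℚ ↥(P.map f) := by
  have : FiniteDimensional ℚ P := Submodule.finiteDimensional_of_le hPQ
  have h1 := rk f Q
  have h2 := rk f P
  have : FiniteDimensional ℚ ↥(Q ⊓ LinearMap.ker f) :=
    Submodule.finiteDimensional_of_le inf_le_left
  have h3 : Module.finrank ℚ ↥(P ⊓ LinearMap.ker f) ≤ Module.finrank ℚ ↥(Q ⊓ LinearMap.ker f) :=
    Submodule.finrank_mono (inf_le_inf_right _ hPQ)
  omega

private theorem span_mul (u : R) (W : Submodule ℚ R) :
    Submodule.span ℚ {u} * W = W.map (LinearMap.mulLeft ℚ u) := by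
  ext x
  rw [Submodule.mem_span_singleton_mul, Submodule.mem_map]
  rfl

private theorem pow_step (V : Submodule ℚ R) (u : R) (E : ℕ) :
    (V ⊔ Submodule.span ℚ {u}) ^ (E + 1) ≤
      V ^ (E + 1) ⊔ Submodule.span ℚ {u} * (V ⊔ Submodule.span ℚ {u}) ^ E := by
  induction E with
  | zero =>
    rw [pow_zero, mul_one, zero_add, pow_one, pow_one]
  | succ E ih =>
    set U := Submodule.span ℚ {u} with hU
    rw [pow_succ' _ (E + 1), Submodule.sup_mul]
    refine sup_le ?_ le_sup_right
    refine (mul_le_mul' le_rfl ih).trans ?_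
    rw [Submodule.mul_sup]
    refine sup_le ?_ ?_
    · rw [← pow_succ']
      exact le_sup_left
    · refine le_trans ?_ le_sup_right
      rw [mul_left_comm]
      refine mul_le_mul' le_rfl ?_
      rw [pow_succ']
      exact mul_le_mul' le_sup_left le_rfl

private theorem pow_step' (V : Submodule ℚ R) (u : R) (E : ℕ) :
    (V ⊔ Submodule.span ℚ {u}) ^ (E + 1) ≤
      V ^ (E + 1) ⊔ ((V ⊔ Submodule.span ℚ {u}) ^ E).map (LinearMap.mulLeft ℚ u) := by
  rw [← span_mul]
  exact pow_step V u E

private theorem step_le (V : Submodule ℚ R) [FiniteDimensional ℚ V] (h1 : (1 : R) ∈ V) {a b : R}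
    (ha : a ∈ V) (hb : b ∈ V) (E : ℕ) :
    Module.finrank ℚ ↥((V ⊔ Submodule.span ℚ {a * b}) ^ (E + 1)) ≤
      Module.finrank ℚ ↥(V ^ (E + 1)) + Module.finrank ℚ ↥(V ^ E) := by
  have hfd : ∀ E, FiniteDimensional ℚ ↥(V ^ E) := fd_pow V
  have hfd' : ∀ E, FiniteDimensional ℚ ↥((V ⊔ Submodule.span ℚ {a * b}) ^ E) := fd_pow _
  have hmono : ∀ E, V ^ E ≤ V ^ (E + 1) := by
    intro E
    rw [pow_succ]
    intro x hx
    have := Submodule.mul_mem_mul hx h1
    rwa [mul_one] at this
  induction E with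
  | zero =>
    refine (Submodule.finrank_mono (pow_step' V (a * b) 0)).trans ?_
    refine (Submodule.finrank_add_le_finrank_add_finrank _ _).trans ?_
    have h0 := hfd 0
    rw [pow_zero] at h0
    rw [pow_zero, pow_zero]
    exact Nat.add_le_add_left (Submodule.finrank_map_le _ _) _
  | succ E ih =>
    set V' := V ⊔ Submodule.span ℚ {a * b} with hV'
    have hle : V ^ E ≤ V' ^ (E + 1) :=
      (hmono E).trans (pow_le_pow_left' le_sup_left (E + 1))
    have h2 := cod (LinearMap.mulLeft ℚ (a * b)) hle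
    have h3 : (V ^ E).map (LinearMap.mulLeft ℚ (a * b)) ≤
        V ^ (E + 2) ⊓ (V' ^ (E + 1)).map (LinearMap.mulLeft ℚ (a * b)) := by
      refine le_inf ?_ (Submodule.map_mono hle)
      rintro _ ⟨x, hx, rfl⟩
      rw [LinearMap.mulLeft_apply, pow_add, mul_comm (V ^ E), pow_two]
      exact Submodule.mul_mem_mul (Submodule.mul_mem_mul ha hb) hx
    have h4 := Submodule.finrank_mono h3
    have h5 := Submodule.finrank_sup_add_finrank_inf_eq (V ^ (E + 2))
      ((V' ^ (E + 1)).map (LinearMap.mulLeft ℚ (a * b)))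
    have h6 := Submodule.finrank_mono (pow_step' V (a * b) (E + 1))
    rw [← hV'] at h6
    have h7 : E + 1 + 1 = E + 2 := rfl
    rw [h7] at h6 ⊢
    omega

theorem hil {V₀ V : Submodule ℚ R} {k : ℕ} (h : Ch V₀ k V) [FiniteDimensional ℚ V₀]
    (h1 : (1 : R) ∈ V₀) (E : ℕ) :
    Module.finrank ℚ ↥(V ^ E) ≤ 2 ^ k * Module.finrank ℚ ↥(V₀ ^ E) := by
  induction h with
  | base k => exact Nat.le_mul_of_pos_left _ (by positivity)
  | @step k V a b h ha hb ih =>
    have hV1 := one_ch h h1
    have hfd := fd_ch h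
    have hfd' := fd_pow V
    rcases E with _ | E
    · rw [pow_zero, pow_zero]
      exact Nat.le_mul_of_pos_left _ (by positivity)
    · have h2 := step_le V hV1 ha hb E
      have h3 : Module.finrank ℚ ↥(V ^ E) ≤ Module.finrank ℚ ↥(V ^ (E + 1)) := by
        refine Submodule.finrank_mono ?_
        rw [pow_succ]
        intro x hx
        have := Submodule.mul_mem_mul hx hV1
        rwa [mul_one] at this
      rw [pow_succ 2 k]
      linarith

end Pool.Agent.CK
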