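import Mathlib

set_option autoImplicit false

/-!
CK-Pig. Pigeonhole: the fibres of `θ ↦ (Z θ, θ restricted to Z θ)` are counted.
-/

namespace Pool.Agent.CK

open MvPolynomial

private theorem pig_fibre {m B M F : ℕ} (Z : (Fin m → Fin B) → Finset (Fin m))
    (h : ∀ (Z₀ : Finset (Fin m)) (Θ : Finset (Fin m → Fin B)), (∀ θ ∈ Θ, Z θ = Z₀) →
      (∀ θ ∈ Θ, ∀ θ' ∈ Θ, ∀ l ∈ Z₀, θ l = θ' l) → Θ.card * M ≤ F) (Z₀ : Finset (Fin m)) :
    (Finset.univ.filter fun θ => Z θ = Z₀).card * M ≤ B ^ Z₀.card * F := by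
  classical
  have h1 := Finset.card_eq_sum_card_fiberwise (s := Finset.univ.filter fun θ => Z θ = Z₀)
    (t := (Finset.univ : Finset (Z₀ → Fin B))) (f := fun θ (l : Z₀) => θ l)
    (fun _ _ => Finset.mem_coe.2 (Finset.mem_univ _))
  rw [h1, Finset.sum_mul]
  have h2 : ∀ ρ ∈ (Finset.univ : Finset (Z₀ → Fin B)),
      ((Finset.univ.filter fun θ => Z θ = Z₀).filter fun θ => (fun l : Z₀ => θ l) = ρ).card * M ≤
        F := by
    intro ρ _
    refine h Z₀ _ ?_ ?_
    · intro θ hθ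
      exact (Finset.mem_filter.1 (Finset.mem_filter.1 hθ).1).2
    · intro θ hθ θ' hθ' l hl
      have e1 := congrFun (Finset.mem_filter.1 hθ).2 ⟨l, hl⟩
      have e2 := congrFun (Finset.mem_filter.1 hθ').2 ⟨l, hl⟩
      exact e1.trans e2.symm
  refine (Finset.sum_le_sum h2).trans ?_
  rw [Finset.sum_const, smul_eq_mul, Finset.card_univ, Fintype.card_fun, Fintype.card_fin,
    Fintype.card_coe]

theorem pig {m r B M F : ℕ} (hr : 1 ≤ r) (hB : 1 ≤ B) (Z : (Fin m → Fin B) → Finset (Fin m))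
    (hZ : ∀ θ, (Z θ).card < r)
    (h : ∀ (Z₀ : Finset (Fin m)) (Θ : Finset (Fin m → Fin B)), (∀ θ ∈ Θ, Z θ = Z₀) →
      (∀ θ ∈ Θ, ∀ θ' ∈ Θ, ∀ l ∈ Z₀, θ l = θ' l) → Θ.card * M ≤ F) :
    B ^ m * M ≤ 2 ^ m * B ^ (r - 1) * F := by
  classical
  have h1 := Finset.card_eq_sum_card_fiberwise (s := (Finset.univ : Finset (Fin m → Fin B)))
    (t := (Finset.univ : Finset (Finset (Fin m)))) (f := Z)
    (fun _ _ => Finset.mem_coe.2 (Finset.mem_univ _))
  have h0 : (Finset.univ : Finset (Fin m → Fin B)).card = B ^ m := by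
    rw [Finset.card_univ, Fintype.card_fun, Fintype.card_fin, Fintype.card_fin]
  rw [← h0, h1, Finset.sum_mul]
  have h2 : ∀ Z₀ ∈ (Finset.univ : Finset (Finset (Fin m))),
      (Finset.univ.filter fun θ => Z θ = Z₀).card * M ≤ B ^ (r - 1) * F := by
    intro Z₀ _
    by_cases hc : Z₀.card < r
    · refine (pig_fibre Z h Z₀).trans ?_
      exact Nat.mul_le_mul_right _ (Nat.pow_le_pow_right hB (by omega))
    · have he : (Finset.univ.filter fun θ => Z θ = Z₀) = ∅ := by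
        rw [Finset.filter_eq_empty_iff]
        intro θ _ hθ
        apply hc
        rw [← hθ]
        exact hZ θ
      rw [he, Finset.card_empty, zero_mul]
      exact Nat.zero_le _
  refine (Finset.sum_le_sum h2).trans ?_
  rw [Finset.sum_const, smul_eq_mul, Finset.card_univ, Fintype.card_finset, Fintype.card_fin,
    mul_assoc]

end Pool.Agent.CK
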