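import Pool.Agent.CK.ChB

set_option autoImplicit false

/-!
CK-Vd. The spaces `Vd n D` of polynomials of degree at most `D` in the variables `x_i`, `i < n`:
products, powers, derivatives, linear substitutions, and the degrees in a chain of products.
-/

namespace Pool.Agent.CK

open MvPolynomial

private lemma deg_eq (s : ℕ →₀ ℕ) : s.degree = s.sum fun _ e => e := by
  rw [Finsupp.degree_apply, Finsupp.sum]

theorem mem_Vd {n D : ℕ} {p : MvPolynomial ℕ ℚ} :
    p ∈ Vd n D ↔ (∀ i ∈ p.vars, i < n) ∧ p.totalDegree ≤ D := by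
  rw [Vd, mem_restrictSupport_iff]
  constructor
  · intro h
    refine ⟨fun i hi => ?_, ?_⟩
    · rw [mem_vars_iff_mem_support] at hi
      obtain ⟨d, hd, hid⟩ := hi
      exact (h (Finset.mem_coe.2 hd)).1 i hid
    · rw [totalDegree]
      refine Finset.sup_le fun s hs => ?_
      rw [← deg_eq]
      exact (h (Finset.mem_coe.2 hs)).2
  · rintro ⟨h1, h2⟩ s hs
    have hs' := Finset.mem_coe.1 hs
    refine ⟨fun i hi => h1 i ?_, ?_⟩
    · rw [mem_vars_iff_mem_support]
      exact ⟨s, hs', hi⟩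
    · rw [deg_eq]
      exact (le_totalDegree hs').trans h2

theorem Vd_mono {n n' D D' : ℕ} (hn : n ≤ n') (hD : D ≤ D') : Vd n D ≤ Vd n' D' :=
  restrictSupport_mono ℚ fun _ hs => ⟨fun i hi => (hs.1 i hi).trans_le hn, hs.2.trans hD⟩

private lemma monomial_mem {n D : ℕ} {s : ℕ →₀ ℕ} (h1 : ∀ i ∈ s.support, i < n)
    (h2 : s.degree ≤ D) (c : ℚ) : monomial s c ∈ Vd n D := by
  rw [Vd, monomial_mem_restrictSupport]
  exact Or.inl ⟨h1, h2⟩

theorem C_mem_Vd (n D : ℕ) (c : ℚ) : (C c : MvPolynomial ℕ ℚ) ∈ Vd n D := by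
  rw [C_apply]
  exact monomial_mem (by simp) (by simp) c

theorem one_mem_Vd (n D : ℕ) : (1 : MvPolynomial ℕ ℚ) ∈ Vd n D := by
  rw [← C_1]
  exact C_mem_Vd n D 1

theorem X_mem_Vd {n D i : ℕ} (hi : i < n) (hD : 1 ≤ D) : (X i : MvPolynomial ℕ ℚ) ∈ Vd n D := by
  refine monomial_mem (fun j hj => ?_) ?_ 1
  · have hj := Finset.mem_singleton.1 (Finsupp.support_single_subset hj)
    rw [hj]
    exact hi
  · rw [Finsupp.degree_single]
    exact hD

theorem Vd_mul_le (n a b : ℕ) : Vd n a * Vd n b ≤ Vd n (a + b) := by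
  rw [Vd, Vd, ← restrictSupport_add]
  refine restrictSupport_mono ℚ ?_
  rintro _ ⟨s, hs, t, ht, rfl⟩
  refine ⟨fun i hi => ?_, ?_⟩
  · have hi' := Finsupp.support_add hi
    rcases Finset.mem_union.1 hi' with h | h
    · exact hs.1 i h
    · exact ht.1 i h
  · change (s + t).degree ≤ a + b
    rw [map_add]
    exact Nat.add_le_add hs.2 ht.2

theorem Vd_pow_le (n D E : ℕ) : Vd n D ^ E ≤ Vd n (D * E) := by
  induction E with
  | zero =>
    rw [pow_zero, Submodule.one_le]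
    exact one_mem_Vd n _
  | succ E ih =>
    rw [pow_succ, Nat.mul_succ]
    exact (mul_le_mul_left ih _).trans (Vd_mul_le n _ _)

private lemma sum_mono_mem {n D : ℕ} {N : Submodule ℚ (MvPolynomial ℕ ℚ)}
    (F : MvPolynomial ℕ ℚ →ₗ[ℚ] MvPolynomial ℕ ℚ)
    (hF : ∀ s : ℕ →₀ ℕ, (∀ i ∈ s.support, i < n) → s.degree ≤ D → ∀ c : ℚ,
      F (monomial s c) ∈ N) {p : MvPolynomial ℕ ℚ} (hp : p ∈ Vd n D) : F p ∈ N := by
  have hs : ∀ s ∈ p.support, (∀ i ∈ s.support, i < n) ∧ s.degree ≤ D := by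
    intro s hs
    rw [Vd, mem_restrictSupport_iff] at hp
    exact hp (Finset.mem_coe.2 hs)
  have e : F p = ∑ s ∈ p.support, F (monomial s (p.coeff s)) := by
    conv_lhs => rw [← support_sum_monomial_coeff p]
    rw [map_sum]
  rw [e]
  exact Submodule.sum_mem _ fun s h => hF s (hs s h).1 (hs s h).2 _

theorem pderiv_Vd {n D : ℕ} {p : MvPolynomial ℕ ℚ} (i : ℕ) (hp : p ∈ Vd n D) :
    pderiv i p ∈ Vd n D := by
  refine sum_mono_mem (n := n) (D := D) (pderiv i).toLinearMap ?_ hp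
  intro s h1 h2 c
  change pderiv i (monomial s c) ∈ Vd n D
  rw [pderiv_monomial]
  refine monomial_mem (fun j hj => h1 j ?_) ?_ _
  · rw [Finsupp.mem_support_iff] at hj ⊢
    intro h0
    apply hj
    rw [Finsupp.tsub_apply, h0, Nat.zero_sub]
  · refine le_trans ?_ h2
    have hle : s - Finsupp.single i 1 ≤ s := tsub_le_self
    exact Finsupp.degree_mono hle

private lemma prod_mem {m : ℕ} {g : ℕ → MvPolynomial ℕ ℚ} (S : Finset ℕ) (e : ℕ → ℕ)
    (hg : ∀ i ∈ S, g i ∈ Vd m 1) : ∏ i ∈ S, g i ^ e i ∈ Vd m (∑ i ∈ S, e i) := by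
  classical
  induction S using Finset.induction_on with
  | empty =>
    rw [Finset.prod_empty, Finset.sum_empty]
    exact one_mem_Vd m 0
  | insert a S ha ih =>
    rw [Finset.prod_insert ha, Finset.sum_insert ha]
    refine Vd_mul_le m _ _ (Submodule.mul_mem_mul ?_ (ih fun i hi =>
      hg i (Finset.mem_insert_of_mem hi)))
    have h1 := Submodule.pow_mem_pow (Vd m 1) (hg a (Finset.mem_insert_self a S)) (e a)
    have h2 := Vd_pow_le m 1 (e a) h1
    rwa [one_mul] at h2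

theorem aeval_Vd {n m D : ℕ} {g : ℕ → MvPolynomial ℕ ℚ} (hg : ∀ i < n, g i ∈ Vd m 1)
    {p : MvPolynomial ℕ ℚ} (hp : p ∈ Vd n D) : aeval g p ∈ Vd m D := by
  refine sum_mono_mem (n := n) (D := D) (aeval g).toLinearMap ?_ hp
  intro s h1 h2 c
  change aeval g (monomial s c) ∈ Vd m D
  rw [aeval_monomial, ← Algebra.smul_def]
  refine Submodule.smul_mem _ _ ?_
  have h3 := prod_mem (m := m) (g := g) s.support s fun i hi => hg i (h1 i hi)
  rw [← Finsupp.degree_apply] at h3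
  exact Vd_mono le_rfl h2 h3

theorem sb_Vd {m n D : ℕ} (θ : ℕ → ℕ) {p : MvPolynomial ℕ ℚ} (hp : p ∈ Vd n D) :
    aeval (sb m θ) p ∈ Vd m D := by
  refine aeval_Vd (fun i _ => ?_) hp
  unfold sb
  split_ifs with h
  · exact X_mem_Vd h le_rfl
  · unfold wl
    refine Submodule.sum_mem _ fun l hl => ?_
    rw [← smul_eq_C_mul]
    exact Submodule.smul_mem _ _ (X_mem_Vd (Finset.mem_range.1 hl) le_rfl)

theorem ch_deg {n D k : ℕ} {V : Submodule ℚ (MvPolynomial ℕ ℚ)} (h : Ch (Vd n D) k V) :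
    V ≤ Vd n (D * 2 ^ k) := by
  induction h with
  | base k => exact Vd_mono le_rfl (Nat.le_mul_of_pos_right D (by positivity))
  | @step k V a b h ha hb ih =>
    refine sup_le (ih.trans (Vd_mono le_rfl
      (Nat.mul_le_mul_left D (Nat.pow_le_pow_right two_pos (Nat.le_succ k))))) ?_
    rw [Submodule.span_le, Set.singleton_subset_iff]
    have h1 := Vd_mul_le n _ _ (Submodule.mul_mem_mul (ih ha) (ih hb))
    have e : D * 2 ^ k + D * 2 ^ k = D * 2 ^ (k + 1) := by ring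
    rw [e] at h1
    exact h1

end Pool.Agent.CK
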