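import Pool.Agent.CK.Defs

set_option autoImplicit false

/-!
CK-VdDim. The dimension of `Vd n N`: the exponents `s` with support below `n` and degree at most
`N` are injected by `s ↦ s + (N - deg s) e_n` in `(Finset.range (n + 1)).finsuppAntidiag N`.
-/

namespace Pool.Agent.CK

open MvPolynomial

/-- the exponents -/
private abbrev Ex (n N : ℕ) : Set (ℕ →₀ ℕ) :=
  {s : ℕ →₀ ℕ | (∀ i ∈ s.support, i < n) ∧ s.degree ≤ N}

private noncomputable def pad (n N : ℕ) (s : ℕ →₀ ℕ) : ℕ →₀ ℕ :=
  s + Finsupp.single n (N - s.degree)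

private theorem pad_mem {n N : ℕ} {s : ℕ →₀ ℕ} (hs : s ∈ Ex n N) :
    pad n N s ∈ (Finset.range (n + 1)).finsuppAntidiag N := by
  obtain ⟨h1, h2⟩ := hs
  have hsub : s.support ⊆ Finset.range (n + 1) := by
    intro i hi
    have := h1 i hi
    exact Finset.mem_range.2 (by omega)
  rw [Finset.mem_finsuppAntidiag]
  refine ⟨?_, ?_⟩
  · have e1 : (Finset.range (n + 1)).sum s = s.degree := by
      rw [Finsupp.degree_apply]
      exact (Finset.sum_subset hsub fun i _ hi => Finsupp.notMem_support_iff.1 hi).symm
    have e2 : (Finset.range (n + 1)).sum (Finsupp.single n (N - s.degree)) = N - s.degree := by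
      rw [Finset.sum_eq_single n]
      · exact Finsupp.single_eq_same
      · intro i _ hi
        exact Finsupp.single_eq_of_ne hi
      · intro h
        exact absurd (Finset.mem_range.2 (Nat.lt_succ_self n)) h
    have e3 : (Finset.range (n + 1)).sum (pad n N s) = (Finset.range (n + 1)).sum s +
        (Finset.range (n + 1)).sum (Finsupp.single n (N - s.degree)) := by
      rw [← Finset.sum_add_distrib]
      rfl
    rw [e3, e1, e2]
    omega
  · intro i hi
    rcases Finset.mem_union.1 (Finsupp.support_add hi) with h | h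
    · exact hsub h
    · have := Finsupp.support_single_subset h
      rw [Finset.mem_singleton] at this
      subst this
      exact Finset.mem_range.2 (Nat.lt_succ_self i)

private theorem pad_inj {n N : ℕ} {s t : ℕ →₀ ℕ} (hs : s ∈ Ex n N) (ht : t ∈ Ex n N)
    (h : pad n N s = pad n N t) : s = t := by
  have key : ∀ {u : ℕ →₀ ℕ}, u ∈ Ex n N → u n = 0 := by
    intro u hu
    by_contra hne
    exact lt_irrefl n (hu.1 n (Finsupp.mem_support_iff.2 hne))
  ext i
  by_cases hi : i = n
  · rw [hi, key hs, key ht]
  · have := DFunLike.congr_fun h i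
    simp only [pad, Finsupp.add_apply, Finsupp.single_eq_of_ne hi, add_zero] at this
    exact this

private theorem fin_Ex (n N : ℕ) : Finite ↥(Ex n N) := by
  refine Finite.of_injective
    (fun s : Ex n N => (⟨pad n N s, pad_mem s.2⟩ :
      {x // x ∈ (Finset.range (n + 1)).finsuppAntidiag N})) ?_
  intro s t h
  exact Subtype.ext (pad_inj s.2 t.2 (congrArg Subtype.val h))

private theorem card_Ex (n N : ℕ) : Nat.card ↥(Ex n N) ≤ (N + n).choose n := by
  have h1 : Nat.card ↥(Ex n N) ≤
      Nat.card {x // x ∈ (Finset.range (n + 1)).finsuppAntidiag N} := by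
    refine Nat.card_le_card_of_injective
      (fun s : Ex n N => (⟨pad n N s, pad_mem s.2⟩ :
        {x // x ∈ (Finset.range (n + 1)).finsuppAntidiag N})) ?_
    intro s t h
    exact Subtype.ext (pad_inj s.2 t.2 (congrArg Subtype.val h))
  have h2 : Nat.card {x // x ∈ (Finset.range (n + 1)).finsuppAntidiag N} =
      (N + n).choose n := by
    rw [Nat.card_eq_fintype_card, Fintype.card_coe,
      Finset.card_finsuppAntidiag_nat_eq_choose, Finset.card_range]
    have e : n + 1 + N - 1 = N + n := by omega
    rw [e, ← Nat.choose_symm_add]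
  exact h1.trans_eq h2

instance fd_Vd (n D : ℕ) : FiniteDimensional ℚ (Vd n D) := by
  have := fin_Ex n D
  exact Module.Finite.of_basis (basisRestrictSupport ℚ (Ex n D))

theorem finrank_Vd (n N : ℕ) : Module.finrank ℚ (Vd n N) ≤ (N + n).choose n := by
  have := fin_Ex n N
  have h := Module.finrank_eq_nat_card_basis (basisRestrictSupport ℚ (Ex n N))
  have h2 : Module.finrank ℚ (Vd n N) = Nat.card ↥(Ex n N) := h
  rw [h2]
  exact card_Ex n N

end Pool.Agent.CK
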