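import Pool.Agent.CK.Defs

set_option autoImplicit false

/-!
CK-VdMon. Monomials with small exponents in a power of `Vd m D`.

The monomial is the product of the `X l ^ a l` with `l < m`, and `X l ^ a l = (X l ^ D) ^ (a l / D) * X l ^ (a l % D)` lies
in `Vd m D ^ B` as `a l / D < B`.
-/

namespace Pool.Agent.CK

open MvPolynomial

private theorem X_mem {m D l j : ℕ} (hl : l < m) (hj : j ≤ D) :
    ((X l : MvPolynomial ℕ ℚ) ^ j) ∈ Vd m D := by
  rw [X_pow_eq_monomial]
  unfold Vd
  rw [monomial_mem_restrictSupport]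
  left
  refine ⟨fun i hi => ?_, ?_⟩
  · have h1 := Finsupp.support_single_subset hi
    rw [Finset.mem_singleton] at h1
    rwa [h1]
  · rw [Finsupp.degree_single]
    exact hj

private theorem one_le_Vd (m D : ℕ) : (1 : Submodule ℚ (MvPolynomial ℕ ℚ)) ≤ Vd m D := by
  rw [Submodule.one_le]
  have h1 : (1 : MvPolynomial ℕ ℚ) = monomial 0 1 := rfl
  rw [h1]
  unfold Vd
  rw [monomial_mem_restrictSupport]
  left
  refine ⟨fun i hi => ?_, ?_⟩
  · rw [Finsupp.support_zero] at hi
    exact absurd hi (Finset.notMem_empty i)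
  · rw [map_zero]
    exact Nat.zero_le _

private theorem pow_mono {V : Submodule ℚ (MvPolynomial ℕ ℚ)} (h : 1 ≤ V) {i j : ℕ} (hij : i ≤ j) :
    V ^ i ≤ V ^ j :=
  pow_le_pow_right' h hij

private theorem Xa_mem {m D B l a : ℕ} (hl : l < m) (ha : a < D * B) :
    ((X l : MvPolynomial ℕ ℚ) ^ a) ∈ Vd m D ^ B := by
  have hD : 0 < D := by
    rcases Nat.eq_zero_or_pos D with h | h
    · rw [h, zero_mul] at ha
      exact absurd ha (Nat.not_lt_zero _)
    · exact h
  have hq : a / D < B := Nat.div_lt_of_lt_mul ha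
  have h1 : ((X l : MvPolynomial ℕ ℚ) ^ a) = (X l ^ D) ^ (a / D) * X l ^ (a % D) := by
    rw [← pow_mul, ← pow_add, Nat.div_add_mod]
  rw [h1]
  have h2 : ((X l : MvPolynomial ℕ ℚ) ^ D) ^ (a / D) ∈ Vd m D ^ (a / D) :=
    Submodule.pow_mem_pow _ (X_mem hl le_rfl) _
  have h3 : ((X l : MvPolynomial ℕ ℚ) ^ (a % D)) ∈ Vd m D :=
    X_mem hl (Nat.mod_lt _ hD).le
  have h4 := Submodule.mul_mem_mul h2 h3
  rw [← pow_succ] at h4
  exact pow_mono (one_le_Vd m D) hq h4

theorem mon_mem {m D B : ℕ} (a : ℕ →₀ ℕ) (ha : a.support ⊆ Finset.range m)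
    (h : ∀ l, a l < D * B) : (monomial a (1 : ℚ)) ∈ Vd m D ^ (m * B) := by
  have h1 : (monomial a (1 : ℚ)) = ∏ l ∈ Finset.range m, (X l : MvPolynomial ℕ ℚ) ^ a l := by
    rw [monomial_eq, C_1, one_mul]
    exact Finsupp.prod_of_support_subset a ha _ fun i _ => pow_zero _
  rw [h1]
  have h2 : ∀ s : Finset ℕ, s ⊆ Finset.range m →
      (∏ l ∈ s, (X l : MvPolynomial ℕ ℚ) ^ a l) ∈ Vd m D ^ (s.card * B) := by
    intro s
    induction s using Finset.induction_on with
    | empty =>
      intro _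
      rw [Finset.prod_empty, Finset.card_empty, zero_mul, pow_zero]
      exact Submodule.one_le.1 le_rfl
    | insert l s hl ih =>
      intro hs
      rw [Finset.prod_insert hl, Finset.card_insert_of_notMem hl, add_mul, one_mul, add_comm,
        pow_add]
      exact Submodule.mul_mem_mul
        (Xa_mem (Finset.mem_range.1 (hs (Finset.mem_insert_self l s))) (h l))
        (ih ((Finset.subset_insert l s).trans hs))
  have h3 := h2 (Finset.range m) (Finset.Subset.refl _)
  rwa [Finset.card_range] at h3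

end Pool.Agent.CK
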