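import Pool.Agent.CK.Tr
import Pool.Agent.CK.Cnt
import Pool.Agent.CK.Pig
import Pool.Agent.CK.Hil
import Pool.Agent.CK.BS
import Pool.Agent.CK.Vd
import Pool.Agent.CK.VdDim
import Pool.Agent.CK.VdMon

set_option autoImplicit false

/-!
CK-Elim. Elimination of `r` variables: if `f ≠ 0` vanished on all the subspaces `z = w(θ)`, then the products
`Q_θ * x ^ a` of a large class of indices `θ` would be linearly independent elements of `W ^ (3 * m * B)`.
-/

namespace Pool.Agent.CK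

open MvPolynomial

private theorem el_prod {ι : Type} [DecidableEq ι] (A : Submodule ℚ (MvPolynomial ℕ ℚ))
    (s : Finset ι) (g : ι → MvPolynomial ℕ ℚ) (hg : ∀ i ∈ s, g i ∈ A) :
    ∏ i ∈ s, g i ∈ A ^ s.card := by
  induction s using Finset.induction_on with
  | empty =>
    rw [Finset.prod_empty, Finset.card_empty, pow_zero]
    exact Submodule.one_le.1 le_rfl
  | insert i s hi ih =>
    rw [Finset.prod_insert hi, Finset.card_insert_of_notMem hi, pow_succ']
    exact Submodule.mul_mem_mul (hg i (Finset.mem_insert_self i s))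
      (ih fun j hj => hg j (Finset.mem_insert_of_mem hj))

/-- the products lie in a power of `W` -/
private theorem el_qq {m r B D : ℕ} {W : Submodule ℚ (MvPolynomial ℕ ℚ)}
    {f : MvPolynomial ℕ ℚ} (h1 : (1 : MvPolynomial ℕ ℚ) ∈ W) (hD : Vd (m + r) D ≤ W)
    (hpd : ∀ i, pderiv i f ∈ W * W) (Z : Finset ℕ) (θ : ℕ → ℕ) (a : ℕ →₀ ℕ)
    (ha : a.support ⊆ Finset.range m) (haB : ∀ l, a l < D * B) :
    qq m r B Z θ f * monomial a (1 : ℚ) ∈ W ^ (3 * m * B) := by
  have hone : (1 : Submodule ℚ (MvPolynomial ℕ ℚ)) ≤ W := Submodule.one_le.2 h1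
  have hone2 : (1 : Submodule ℚ (MvPolynomial ℕ ℚ)) ≤ W ^ 2 := one_le_pow_of_one_le' hone 2
  have hcc : ∀ l, cc m r l f ∈ W ^ 2 := by
    intro l
    rw [pow_two]
    refine Submodule.sum_mem _ fun i _ => ?_
    rw [C_mul']
    exact Submodule.smul_mem _ _ (hpd _)
  have hfac : ∀ l b : ℕ, pderiv l f + C ((b : ℕ) : ℚ) * cc m r l f ∈ W ^ 2 := by
    intro l b
    refine Submodule.add_mem _ ?_ ?_
    · rw [pow_two]
      exact hpd l
    · rw [C_mul']
      exact Submodule.smul_mem _ _ (hcc l)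
  have hin : ∀ l, ∏ b ∈ (Finset.range B).erase (θ l),
      (pderiv l f + C ((b : ℕ) : ℚ) * cc m r l f) ∈ (W ^ 2) ^ B := by
    intro l
    have h2 := el_prod (W ^ 2) ((Finset.range B).erase (θ l))
      (fun b => pderiv l f + C ((b : ℕ) : ℚ) * cc m r l f) fun b _ => hfac l b
    refine pow_le_pow_right' hone2 ?_ h2
    exact (Finset.card_le_card (Finset.erase_subset _ _)).trans (Finset.card_range B).le
  have hq : qq m r B Z θ f ∈ ((W ^ 2) ^ B) ^ m := by
    have h2 := el_prod ((W ^ 2) ^ B) (Finset.range m \ Z) (fun l => ∏ b ∈ (Finset.range B).erase (θ l),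
      (pderiv l f + C ((b : ℕ) : ℚ) * cc m r l f)) fun l _ => hin l
    refine pow_le_pow_right' (one_le_pow_of_one_le' hone2 B) ?_ h2
    exact (Finset.card_le_card Finset.sdiff_subset).trans (Finset.card_range m).le
  have hm : monomial a (1 : ℚ) ∈ W ^ (m * B) := by
    have h2 := mon_mem a ha haB
    exact pow_le_pow_left' ((Vd_mono (Nat.le_add_right m r) le_rfl).trans hD) (m * B) h2
  have h3 := Submodule.mul_mem_mul hq hm
  rw [← pow_mul, ← pow_mul, ← pow_add] at h3
  have h4 : 2 * (B * m) + m * B = 3 * m * B := by ring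
  rwa [h4] at h3

theorem elim {m r B D k : ℕ} (hr : 1 ≤ r) (hB : 1 ≤ B) (hD : 1 ≤ D)
    {V : Submodule ℚ (MvPolynomial ℕ ℚ)} {f : MvPolynomial ℕ ℚ} (hV : Ch (Vd (m + r) D) k V)
    (hf : f ∈ V) (h0 : f ≠ 0)
    (hnum : 2 ^ m * B ^ (r - 1) *
      (2 ^ (3 * k) * (D * (3 * m * B) + (m + r)).choose (m + r)) < B ^ m * (D * B) ^ m) :
    ∃ θ : ℕ → ℕ, (∀ l, θ l < B) ∧ aeval (sb m θ) f ≠ 0 := by
  classical
  by_contra hcon
  push Not at hcon
  have hvars : ∀ i ∈ f.vars, i < m + r := (mem_Vd.1 (ch_deg hV hf)).1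
  obtain ⟨W, hW, hVW, hWd⟩ := bs hV (one_mem_Vd _ _) hf
  have hVdW : Vd (m + r) D ≤ W := hW.le
  have h1W : (1 : MvPolynomial ℕ ℚ) ∈ W := hVdW (one_mem_Vd _ _)
  have hpd : ∀ i, pderiv i f ∈ W * W := fun i => hWd (pderiv i) fun v hv => pderiv_Vd i hv
  let hat : (Fin m → Fin B) → ℕ → ℕ := fun θ l => if h : l < m then (θ ⟨l, h⟩ : ℕ) else 0
  have hhatB : ∀ θ l, hat θ l < B := by
    intro θ l
    by_cases h : l < m
    · have e : hat θ l = (θ ⟨l, h⟩ : ℕ) := dif_pos h
      rw [e]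
      exact (θ ⟨l, h⟩).2
    · have e : hat θ l = 0 := dif_neg h
      rw [e]
      omega
  have hhatv : ∀ θ (l : Fin m), hat θ l = (θ l : ℕ) := fun θ l => dif_pos l.2
  have hhati : Function.Injective hat := by
    intro θ θ' h
    funext l
    apply Fin.ext
    rw [← hhatv, ← hhatv, h]
  have hsep : ∀ θ : Fin m → Fin B, ∃ Z : Finset ℕ, Z ⊆ Finset.range m ∧ Z.card < r ∧
      SepP m r f (hat θ) Z := fun θ => sep (tr hvars h0 (hcon (hat θ) (hhatB θ)))
  choose Z hZs hZc hZP using hsep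
  have hZ' : ∀ θ, (Finset.univ.filter fun l : Fin m => (l : ℕ) ∈ Z θ).card < r := by
    intro θ
    refine lt_of_le_of_lt ?_ (hZc θ)
    refine Finset.card_le_card_of_injOn (fun l : Fin m => (l : ℕ)) ?_ ?_
    · intro l hl
      exact (Finset.mem_filter.1 (Finset.mem_coe.1 hl)).2
    · intro l _ l' _ h
      exact Fin.ext h
  -- the dimension of `W ^ (3 * m * B)`
  have hfin : FiniteDimensional ℚ ↥(W ^ (3 * m * B)) := hil_fd hW _
  have hF : Module.finrank ℚ ↥(W ^ (3 * m * B)) ≤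
      2 ^ (3 * k) * (D * (3 * m * B) + (m + r)).choose (m + r) := by
    refine (hil hW (one_mem_Vd _ _) (3 * m * B)).trans (Nat.mul_le_mul_left _ ?_)
    exact (Submodule.finrank_mono (Vd_pow_le (m + r) D (3 * m * B))).trans (finrank_Vd _ _)
  have hpig := pig (m := m) (r := r) (B := B) (M := (D * B) ^ m)
    (F := 2 ^ (3 * k) * (D * (3 * m * B) + (m + r)).choose (m + r)) hr hB
    (fun θ => Finset.univ.filter fun l : Fin m => (l : ℕ) ∈ Z θ) hZ' (by
      intro Z₀ Θ₀ h1 h2
      rcases Θ₀.eq_empty_or_nonempty with rfl | ⟨θ₀, hθ₀⟩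
      · rw [Finset.card_empty, zero_mul]
        exact Nat.zero_le _
      · have hmemZ : ∀ θ ∈ Θ₀, ∀ l : Fin m, (l : ℕ) ∈ Z θ ↔ l ∈ Z₀ := by
          intro θ hθ l
          rw [← h1 θ hθ, Finset.mem_filter]
          simp
        have hZeq : ∀ θ ∈ Θ₀, Z θ = Z θ₀ := by
          intro θ hθ
          ext l
          constructor
          · intro hl
            have hlm := Finset.mem_range.1 (hZs θ hl)
            exact (hmemZ θ₀ hθ₀ ⟨l, hlm⟩).2 ((hmemZ θ hθ ⟨l, hlm⟩).1 hl)
          · intro hl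
            have hlm := Finset.mem_range.1 (hZs θ₀ hl)
            exact (hmemZ θ hθ ⟨l, hlm⟩).2 ((hmemZ θ₀ hθ₀ ⟨l, hlm⟩).1 hl)
        have hcnt := cnt (m := m) (r := r) (B := B) (N := D * B) (Z := Z θ₀) (f := f)
          (Θ₀.image hat) (by
            intro θ hθ
            obtain ⟨t, ht, rfl⟩ := Finset.mem_image.1 hθ
            rw [← hZeq t ht]
            exact hZP t) (by
            intro θ hθ l
            obtain ⟨t, ht, rfl⟩ := Finset.mem_image.1 hθ
            exact hhatB t l) (by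
            intro θ hθ θ' hθ' hne
            obtain ⟨t, ht, rfl⟩ := Finset.mem_image.1 hθ
            obtain ⟨t', ht', rfl⟩ := Finset.mem_image.1 hθ'
            have hne2 : t ≠ t' := fun h => hne (by rw [h])
            obtain ⟨l, hl⟩ := Function.ne_iff.1 hne2
            refine ⟨l, Finset.mem_sdiff.2 ⟨Finset.mem_range.2 l.2, fun hlZ => ?_⟩, ?_⟩
            · exact hl (h2 t ht t' ht' l ((hmemZ θ₀ hθ₀ l).1 hlZ))
            · rw [hhatv, hhatv]
              exact fun h => hl (Fin.ext h)) (Nat.mul_pos hD hB) (W ^ (3 * m * B)) (by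
            intro θ _ a ha haB
            exact el_qq h1W hVdW hpd _ θ a ha haB)
        rw [Finset.card_image_of_injective _ hhati] at hcnt
        exact hcnt.trans hF)
  exact absurd hnum (not_lt.2 hpig)

end Pool.Agent.CK
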