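import Pool.Agent.QH.FpB
import Pool.Agent.QH.Spec

set_option autoImplicit false

/-!
Polynomial time: sums, products and powers over ranges bounded by a unary list, digits, hash
values. (Public versions of private lemmas of `Pool/Agent/QH/FpPt.lean`.)
-/

namespace Pool.Agent.CK

open N487b59b3 N68a2faeb Pool.Agent.Helper22 Pool.Agent.Helper6.WB Pool.Agent.Helper47.TR
  Pool.Agent.QH

section

variable {α : Type} [N487b59b3 α]

theorem sum_range_eq (N : ℕ) (f : ℕ → ℕ) :
    ((List.range N).map f).sum = ∑ i ∈ Finset.range N, f i := by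
  induction N with
  | zero => simp
  | succ N ih =>
    rw [List.range_succ, List.map_append, List.sum_append, ih, Finset.sum_range_succ]
    simp

theorem prod_range_eq (N : ℕ) (f : ℕ → ℕ) :
    ((List.range N).map f).prod = ∏ i ∈ Finset.range N, f i := by
  induction N with
  | zero => simp
  | succ N ih =>
    rw [List.range_succ, List.map_append, List.prod_append, ih, Finset.prod_range_succ]
    simp

theorem fp_min {f g : α → ℕ} (hf : FP f) (hg : FP g) : FP fun a => min (f a) (g a) := by
  refine (congrArg FP (funext fun a => ?_)).mp (FP.ite (FP.natLe hf hg) hf hg)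
  by_cases h : f a ≤ g a
  · simp [h]
  · rw [min_eq_right (by omega)]
    simp [h]

/-- sums over a range with a unary bound -/
theorem fp_sumR {N : α → ℕ} {U : α → List Bool} {h : α × ℕ → ℕ} (hN : FP N) (hU : FP U)
    (hh : FP h) : FP fun a => ∑ x ∈ Finset.range (min (N a) (U a).length), h (a, x) := by
  have h1 : FP fun q : α × ℕ => if decide (N q.1 ≤ q.2) then 0 else h q :=
    FP.ite (FP.natLe (hN.comp FP.fst) FP.snd) (FP.const 0) hh
  have h2 := fp_natSum (Pool.Agent.Helper6.SP.fp_map (FP.range hU) h1)
  refine (congrArg FP (funext fun a => ?_)).mp h2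
  simp only
  rw [sum_range_eq]
  symm
  calc ∑ x ∈ Finset.range (min (N a) (U a).length), h (a, x)
      = ∑ x ∈ Finset.range (min (N a) (U a).length),
          (if decide (N a ≤ x) = true then 0 else h (a, x)) := by
        refine Finset.sum_congr rfl fun x hx => ?_
        have h3 := Finset.mem_range.1 hx
        rw [if_neg]
        rw [decide_eq_true_iff]
        omega
    _ = _ := by
        refine Finset.sum_subset ?_ fun x hx hx' => ?_
        · intro x hx
          have h3 := Finset.mem_range.1 hx
          exact Finset.mem_range.2 (by omega)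
        · rw [Finset.mem_range] at hx hx'
          rw [if_pos]
          rw [decide_eq_true_iff]
          omega

/-- products over a range with a unary bound -/
theorem fp_prodR {N : α → ℕ} {U : α → List Bool} {h : α × ℕ → ℕ} (hN : FP N) (hU : FP U)
    (hh : FP h) : FP fun a => ∏ x ∈ Finset.range (min (N a) (U a).length), h (a, x) := by
  have h1 : FP fun q : α × ℕ => if decide (N q.1 ≤ q.2) then 1 else h q :=
    FP.ite (FP.natLe (hN.comp FP.fst) FP.snd) (FP.const 1) hh
  have h2 := Pool.Agent.PQ.fp_natProd (Pool.Agent.Helper6.SP.fp_map (FP.range hU) h1)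
  refine (congrArg FP (funext fun a => ?_)).mp h2
  simp only
  rw [prod_range_eq]
  symm
  calc ∏ x ∈ Finset.range (min (N a) (U a).length), h (a, x)
      = ∏ x ∈ Finset.range (min (N a) (U a).length),
          (if decide (N a ≤ x) = true then 1 else h (a, x)) := by
        refine Finset.prod_congr rfl fun x hx => ?_
        have h3 := Finset.mem_range.1 hx
        rw [if_neg]
        rw [decide_eq_true_iff]
        omega
    _ = _ := by
        refine Finset.prod_subset ?_ fun x hx hx' => ?_
        · intro x hx
          have h3 := Finset.mem_range.1 hx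
          exact Finset.mem_range.2 (by omega)
        · rw [Finset.mem_range] at hx hx'
          rw [if_pos]
          rw [decide_eq_true_iff]
          omega

theorem fp_powR {f g : α → ℕ} {U : α → List Bool} (hf : FP f) (hg : FP g) (hU : FP U) :
    FP fun a => f a ^ min (g a) (U a).length := by
  have h1 := fp_prodR hg hU (hf.comp (FP.fst (α := α) (β := ℕ)))
  refine (congrArg FP (funext fun a => ?_)).mp h1
  simp only
  rw [Finset.prod_const, Finset.card_range]

theorem fp_powC {f : α → ℕ} (hf : FP f) (k : ℕ) : FP fun a => f a ^ k := by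
  have h1 := fp_powR hf (FP.const k) (FP.const (List.replicate k true))
  refine (congrArg FP (funext fun a => ?_)).mp h1
  simp only [List.length_replicate, min_self]

theorem digR_eq {i w : ℕ} (s j : ℕ) (h : i ≤ w) :
    i / (s + 1) ^ min j w % (s + 1) = i / (s + 1) ^ j % (s + 1) := by
  rcases Nat.eq_zero_or_pos s with rfl | hs
  · rw [zero_add, Nat.mod_one, Nat.mod_one]
  · by_cases hj : j ≤ w
    · rw [min_eq_left hj]
    · rw [min_eq_right (by omega)]
      have h1 : w < 2 ^ w := Nat.lt_two_pow_self
      have h2 : 2 ^ w ≤ (s + 1) ^ w := Nat.pow_le_pow_left (by omega) w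
      have h3 : (s + 1) ^ w ≤ (s + 1) ^ j := Nat.pow_le_pow_right (by omega) (by omega)
      rw [Nat.div_eq_of_lt (by omega), Nat.div_eq_of_lt (by omega)]

/-- the digits -/
theorem fp_digR {u W : α → List Bool} {i j : α → ℕ} (hu : FP u) (hW : FP W) (hi : FP i)
    (hj : FP j) : FP fun a =>
      min (i a) (W a).length / ((u a).length + 1) ^ j a % ((u a).length + 1) := by
  have hs : FP fun a => (u a).length + 1 := FP.natAdd (FP.length hu) (FP.const 1)
  have h1 := fp_powR hs hj hW
  have h2 := fp_div hi h1 hW
  have h3 := fp_mod h2 hs hW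
  refine (congrArg FP (funext fun a => ?_)).mp h3
  have h4 : min (i a) (W a).length / ((u a).length + 1) ^ min (j a) (W a).length ≤
      (W a).length := (Nat.div_le_self _ _).trans (min_le_right _ _)
  rw [min_eq_left h4, digR_eq _ _ (min_le_right _ _)]

theorem fp_hshR {b v x : α → ℕ} {V : α → List Bool} (d : ℕ) (hb : FP b) (hv : FP v)
    (hV : FP V) (hx : FP x) : FP fun a => hsh (b a) d (min (v a) (V a).length) (x a) := by
  have hR : FP fun _ : α × ℕ => List.replicate d true := FP.const _
  have h1 : FP fun q : α × ℕ => b q.1 ^ min q.2 (List.replicate d true).length :=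
    fp_powR (hb.comp FP.fst) FP.snd hR
  have h2 : FP fun q : α × ℕ => x q.1 ^ min q.2 (List.replicate d true).length :=
    fp_powR (hx.comp FP.fst) FP.snd hR
  have h3 := fp_div (hv.comp (FP.fst (α := α) (β := ℕ))) h1 (hV.comp FP.fst)
  have h4 := fp_mod h3 (hb.comp FP.fst) (hV.comp FP.fst)
  have h5 := fp_sumR (FP.const d) (FP.const (List.replicate d true)) (FP.natMul h4 h2)
  refine (congrArg FP (funext fun a => ?_)).mp h5
  simp only [List.length_replicate, min_self, hsh]
  refine Finset.sum_congr rfl fun i hi => ?_
  have h6 := Finset.mem_range.1 hi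
  have h7 : min (v a) (V a).length / b a ^ i ≤ (V a).length :=
    (Nat.div_le_self _ _).trans (min_le_right _ _)
  rw [min_eq_left h6.le, min_eq_left h7]


end

end Pool.Agent.CK
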