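import Pool.Agent.QH.FpA
import Pool.Agent.Helper6.SP.Main

set_option autoImplicit false

/-!
CK-TA. Polynomial time: tools (codes of values, parity, halves, signs and inverses of natural numbers, filters, entries of
lists, powers with bounded exponents).
-/

namespace Pool.Agent.CK

open N487b59b3 N68a2faeb Pool.Agent.Helper22 Pool.Agent.Helper6.WB Pool.Agent.Helper47.TR
  Pool.Agent.QH

variable {α β : Type} [N487b59b3 α] [N487b59b3 β]

theorem fp_raw {f : α → β} (hf : FP f) : FP fun a => (bitEncode (f a) : List Bool) := by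
  refine (PT.comp hf PT.quote).mono ?_
  rintro x z ⟨a, rfl, rfl⟩
  exact ⟨bitEncode (f a), ⟨a, rfl, rfl⟩, enc_bits _⟩

private theorem ta_bit (n : ℕ) : (Computability.encodeNat n).headD false = decide (n % 2 = 1) ∧
    (Computability.encodeNat n).tail = Computability.encodeNat (n / 2) := by
  obtain ⟨b, m, rfl⟩ : ∃ b m, n = Nat.bit b m := ⟨n.bodd, n.div2, (Nat.bit_bodd_div2 n).symm⟩
  have h1 : Nat.bit b m % 2 = b.toNat := by
    rw [Nat.bit_val]
    cases b <;> simp
  have h2 : Nat.bit b m / 2 = m := by
    rw [Nat.bit_val]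
    cases b
    · simp
    · simp
      omega
  rw [encodeNat_bit, h1, h2]
  by_cases h : m = 0 ∧ b = false
  · obtain ⟨rfl, rfl⟩ := h
    exact ⟨rfl, rfl⟩
  · rw [if_neg h]
    refine ⟨?_, rfl⟩
    cases b <;> rfl

theorem fp_par {f : α → ℕ} (hf : FP f) : FP fun a => decide (f a % 2 = 1) := by
  refine (congrArg FP (funext fun a => ?_)).mp (FP.headD (FP.bits hf) false)
  exact (ta_bit (f a)).1

theorem fp_half {f : α → ℕ} (hf : FP f) : FP fun a => f a / 2 := by
  apply FP.ofBits
  refine (congrArg FP (funext fun a => ?_)).mp (FP.tail (FP.bits hf))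
  exact (ta_bit (f a)).2

theorem fp_negN {f : α → ℕ} (hf : FP f) : FP fun a => (-(f a : ℚ)) := by
  have h1 : FP fun a => ((0, f a), 1) := FP.pair (FP.pair (FP.const 0) hf) (FP.const 1)
  refine FP.recode h1 fun a => ?_
  have h2 : bitEncode (-(f a : ℚ)) = bitEncode (((-(f a : ℚ)).num.toNat,
    (-(-(f a : ℚ)).num).toNat), (-(f a : ℚ)).den) := rfl
  rw [h2, Rat.num_neg_eq_neg_num, Rat.den_neg_eq_den, Rat.num_natCast, Rat.den_natCast, neg_neg,
    Int.toNat_natCast]
  have h3 : (-(f a : ℤ)).toNat = 0 := by omega
  rw [h3]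

theorem fp_invN {f : α → ℕ} (hf : FP f) : FP fun a => ((f a : ℚ)⁻¹) := by
  have h1 : FP fun a => if decide (f a = 0) then ((0, 0), 1) else ((1, 0), f a) :=
    FP.ite (FP.natEq hf (FP.const 0)) (FP.const ((0, 0), 1)) (FP.pair (FP.const (1, 0)) hf)
  refine FP.recode h1 fun a => ?_
  have h2 : bitEncode ((f a : ℚ)⁻¹) = bitEncode (((f a : ℚ)⁻¹.num.toNat,
    (-(f a : ℚ)⁻¹.num).toNat), (f a : ℚ)⁻¹.den) := rfl
  rw [h2]
  by_cases h : f a = 0
  · rw [if_pos (decide_eq_true h), h, Nat.cast_zero, inv_zero]
    rfl
  · rw [if_neg (by simpa using h), Rat.inv_natCast_num_of_pos (Nat.pos_of_ne_zero h),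
      Rat.inv_natCast_den_of_pos (Nat.pos_of_ne_zero h)]
    rfl

theorem fp_capN {f : α → ℕ} {W : α → List Bool} (hf : FP f) (hW : FP W) :
    FP fun a => if (f a).size ≤ (W a).length then f a else 0 := by
  refine (congrArg FP (funext fun a => ?_)).mp
    (FP.ite (FP.natLe (fp_size hf) (FP.length hW)) hf (FP.const 0))
  by_cases h : (f a).size ≤ (W a).length
  · rw [if_pos h, if_pos (decide_eq_true h)]
  · rw [if_neg h, if_neg (by simpa using h)]

theorem fp_filt [Inhabited β] {f : α → List β} {c : α × β → Bool} (hf : FP f) (hc : FP c) :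
    FP fun a => (f a).filter fun b => c (a, b) := by
  have h1 : FP fun q : α × β => if c q then [q.2] else [] :=
    FP.ite hc (FP.cons FP.snd (FP.const [])) (FP.const [])
  refine (congrArg FP (funext fun a => ?_)).mp (Pool.Agent.Helper6.SP.fp_flatMap (f := f)
    (h := fun q : α × β => if c q then [q.2] else []) hf h1)
  generalize f a = l
  induction l with
  | nil => rfl
  | cons b l ih =>
    rw [List.flatMap_cons, ih, List.filter_cons]
    split_ifs <;> simp

private theorem ta_count (n k : ℕ) :
    ((List.range n).filter fun x => decide (x < k)).length = min k n := by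
  induction n with
  | zero => simp
  | succ n ih =>
    rw [List.range_succ, List.filter_append, List.length_append, ih]
    by_cases h : n < k
    · simp [h]; omega
    · simp [h]; omega

private theorem ta_lt {f g : α → ℕ} (hf : FP f) (hg : FP g) :
    FP fun a => decide (f a < g a) := FP.natLe (FP.natAdd hf (FP.const 1)) hg

private theorem ta_list [Inhabited β] {f : α → ℕ} {W : α → List β} (hf : FP f) (hW : FP W) :
    FP fun a => (List.range (W a).length).filter fun x => decide (x < f a) :=
  fp_filt (c := fun q : α × ℕ => decide (q.2 < f q.1)) (FP.range hW)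
    (ta_lt FP.snd (hf.comp FP.fst))

theorem fp_unMin {f : α → ℕ} {W : α → List Bool} (hf : FP f) (hW : FP W) :
    FP fun a => un (min (f a) (W a).length) := by
  refine (congrArg FP (funext fun a => ?_)).mp (FP.un_length (ta_list hf hW))
  rw [ta_count]

theorem fp_getN [Inhabited β] {f : α → List β} {i : α → ℕ} (hf : FP f) (hi : FP i) (d : β) :
    FP fun a => (f a).getD (i a) d := by
  refine (congrArg FP (funext fun a => ?_)).mp (FP.headD (FP.drop hf (ta_list hi hf)) d)
  rw [ta_count, List.headD_eq_head?_getD, List.head?_drop, List.getD_eq_getElem?_getD]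
  by_cases h : i a < (f a).length
  · rw [min_eq_left h.le]
  · rw [min_eq_right (by omega), List.getElem?_eq_none (by omega),
      List.getElem?_eq_none (by omega)]

private theorem ta_prod (b k n : ℕ) :
    ((List.range n).map fun x => if decide (k ≤ x) then 1 else b).prod = b ^ min k n := by
  induction n with
  | zero => simp
  | succ n ih =>
    rw [List.range_succ, List.map_append, List.prod_append, ih]
    by_cases h : k ≤ n
    · simp [h, min_eq_left (Nat.le_succ_of_le h)]
    · have h1 : min k n = n := by omega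
      have h2 : min k (n + 1) = n + 1 := by omega
      simp [h, h1, h2, pow_succ]

theorem fp_pow2 {f g : α → ℕ} {U : α → List Bool} (hf : FP f) (hg : FP g) (hU : FP U) :
    FP fun a => f a ^ min (g a) (U a).length := by
  have h1 : FP fun q : α × ℕ => if decide (g q.1 ≤ q.2) then 1 else f q.1 :=
    FP.ite (FP.natLe (hg.comp FP.fst) FP.snd) (FP.const 1) (hf.comp FP.fst)
  refine (congrArg FP (funext fun a => ?_)).mp
    (Pool.Agent.PQ.fp_natProd (Pool.Agent.Helper6.SP.fp_map (FP.range hU) h1))
  exact ta_prod (f a) (g a) (U a).length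

end Pool.Agent.CK
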