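import Pool.Agent.CK.Defs2
import Pool.Agent.CK.FpT
import Pool.Agent.CK.TA

set_option autoImplicit false

/-!
CK-FpUnf. Polynomial time: unfolding. (`fp_half` is in `Pool/Agent/CK/TA.lean`.)
-/

namespace Pool.Agent.CK


open N487b59b3 N68a2faeb Pool.Agent.Helper22 Pool.Agent.Helper6.WB Pool.Agent.Helper47.TR
  Pool.Agent.QH

theorem fp_odd {α : Type} [N487b59b3 α] {f : α → ℕ} (hf : FP f) :
    FP fun a => decide (f a % 2 = 1) := fp_par hf

private theorem fp_tku : FP fun p : List (List (ℕ × ℚ)) × (ℕ × ℚ) => tku p.1 p.2 := by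
  have hn : FP fun p : List (List (ℕ × ℚ)) × (ℕ × ℚ) => p.2.1 := FP.fst.comp FP.snd
  have h1 : FP fun p : List (List (ℕ × ℚ)) × (ℕ × ℚ) => decide (p.2.1 ≤ 2) :=
    FP.natLe hn (FP.const 2)
  have h2 : FP fun p : List (List (ℕ × ℚ)) × (ℕ × ℚ) => [p.2] :=
    FP.cons FP.snd (FP.const [])
  have h3 : FP fun p : List (List (ℕ × ℚ)) × (ℕ × ℚ) => decide (p.2.1 % 2 = 1) := fp_par hn
  have h4 : FP fun p : List (List (ℕ × ℚ)) × (ℕ × ℚ) =>
      [(((p.2.1 - 3) / 2 + 3, 0) : ℕ × ℚ)] :=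
    FP.cons (FP.pair (FP.natAdd (fp_half (Pool.Agent.PQ.fp_natSub hn (FP.const 3))) (FP.const 3))
      (FP.const 0)) (FP.const [])
  have h5 : FP fun p : List (List (ℕ × ℚ)) × (ℕ × ℚ) =>
      p.1.getD ((p.2.1 - 4) / 2) [((0, 0) : ℕ × ℚ)] :=
    fp_getN FP.fst (fp_half (Pool.Agent.PQ.fp_natSub hn (FP.const 4))) _
  refine (congrArg FP (funext fun p => ?_)).mp (FP.ite h1 h2 (FP.ite h3 h4 h5))
  simp only [decide_eq_true_eq]
  rfl

private theorem fp_cdu : FP fun p : List (List (ℕ × ℚ)) × List (ℕ × ℚ) => cdu p.1 p.2 :=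
  fp_flatMap_ctx (h := fun q : List (List (ℕ × ℚ)) × (ℕ × ℚ) => tku q.1 q.2) fp_tku

/-- one step of the fold -/
private def stp (s : List Bool × List (List (ℕ × ℚ))) (l : List (ℕ × ℚ)) :
    List Bool × List (List (ℕ × ℚ)) :=
  (s.1, s.2 ++ [(cdu s.2 l).take s.1.length])

private theorem fp_stp : FP fun p : (List Bool × List (List (ℕ × ℚ))) × List (ℕ × ℚ) =>
    stp p.1 p.2 := by
  have h1 : FP fun p : (List Bool × List (List (ℕ × ℚ))) × List (ℕ × ℚ) => p.1.1 :=
    FP.fst.comp FP.fst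
  have h2 : FP fun p : (List Bool × List (List (ℕ × ℚ))) × List (ℕ × ℚ) => p.1.2 :=
    FP.snd.comp FP.fst
  have h3 : FP fun p : (List Bool × List (List (ℕ × ℚ))) × List (ℕ × ℚ) => cdu p.1.2 p.2 :=
    fp_cdu.comp (h2.pair FP.snd)
  exact h1.pair (h2.append ((FP.take h3 h1).cons (FP.const [])))

private theorem stp_foldl (l : List (List (ℕ × ℚ))) (u : List Bool)
    (ys : List (List (ℕ × ℚ))) : l.foldl stp (u, ys) =
      (u, l.foldl (fun ys l => ys ++ [(cdu ys l).take u.length]) ys) := by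
  induction l generalizing ys with
  | nil => rfl
  | cons a l ih => exact ih _

/-- the constant -/
private def kk : ℕ := sz ((0, 0) : ℕ × ℚ) + sz (0 : ℚ)

private theorem tku_sz {ys : List (List (ℕ × ℚ))} {t : ℕ × ℚ} {C : ℕ}
    (hys : ∀ y ∈ ys, ∀ s ∈ y, sz s ≤ C) (ht : sz t + kk ≤ C) : ∀ s ∈ tku ys t, sz s ≤ C := by
  intro s hs
  unfold tku at hs
  split_ifs at hs with h1 h2
  · rw [List.mem_singleton] at hs
    subst hs
    omega
  · rw [List.mem_singleton] at hs
    subst hs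
    refine le_trans ?_ ht
    obtain ⟨n, q⟩ := t
    rw [sz_pair, sz_pair, sz_nat, sz_nat]
    have h3 : Nat.size ((n - 3) / 2 + 3) ≤ Nat.size n := by
      apply Nat.size_le_size
      simp only at h1
      omega
    have h4 : kk = sz ((0, 0) : ℕ × ℚ) + sz (0 : ℚ) := rfl
    simp only
    omega
  · rw [List.getD_eq_getElem?_getD] at hs
    rcases h : ys[(t.1 - 4) / 2]? with _ | y
    · rw [h] at hs
      simp only [Option.getD_none, List.mem_singleton] at hs
      subst hs
      have h4 : kk = sz ((0, 0) : ℕ × ℚ) + sz (0 : ℚ) := rfl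
      omega
    · rw [h] at hs
      exact hys y (List.mem_of_getElem? h) s hs

private theorem sz_le_len (l : List (ℕ × ℚ)) (C : ℕ) (h : ∀ b ∈ l, sz b ≤ C) :
    sz l ≤ l.length * (2 * C + 1) := by
  have := sz_map_le (fun b : ℕ × ℚ => b) l C h
  rwa [List.map_id'] at this

private theorem fold_sz (N C : ℕ) (l : List (List (ℕ × ℚ))) : ∀ ys : List (List (ℕ × ℚ)),
    (∀ y ∈ ys, ∀ s ∈ y, sz s ≤ C) → (∀ y ∈ l, ∀ t ∈ y, sz t + kk ≤ C) →
    sz (l.foldl (fun ys l => ys ++ [(cdu ys l).take N]) ys) ≤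
      sz ys + l.length * (2 * (N * (2 * C + 1)) + 1) := by
  induction l with
  | nil => intro ys _ _; simp
  | cons a l ih =>
    intro ys hys hl
    rw [List.foldl_cons]
    have h0 : ∀ s ∈ (cdu ys a).take N, sz s ≤ C := by
      intro s hs
      have hs' : s ∈ cdu ys a := List.mem_of_mem_take hs
      unfold cdu at hs'
      obtain ⟨t, ht, hs''⟩ := List.mem_flatMap.1 hs'
      exact tku_sz hys (hl a List.mem_cons_self t ht) s hs''
    have h1 := ih (ys ++ [(cdu ys a).take N]) (by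
      intro y hy
      rcases List.mem_append.1 hy with hy | hy
      · exact hys y hy
      · rw [List.mem_singleton] at hy
        subst hy
        exact h0) fun y hy => hl y (List.mem_cons_of_mem _ hy)
    have h2 := sz_le_len _ C h0
    have h3 : ((cdu ys a).take N).length * (2 * C + 1) ≤ N * (2 * C + 1) :=
      Nat.mul_le_mul_right _ (List.length_take_le _ _)
    rw [sz_append, sz_cons, sz_nil] at h1
    rw [List.length_cons]
    have h4 : (l.length + 1) * (2 * (N * (2 * C + 1)) + 1) =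
        l.length * (2 * (N * (2 * C + 1)) + 1) + (2 * (N * (2 * C + 1)) + 1) := by ring
    omega

private theorem mem_sz {l : List (List (ℕ × ℚ))} {y : List (ℕ × ℚ)} {t : ℕ × ℚ} (hy : y ∈ l)
    (ht : t ∈ y) : sz t ≤ sz l := (sz_mem_le ht).trans (sz_mem_le hy)

private theorem fp_fold : FP fun p : List (List (ℕ × ℚ)) × (List Bool × List (List (ℕ × ℚ))) =>
    p.1.foldl stp p.2 := by
  refine FP.foldl (g := stp) fp_stp
    (B := fun n => 2 * n + 1 + (n + n * (2 * (n * (2 * (n + kk) + 1)) + 1))) (by fun_prop) ?_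
  rintro l ⟨u, ys⟩
  rw [stp_foldl, sz_pair]
  generalize hn : sz l + sz (u, ys) = n
  have h1 : 2 * sz u + 1 + sz ys ≤ n := by
    rw [sz_pair] at hn
    omega
  have h2 := fold_sz u.length (n + kk) l ys (by
    intro y hy s hs
    have := mem_sz hy hs
    omega) (by
    intro y hy s hs
    have := mem_sz hy hs
    omega)
  have h3 : u.length ≤ n := by
    have := length_le_sz u
    omega
  have h4 : l.length ≤ n := by
    have := length_le_sz l
    omega
  have h5 : l.length * (2 * (u.length * (2 * (n + kk) + 1)) + 1) ≤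
      n * (2 * (n * (2 * (n + kk) + 1)) + 1) := by
    refine Nat.mul_le_mul h4 ?_
    have := Nat.mul_le_mul_right (2 * (n + kk) + 1) h3
    omega
  omega

theorem fp_cduC : FP fun p : List Bool × (List (List (ℕ × ℚ)) × List (ℕ × ℚ)) =>
    cduC p.1.length p.2 := by
  have hg : FP fun p : List Bool × (List (List (ℕ × ℚ)) × List (ℕ × ℚ)) => p.2.1 :=
    FP.fst.comp FP.snd
  have hl : FP fun p : List Bool × (List (List (ℕ × ℚ)) × List (ℕ × ℚ)) => p.2.2 :=
    FP.snd.comp FP.snd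
  have h1 : FP fun p : List Bool × (List (List (ℕ × ℚ)) × List (ℕ × ℚ)) =>
      p.2.1.foldl stp (p.1, []) :=
    fp_fold.comp (hg.pair (FP.fst.pair (FP.const [])))
  have h2 : FP fun p : List Bool × (List (List (ℕ × ℚ)) × List (ℕ × ℚ)) =>
      cdus p.1.length p.2.1 := by
    refine (congrArg FP (funext fun p => ?_)).mp (FP.snd.comp h1)
    rw [stp_foldl]
    rfl
  exact FP.take (fp_cdu.comp (h2.pair hl)) FP.fst

end Pool.Agent.CK
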