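import Pool.Agent.CK.Defs2
import Pool.Agent.CK.FpT
import Pool.Agent.CK.FpUnf
import Pool.Agent.Helper22.SparseTools

set_option autoImplicit false

/-!
CK-FpHv. Polynomial time: the heavy variables and the substitution for them in the codes.
-/

namespace Pool.Agent.CK


open N487b59b3 N68a2faeb Pool.Agent.Helper22 Pool.Agent.Helper6.WB Pool.Agent.Helper6.SP
  Pool.Agent.Helper47.TR Pool.Agent.QH

private theorem fp_filtC {α β : Type} [N487b59b3 α] [N487b59b3 β] [Inhabited β] {f : α → List β}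
    {c : α × β → Bool} (hf : FP f) (hc : FP c) : FP fun a => (f a).filter fun b => c (a, b) := by
  have h1 : FP fun q : α × β => if c q then [q.2] else [] :=
    FP.ite hc (FP.cons FP.snd (FP.const [])) (FP.const [])
  have h2 := fp_flatMap hf h1
  refine (congrArg FP (funext fun a => ?_)).mp h2
  simp only
  induction (f a) with
  | nil => rfl
  | cons b l ih =>
    rw [List.flatMap_cons, ih, List.filter_cons]
    split_ifs <;> simp

private theorem fp_ctk {α : Type} [N487b59b3 α] {f : α → List (ℕ × ℚ)} {g : α → ℕ} (hf : FP f)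
    (hg : FP g) : FP fun a => ctk (g a) (f a) := by
  have h1 : FP fun q : α × (ℕ × ℚ) => decide (q.2.1 = g q.1) :=
    FP.natEq FP.snd.fst' (hg.comp FP.fst)
  have h2 := FP.length (fp_filtC hf h1)
  refine (congrArg FP (funext fun a => ?_)).mp h2
  unfold ctk
  congr 2

private theorem fp_flat {α : Type} [N487b59b3 α] {f : α → List (List (ℕ × ℚ))} (hf : FP f) :
    FP fun a => (f a).flatten := by
  have h := fp_flatMap (h := fun q : α × List (ℕ × ℚ) => q.2) hf FP.snd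
  refine (congrArg FP (funext fun a => ?_)).mp h
  simp only
  rw [← List.flatMap_id]
  rfl

private theorem fp_isHC {α : Type} [N487b59b3 α] (r : ℕ)
    {f : α → List (List (ℕ × ℚ)) × List (ℕ × ℚ)} {g : α → ℕ} (hf : FP f) (hg : FP g) :
    FP fun a => isHC r (f a) (g a) := by
  have h0 : FP fun a => 2 * g a + 3 := FP.natAdd (FP.natMul (FP.const 2) hg) (FP.const 3)
  have h1 : FP fun a => decide (1 ≤ ctk (2 * g a + 3) (f a).1.flatten) :=
    FP.natLe (FP.const 1) (fp_ctk (fp_flat hf.fst') h0)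
  have h2 : FP fun a => decide (r + 1 ≤ ctk (2 * g a + 3) (f a).2) :=
    FP.natLe (FP.const (r + 1)) (fp_ctk hf.snd' h0)
  exact FP.or h1 h2

theorem fp_tks : FP tks :=
  FP.append (fp_flat FP.fst) FP.snd

private theorem fp_half3 {α : Type} [N487b59b3 α] {g : α → ℕ} (hg : FP g) :
    FP fun a => (g a - 3) / 2 :=
  fp_half (Pool.Agent.PQ.fp_natSub hg (FP.const 3))

theorem fp_hlC (r : ℕ) : FP (hlC r) := by
  have h1 : FP fun q : (List (List (ℕ × ℚ)) × List (ℕ × ℚ)) × (ℕ × ℚ) =>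
      (decide (3 ≤ q.2.1) && decide (q.2.1 % 2 = 1)) && isHC r q.1 ((q.2.1 - 3) / 2) :=
    FP.and (FP.and (FP.natLe (FP.const 3) FP.snd.fst') (fp_odd FP.snd.fst'))
      (fp_isHC r FP.fst (fp_half3 FP.snd.fst'))
  have h2 := fp_filtC fp_tks h1
  exact fp_map h2 (fp_half3 (FP.snd (α := List (List (ℕ × ℚ)) × List (ℕ × ℚ))
    (β := ℕ × ℚ)).fst')

theorem fp_rlC : FP rlC := by
  have h0 : FP fun q : (List (List (ℕ × ℚ)) × List (ℕ × ℚ)) × (ℕ × ℚ) =>
      decide (q.2.1 % 2 = 0) := by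
    refine (congrArg FP (funext fun q => ?_)).mp (FP.not (fp_odd
      (FP.snd (α := List (List (ℕ × ℚ)) × List (ℕ × ℚ)) (β := ℕ × ℚ)).fst'))
    rcases Nat.mod_two_eq_zero_or_one q.2.1 with h | h <;> simp [h]
  have h1 : FP fun q : (List (List (ℕ × ℚ)) × List (ℕ × ℚ)) × (ℕ × ℚ) =>
      decide (4 ≤ q.2.1) && decide (q.2.1 % 2 = 0) :=
    FP.and (FP.natLe (FP.const 4) FP.snd.fst') h0
  have h2 := fp_filtC fp_tks h1
  exact fp_map h2 (FP.const true)

private theorem idxOf_tw (i : ℕ) (L : List ℕ) :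
    L.idxOf i = (L.takeWhile fun b => !(decide (b = i))).length := by
  induction L with
  | nil => rfl
  | cons b L ih =>
    by_cases h : b = i
    · subst h
      simp
    · rw [List.idxOf_cons_ne L h, List.takeWhile_cons, ih]
      simp [h]

theorem fp_subC (r : ℕ) :
    FP fun q : ((List (List (ℕ × ℚ)) × List (ℕ × ℚ)) × List ℕ) × List (ℕ × ℚ) =>
      subC r q.1.1 q.1.2 q.2 := by
  have h3 : FP fun q : (((List (List (ℕ × ℚ)) × List (ℕ × ℚ)) × List ℕ) × List (ℕ × ℚ)) ×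
      (ℕ × ℚ) => q.2.1 - 3 := Pool.Agent.PQ.fp_natSub FP.snd.fst' (FP.const 3)
  have h1 : FP fun q : (((List (List (ℕ × ℚ)) × List (ℕ × ℚ)) × List ℕ) × List (ℕ × ℚ)) ×
      (ℕ × ℚ) => decide (3 ≤ q.2.1) && isHC r q.1.1.1 (q.2.1 - 3) :=
    FP.and (FP.natLe (FP.const 3) FP.snd.fst') (fp_isHC r FP.fst.fst'.fst' h3)
  have h2 : FP fun q : (((List (List (ℕ × ℚ)) × List (ℕ × ℚ)) × List ℕ) × List (ℕ × ℚ)) ×
      (ℕ × ℚ) => hlC r q.1.1.1 := (fp_hlC r).comp FP.fst.fst'.fst'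
  have h4 : FP fun q : ((((List (List (ℕ × ℚ)) × List (ℕ × ℚ)) × List ℕ) × List (ℕ × ℚ)) ×
      (ℕ × ℚ)) × ℕ => !(decide (q.2 = q.1.2.1 - 3)) :=
    FP.not (FP.natEq FP.snd (h3.comp FP.fst))
  have h5 := (FP.takeWhile_ctx h4).comp (FP.id.pair h2)
  have h6 : FP fun q : (((List (List (ℕ × ℚ)) × List (ℕ × ℚ)) × List ℕ) × List (ℕ × ℚ)) ×
      (ℕ × ℚ) => q.1.1.2.getD ((hlC r q.1.1.1).idxOf (q.2.1 - 3)) 0 := by
    have h7 := FP.headD (FP.drop (f := fun q : (((List (List (ℕ × ℚ)) × List (ℕ × ℚ)) ×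
      List ℕ) × List (ℕ × ℚ)) × (ℕ × ℚ) => q.1.1.2) FP.fst.fst'.snd' h5) 0
    refine (congrArg FP (funext fun q => ?_)).mp h7
    have h9 := idxOf_tw (q.2.1 - 3) (hlC r q.1.1.1)
    show (q.1.1.2.drop ((hlC r q.1.1.1).takeWhile fun b =>
      !(decide (b = q.2.1 - 3))).length).headD 0 = _
    rw [← h9, List.getD_eq_getElem?_getD, List.headD_eq_head?_getD, List.head?_drop]
  have h8 : FP fun q : (((List (List (ℕ × ℚ)) × List (ℕ × ℚ)) × List ℕ) × List (ℕ × ℚ)) ×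
      (ℕ × ℚ) => if decide (3 ≤ q.2.1) && isHC r q.1.1.1 (q.2.1 - 3) then
      (0, ((q.1.1.2.getD ((hlC r q.1.1.1).idxOf (q.2.1 - 3)) 0 : ℕ) : ℚ)) else q.2 :=
    FP.ite h1 (FP.pair (FP.const 0) (fp_natQ h6)) FP.snd
  exact fp_map (f := fun q : ((List (List (ℕ × ℚ)) × List (ℕ × ℚ)) × List ℕ) ×
    List (ℕ × ℚ) => q.2) FP.snd h8

end Pool.Agent.CK
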