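import Pool.Agent.CK.LevL
import Pool.Agent.CK.FpT

set_option autoImplicit false

/-!
Polynomial time: the points with `J` levels are computed by a fold over the levels, with numbers
of bounded size.
-/

namespace Pool.Agent.CK


open N487b59b3 N68a2faeb Pool.Agent.Helper22 Pool.Agent.Helper6.WB Pool.Agent.Helper47.TR
  Pool.Agent.QH

section

variable {α : Type} [N487b59b3 α]

private theorem fpl_rng_eq (N L : ℕ) :
    ((List.range L).flatMap fun b => if decide (N ≤ b) = true then ([] : List ℕ) else [b]) =
      List.range (min N L) := by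
  induction L with
  | zero => simp
  | succ L ih =>
    rw [List.range_succ, List.flatMap_append, ih]
    by_cases h : N ≤ L
    · rw [min_eq_left h, min_eq_left (by omega)]
      simp [h]
    · rw [min_eq_right (by omega), min_eq_right (by omega), List.range_succ]
      simp [h]

private theorem fpl_range {N : α → ℕ} {U : α → List Bool} (hN : FP N) (hU : FP U) :
    FP fun a => List.range (min (N a) (U a).length) := by
  have h1 : FP fun q : α × ℕ => if decide (N q.1 ≤ q.2) then ([] : List ℕ) else [q.2] :=
    FP.ite (FP.natLe (hN.comp FP.fst) FP.snd) (FP.const []) (FP.cons FP.snd (FP.const []))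
  have h2 := Pool.Agent.Helper6.SP.fp_flatMap (FP.range hU) h1
  refine (congrArg FP (funext fun a => ?_)).mp h2
  exact fpl_rng_eq (N a) (U a).length

private theorem fpl_map {N : α → ℕ} {U : α → List Bool} {h : α × ℕ → ℕ} (hN : FP N)
    (hU : FP U) (hh : FP h) :
    FP fun a => (List.range (min (N a) (U a).length)).map fun x => h (a, x) :=
  Pool.Agent.Helper6.SP.fp_map (fpl_range hN hU) hh

private theorem fpl_getD {f : α → List ℕ} {k : α → ℕ} {U : α → List Bool} (hf : FP f)
    (hk : FP k) (hU : FP U) : FP fun a => (f a).getD (min (k a) (U a).length) 0 := by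
  have h1 : FP fun a => ((f a).drop (List.range (min (k a) (U a).length)).length).headD 0 :=
    FP.headD (FP.drop hf (fpl_range hk hU)) 0
  refine (congrArg FP (funext fun a => ?_)).mp h1
  rw [List.length_range, List.getD_eq_getElem?_getD, List.headD_eq_head?_getD,
    List.head?_drop]

private def nst (s : List Bool × ℕ) : List Bool × ℕ :=
  (s.1, min s.2 s.1.length - min s.2 s.1.length / 4)

private theorem fp_nst : FP nst :=
  FP.pair FP.fst (Pool.Agent.PQ.fp_natSub (fp_min FP.snd (FP.length FP.fst))
    (fp_div FP.snd (FP.const 4) FP.fst))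

private theorem nst_le (i : ℕ) (s : List Bool × ℕ) :
    (nst^[i] s).1 = s.1 ∧ (nst^[i] s).2 ≤ s.2 := by
  induction i with
  | zero => exact ⟨rfl, le_rfl⟩
  | succ i ih =>
    rw [Function.iterate_succ_apply']
    refine ⟨ih.1, ?_⟩
    have h1 : (nst (nst^[i] s)).2 ≤ min (nst^[i] s).2 (nst^[i] s).1.length := Nat.sub_le _ _
    exact h1.trans ((min_le_left _ _).trans ih.2)

private theorem nst_eq (U : List Bool) (n : ℕ) (hn : n ≤ U.length) (k : ℕ) :
    nst^[k] (U, n) = (U, nj n k) := by
  induction k with
  | zero => rfl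
  | succ k ih =>
    rw [Function.iterate_succ_apply', ih]
    have h1 : nj n k ≤ U.length := (nj_le n k).trans hn
    have h2 : nj n (k + 1) = nj n k - nj n k / 4 := by
      unfold nj
      rw [Function.iterate_succ_apply']
    rw [h2]
    change (U, min (nj n k) U.length - min (nj n k) U.length / 4) = _
    rw [min_eq_left h1]

private theorem fpl_nj {U : α → List Bool} {n j : α → ℕ} (hU : FP U) (hn : FP n) (hj : FP j) :
    FP fun a => nj (min (n a) (U a).length) (min (j a) (U a).length) := by
  have h1 : FP fun p : List ℕ × (List Bool × ℕ) => nst^[p.1.length] p.2 := by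
    refine FP.iterate fp_nst (B := fun n => n) (by fun_prop) ?_
    intro l a i _
    obtain ⟨h1, h2⟩ := nst_le i a
    have h3 : sz (nst^[i] a) ≤ sz a := by
      obtain ⟨a1, a2⟩ := a
      have h4 : nst^[i] (a1, a2) = ((nst^[i] (a1, a2)).1, (nst^[i] (a1, a2)).2) := rfl
      rw [h4, sz_pair, sz_pair, h1, sz_nat, sz_nat]
      have := Nat.size_le_size h2
      simp only at this ⊢
      omega
    exact h3.trans (Nat.le_add_left _ _)
  have h2 := (h1.comp ((fpl_range hj hU).pair (hU.pair (fp_min hn (FP.length hU))))).snd'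
  refine (congrArg FP (funext fun a => ?_)).mp h2
  simp only
  rw [List.length_range, nst_eq _ _ (min_le_right _ _)]

private theorem fpl_cnt (w b : ℕ) :
    (∑ x ∈ Finset.range w, if x < b then 1 else 0) = min b w := by
  induction w with
  | zero => simp
  | succ w ih =>
    rw [Finset.sum_range_succ, ih]
    split_ifs with h
    · omega
    · omega

private theorem fpl_cdiv {T m : α → ℕ} {W : α → List Bool} (hT : FP T) (hm : FP m)
    (hW : FP W) : FP fun a => min (T a / m a) (W a).length := by
  have hc : FP fun q : α × ℕ => if (decide ((q.2 + 1) * m q.1 ≤ T q.1) &&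
      decide (1 ≤ m q.1)) then 1 else 0 :=
    FP.ite (FP.and (FP.natLe (FP.natMul (FP.natAdd FP.snd (FP.const 1)) (hm.comp FP.fst))
      (hT.comp FP.fst)) (FP.natLe (FP.const 1) (hm.comp FP.fst))) (FP.const 1) (FP.const 0)
  have h1 := fp_sumR (FP.length hW) hW hc
  refine (congrArg FP (funext fun a => ?_)).mp h1
  simp only [min_self]
  rw [← fpl_cnt]
  refine Finset.sum_congr rfl fun x _ => ?_
  rcases Nat.eq_zero_or_pos (m a) with h0 | h0
  · rw [h0]
    simp
  · have h2 : (decide ((x + 1) * m a ≤ T a) && decide (1 ≤ m a)) = decide (x < T a / m a) := by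
      have h3 : decide (1 ≤ m a) = true := decide_eq_true h0
      rw [h3, Bool.and_true]
      apply decide_eq_decide.mpr
      rw [← Nat.le_div_iff_mul_le h0]
      exact Iff.rfl
    rw [h2]
    simp

private theorem fpl_pow_big {i w e : ℕ} (hi : i ≤ w) (he : w ≤ e) : i < 2 ^ e :=
  lt_of_le_of_lt hi (lt_of_lt_of_le Nat.lt_two_pow_self (Nat.pow_le_pow_right (by norm_num) he))

private theorem fpl_div_min {i w : ℕ} (hi : i ≤ w) (e : ℕ) : i / 2 ^ min e w = i / 2 ^ e := by
  rcases le_total e w with h | h
  · rw [min_eq_left h]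
  · rw [min_eq_right h, Nat.div_eq_of_lt (fpl_pow_big hi le_rfl),
      Nat.div_eq_of_lt (fpl_pow_big hi h)]

private theorem fpl_mod_min {i w : ℕ} (hi : i ≤ w) (e : ℕ) : i % 2 ^ min e w = i % 2 ^ e := by
  rcases le_total e w with h | h
  · rw [min_eq_left h]
  · rw [min_eq_right h, Nat.mod_eq_of_lt (fpl_pow_big hi le_rfl),
      Nat.mod_eq_of_lt (fpl_pow_big hi h)]

private theorem fpl_min_mul (b w l : ℕ) : min (min b w * l) w = min (b * l) w := by
  rcases le_total b w with h | h
  · rw [min_eq_left h]
  · rw [min_eq_right h]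
    rcases Nat.eq_zero_or_pos l with rfl | hl
    · simp
    · rw [min_eq_right (Nat.le_mul_of_pos_right w hl),
        min_eq_right (h.trans (Nat.le_mul_of_pos_right b hl))]

private theorem fpl_dg {T m i l : α → ℕ} {W : α → List Bool} (hT : FP T) (hm : FP m)
    (hi : FP i) (hl : FP l) (hW : FP W) :
    FP fun a => dg (T a) (m a) (min (i a) (W a).length) (l a) := by
  have hb := fpl_cdiv hT hm hW
  have e1 := fp_powR (FP.const 2) (FP.natMul hb hl) hW
  have d1 := fp_div hi e1 hW
  have e2 := fp_powR (FP.const 2) hb hW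
  have m1 := fp_mod d1 e2 hW
  refine (congrArg FP (funext fun a => ?_)).mp m1
  have h1 : min (i a) (W a).length ≤ (W a).length := min_le_right _ _
  have h2 : min (i a) (W a).length / 2 ^ min (min (T a / m a) (W a).length * l a)
      (W a).length ≤ (W a).length := (Nat.div_le_self _ _).trans h1
  rw [min_eq_left h2, min_assoc, min_self, fpl_mod_min h2, fpl_min_mul, fpl_div_min h1]
  rfl

private theorem fpl_divpow {T j i : α → ℕ} {W : α → List Bool} (hT : FP T) (hj : FP j)
    (hi : FP i) (hW : FP W) :
    FP fun a => min (i a) (W a).length / 2 ^ (T a * j a) := by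
  have e1 := fp_powR (FP.const 2) (FP.natMul hT hj) hW
  have d1 := fp_div hi e1 hW
  refine (congrArg FP (funext fun a => ?_)).mp d1
  exact fpl_div_min (min_le_right _ _) _

private theorem fpl_stL {U W : α → List Bool} {n T i j : α → ℕ} {ys : α → List ℕ}
    (hU : FP U) (hW : FP W) (hn : FP n) (hT : FP T) (hi : FP i) (hj : FP j) (hys : FP ys) :
    FP fun a => stL (T a) (min (n a) (U a).length) (min (i a) (W a).length)
      (min (j a) (U a).length) (ys a) := by
  have hm0 := fpl_nj hU hn hj
  have hm1 : FP fun a => nj (min (n a) (U a).length) (min (j a) (U a).length) -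
      min (nj (min (n a) (U a).length) (min (j a) (U a).length)) (U a).length / 4 :=
    Pool.Agent.PQ.fp_natSub hm0 (fp_div hm0 (FP.const 4) hU)
  have hm1' : FP fun a => nj (min (n a) (U a).length) (min (j a) (U a).length + 1) := by
    refine (congrArg FP (funext fun a => ?_)).mp hm1
    have h1 : nj (min (n a) (U a).length) (min (j a) (U a).length) ≤ (U a).length :=
      (nj_le _ _).trans (min_le_right _ _)
    rw [min_eq_left h1]
    unfold nj
    rw [Function.iterate_succ_apply']
  have hi2 : FP fun a => min (i a) (W a).length / 2 ^ (T a * min (j a) (U a).length) :=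
    fpl_divpow hT (fp_min hj (FP.length hU)) hi hW
  have hdg : FP fun q : (α × ℕ) × ℕ => dg (T q.1.1)
      (nj (min (n q.1.1) (U q.1.1).length) (min (j q.1.1) (U q.1.1).length + 1))
      (min (min (i q.1.1) (W q.1.1).length / 2 ^ (T q.1.1 * min (j q.1.1) (U q.1.1).length))
        (W q.1.1).length) q.2 :=
    fpl_dg (hT.comp (FP.fst.comp FP.fst)) (hm1'.comp (FP.fst.comp FP.fst))
      (hi2.comp (FP.fst.comp FP.fst)) FP.snd (hW.comp (FP.fst.comp FP.fst))
  have hy : FP fun q : (α × ℕ) × ℕ => (ys q.1.1).getD (min q.2 (U q.1.1).length) 0 :=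
    fpl_getD (hys.comp (FP.fst.comp FP.fst)) FP.snd (hU.comp (FP.fst.comp FP.fst))
  have hpw : FP fun q : (α × ℕ) × ℕ => (q.2 + 1) ^ min (q.1.2 -
      nj (min (n q.1.1) (U q.1.1).length) (min (j q.1.1) (U q.1.1).length + 1))
        (U q.1.1).length :=
    fp_powR (FP.natAdd FP.snd (FP.const 1))
      (Pool.Agent.PQ.fp_natSub (FP.snd.comp FP.fst) (hm1'.comp (FP.fst.comp FP.fst)))
      (hU.comp (FP.fst.comp FP.fst))
  have hsum := fp_sumR (hm1'.comp (FP.fst (α := α) (β := ℕ))) (hU.comp (FP.fst (α := α) (β := ℕ)))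
    (FP.natMul (FP.natMul hpw hdg) hy)
  have hlow : FP fun q : α × ℕ => (ys q.1).getD (min q.2 (U q.1).length) 0 :=
    fpl_getD (hys.comp FP.fst) FP.snd (hU.comp FP.fst)
  have hh := FP.ite (FP.natLe (FP.natAdd (FP.snd (α := α) (β := ℕ)) (FP.const 1))
    (hm1'.comp FP.fst)) hlow hsum
  have hres := fpl_map hm0 hU hh
  refine (congrArg FP (funext fun a => ?_)).mp hres
  simp only
  have h1 : nj (min (n a) (U a).length) (min (j a) (U a).length) ≤ (U a).length :=
    (nj_le _ _).trans (min_le_right _ _)
  have h2 : nj (min (n a) (U a).length) (min (j a) (U a).length + 1) ≤ (U a).length :=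
    (nj_le _ _).trans (min_le_right _ _)
  have h3 : min (i a) (W a).length / 2 ^ (T a * min (j a) (U a).length) ≤ (W a).length :=
    (Nat.div_le_self _ _).trans (min_le_right _ _)
  rw [min_eq_left h1]
  unfold stL
  refine List.map_congr_left fun v hv => ?_
  have hv' := List.mem_range.1 hv
  unfold lf
  by_cases h4 : v < nj (min (n a) (U a).length) (min (j a) (U a).length + 1)
  · rw [if_pos (by rw [decide_eq_true_iff]; omega), if_pos h4,
      min_eq_left (show v ≤ (U a).length by omega)]
  · rw [if_neg (by rw [decide_eq_true_iff]; omega), if_neg h4, min_eq_left h2]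
    refine Finset.sum_congr rfl fun l hl => ?_
    have hl' := Finset.mem_range.1 hl
    rw [min_eq_left h3, min_eq_left (show v - nj (min (n a) (U a).length)
        (min (j a) (U a).length + 1) ≤ (U a).length by omega),
      min_eq_left (show l ≤ (U a).length by omega)]

end

private def stp (s : (List Bool × (List Bool × ((ℕ × ℕ) × ℕ))) × List ℕ) (j : ℕ) :
    (List Bool × (List Bool × ((ℕ × ℕ) × ℕ))) × List ℕ :=
  (s.1, stL s.1.2.2.1.2 (min s.1.2.2.1.1 s.1.1.length) (min s.1.2.2.2 s.1.2.1.length)
    (min j s.1.1.length) s.2)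

private theorem fp_stp :
    FP fun p : ((List Bool × (List Bool × ((ℕ × ℕ) × ℕ))) × List ℕ) × ℕ => stp p.1 p.2 := by
  have h1 : FP fun p : ((List Bool × (List Bool × ((ℕ × ℕ) × ℕ))) × List ℕ) × ℕ => p.1.1 :=
    FP.fst.comp FP.fst
  exact FP.pair h1 (fpl_stL (h1.fst') (h1.snd'.fst') (h1.snd'.snd'.fst'.fst')
    (h1.snd'.snd'.fst'.snd') (h1.snd'.snd'.snd') FP.snd (FP.snd.comp FP.fst))

private theorem stp_fst (l : List ℕ) (c : List Bool × (List Bool × ((ℕ × ℕ) × ℕ)))
    (ys : List ℕ) : (l.foldl stp (c, ys)).1 = c := by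
  induction l generalizing ys with
  | nil => rfl
  | cons j l ih =>
    rw [List.foldl_cons]
    exact ih _

private theorem stp_len (s : (List Bool × (List Bool × ((ℕ × ℕ) × ℕ))) × List ℕ) (j : ℕ) :
    (stp s j).2.length ≤ s.1.1.length := by
  unfold stp stL
  rw [List.length_map, List.length_range]
  exact (nj_le _ _).trans (min_le_right _ _)

private theorem stp_length (l : List ℕ) (c : List Bool × (List Bool × ((ℕ × ℕ) × ℕ)))
    (ys : List ℕ) : (l.foldl stp (c, ys)).2.length ≤ ys.length + c.1.length := by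
  induction l using List.reverseRecOn with
  | nil => exact Nat.le_add_right _ _
  | append_singleton l j _ =>
    rw [List.foldl_append, List.foldl_cons, List.foldl_nil]
    have h1 := stp_fst l c ys
    have h2 := stp_len (l.foldl stp (c, ys)) j
    rw [h1] at h2
    omega

private theorem stp_size (l : List ℕ) (c : List Bool × (List Bool × ((ℕ × ℕ) × ℕ)))
    (ys : List ℕ) (S : ℕ) (h : ∀ y ∈ ys, y.size ≤ S) :
    ∀ y ∈ (l.foldl stp (c, ys)).2, y.size ≤ S + l.length *
      ((c.1.length + 1) * (c.1.length + 2) + c.2.2.2.size + c.1.length + 3) := by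
  induction l generalizing ys S with
  | nil => simpa using h
  | cons j l ih =>
    intro y hy
    rw [List.foldl_cons] at hy
    have h1 : ∀ z ∈ stL c.2.2.1.2 (min c.2.2.1.1 c.1.length) (min c.2.2.2 c.2.1.length)
        (min j c.1.length) ys, z.size ≤ S +
      ((c.1.length + 1) * (c.1.length + 2) + c.2.2.2.size + c.1.length + 3) := by
      intro z hz
      refine (stL_size h z hz).trans ?_
      have e1 : min c.2.2.1.1 c.1.length ≤ c.1.length := min_le_right _ _
      have e2 : (min c.2.2.2 c.2.1.length).size ≤ c.2.2.2.size :=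
        Nat.size_le_size (min_le_left _ _)
      have e3 : (min c.2.2.1.1 c.1.length + 1) * (min c.2.2.1.1 c.1.length + 2) ≤
          (c.1.length + 1) * (c.1.length + 2) :=
        Nat.mul_le_mul (by omega) (by omega)
      omega
    refine (ih _ _ h1 y hy).trans ?_
    rw [List.length_cons]
    apply le_of_eq
    ring

private theorem szl_le (l : List ℕ) (C : ℕ) (h : ∀ b ∈ l, b.size ≤ C) :
    sz l ≤ l.length * (2 * C + 1) := by
  induction l with
  | nil => simp
  | cons b l ih =>
    have h1 := h b (by simp)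
    have h2 := ih fun x hx => h x (by simp [hx])
    rw [sz_cons, sz_nat, List.length_cons, add_mul]
    omega

private theorem fpl_foldl :
    FP fun p : List ℕ × ((List Bool × (List Bool × ((ℕ × ℕ) × ℕ))) × List ℕ) =>
      p.1.foldl stp p.2 := by
  refine FP.foldl fp_stp (B := fun z => 2 * z + 1 + (2 * z) *
    (2 * (z + z * ((z + 1) * (z + 2) + z + z + 3)) + 1)) (by fun_prop) ?_
  rintro l ⟨c, ys⟩
  have h1 := stp_fst l c ys
  have h2 := stp_length l c ys
  have hS : ∀ y ∈ ys, y.size ≤ sz ys := by
    clear h1 h2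
    induction ys with
    | nil => intro y hy; simp at hy
    | cons b ys ih =>
      intro y hy
      rw [sz_cons, sz_nat]
      rcases List.mem_cons.1 hy with rfl | hy
      · omega
      · have := ih y hy
        omega
  have h3 := stp_size l c ys (sz ys) hS
  have h4 : l.foldl stp (c, ys) = ((l.foldl stp (c, ys)).1, (l.foldl stp (c, ys)).2) := rfl
  rw [h4, h1]
  generalize (l.foldl stp (c, ys)).2 = zs at h2 h3
  rw [sz_pair]
  have h5 : sz zs ≤ zs.length * (2 * (sz ys + l.length *
      ((c.1.length + 1) * (c.1.length + 2) + c.2.2.2.size + c.1.length + 3)) + 1) :=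
    szl_le zs _ h3
  set z := sz l + sz (c, ys) with hz
  have e0 : sz (c, ys) = 2 * sz c + 1 + sz ys := sz_pair c ys
  have e1 : sz ys ≤ z := by omega
  have e2 : l.length ≤ z := (length_le_sz l).trans (by omega)
  have e3 : ys.length ≤ z := (length_le_sz ys).trans e1
  obtain ⟨U, W, ⟨n, T⟩, i⟩ := c
  have ec : sz (U, (W, ((n, T), i))) = 2 * (3 * U.length) + 1 + (2 * (3 * W.length) + 1 +
      (2 * (2 * n.size + 1 + T.size) + 1 + i.size)) := by
    simp only [sz_pair, sz_bits, sz_nat]
  rw [ec] at e0 ⊢
  simp only at h5 h2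
  have e4 : U.length ≤ z := by omega
  have e5 : i.size ≤ z := by omega
  have e6 : (U.length + 1) * (U.length + 2) ≤ (z + 1) * (z + 2) :=
    Nat.mul_le_mul (by omega) (by omega)
  have e7 : (U.length + 1) * (U.length + 2) + i.size + U.length + 3 ≤
      (z + 1) * (z + 2) + z + z + 3 := by omega
  have e8 : l.length * ((U.length + 1) * (U.length + 2) + i.size + U.length + 3) ≤
      z * ((z + 1) * (z + 2) + z + z + 3) := Nat.mul_le_mul e2 e7
  have e9 : zs.length * (2 * (sz ys + l.length *
      ((U.length + 1) * (U.length + 2) + i.size + U.length + 3)) + 1) ≤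
      (2 * z) * (2 * (z + z * ((z + 1) * (z + 2) + z + z + 3)) + 1) :=
    Nat.mul_le_mul (by omega) (by omega)
  have e10 := h5.trans e9
  have e11 : 2 * (2 * (3 * U.length) + 1 + (2 * (3 * W.length) + 1 +
      (2 * (2 * n.size + 1 + T.size) + 1 + i.size))) + 1 ≤ 2 * z + 1 := by omega
  omega

private theorem fpl_foldl_eq (U W : List Bool) (n T i : ℕ) (hn : n ≤ U.length) (l : List ℕ)
    (ys : List ℕ) (hl : ∀ j ∈ l, j ≤ U.length) :
    l.foldl stp ((U, (W, ((n, T), i))), ys) = ((U, (W, ((n, T), i))),
      l.foldl (fun ys j => stL T n (min i W.length) j ys) ys) := by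
  induction l generalizing ys with
  | nil => rfl
  | cons j l ih =>
    rw [List.foldl_cons, List.foldl_cons]
    have h1 : stp ((U, (W, ((n, T), i))), ys) j = ((U, (W, ((n, T), i))),
        stL T n (min i W.length) j ys) := by
      unfold stp
      simp only
      rw [min_eq_left hn, min_eq_left (hl j (by simp))]
    rw [h1]
    exact ih _ fun k hk => hl k (by simp [hk])

theorem fp_Pt {α : Type} [N487b59b3 α] {U W : α → List Bool} {n J T i : α → ℕ} (hU : FP U)
    (hW : FP W) (hn : FP n) (hJ : FP J) (hT : FP T) (hi : FP i)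
    (hnU : ∀ a, n a ≤ (U a).length) (hJU : ∀ a, J a ≤ (U a).length) :
    FP fun a => (List.range (n a)).map (Pt (T a) (J a) (n a) (min (i a) (W a).length)) := by
  have hmin : FP fun a => min (i a) (W a).length := fp_min hi (FP.length hW)
  have hl : FP fun a => (List.range (min (J a) (U a).length)).reverse :=
    FP.reverse (fpl_range hJ hU)
  -- the last level
  have hnj := fpl_nj hU hn hJ
  have hi2 := fpl_divpow hT hJ hi hW
  have hba : FP fun a => (List.range (min (nj (min (n a) (U a).length)
      (min (J a) (U a).length)) (U a).length)).map fun x => dg (T a) 3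
        (min (min (i a) (W a).length / 2 ^ (T a * J a)) (W a).length) x :=
    fpl_map hnj hU (fpl_dg (hT.comp FP.fst) (FP.const 3) (hi2.comp FP.fst) FP.snd
      (hW.comp FP.fst))
  have hst := fpl_foldl.comp (hl.pair ((hU.pair (hW.pair ((hn.pair hT).pair hi))).pair hba))
  refine (congrArg FP (funext fun a => ?_)).mp hst.snd'
  simp only
  rw [PtL_eq, min_eq_left (hJU a), min_eq_left (hnU a)]
  have h1 : nj (n a) (J a) ≤ (U a).length := (nj_le _ _).trans (hnU a)
  have h2 : min (i a) (W a).length / 2 ^ (T a * J a) ≤ (W a).length :=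
    (Nat.div_le_self _ _).trans (min_le_right _ _)
  rw [min_eq_left h1, min_eq_left h2]
  have h3 := fpl_foldl_eq (U a) (W a) (n a) (T a) (i a) (hnU a) (List.range (J a)).reverse
    (baL (T a) (n a) (min (i a) (W a).length) (J a)) (by
      intro j hj
      have := List.mem_range.1 (List.mem_reverse.1 hj)
      exact (le_of_lt this).trans (hJU a))
  unfold baL at h3 ⊢
  rw [h3]


end Pool.Agent.CK
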