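import Pool.Agent.CK.Defs2
import Pool.Agent.CK.FpT

set_option autoImplicit false

/-!
CK-FpPrm. Polynomial time: the parameters.
-/

namespace Pool.Agent.CK


open N487b59b3 N68a2faeb Pool.Agent.Helper22 Pool.Agent.Helper6.WB Pool.Agent.Helper47.TR
  Pool.Agent.QH

private theorem rt_le (s : ℕ) : rt 1 s ≤ s + 1 := by
  unfold rt
  refine (List.length_filter_le _ _).trans ?_
  rw [List.length_range]

private theorem rtc_le (d s : ℕ) : rtc d s ≤ s + 1 := by
  unfold rtc
  refine (List.length_filter_le _ _).trans ?_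
  rw [List.length_range]

private theorem size_le_self (n : ℕ) : n.size ≤ n := Nat.size_le.2 Nat.lt_two_pow_self

private theorem two_pow_LC (d s t : ℕ) : 2 ^ LC d s t ≤
    8 * (4 * (s + t + 1) + 5 * (s + t) + 1 + (s + t + 1) * 2 ^ (d - 1)) := by
  have hm : rt 1 s ≤ s + t + 1 := (rt_le s).trans (by omega)
  have h0 : 4 * rt 1 s + 5 * t + 1 + rt 1 s * 2 ^ (d - 1) ≤
      4 * (s + t + 1) + 5 * (s + t) + 1 + (s + t + 1) * 2 ^ (d - 1) := by
    have h1 := Nat.mul_le_mul_right (2 ^ (d - 1)) hm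
    omega
  refine le_trans ?_ (Nat.mul_le_mul_left 8 h0)
  unfold LC
  have hP : 0 < 4 * rt 1 s + 5 * t + 1 + rt 1 s * 2 ^ (d - 1) := by omega
  generalize 4 * rt 1 s + 5 * t + 1 + rt 1 s * 2 ^ (d - 1) = P at hP
  have h1 : 0 < (2 * P).size := Nat.size_pos.2 (by omega)
  have h2 : 2 ^ ((2 * P).size - 1) ≤ 2 * P := Nat.lt_size.1 (by omega)
  have h3 : 2 ^ ((2 * P).size + 1) = 4 * 2 ^ ((2 * P).size - 1) := by
    have h4 : (2 * P).size + 1 = ((2 * P).size - 1) + 2 := by omega
    rw [h4, pow_add]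
    ring
  rw [h3]
  omega

theorem prm_bd (d : ℕ) : ∃ q : Polynomial ℕ, ∀ s t : ℕ, nC d s t ≤ q.eval (s + t) ∧
    JC d s t ≤ q.eval (s + t) ∧ KC s ≤ q.eval (s + t) ∧ 2 ^ LC d s t ≤ q.eval (s + t) ∧
      s ≤ q.eval (s + t) := by
  set B : Polynomial ℕ := Polynomial.C 8 * (Polynomial.C 4 * (Polynomial.X + Polynomial.C 1) +
    Polynomial.C 5 * Polynomial.X + Polynomial.C 1 +
      (Polynomial.X + Polynomial.C 1) * Polynomial.C (2 ^ (d - 1))) with hB
  set q : Polynomial ℕ := Polynomial.C 3 * ((Polynomial.C 2 * Polynomial.X + Polynomial.C 1) +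
    Polynomial.C 1 + B + (Polynomial.C 2 * Polynomial.X + Polynomial.C 1 + Polynomial.C 1) * B *
      (Polynomial.C d * (Polynomial.X + Polynomial.C 1) * B ^ d + Polynomial.C 1)) with hq
  refine ⟨q, fun s t => ?_⟩
  have hBe : B.eval (s + t) =
      8 * (4 * (s + t + 1) + 5 * (s + t) + 1 + (s + t + 1) * 2 ^ (d - 1)) := by
    rw [hB]
    simp
  have hqe : q.eval (s + t) = 3 * ((2 * (s + t) + 1) + 1 + B.eval (s + t) +
      (2 * (s + t) + 1 + 1) * B.eval (s + t) *
        (d * (s + t + 1) * B.eval (s + t) ^ d + 1)) := by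
    rw [hq]
    simp
  have h2 := two_pow_LC d s t
  rw [← hBe] at h2
  have h3 : LC d s t ≤ B.eval (s + t) := Nat.lt_two_pow_self.le.trans h2
  have h4 : KC s ≤ 2 * (s + t) + 1 := by
    unfold KC kc
    have := Nat.div_le_self s (rt 1 s)
    omega
  have h5 : rtc d s ≤ s + t + 1 := (rtc_le d s).trans (by omega)
  have h6 : QC d s t ≤ d * (s + t + 1) * B.eval (s + t) ^ d + 1 := by
    unfold QC qb
    have h7 : d * rtc d s * LC d s t ^ d ≤ d * (s + t + 1) * B.eval (s + t) ^ d :=
      Nat.mul_le_mul (Nat.mul_le_mul_left d h5) (Nat.pow_le_pow_left h3 d)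
    omega
  have h7 : (KC s + 1) * LC d s t * QC d s t ≤ (2 * (s + t) + 1 + 1) * B.eval (s + t) *
        (d * (s + t + 1) * B.eval (s + t) ^ d + 1) :=
    Nat.mul_le_mul (Nat.mul_le_mul (by omega) h3) h6
  have h8 : nC d s t ≤ (2 * (s + t) + 1) + 1 + B.eval (s + t) +
      (2 * (s + t) + 1 + 1) * B.eval (s + t) *
        (d * (s + t + 1) * B.eval (s + t) ^ d + 1) := by
    unfold nC
    omega
  have h9 : JC d s t ≤ 3 * nC d s t := by
    unfold JC
    have := size_le_self (nC d s t)
    omega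
  rw [hqe]
  generalize (2 * (s + t) + 1 + 1) * B.eval (s + t) *
        (d * (s + t + 1) * B.eval (s + t) ^ d + 1) = M at *
  generalize B.eval (s + t) = b at *
  refine ⟨by omega, by omega, by omega, by omega, by omega⟩

theorem fp_KC {α : Type} [N487b59b3 α] {u : α → List Bool} (hu : FP u) :
    FP fun a => KC (u a).length := (fp_kc 1).comp hu

theorem fp_LC (d : ℕ) {α : Type} [N487b59b3 α] {u w : α → List Bool} (hu : FP u) (hw : FP w) :
    FP fun a => LC d (u a).length (w a).length := by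
  have hr : FP fun a => rt 1 (u a).length := (fp_rt 1).comp hu
  have h1 : FP fun a => 4 * rt 1 (u a).length + 5 * (w a).length :=
    FP.natAdd (FP.natMul (FP.const 4) hr) (FP.natMul (FP.const 5) (FP.length hw))
  have h2 : FP fun a => 2 * (4 * rt 1 (u a).length + 5 * (w a).length + 1 +
      rt 1 (u a).length * 2 ^ (d - 1)) :=
    FP.natMul (FP.const 2) (FP.natAdd (FP.natAdd h1 (FP.const 1))
      (FP.natMul hr (FP.const (2 ^ (d - 1)))))
  exact FP.natAdd (fp_size h2) (FP.const 1)

theorem fp_QC (d : ℕ) {α : Type} [N487b59b3 α] {u w : α → List Bool} (hu : FP u) (hw : FP w) :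
    FP fun a => QC d (u a).length (w a).length := by
  have hr : FP fun a => rtc d (u a).length := (fp_rtc d).comp hu
  exact FP.natAdd (FP.natMul (FP.natMul (FP.const d) hr) (fp_powC (fp_LC d hu hw) d)) (FP.const 1)

theorem fp_nC (d : ℕ) {α : Type} [N487b59b3 α] {u w : α → List Bool} (hu : FP u) (hw : FP w) :
    FP fun a => nC d (u a).length (w a).length := by
  obtain ⟨q, hq⟩ := prm_bd d
  have hU : FP fun a => un (q.eval (u a ++ w a).length) := FP.un_poly (FP.append hu hw) q
  have hL := fp_LC d hu hw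
  have h1 : FP fun a => 2 ^ LC d (u a).length (w a).length := by
    have h2 := fp_powR (FP.const 2) hL hU
    refine (congrArg FP (funext fun a => ?_)).mp h2
    have h3 : LC d (u a).length (w a).length ≤ (un (q.eval (u a ++ w a).length)).length := by
      rw [Helper22.un_length, List.length_append]
      exact Nat.lt_two_pow_self.le.trans (hq _ _).2.2.2.1
    rw [min_eq_left h3]
  have hK := fp_KC hu
  exact FP.natAdd (FP.natAdd (FP.natAdd hK (FP.const 1)) h1)
    (FP.natMul (FP.natMul (FP.natAdd hK (FP.const 1)) hL) (fp_QC d hu hw))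

theorem fp_TC (d : ℕ) {α : Type} [N487b59b3 α] {u w : α → List Bool} (hu : FP u) (hw : FP w) :
    FP fun a => TC d (u a).length (w a).length := by
  have hL := fp_LC d hu hw
  have he : FP fun a => eC d (u a).length (w a).length :=
    fp_size (FP.natMul (FP.natAdd hL (FP.const 1)) (FP.length hu))
  exact FP.natAdd (FP.natMul (FP.const 12) (FP.natMul (FP.const 3) (FP.length hw)))
    (FP.natMul (FP.natAdd (FP.const 21) (FP.natMul (FP.const 3) he)) (fp_nC d hu hw))

theorem fp_JC (d : ℕ) {α : Type} [N487b59b3 α] {u w : α → List Bool} (hu : FP u) (hw : FP w) :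
    FP fun a => JC d (u a).length (w a).length :=
  FP.natMul (FP.const 3) (fp_size (fp_nC d hu hw))

end Pool.Agent.CK
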