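import Pool.Agent.CK.FpLev
import Pool.Agent.CK.FpPrm
import Pool.Agent.QH.Hsh

set_option autoImplicit false

/-!
CK-FpPtC. Polynomial time: the points of the hitting set. The seeds are computed as a list
(`fp_Pt`); the generator takes its seeds from this list.
-/

namespace Pool.Agent.CK


open N487b59b3 N68a2faeb Pool.Agent.Helper22 Pool.Agent.Helper6.WB Pool.Agent.Helper47.TR
  Pool.Agent.QH

section

variable {α β : Type} [N487b59b3 α] [N487b59b3 β]

private theorem pc_filt [Inhabited β] {f : α → List β} {c : α × β → Bool} (hf : FP f)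
    (hc : FP c) : FP fun a => (f a).filter fun b => c (a, b) := by
  have h1 : FP fun q : α × β => if c q then [q.2] else [] :=
    FP.ite hc (FP.cons FP.snd (FP.const [])) (FP.const [])
  refine (congrArg FP (funext fun a => ?_)).mp (Pool.Agent.Helper6.SP.fp_flatMap (f := f)
    (h := fun q : α × β => if c q then [q.2] else []) hf h1)
  generalize f a = l
  induction l with
  | nil => rfl
  | cons b l ih =>
    rw [List.flatMap_cons, ih, List.filter_cons]
    split_ifs <;> simp

private theorem pc_count (n k : ℕ) :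
    ((List.range n).filter fun x => decide (x < k)).length = min k n := by
  induction n with
  | zero => simp
  | succ n ih =>
    rw [List.range_succ, List.filter_append, List.length_append, ih]
    by_cases h : n < k
    · simp [h]; omega
    · simp [h]; omega

private theorem pc_getN [Inhabited β] {f : α → List β} {i : α → ℕ} (hf : FP f) (hi : FP i)
    (d : β) : FP fun a => (f a).getD (i a) d := by
  have hl : FP fun a => (List.range (f a).length).filter fun x => decide (x < i a) :=
    pc_filt (c := fun q : α × ℕ => decide (q.2 < i q.1)) (FP.range hf)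
      (FP.natLe (FP.natAdd FP.snd (FP.const 1)) (hi.comp FP.fst))
  refine (congrArg FP (funext fun a => ?_)).mp (FP.headD (FP.drop hf hl) d)
  rw [pc_count, List.headD_eq_head?_getD, List.head?_drop, List.getD_eq_getElem?_getD]
  by_cases h : i a < (f a).length
  · rw [min_eq_left h.le]
  · rw [min_eq_right (by omega), List.getElem?_eq_none (by omega),
      List.getElem?_eq_none (by omega)]

private theorem pc_diveq {i w : ℕ} (s j : ℕ) (h : i ≤ w) :
    i / (s + 1) ^ min j w = i / (s + 1) ^ j := by
  rcases Nat.eq_zero_or_pos s with rfl | hs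
  · rw [zero_add, one_pow, one_pow]
  · by_cases hj : j ≤ w
    · rw [min_eq_left hj]
    · rw [min_eq_right (by omega)]
      have h1 : w < 2 ^ w := Nat.lt_two_pow_self
      have h2 : 2 ^ w ≤ (s + 1) ^ w := Nat.pow_le_pow_left (by omega) w
      have h3 : (s + 1) ^ w ≤ (s + 1) ^ j := Nat.pow_le_pow_right (by omega) (by omega)
      rw [Nat.div_eq_of_lt (by omega), Nat.div_eq_of_lt (by omega)]

private theorem pc_div {u W : α → List Bool} {i j : α → ℕ} (hu : FP u) (hW : FP W) (hi : FP i)
    (hj : FP j) : FP fun a => min (i a) (W a).length / ((u a).length + 1) ^ j a := by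
  have hs : FP fun a => (u a).length + 1 := FP.natAdd (FP.length hu) (FP.const 1)
  refine (congrArg FP (funext fun a => ?_)).mp (fp_div hi (fp_powR hs hj hW) hW)
  rw [pc_diveq _ _ (min_le_right _ _)]

/-- the digit number `j` of the clamped input -/
private def pcd (u W : α → List Bool) (i : α → ℕ) (a : α) (j : ℕ) : ℕ :=
  min (i a) (W a).length / ((u a).length + 1) ^ j % ((u a).length + 1)

/-- the block of the clamped input -/
private def pcb (u W : α → List Bool) (i v K : α → ℕ) (a : α) : ℕ :=
  ((Finset.range (K a)).filter fun k => pcd u W i a k ≤ min (v a) (u a).length).card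

private theorem pc_b {u W U : α → List Bool} {i v K : α → ℕ} (hu : FP u) (hW : FP W) (hU : FP U)
    (hi : FP i) (hv : FP v) (hK : FP K) (hKU : ∀ a, K a ≤ (U a).length) :
    FP (pcb u W i v K) := by
  have h1 : FP fun q : α × ℕ => pcd u W i q.1 q.2 :=
    fp_digR (hu.comp FP.fst) (hW.comp FP.fst) (hi.comp FP.fst) FP.snd
  have h2 : FP fun q : α × ℕ => min (v q.1) (u q.1).length :=
    (fp_min hv (FP.length hu)).comp FP.fst
  have h3 : FP fun q : α × ℕ =>
      if decide (pcd u W i q.1 q.2 ≤ min (v q.1) (u q.1).length) then 1 else 0 :=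
    FP.ite (FP.natLe h1 h2) (FP.const 1) (FP.const 0)
  have h4 := fp_sumR hK hU h3
  refine (congrArg FP (funext fun a => ?_)).mp h4
  simp only
  rw [min_eq_left (hKU a), pcb, Finset.card_filter]
  refine Finset.sum_congr rfl fun k _ => ?_
  simp only [decide_eq_true_eq]

private theorem pc_gen {u W U : α → List Bool} {Y : α → List ℕ} {i v K L b Q : α → ℕ} (d : ℕ)
    (hu : FP u) (hW : FP W) (hU : FP U) (hY : FP Y) (hi : FP i) (hv : FP v) (hK : FP K)
    (hL : FP L) (hb : FP b) (hQ : FP Q) (hKU : ∀ a, K a ≤ (U a).length)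
    (hLU : ∀ a, 2 ^ L a ≤ (U a).length) :
    FP fun a => gen (b a) d (L a)
      (fun v => ((Finset.range (K a)).filter fun k => min (i a) (W a).length /
        ((u a).length + 1) ^ k % ((u a).length + 1) ≤ v).card)
      (fun S => (Y a).getD (K a + 1 + S) 0)
      (fun k => (Y a).getD k 0)
      (fun k x h => (Y a).getD (K a + 1 + 2 ^ L a + ((k * L a + x) * Q a + h)) 0)
      (min (v a) (u a).length) := by
  have hLU' : ∀ a, L a ≤ (U a).length := fun a => Nat.lt_two_pow_self.le.trans (hLU a)
  have hB : FP (pcb u W i v K) := pc_b hu hW hU hi hv hK hKU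
  have h2L : FP fun a => 2 ^ L a := by
    have h1 := fp_powR (FP.const 2) hL hU
    refine (congrArg FP (funext fun a => ?_)).mp h1
    rw [min_eq_left (hLU' a)]
  -- the factor number `x`
  have hh : FP fun q : α × ℕ => hsh (b q.1) d (min (v q.1) (u q.1).length) q.2 :=
    fp_hshR d (hb.comp FP.fst) (hv.comp FP.fst) (hu.comp FP.fst) FP.snd
  have hK1 : FP fun a => K a + 1 := FP.natAdd hK (FP.const 1)
  have hy : FP fun q : α × ℕ => (Y q.1).getD (K q.1 + 1 + 2 ^ L q.1 +
      ((pcb u W i v K q.1 * L q.1 + q.2) * Q q.1 +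
        hsh (b q.1) d (min (v q.1) (u q.1).length) q.2)) 0 := by
    have h1 : FP fun q : α × ℕ => pcb u W i v K q.1 * L q.1 + q.2 :=
      FP.natAdd (FP.natMul (hB.comp FP.fst) (hL.comp FP.fst)) FP.snd
    have h2 : FP fun q : α × ℕ => K q.1 + 1 + 2 ^ L q.1 +
        ((pcb u W i v K q.1 * L q.1 + q.2) * Q q.1 +
          hsh (b q.1) d (min (v q.1) (u q.1).length) q.2) :=
      FP.natAdd (FP.natAdd (hK1.comp FP.fst) (h2L.comp FP.fst))
        (FP.natAdd (FP.natMul h1 (hQ.comp FP.fst)) hh)
    exact pc_getN (hY.comp FP.fst) h2 0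
  -- the product number `S`
  have ht : FP fun r : (α × ℕ) × ℕ =>
      min (min r.1.2 (U r.1.1).length / 2 ^ min r.2 (U r.1.1).length) (U r.1.1).length % 2 := by
    have hU2 : FP fun r : (α × ℕ) × ℕ => U r.1.1 := hU.comp (FP.fst.comp FP.fst)
    have h1 : FP fun r : (α × ℕ) × ℕ => 2 ^ min r.2 (U r.1.1).length :=
      fp_powR (FP.const 2) FP.snd hU2
    exact fp_mod (fp_div (FP.snd.comp FP.fst) h1 hU2) (FP.const 2) hU2
  have hyr : FP fun r : (α × ℕ) × ℕ => (Y r.1.1).getD (K r.1.1 + 1 + 2 ^ L r.1.1 +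
      ((pcb u W i v K r.1.1 * L r.1.1 + r.2) * Q r.1.1 +
        hsh (b r.1.1) d (min (v r.1.1) (u r.1.1).length) r.2)) 0 :=
    hy.comp (FP.pair (FP.fst.comp FP.fst) FP.snd)
  have hpr := fp_prodR (hL.comp (FP.fst (α := α) (β := ℕ))) (hU.comp FP.fst)
    (FP.ite (FP.natEq ht (FP.const 1)) hyr (FP.const 1))
  have hth : FP fun q : α × ℕ => (Y q.1).getD (K q.1 + 1 + q.2) 0 :=
    pc_getN (hY.comp FP.fst) (FP.natAdd (hK1.comp FP.fst) FP.snd) 0
  have hsum := fp_sumR h2L hU (FP.natMul hth hpr)
  have hz : FP fun a => (Y a).getD (pcb u W i v K a) 0 := pc_getN hY hB 0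
  refine (congrArg FP (funext fun a => ?_)).mp (FP.natAdd hz hsum)
  simp only
  rw [min_eq_left (hLU a), min_eq_left (hLU' a)]
  change _ = (Y a).getD (pcb u W i v K a) 0 + ∑ S ∈ Finset.range (2 ^ L a),
    (Y a).getD (K a + 1 + S) 0 * ∏ x ∈ (Finset.range (L a)).filter (fun x => S.testBit x),
      (Y a).getD (K a + 1 + 2 ^ L a + ((pcb u W i v K a * L a + x) * Q a +
        hsh (b a) d (min (v a) (u a).length) x)) 0
  refine congrArg₂ _ rfl (Finset.sum_congr rfl fun S hS => congrArg₂ _ rfl ?_)
  rw [Finset.prod_filter]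
  refine Finset.prod_congr rfl fun x hx => ?_
  have hS' := Finset.mem_range.1 hS
  have hx' := Finset.mem_range.1 hx
  have h1 := hLU a
  have h2 := hLU' a
  have h3 : S / 2 ^ x ≤ (U a).length := (Nat.div_le_self _ _).trans (by omega)
  rw [min_eq_left (show S ≤ (U a).length by omega), min_eq_left (show x ≤ (U a).length by omega),
    min_eq_left h3, Nat.testBit_eq_decide_div_mod_eq]

end

private theorem pc_getD {n j : ℕ} (f : ℕ → ℕ) (hj : j < n) :
    ((List.range n).map f).getD j 0 = f j := by
  rw [List.getD_eq_getElem _ _ (by simpa using hj), List.getElem_map, List.getElem_range]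

private theorem pc_ml {L : ℕ} {θ θ' y y' : ℕ → ℕ} (h : ∀ S < 2 ^ L, θ S = θ' S)
    (h' : ∀ a < L, y a = y' a) : ml L θ y = ml L θ' y' := by
  unfold ml
  refine Finset.sum_congr rfl fun S hS => ?_
  rw [h S (Finset.mem_range.1 hS)]
  congr 1
  refine Finset.prod_congr rfl fun a ha => ?_
  exact h' a (Finset.mem_range.1 (Finset.mem_filter.1 ha).1)

private theorem pc_idx {K L Q P k a h : ℕ} (hk : k ≤ K) (ha : a < L) (hh : h < Q) :
    K + 1 + P + ((k * L + a) * Q + h) < K + 1 + P + (K + 1) * L * Q := by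
  have h2 : k * L + a + 1 ≤ (K + 1) * L := by
    have h3 : k * L ≤ K * L := Nat.mul_le_mul_right _ hk
    have h4 : (K + 1) * L = K * L + L := by ring
    omega
  have h5 : (k * L + a) * Q + h < (K + 1) * L * Q := by
    calc (k * L + a) * Q + h < (k * L + a) * Q + Q := by omega
      _ = (k * L + a + 1) * Q := by ring
      _ ≤ (K + 1) * L * Q := Nat.mul_le_mul_right _ h2
  omega

/-- the seeds which are used -/
private theorem pc_eq {d : ℕ} (hd : 1 ≤ d) {s t i v : ℕ} (hv : v < s) :
    gen (rtc d s) d (LC d s t)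
      (fun v => ((Finset.range (KC s)).filter fun k => i / (s + 1) ^ k % (s + 1) ≤ v).card)
      (fun S => ((List.range (nC d s t)).map
        (sdC d s t (i / (s + 1) ^ KC s))).getD (KC s + 1 + S) 0)
      (fun k => ((List.range (nC d s t)).map (sdC d s t (i / (s + 1) ^ KC s))).getD k 0)
      (fun k x h => ((List.range (nC d s t)).map (sdC d s t (i / (s + 1) ^ KC s))).getD
        (KC s + 1 + 2 ^ LC d s t + ((k * LC d s t + x) * QC d s t + h)) 0) v =
      ptC d s t i v := by
  have hb : 0 < rtc d s := by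
    rcases Nat.eq_zero_or_pos (rtc d s) with h | h
    · have h1 := (rtc_spec hd s).1
      rw [h, Nat.zero_pow (by omega)] at h1
      omega
    · exact h
  have hn : nC d s t = KC s + 1 + 2 ^ LC d s t + (KC s + 1) * LC d s t * QC d s t := rfl
  have hβ : ((Finset.range (KC s)).filter fun k => i / (s + 1) ^ k % (s + 1) ≤ v).card ≤
      KC s := by
    refine (Finset.card_filter_le _ _).trans ?_
    rw [Finset.card_range]
  have h2L : 1 ≤ 2 ^ LC d s t := Nat.one_le_two_pow
  unfold ptC gen
  refine congrArg₂ _ ?_ ?_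
  · exact pc_getD _ (lt_of_le_of_lt hβ (by rw [hn]; omega))
  · refine pc_ml (fun S hS => ?_) (fun a ha => ?_)
    · exact pc_getD _ (by rw [hn]; omega)
    · exact pc_getD _ (pc_idx hβ ha (hsh_lt hb ha))

theorem fp_ptC {d : ℕ} (hd : 1 ≤ d) :
    FP fun p : (List Bool × List Bool) × (List Bool × ℕ) =>
      (List.range p.1.1.length).map fun v =>
        ptC d p.1.1.length p.1.2.length (min p.2.2 p.2.1.length) v := by
  obtain ⟨q, hq⟩ := prm_bd d
  have hu : FP fun p : (List Bool × List Bool) × (List Bool × ℕ) => p.1.1 := FP.fst.comp FP.fst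
  have hw : FP fun p : (List Bool × List Bool) × (List Bool × ℕ) => p.1.2 := FP.snd.comp FP.fst
  have hW : FP fun p : (List Bool × List Bool) × (List Bool × ℕ) => p.2.1 := FP.fst.comp FP.snd
  have hi : FP fun p : (List Bool × List Bool) × (List Bool × ℕ) => p.2.2 := FP.snd.comp FP.snd
  have hU : FP fun p : (List Bool × List Bool) × (List Bool × ℕ) =>
      un (q.eval (p.1.1 ++ p.1.2).length) := FP.un_poly (FP.append hu hw) q
  have hUl : ∀ p : (List Bool × List Bool) × (List Bool × ℕ),
      (un (q.eval (p.1.1 ++ p.1.2).length)).length = q.eval (p.1.1.length + p.1.2.length) := by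
    intro p
    rw [Helper22.un_length, List.length_append]
  have hK : FP fun p : (List Bool × List Bool) × (List Bool × ℕ) => KC p.1.1.length := fp_KC hu
  have hI : FP fun p : (List Bool × List Bool) × (List Bool × ℕ) =>
      min p.2.2 p.2.1.length / (p.1.1.length + 1) ^ KC p.1.1.length := pc_div hu hW hi hK
  have hY : FP fun p : (List Bool × List Bool) × (List Bool × ℕ) =>
      (List.range (nC d p.1.1.length p.1.2.length)).map
        (sdC d p.1.1.length p.1.2.length
          (min p.2.2 p.2.1.length / (p.1.1.length + 1) ^ KC p.1.1.length)) := by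
    refine (congrArg FP (funext fun p => ?_)).mp
      (fp_Pt hU hW (fp_nC d hu hw) (fp_JC d hu hw) (fp_TC d hu hw) hI
        (fun p => by rw [hUl]; exact (hq _ _).1) (fun p => by rw [hUl]; exact (hq _ _).2.1))
    have h1 : min p.2.2 p.2.1.length / (p.1.1.length + 1) ^ KC p.1.1.length ≤ p.2.1.length :=
      (Nat.div_le_self _ _).trans (min_le_right _ _)
    rw [min_eq_left h1]
    rfl
  have h := pc_gen (α := ((List Bool × List Bool) × (List Bool × ℕ)) × ℕ) d (hu.comp FP.fst)
    (hW.comp FP.fst) (hU.comp FP.fst) (hY.comp FP.fst) (hi.comp FP.fst) (v := fun x => x.2)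
    FP.snd (hK.comp FP.fst) ((fp_LC d hu hw).comp FP.fst) ((fp_rtc d).comp (hu.comp FP.fst))
    ((fp_QC d hu hw).comp FP.fst)
    (fun x => by rw [hUl]; exact (hq _ _).2.2.1) (fun x => by rw [hUl]; exact (hq _ _).2.2.2.1)
  refine (congrArg FP (funext fun p => ?_)).mp
    (Pool.Agent.Helper6.SP.fp_map (FP.range hu) h)
  refine List.map_congr_left fun v hv => ?_
  have hv' : v < p.1.1.length := List.mem_range.1 hv
  simp only
  rw [min_eq_left hv'.le]
  exact pc_eq hd hv'

end Pool.Agent.CK
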