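import Pool.Agent.CK.GDefs
import Pool.Agent.Helper6.WB.Arith

set_option autoImplicit false

/-!
The translation of circuits on the level of codes.
-/

namespace Pool.Agent.CK

open N487b59b3 N68a2faeb Pool.Agent.Helper22

/-- codes of gates -/
abbrev GC := ℕ × (ℕ × (ℕ × ℚ))

/-- the code of the constant `0` -/
def zC : List (ℕ × ℚ) := [(0, 0)]

def insC (t : GC) : List ℕ := if decide (t.1 ≤ 1) then [] else [t.2.1, t.2.2.1]

def wiresC (l : List GC) : List ℕ := l.flatMap insC ++ [l.length - 1]

def isReC (l : List GC) (a : ℕ) : Bool :=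
  decide (2 ≤ (l.getD a (0, (0, (0, 0)))).1) &&
    decide (2 ≤ ((wiresC l).filter fun b => decide (b = a)).length)

def useC (l : List GC) (T : List (List (ℕ × ℚ))) (a : ℕ) : List (ℕ × ℚ) :=
  if decide (a + 1 ≤ T.length) then (if isReC l a then [(2 * a + 4, 0)] else T.getD a zC) else zC

def stC (l : List GC) (T : List (List (ℕ × ℚ))) (t : GC) : List (ℕ × ℚ) :=
  if decide (t.1 = 0) then [(0, t.2.2.2)] else if decide (t.1 = 1) then [(2 * t.2.1 + 3, 0)] else
    useC l T t.2.1 ++ useC l T t.2.2.1 ++ [(if decide (t.1 = 2) then 1 else 2, 0)]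

/-- lists with a long code are replaced by the empty list -/
def cpL (B : List Bool) (l : List (ℕ × ℚ)) : List (ℕ × ℚ) :=
  if decide (sz l ≤ B.length) then l else []

/-- the codes of the formulas of the gates -/
def fmsC (B : List Bool) (l : List GC) (l' : List GC) : List (List (ℕ × ℚ)) :=
  l'.foldl (fun T t => T ++ [cpL B (stC l T t)]) []

/-- the bound for the lengths of the codes -/
def bdC (l : List GC) : List Bool := un ((3 * (l.length + 1)) * (10 * (sz l + 10)))

/-- the translation -/
def toCirC (l : List GC) : List (List (ℕ × ℚ)) × List (ℕ × ℚ) :=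
  ((List.range l.length).map fun a => if isReC l a then (fmsC (bdC l) l l).getD a zC else zC,
    useC l (fmsC (bdC l) l l) (l.length - 1))

end Pool.Agent.CK
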