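import Pool.Agent.CK.GPre

set_option autoImplicit false

/-!
CK-GCnt. Counting leaves: every formula of a gate which is not reused is used at most once, so the total
weight of the leaves of the formulas of the reused gates and of the output is at most the total weight of
the wires.
-/

namespace Pool.Agent.CK

open MvPolynomial

/-- the total weight of the leaves: `w i` for a variable `x_i`, `c` for a reference -/
private def wt (w : ℕ → ℕ) (c : ℕ) : Fr → ℕ
  | .const _ => 0
  | .var i => w i
  | .ref _ => c
  | .add F G => wt w c F + wt w c G
  | .mul F G => wt w c F + wt w c G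

/-- the formula of gate number `a` -/
private def Tf (C : List Gt) (a : ℕ) : Fr := (fms C C).getD a (.const 0)

/-- the weight of a wire -/
private def lw (C : List Gt) (w : ℕ → ℕ) (c : ℕ) (b : ℕ) : ℕ :=
  if isRe C b then c else match C.getD b (.const 0) with
    | .const _ => 0
    | .var i => w i
    | .add _ _ => 0
    | .mul _ _ => 0

private theorem Tf_eq {C : List Gt} {a : ℕ} (ha : a < C.length) :
    Tf C a = stF C ((fms C C).take a) (C.getD a (.const 0)) := fms_getD ha

private theorem useF_eq {C : List Gt} {a b : ℕ} (ha : a ≤ C.length) :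
    useF C ((fms C C).take a) b = if b < a then (if isRe C b then .ref b else Tf C b)
      else .const 0 := useF_take ha

/-- the bound for the weight of a used formula -/
private def uw (C : List Gt) (w : ℕ → ℕ) (c : ℕ) (b : ℕ) : ℕ :=
  if b < C.length then (if isRe C b then c else wt w c (Tf C b)) else 0

private theorem wt_useF {C : List Gt} (w : ℕ → ℕ) (c : ℕ) {a b : ℕ} (ha : a ≤ C.length) :
    wt w c (useF C ((fms C C).take a) b) ≤ uw C w c b := by
  rw [useF_eq ha, uw]
  by_cases h : b < a
  · have hb : b < C.length := by omega
    by_cases h1 : isRe C b = true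
    · simp only [if_pos h, if_pos hb, if_pos h1]
      exact le_rfl
    · simp only [if_pos h, if_pos hb, if_neg h1]
      exact le_rfl
  · rw [if_neg h]
    exact Nat.zero_le _

private theorem sum_getD {γ : Type} (f : γ → ℕ) (d : γ) (l : List γ) :
    ∑ a ∈ Finset.range l.length, f (l.getD a d) = (l.map f).sum := by
  induction l with
  | nil => rfl
  | cons g l ih =>
    rw [List.length_cons, Finset.sum_range_succ', List.map_cons, List.sum_cons, ← ih, add_comm]
    rfl

private theorem sum_flatMap (u : ℕ → ℕ) (l : List Gt) :
    ((l.flatMap Gt.ins).map u).sum = (l.map fun g => (g.ins.map u).sum).sum := by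
  induction l with
  | nil => rfl
  | cons g l ih =>
    rw [List.flatMap_cons, List.map_append, List.sum_append, ih, List.map_cons, List.sum_cons]

private theorem sum_ind (p : ℕ → Bool) (L : List ℕ) :
    (L.map fun b => if p b = true then 1 else 0).sum = (L.filter p).length := by
  induction L with
  | nil => rfl
  | cons b L ih =>
    rw [List.map_cons, List.sum_cons, ih]
    by_cases h : p b = true
    · rw [if_pos h, List.filter_cons_of_pos h, List.length_cons, add_comm]
    · rw [if_neg h, List.filter_cons_of_neg h, zero_add]

/-- inner gates which are not reused -/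
private def vw (C : List Gt) (w : ℕ → ℕ) (c : ℕ) (b : ℕ) : ℕ :=
  if b < C.length ∧ (C.getD b (.const 0)).inner = true ∧ isRe C b ≠ true then
    wt w c (Tf C b) else 0

private theorem uw_le (C : List Gt) (w : ℕ → ℕ) (c b : ℕ) :
    uw C w c b ≤ lw C w c b + vw C w c b := by
  rw [uw, lw, vw]
  by_cases h : b < C.length
  · rw [if_pos h]
    by_cases h1 : isRe C b = true
    · rw [if_pos h1, if_pos h1]
      exact Nat.le_add_right _ _
    · rw [if_neg h1, if_neg h1]
      by_cases h2 : (C.getD b (.const 0)).inner = true
      · rw [if_pos ⟨h, h2, h1⟩]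
        exact Nat.le_add_left _ _
      · refine le_trans ?_ (Nat.le_add_right _ _)
        rw [Tf_eq h]
        cases h3 : C.getD b (.const 0) with
        | const q => exact le_rfl
        | var i => exact le_rfl
        | add a b => rw [h3] at h2; exact absurd rfl h2
        | mul a b => rw [h3] at h2; exact absurd rfl h2
  · rw [if_neg h]
    exact Nat.zero_le _

private theorem vw_sum (C : List Gt) (w : ℕ → ℕ) (c : ℕ) :
    ((wires C).map (vw C w c)).sum ≤ ∑ a ∈ Finset.range C.length, vw C w c a := by
  classical
  rw [Finset.sum_list_map_count]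
  have h1 : ∀ a ∈ (wires C).toFinset, (wires C).count a • vw C w c a ≤ vw C w c a := by
    intro a _
    rw [smul_eq_mul, vw]
    split_ifs with h
    · obtain ⟨h2, h3, h4⟩ := h
      have h5 : (wires C).count a ≤ 1 := by
        by_contra hcon
        apply h4
        rw [isRe, h3, Bool.true_and, decide_eq_true_eq]
        omega
      calc (wires C).count a * wt w c (Tf C a) ≤ 1 * wt w c (Tf C a) :=
            Nat.mul_le_mul_right _ h5
        _ = _ := one_mul _
    · exact (Nat.mul_zero _).le
  refine (Finset.sum_le_sum h1).trans (Finset.sum_le_sum_of_ne_zero ?_)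
  intro a _ h
  rw [Finset.mem_range]
  by_contra hcon
  apply h
  rw [vw, if_neg (fun h' => hcon h'.1)]

private theorem cnt_main (C : List Gt) (w : ℕ → ℕ) (c : ℕ) :
    ∑ a ∈ Finset.range C.length, (if isRe C a = true then wt w c (Tf C a) else 0) +
      wt w c (toCir C).out ≤ ((wires C).map (lw C w c)).sum := by
  -- the inner gates
  have h1 : ∀ a ∈ Finset.range C.length,
      (if isRe C a = true then wt w c (Tf C a) else 0) + vw C w c a ≤
        ((C.getD a (.const 0)).ins.map (uw C w c)).sum := by
    intro a ha
    have ha' := Finset.mem_range.1 ha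
    by_cases hin : (C.getD a (.const 0)).inner = true
    · have h2 : (if isRe C a = true then wt w c (Tf C a) else 0) + vw C w c a =
          wt w c (Tf C a) := by
        rw [vw]
        by_cases hr : isRe C a = true
        · rw [if_pos hr, if_neg (fun h => h.2.2 hr), add_zero]
        · rw [if_neg hr, if_pos ⟨ha', hin, hr⟩, zero_add]
      rw [h2, Tf_eq ha']
      cases h3 : C.getD a (.const 0) with
      | const q => rw [h3] at hin; exact absurd hin (by simp [Gt.inner])
      | var i => rw [h3] at hin; exact absurd hin (by simp [Gt.inner])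
      | add b b' =>
        show wt w c (useF C ((fms C C).take a) b) + wt w c (useF C ((fms C C).take a) b') ≤
          uw C w c b + (uw C w c b' + 0)
        rw [add_zero]
        exact Nat.add_le_add (wt_useF w c ha'.le) (wt_useF w c ha'.le)
      | mul b b' =>
        show wt w c (useF C ((fms C C).take a) b) + wt w c (useF C ((fms C C).take a) b') ≤
          uw C w c b + (uw C w c b' + 0)
        rw [add_zero]
        exact Nat.add_le_add (wt_useF w c ha'.le) (wt_useF w c ha'.le)
    · have hr : isRe C a ≠ true := by
        rw [isRe]
        intro h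
        rw [Bool.and_eq_true] at h
        exact hin h.1
      rw [vw, if_neg hr, if_neg (fun h => hin h.2.1)]
      exact Nat.zero_le _
  have h2 := Finset.sum_le_sum h1
  rw [Finset.sum_add_distrib, sum_getD (fun g : Gt => (g.ins.map (uw C w c)).sum),
    ← sum_flatMap] at h2
  have h3 : wt w c (toCir C).out ≤ uw C w c (C.length - 1) := by
    have h4 : (toCir C).out = useF C ((fms C C).take C.length) (C.length - 1) := by
      rw [List.take_of_length_le (by rw [fms_length])]
      rfl
    rw [h4]
    exact wt_useF w c le_rfl
  have h4 : ((wires C).map (uw C w c)).sum =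
      ((C.flatMap Gt.ins).map (uw C w c)).sum + uw C w c (C.length - 1) := by
    rw [wires, List.map_append, List.sum_append]
    rfl
  have h5 : ((wires C).map (uw C w c)).sum ≤ ((wires C).map (lw C w c)).sum +
      ((wires C).map (vw C w c)).sum := by
    rw [← List.sum_map_add]
    exact List.sum_le_sum fun b _ => uw_le C w c b
  have h6 := vw_sum C w c
  omega

/-- sums over the gates of the translation -/
private theorem toCir_sum (C : List Gt) (f : Fr → ℕ) (hf : ∀ q, f (.const q) = 0) :
    ((toCir C).gates.map f).sum =
      ∑ a ∈ Finset.range C.length, (if isRe C a = true then f (Tf C a) else 0) := by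
  show (((List.range C.length).map fun a => if isRe C a then (fms C C).getD a (.const 0)
    else .const 0).map f).sum = _
  rw [List.map_map]
  have h1 : (f ∘ fun a => if isRe C a then (fms C C).getD a (.const 0) else .const 0) =
      fun a => if isRe C a = true then f (Tf C a) else 0 := by
    funext a
    show f (if isRe C a then (fms C C).getD a (.const 0) else .const 0) = _
    by_cases h : isRe C a = true
    · rw [if_pos h, if_pos h]
      rfl
    · rw [if_neg h, if_neg h, hf]
  rw [h1, Finset.sum_range]
  rw [← List.sum_ofFn, List.ofFn_eq_map]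
  congr 1
  rw [← List.map_coe_finRange_eq_range, List.map_map]
  rfl

private theorem refs_wt (F : Fr) : F.refs = wt (fun _ => 0) 1 F := by
  induction F with
  | const q => rfl
  | var i => rfl
  | ref j => rfl
  | add F G h1 h2 => rw [Fr.refs, h1, h2]; rfl
  | mul F G h1 h2 => rw [Fr.refs, h1, h2]; rfl

theorem refs_le (C : List Gt) : (toCir C).refs ≤ gReused C := by
  rw [Cir.refs, toCir_sum C Fr.refs fun _ => rfl, gReused, ← sum_ind (isRe C)]
  have h1 := cnt_main C (fun _ => 0) 1
  have h2 : ∑ a ∈ Finset.range C.length, (if isRe C a = true then (Tf C a).refs else 0) =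
      ∑ a ∈ Finset.range C.length,
        (if isRe C a = true then wt (fun _ => 0) 1 (Tf C a) else 0) :=
    Finset.sum_congr rfl fun a _ => by rw [refs_wt]
  rw [h2, refs_wt]
  refine h1.trans (List.sum_le_sum fun b _ => ?_)
  rw [lw]
  by_cases h : isRe C b = true
  · rw [if_pos h, if_pos h]
  · rw [if_neg h]
    refine le_trans ?_ (Nat.zero_le _)
    cases C.getD b (.const 0) <;> exact le_rfl

private theorem lvs_wt (H : ℕ → Prop) [DecidablePred H] (F : Fr) :
    (F.lvs.filter H).card = wt (fun i => if H i then 1 else 0) 0 F := by
  induction F with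
  | const q => rfl
  | var i =>
    show (Multiset.filter H {i}).card = if H i then 1 else 0
    rw [Multiset.filter_singleton]
    by_cases h : H i
    · rw [if_pos h, if_pos h]; rfl
    · rw [if_neg h, if_neg h]; rfl
  | ref j => rfl
  | add F G h1 h2 =>
    show (Multiset.filter H (F.lvs + G.lvs)).card = _
    rw [Multiset.filter_add, Multiset.card_add, h1, h2]
    rfl
  | mul F G h1 h2 =>
    show (Multiset.filter H (F.lvs + G.lvs)).card = _
    rw [Multiset.filter_add, Multiset.card_add, h1, h2]
    rfl

private theorem occ_wt (i : ℕ) (F : Fr) :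
    F.occ i = wt (fun j => if j = i then 1 else 0) 0 F := by
  induction F with
  | const q => rfl
  | var j => rfl
  | ref j => rfl
  | add F G h1 h2 => rw [Fr.occ, h1, h2]; rfl
  | mul F G h1 h2 => rw [Fr.occ, h1, h2]; rfl

private theorem use_lvs {C : List Gt} {i a b : ℕ} (ha : a ≤ C.length)
    (h : i ∈ (useF C ((fms C C).take a) b).lvs) : b < a ∧ i ∈ (Tf C b).lvs := by
  rw [useF_eq ha] at h
  by_cases h1 : b < a
  · rw [if_pos h1] at h
    by_cases h2 : isRe C b = true
    · rw [if_pos h2] at h
      exact absurd h (Multiset.notMem_zero i)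
    · rw [if_neg h2] at h
      exact ⟨h1, h⟩
  · rw [if_neg h1] at h
    exact absurd h (Multiset.notMem_zero i)

private theorem dep_mem {C : List Gt} {i : ℕ} (a : ℕ) (ha : a < C.length)
    (h : i ∈ (Tf C a).lvs) : i ∈ (dep C).getD a ∅ := by
  induction a using Nat.strong_induction_on with
  | _ a ih =>
    rw [Tf_eq ha] at h
    have hstep : ∀ b, i ∈ (useF C ((fms C C).take a) b).lvs →
        i ∈ ((dep C).take a).getD b ∅ := by
      intro b hb
      obtain ⟨h1, h2⟩ := use_lvs ha.le hb
      have h3 := ih b h1 (by omega) h2
      rwa [List.getD_eq_getElem?_getD, List.getElem?_take_of_lt h1,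
        ← List.getD_eq_getElem?_getD]
    have hd := dep_getD ha
    cases h3 : C.getD a (.const 0) with
    | const q =>
      rw [h3] at h
      exact absurd h (Multiset.notMem_zero i)
    | var j =>
      rw [h3] at h hd
      rw [hd]
      exact Finset.mem_singleton.2 (Multiset.mem_singleton.1 h)
    | add b b' =>
      rw [h3] at h hd
      rw [hd]
      rcases Multiset.mem_add.1 h with h | h
      · exact Finset.mem_union_left _ (hstep b h)
      · exact Finset.mem_union_right _ (hstep b' h)
    | mul b b' =>
      rw [h3] at h hd
      rw [hd]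
      rcases Multiset.mem_add.1 h with h | h
      · exact Finset.mem_union_left _ (hstep b h)
      · exact Finset.mem_union_right _ (hstep b' h)

private theorem heavy_imp {r : ℕ} {C : List Gt} {i : ℕ} (h : (toCir C).Heavy r i) :
    GHeavy r C i := by
  rcases h with ⟨F, hF, hi⟩ | h
  · left
    have hF' : F ∈ (List.range C.length).map fun a => if isRe C a then
      (fms C C).getD a (.const 0) else .const 0 := hF
    obtain ⟨a, ha, rfl⟩ := List.mem_map.1 hF'
    rw [List.mem_range] at ha
    by_cases h1 : isRe C a = true
    · rw [if_pos h1] at hi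
      exact ⟨a, ha, h1, dep_mem a ha hi⟩
    · rw [if_neg h1] at hi
      exact absurd hi (Multiset.notMem_zero i)
  · right
    refine lt_of_lt_of_le h ?_
    rw [occ_wt, gOcc, ← sum_ind (fun a => (C.getD a (.const 0)).isVar i)]
    have h1 := cnt_main C (fun j => if j = i then 1 else 0) 0
    refine le_trans (Nat.le_add_left _ _) (h1.trans (List.sum_le_sum fun b _ => ?_))
    rw [lw]
    by_cases h2 : isRe C b = true
    · rw [if_pos h2]
      exact Nat.zero_le _
    · rw [if_neg h2]
      cases h3 : C.getD b (.const 0) with
      | const q => exact Nat.zero_le _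
      | var j =>
        show (if j = i then 1 else 0) ≤ if (decide (j = i)) = true then 1 else 0
        by_cases h4 : j = i
        · rw [if_pos h4, if_pos (decide_eq_true h4)]
        · rw [if_neg h4]
          exact Nat.zero_le _
      | add b b' => exact Nat.zero_le _
      | mul b b' => exact Nat.zero_le _

theorem heavy_le (r : ℕ) (C : List Gt) : (toCir C).heavy r ≤ gHeavy r C := by
  classical
  have hsum : ∀ l : List Fr, (((l.map Fr.lvs).sum.filter fun i => (toCir C).Heavy r i).card) =
      (l.map fun F => wt (fun i => if (toCir C).Heavy r i then 1 else 0) 0 F).sum := by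
    intro l
    induction l with
    | nil => rfl
    | cons F l ih =>
      rw [List.map_cons, List.sum_cons, Multiset.filter_add, Multiset.card_add, ih, lvs_wt,
        List.map_cons, List.sum_cons]
  rw [Cir.heavy, Cir.lvs, Multiset.filter_add, Multiset.card_add, hsum, lvs_wt,
    toCir_sum C (fun F => wt (fun i => if (toCir C).Heavy r i then 1 else 0) 0 F) fun _ => rfl,
    gHeavy, ← sum_ind]
  have h1 := cnt_main C (fun i => if (toCir C).Heavy r i then 1 else 0) 0
  refine h1.trans (List.sum_le_sum fun b _ => ?_)
  rw [lw]
  by_cases h2 : isRe C b = true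
  · rw [if_pos h2]
    exact Nat.zero_le _
  · rw [if_neg h2]
    cases h3 : C.getD b (.const 0) with
    | const q => exact Nat.zero_le _
    | var j =>
      show (if (toCir C).Heavy r j then 1 else 0) ≤ _
      by_cases h4 : (toCir C).Heavy r j
      · rw [if_pos h4, if_pos]
        exact decide_eq_true ⟨j, decide_eq_true rfl, heavy_imp h4⟩
      · rw [if_neg h4]
        exact Nat.zero_le _
    | add b b' => exact Nat.zero_le _
    | mul b b' => exact Nat.zero_le _

/-- The gate is a variable. -/
def Gt.isV : Gt → Bool
  | const _ => false
  | var _ => true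
  | add _ _ => false
  | mul _ _ => false

/-- The number of the wires which leave gates labelled by variables. -/
def gLeaves (C : List Gt) : ℕ := ((wires C).filter fun a => (C.getD a (.const 0)).isV).length

private theorem filter_le (H : ℕ → Prop) [DecidablePred H] (C : List Gt) :
    ((toCir C).lvs.filter H).card ≤
      ((wires C).map (lw C (fun i => if H i then 1 else 0) 0)).sum := by
  have hsum : ∀ l : List Fr, (((l.map Fr.lvs).sum.filter H).card) =
      (l.map fun F => wt (fun i => if H i then 1 else 0) 0 F).sum := by
    intro l
    induction l with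
    | nil => rfl
    | cons F l ih =>
      rw [List.map_cons, List.sum_cons, Multiset.filter_add, Multiset.card_add, ih, lvs_wt,
        List.map_cons, List.sum_cons]
  rw [Cir.lvs, Multiset.filter_add, Multiset.card_add, hsum, lvs_wt,
    toCir_sum C (fun F => wt (fun i => if H i then 1 else 0) 0 F) fun _ => rfl]
  exact cnt_main C (fun i => if H i then 1 else 0) 0

theorem lvs_le (C : List Gt) : (toCir C).lvs.card ≤ gLeaves C := by
  have h0 : (toCir C).lvs.filter (fun _ => True) = (toCir C).lvs :=
    Multiset.filter_eq_self.2 fun _ _ => trivial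
  rw [← h0, gLeaves, ← sum_ind]
  refine (filter_le (fun _ => True) C).trans (List.sum_le_sum fun b _ => ?_)
  rw [lw]
  by_cases h2 : isRe C b = true
  · rw [if_pos h2]
    exact Nat.zero_le _
  · rw [if_neg h2]
    cases h3 : C.getD b (.const 0) with
    | const q => exact Nat.zero_le _
    | var j => exact le_rfl
    | add b b' => exact Nat.zero_le _
    | mul b b' => exact Nat.zero_le _

theorem gOcc_of_mem {C : List Gt} {i : ℕ} (h : i ∈ (toCir C).lvs) : gOcc C i ≠ 0 := by
  have h1 : 0 < ((toCir C).lvs.filter fun j => j = i).card :=
    Multiset.card_pos_iff_exists_mem.2 ⟨i, Multiset.mem_filter.2 ⟨h, rfl⟩⟩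
  refine (lt_of_lt_of_le h1 ?_).ne'
  rw [gOcc, ← sum_ind (fun a => (C.getD a (.const 0)).isVar i)]
  refine (filter_le (fun j => j = i) C).trans (List.sum_le_sum fun b _ => ?_)
  rw [lw]
  by_cases h2 : isRe C b = true
  · rw [if_pos h2]
    exact Nat.zero_le _
  · rw [if_neg h2]
    cases h3 : C.getD b (.const 0) with
    | const q => exact Nat.zero_le _
    | var j =>
      show (if j = i then 1 else 0) ≤ if (decide (j = i)) = true then 1 else 0
      by_cases h4 : j = i
      · rw [if_pos h4, if_pos (decide_eq_true h4)]
      · rw [if_neg h4]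
        exact Nat.zero_le _
    | add b b' => exact Nat.zero_le _
    | mul b b' => exact Nat.zero_le _

end Pool.Agent.CK
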