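import Pool.Agent.CK.GPre

set_option autoImplicit false

/-!
CK-GLen. The formulas of the gates have linear length: an inner gate which is not reused occurs in
the formula of at most one later gate, so the lengths of the formulas of the inner gates `i ≤ j`
add up to at most `3 * (j + 1)` plus the lengths of the formulas of the inner gates `b < j`.
-/

namespace Pool.Agent.CK

open MvPolynomial

/-- the length of the formula of gate number `a` -/
private def UU (C : List Gt) (a : ℕ) : ℕ := ((fms C C).getD a (.const 0)).code.length

/-- the gate number `a` is inner -/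
private def II (C : List Gt) (a : ℕ) : Bool := (C.getD a (.const 0)).inner

/-- the length, if the gate is inner -/
private def VV (C : List Gt) (a : ℕ) : ℕ := if II C a = true then UU C a else 0

/-- the length, if the gate is inner, not reused and before `j` -/
private def WW (C : List Gt) (j b : ℕ) : ℕ :=
  if b < j ∧ II C b = true ∧ isRe C b = false then UU C b else 0

private theorem uu_leaf {C : List Gt} {a : ℕ} (ha : a < C.length) (h : II C a = false) :
    UU C a = 1 := by
  unfold UU
  rw [fms_getD ha]
  unfold II at h
  revert h
  cases C.getD a (.const 0) <;> intro h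
  · rfl
  · rfl
  · exact absurd h (by simp [Gt.inner])
  · exact absurd h (by simp [Gt.inner])

private theorem use_le {C : List Gt} {i j b : ℕ} (hi : i < C.length) (hij : i ≤ j) :
    (useF C ((fms C C).take i) b).code.length ≤ 1 + WW C j b := by
  rw [useF_take hi.le]
  by_cases hb : b < i
  · rw [if_pos hb]
    cases hr : isRe C b
    · rw [if_neg (by simp)]
      cases hI : II C b
      · have h1 : UU C b = 1 := uu_leaf (hb.trans hi) hI
        unfold UU at h1
        rw [h1]
        exact Nat.le_add_right _ _
      · unfold WW
        rw [if_pos ⟨hb.trans_le hij, hI, hr⟩]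
        unfold UU
        exact Nat.le_add_left _ _
    · rw [if_pos rfl]
      change 1 ≤ _
      exact Nat.le_add_right _ _
  · rw [if_neg hb]
    change 1 ≤ _
    exact Nat.le_add_right _ _

private theorem vv_le {C : List Gt} {i j : ℕ} (hi : i < C.length) (hij : i ≤ j) :
    VV C i ≤ 3 + ((C.getD i (.const 0)).ins.map (WW C j)).sum := by
  unfold VV
  cases hI : II C i
  · rw [if_neg (by simp)]
    exact Nat.zero_le _
  · rw [if_pos rfl]
    unfold UU
    rw [fms_getD hi]
    have h1 := fun b => use_le (C := C) (b := b) hi hij
    unfold II at hI
    revert hI
    cases C.getD i (.const 0) with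
    | const q => intro h; exact absurd h (by simp [Gt.inner])
    | var q => intro h; exact absurd h (by simp [Gt.inner])
    | add b c =>
      intro _
      have h2 := h1 b
      have h3 := h1 c
      simp only [stF, Fr.code, List.length_append, List.length_singleton, Gt.ins, List.map_cons,
        List.map_nil, List.sum_cons, List.sum_nil]
      omega
    | mul b c =>
      intro _
      have h2 := h1 b
      have h3 := h1 c
      simp only [stF, Fr.code, List.length_append, List.length_singleton, Gt.ins, List.map_cons,
        List.map_nil, List.sum_cons, List.sum_nil]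
      omega

private theorem sum_ins {C : List Gt} (g : ℕ → ℕ) {k : ℕ} (hk : k ≤ C.length) :
    ∑ i ∈ Finset.range k, ((C.getD i (.const 0)).ins.map g).sum =
      (((C.take k).flatMap Gt.ins).map g).sum := by
  induction k with
  | zero => simp
  | succ k ih =>
    have hk' : k < C.length := hk
    have h1 : C.take (k + 1) = C.take k ++ [C[k]] := by
      rw [List.take_add_one, List.getElem?_eq_getElem hk']
      rfl
    rw [Finset.sum_range_succ, ih hk'.le, h1, List.flatMap_append, List.map_append,
      List.sum_append, List.getD_eq_getElem _ _ hk']
    simp

private theorem count_le {C : List Gt} (k b : ℕ) :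
    ((C.take k).flatMap Gt.ins).count b ≤ (wires C).count b := by
  have h1 : C.flatMap Gt.ins = (C.take k).flatMap Gt.ins ++ (C.drop k).flatMap Gt.ins := by
    rw [← List.flatMap_append, List.take_append_drop]
  unfold wires
  rw [h1, List.count_append, List.count_append]
  omega

private theorem sum_ww {C : List Gt} (j k : ℕ) :
    (((C.take k).flatMap Gt.ins).map (WW C j)).sum ≤ ∑ b ∈ Finset.range j, VV C b := by
  classical
  rw [Finset.sum_list_map_count]
  have h1 : ∀ b ∈ ((C.take k).flatMap Gt.ins).toFinset,
      ((C.take k).flatMap Gt.ins).count b • WW C j b ≤ if b < j then VV C b else 0 := by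
    intro b _
    unfold WW
    by_cases hb : b < j ∧ II C b = true ∧ isRe C b = false
    · rw [if_pos hb, if_pos hb.1]
      unfold VV
      rw [if_pos hb.2.1]
      have h2 : (wires C).count b ≤ 1 := by
        have h3 := hb.2.2
        have h4 := hb.2.1
        unfold isRe at h3
        unfold II at h4
        rw [h4, Bool.true_and, decide_eq_false_iff_not] at h3
        omega
      have h3 := count_le (C := C) k b
      calc ((C.take k).flatMap Gt.ins).count b • UU C b ≤ 1 • UU C b := by
            exact Nat.mul_le_mul_right _ (h3.trans h2)
        _ = UU C b := one_smul _ _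
    · rw [if_neg hb, smul_zero]
      exact Nat.zero_le _
  refine (Finset.sum_le_sum h1).trans ?_
  rw [← Finset.sum_filter]
  refine Finset.sum_le_sum_of_subset ?_
  intro b hb
  exact Finset.mem_range.2 (Finset.mem_filter.1 hb).2

private theorem vv_bound {C : List Gt} {j : ℕ} (hj : j < C.length) :
    VV C j ≤ 3 * (j + 1) := by
  have h1 : ∑ i ∈ Finset.range (j + 1), VV C i ≤
      ∑ i ∈ Finset.range (j + 1), (3 + ((C.getD i (.const 0)).ins.map (WW C j)).sum) := by
    refine Finset.sum_le_sum fun i hi => ?_
    have h2 := Finset.mem_range.1 hi
    exact vv_le (by omega) (by omega)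
  rw [Finset.sum_add_distrib, sum_ins _ (k := j + 1) hj, Finset.sum_const, Finset.card_range, smul_eq_mul,
    Finset.sum_range_succ] at h1
  have h3 := sum_ww (C := C) j (j + 1)
  omega

theorem len_le (C : List Gt) (a : ℕ) :
    ((fms C C).getD a (.const 0)).code.length ≤ 3 * (C.length + 1) := by
  by_cases ha : a < C.length
  · cases hI : II C a
    · have h1 : UU C a = 1 := uu_leaf ha hI
      unfold UU at h1
      rw [h1]
      omega
    · have h1 := vv_bound ha
      unfold VV at h1
      rw [if_pos hI] at h1
      unfold UU at h1
      omega
  · rw [List.getD_eq_default _ _ (by rw [fms_length]; omega)]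
    change 1 ≤ _
    omega

end Pool.Agent.CK
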