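import Pool.Agent.CK.GCDefs
import Pool.Agent.CK.GLen

set_option autoImplicit false

/-!
CK-GCode. The translation on codes agrees with the translation: the bound for the lengths of the
codes is never exceeded, as every formula has at most `3 * (C.length + 1)` tokens, and every token
is short.
-/

namespace Pool.Agent.CK

open N487b59b3 N68a2faeb Pool.Agent.Helper22 Pool.Agent.Helper6.WB

private theorem ins_code (g : Gt) : insC g.code = g.ins := by
  cases g <;> rfl

private theorem inner_code (g : Gt) : decide (2 ≤ g.code.1) = g.inner := by
  cases g <;> rfl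

private theorem wires_code (C : List Gt) : wiresC (C.map Gt.code) = wires C := by
  unfold wiresC wires
  rw [List.flatMap_map, List.length_map]
  congr 2
  funext g
  exact ins_code g

private theorem getD_code (C : List Gt) (a : ℕ) :
    (C.map Gt.code).getD a (0, (0, (0, 0))) = (C.getD a (.const 0)).code := by
  have h : ((0, (0, (0, 0))) : ℕ × (ℕ × (ℕ × ℚ))) = (Gt.const 0).code := rfl
  rw [h, List.getD_map]

private theorem re_code (C : List Gt) (a : ℕ) : isReC (C.map Gt.code) a = isRe C a := by
  unfold isReC isRe
  rw [getD_code, inner_code, wires_code]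
  congr 2
  rw [List.count_eq_length_filter]
  rfl

private theorem getDT_code (T : List Fr) (a : ℕ) :
    (T.map Fr.code).getD a zC = (T.getD a (.const 0)).code := by
  have h : zC = (Fr.const 0).code := rfl
  rw [h, List.getD_map]

private theorem use_code (C : List Gt) (T : List Fr) (a : ℕ) :
    useC (C.map Gt.code) (T.map Fr.code) a = (useF C T a).code := by
  unfold useC useF
  rw [re_code, getDT_code, List.length_map]
  by_cases h : a < T.length
  · rw [if_pos h, if_pos (decide_eq_true (by omega : a + 1 ≤ T.length))]
    split_ifs <;> rfl
  · rw [if_neg h, if_neg (by rw [decide_eq_true_eq]; omega)]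
    rfl

private theorem st_code (C : List Gt) (T : List Fr) (g : Gt) :
    stC (C.map Gt.code) (T.map Fr.code) g.code = (stF C T g).code := by
  cases g with
  | const q => rfl
  | var i => rfl
  | add a b =>
    show useC (C.map Gt.code) (T.map Fr.code) a ++ useC (C.map Gt.code) (T.map Fr.code) b ++
      [(1, 0)] = (useF C T a).code ++ (useF C T b).code ++ [(1, 0)]
    rw [use_code, use_code]
  | mul a b =>
    show useC (C.map Gt.code) (T.map Fr.code) a ++ useC (C.map Gt.code) (T.map Fr.code) b ++
      [(2, 0)] = (useF C T a).code ++ (useF C T b).code ++ [(2, 0)]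
    rw [use_code, use_code]

private theorem sz_q0 : sz (0 : ℚ) = 4 := by
  have h : sz (0 : ℚ) = sz ((0 : ℤ), (1 : ℕ)) := rfl
  have h2 : sz (0 : ℤ) = sz ((0 : ℕ), (0 : ℕ)) := rfl
  rw [h, sz_pair, h2, sz_pair, sz_nat, sz_nat]
  rfl

private theorem size_le_self (n : ℕ) : n.size ≤ n := Nat.size_le.2 Nat.lt_two_pow_self

private theorem size_two (n c : ℕ) (hc : c ≤ 4) : (2 * n + c).size ≤ n.size + 3 := by
  rw [Nat.size_le]
  have h1 : n < 2 ^ n.size := Nat.lt_size_self n
  have h2 : 2 ^ (n.size + 3) = 8 * 2 ^ n.size := by rw [pow_add]; ring
  rw [h2]
  omega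

private theorem tok {C : List Gt} (j : ℕ) (hj : j ≤ C.length) :
    ∀ F ∈ fms C (C.take j), ∀ t ∈ F.code, sz t ≤ 3 * sz (C.map Gt.code) + 40 := by
  induction j with
  | zero =>
    intro F hF
    rw [List.take_zero] at hF
    simp [fms] at hF
  | succ j ih =>
    have hj' : j < C.length := hj
    have h1 : C.take (j + 1) = C.take j ++ [C[j]] := by
      rw [List.take_add_one, List.getElem?_eq_getElem hj']
      rfl
    rw [h1, fms_eq, rec'_snoc, ← fms_eq]
    intro F hF
    rw [List.mem_append] at hF
    rcases hF with hF | hF
    · exact ih hj'.le F hF
    · rw [List.mem_singleton] at hF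
      have hlen : C.length ≤ sz (C.map Gt.code) := by
        have := length_le_sz (C.map Gt.code)
        rwa [List.length_map] at this
      have hmem : sz (C[j]).code ≤ sz (C.map Gt.code) :=
        sz_mem_le (List.mem_map_of_mem (List.getElem_mem hj'))
      have hT : (fms C (C.take j)).length = j := by
        rw [fms_length, List.length_take, min_eq_left hj'.le]
      have huse : ∀ a, ∀ t ∈ (useF C (fms C (C.take j)) a).code,
          sz t ≤ 3 * sz (C.map Gt.code) + 40 := by
        intro a t ht
        unfold useF at ht
        split_ifs at ht with ha hr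
        · have h2 : t = (2 * a + 4, 0) := by simpa [Fr.code] using ht
          rw [h2, sz_pair, sz_nat, sz_q0]
          have h3 := size_two a 4 le_rfl
          have h4 := size_le_self a
          rw [hT] at ha
          have h5 : (2 * a + 4).size ≤ sz (C.map Gt.code) + 3 := by omega
          omega
        · refine ih hj'.le _ ?_ t ht
          rw [List.getD_eq_getElem _ _ ha]
          exact List.getElem_mem ha
        · have h2 : t = (0, 0) := by simpa [Fr.code] using ht
          rw [h2, sz_pair, sz_nat, sz_q0]
          have : Nat.size 0 = 0 := rfl
          omega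
      intro t ht
      rw [hF] at ht
      revert ht hmem
      generalize C[j] = g
      intro hmem ht
      cases g with
      | const q =>
        have h2 : t = (0, q) := by simpa [stF, Fr.code] using ht
        simp only [Gt.code, sz_pair, sz_nat] at hmem
        rw [h2, sz_pair, sz_nat]
        have : Nat.size 0 = 0 := rfl
        omega
      | var i =>
        have h2 : t = (2 * i + 3, 0) := by simpa [stF, Fr.code] using ht
        simp only [Gt.code, sz_pair, sz_nat] at hmem
        rw [h2, sz_pair, sz_nat, sz_q0]
        have h3 := size_two i 3 (by norm_num)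
        omega
      | add a b =>
        have h2 : t ∈ (useF C (fms C (C.take j)) a).code ++ (useF C (fms C (C.take j)) b).code ++
          [(1, 0)] := ht
        rw [List.mem_append, List.mem_append, List.mem_singleton] at h2
        rcases h2 with (h2 | h2) | h2
        · exact huse a t h2
        · exact huse b t h2
        · rw [h2, sz_pair, sz_nat, sz_q0]
          have : Nat.size 1 = 1 := rfl
          omega
      | mul a b =>
        have h2 : t ∈ (useF C (fms C (C.take j)) a).code ++ (useF C (fms C (C.take j)) b).code ++
          [(2, 0)] := ht
        rw [List.mem_append, List.mem_append, List.mem_singleton] at h2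
        rcases h2 with (h2 | h2) | h2
        · exact huse a t h2
        · exact huse b t h2
        · rw [h2, sz_pair, sz_nat, sz_q0]
          have : Nat.size 2 = 2 := rfl
          omega

private theorem sz_list_le {l : List (ℕ × ℚ)} {M : ℕ} (h : ∀ t ∈ l, sz t ≤ M) :
    sz l ≤ l.length * (2 * M + 1) := by
  have := sz_map_le (fun t : ℕ × ℚ => t) l M h
  rwa [List.map_id'] at this

private theorem fms_code (C : List Gt) (j : ℕ) (hj : j ≤ C.length) :
    fmsC (bdC (C.map Gt.code)) (C.map Gt.code) ((C.take j).map Gt.code) =
      (fms C (C.take j)).map Fr.code := by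
  induction j with
  | zero => rw [List.take_zero]; rfl
  | succ j ih =>
    have hj' : j < C.length := hj
    have h1 : C.take (j + 1) = C.take j ++ [C[j]] := by
      rw [List.take_add_one, List.getElem?_eq_getElem hj']
      rfl
    have h2 : ∀ (B : List Bool) (l l' : List GC) (t : GC), fmsC B l (l' ++ [t]) =
        fmsC B l l' ++ [cpL B (stC l (fmsC B l l') t)] := by
      intro B l l' t
      unfold fmsC
      rw [List.foldl_append]
      rfl
    have h3 : fms C (C.take j ++ [C[j]]) =
        fms C (C.take j) ++ [stF C (fms C (C.take j)) C[j]] := by
      rw [fms_eq, rec'_snoc, ← fms_eq]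
    have h4 : cpL (bdC (C.map Gt.code)) (stF C (fms C (C.take j)) C[j]).code =
        (stF C (fms C (C.take j)) C[j]).code := by
      unfold cpL
      rw [if_pos]
      rw [decide_eq_true_eq]
      have h5 : ∀ t ∈ (stF C (fms C (C.take j)) C[j]).code,
          sz t ≤ 3 * sz (C.map Gt.code) + 40 := by
        apply tok (j + 1) hj
        rw [h1, h3]
        exact List.mem_append_right _ (List.mem_singleton_self _)
      have h6 : (stF C (fms C (C.take j)) C[j]).code.length ≤ 3 * (C.length + 1) := by
        have h7 := len_le C j
        rw [fms_getD hj', List.getD_eq_getElem _ _ hj', fms_eq, ← rec'_take, ← fms_eq] at h7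
        exact h7
      refine (sz_list_le h5).trans ?_
      unfold bdC
      rw [un_length, List.length_map]
      exact Nat.mul_le_mul h6 (by omega)
    rw [h1, List.map_append, List.map_singleton, h2, ih hj'.le, st_code, h4, h3, List.map_append,
      List.map_singleton]

theorem toCirC_code (C : List Gt) : toCirC (C.map Gt.code) = (toCir C).code := by
  have h := fms_code C C.length le_rfl
  rw [List.take_length] at h
  unfold toCirC toCir Cir.code
  rw [h, List.length_map, use_code, List.map_map]
  congr 1
  apply List.map_congr_left
  intro a _
  rw [re_code, getDT_code]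
  show _ = (if isRe C a = true then (fms C C).getD a (Fr.const 0) else Fr.const 0).code
  split_ifs <;> rfl

end Pool.Agent.CK
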