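import Pool.Agent.CK.Defs

set_option autoImplicit false

/-!
Arithmetic circuits as directed acyclic graphs, and the translation into `Cir`.
-/

namespace Pool.Agent.CK

open MvPolynomial

/-- The gates of an arithmetic circuit over `ℚ`: rational constants, variables, and sums and
products of the gates number `a` and `b`. -/
inductive Gt : Type
  | const (q : ℚ) : Gt
  | var (i : ℕ) : Gt
  | add (a b : ℕ) : Gt
  | mul (a b : ℕ) : Gt

namespace Gt

/-- The inputs of a gate. -/
def ins : Gt → List ℕ
  | const _ => []
  | var _ => []
  | add a b => [a, b]
  | mul a b => [a, b]

/-- The gate is a sum or a product. -/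
def inner : Gt → Bool
  | const _ => false
  | var _ => false
  | add _ _ => true
  | mul _ _ => true

/-- The gate is the variable `x_i`. -/
def isVar (i : ℕ) : Gt → Bool
  | const _ => false
  | var j => decide (j = i)
  | add _ _ => false
  | mul _ _ => false

/-- The value of a gate, if `x_i` has the value `σ i` and gate `j` has the value `y j`. -/
def evl {A : Type} [CommSemiring A] [Algebra ℚ A] (σ y : ℕ → A) : Gt → A
  | const q => algebraMap ℚ A q
  | var i => σ i
  | add a b => y a + y b
  | mul a b => y a * y b

/-- The code of a gate. -/
def code : Gt → ℕ × (ℕ × (ℕ × ℚ))
  | const q => (0, (0, (0, q)))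
  | var i => (1, (i, (0, 0)))
  | add a b => (2, (a, (b, 0)))
  | mul a b => (3, (a, (b, 0)))

end Gt

/-- The values of the gates of a circuit, if `x_i` has the value `σ i`. A circuit is the list of
its gates in a topological order; an input which is not the number of an earlier gate has the
value `0`. -/
def gvals {A : Type} [CommSemiring A] [Algebra ℚ A] (σ : ℕ → A) (C : List Gt) : List A :=
  C.foldl (fun ys g => ys ++ [g.evl σ fun j => ys.getD j 0]) []

/-- The polynomial computed by the circuit, i.e. by its last gate. -/
noncomputable def gpoly (C : List Gt) : MvPolynomial ℕ ℚ :=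
  (gvals (X : ℕ → MvPolynomial ℕ ℚ) C).getD (C.length - 1) 0

/-- The sources of the wires of the circuit; the last wire leads from the last gate to the
output. -/
def wires (C : List Gt) : List ℕ := C.flatMap Gt.ins ++ [C.length - 1]

/-- Gate number `a` is reused: it is a sum or a product and at least two wires leave it. -/
def isRe (C : List Gt) (a : ℕ) : Bool :=
  (C.getD a (.const 0)).inner && decide (2 ≤ (wires C).count a)

/-- The number of the wires which leave reused gates. -/
def gReused (C : List Gt) : ℕ := ((wires C).filter (isRe C)).length

/-- The variables on which the gates depend. -/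
def dep (C : List Gt) : List (Finset ℕ) :=
  C.foldl (fun ys g => ys ++ [match g with
    | .const _ => ∅
    | .var i => {i}
    | .add a b => ys.getD a ∅ ∪ ys.getD b ∅
    | .mul a b => ys.getD a ∅ ∪ ys.getD b ∅]) []

/-- The number of the wires which leave gates labelled by the variable `x_i`. -/
def gOcc (C : List Gt) (i : ℕ) : ℕ :=
  ((wires C).filter fun a => (C.getD a (.const 0)).isVar i).length

/-- The variable `x_i` is heavy: a reused gate depends on it, or more than `r` wires leave the
gates labelled by `x_i`. -/
def GHeavy (r : ℕ) (C : List Gt) (i : ℕ) : Prop :=
  (∃ a < C.length, isRe C a = true ∧ i ∈ (dep C).getD a ∅) ∨ r < gOcc C i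

open Classical in
/-- The number of the wires which leave gates labelled by heavy variables. -/
noncomputable def gHeavy (r : ℕ) (C : List Gt) : ℕ :=
  ((wires C).filter fun a => decide (∃ i, (C.getD a (.const 0)).isVar i = true ∧
    GHeavy r C i)).length

/-! ### The translation -/

/-- the formula used for the gate number `a` by a gate for which the formulas `T` of the earlier
gates are known -/
def useF (C : List Gt) (T : List Fr) (a : ℕ) : Fr :=
  if a < T.length then (if isRe C a then .ref a else T.getD a (.const 0)) else .const 0

/-- the formula of a gate -/
def stF (C : List Gt) (T : List Fr) : Gt → Fr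
  | .const q => .const q
  | .var i => .var i
  | .add a b => .add (useF C T a) (useF C T b)
  | .mul a b => .mul (useF C T a) (useF C T b)

/-- the formulas of the gates `g ∈ l` of the circuit `C`; `l` is a prefix of `C` -/
def fms (C : List Gt) (l : List Gt) : List Fr := l.foldl (fun T g => T ++ [stF C T g]) []

/-- the circuit in the form `Cir`: the reused gates and the output -/
def toCir (C : List Gt) : Cir :=
  ⟨(List.range C.length).map fun a => if isRe C a then (fms C C).getD a (.const 0) else .const 0,
    useF C (fms C C) (C.length - 1)⟩

end Pool.Agent.CK
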