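import Pool.Agent.CK.GCDefs
import Pool.Agent.CK.TA

set_option autoImplicit false

/-!
CK-GFp. Polynomial time: the translation of circuits. The formulas of the gates are computed by a fold whose state
carries the length bound and the circuit; every step adds one list of bounded size.
-/

namespace Pool.Agent.CK

open N487b59b3 N68a2faeb Pool.Agent.Helper22 Pool.Agent.Helper6.WB Pool.Agent.Helper47.TR
  Pool.Agent.QH

private theorem fp_insC : FP insC := by
  have h1 : FP fun t : GC => t.2.1 := FP.fst.comp FP.snd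
  have h2 : FP fun t : GC => t.2.2.1 := FP.fst.comp (FP.snd.comp FP.snd)
  exact FP.ite (FP.natLe FP.fst (FP.const 1)) (FP.const []) (FP.cons h1 (FP.cons h2 (FP.const [])))

private theorem fp_wiresC : FP wiresC := by
  have h1 : FP fun l : List GC => l.flatMap fun b => (fun q : List GC × GC => insC q.2) (l, b) :=
    Pool.Agent.Helper6.SP.fp_flatMap (f := fun l : List GC => l)
      (h := fun q : List GC × GC => insC q.2) FP.id (fp_insC.comp FP.snd)
  have h2 : FP fun l : List GC => l.length - 1 :=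
    Pool.Agent.PQ.fp_natSub (FP.length FP.id) (FP.const 1)
  exact FP.append h1 (FP.cons h2 (FP.const []))

private theorem fp_isReC : FP fun q : List GC × ℕ => isReC q.1 q.2 := by
  have h1 : FP fun q : List GC × ℕ => (q.1.getD q.2 (0, (0, (0, 0)))).1 :=
    FP.fst' (fp_getN (f := fun q : List GC × ℕ => q.1) (i := fun q : List GC × ℕ => q.2)
      FP.fst FP.snd (0, (0, (0, 0))))
  have h2 : FP fun q : List GC × ℕ => (wiresC q.1).filter fun b => decide (b = q.2) :=
    fp_filt (f := fun q : List GC × ℕ => wiresC q.1)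
      (c := fun p : (List GC × ℕ) × ℕ => decide (p.2 = p.1.2)) (fp_wiresC.comp FP.fst)
      (FP.natEq FP.snd (FP.snd.comp FP.fst))
  exact FP.and (FP.natLe (FP.const 2) h1) (FP.natLe (FP.const 2) (FP.length h2))

private theorem fp_useC : FP fun q : List GC × (List (List (ℕ × ℚ)) × ℕ) =>
    useC q.1 q.2.1 q.2.2 := by
  have hl : FP fun q : List GC × (List (List (ℕ × ℚ)) × ℕ) => q.1 := FP.fst
  have hT : FP fun q : List GC × (List (List (ℕ × ℚ)) × ℕ) => q.2.1 := FP.fst.comp FP.snd
  have ha : FP fun q : List GC × (List (List (ℕ × ℚ)) × ℕ) => q.2.2 := FP.snd.comp FP.snd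
  have h1 : FP fun q : List GC × (List (List (ℕ × ℚ)) × ℕ) => isReC q.1 q.2.2 :=
    fp_isReC.comp (FP.pair hl ha)
  have h2 : FP fun q : List GC × (List (List (ℕ × ℚ)) × ℕ) => ((2 * q.2.2 + 4, 0) : ℕ × ℚ) :=
    FP.pair (FP.natAdd (FP.natMul (FP.const 2) ha) (FP.const 4)) (FP.const 0)
  exact FP.ite (FP.natLe (FP.natAdd ha (FP.const 1)) (FP.length hT))
    (FP.ite h1 (FP.cons h2 (FP.const [])) (fp_getN hT ha zC)) (FP.const zC)

private theorem fp_stC : FP fun q : List GC × (List (List (ℕ × ℚ)) × GC) =>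
    stC q.1 q.2.1 q.2.2 := by
  have hl : FP fun q : List GC × (List (List (ℕ × ℚ)) × GC) => q.1 := FP.fst
  have hT : FP fun q : List GC × (List (List (ℕ × ℚ)) × GC) => q.2.1 := FP.fst.comp FP.snd
  have ht : FP fun q : List GC × (List (List (ℕ × ℚ)) × GC) => q.2.2 := FP.snd.comp FP.snd
  have t1 : FP fun q : List GC × (List (List (ℕ × ℚ)) × GC) => q.2.2.1 := FP.fst' ht
  have t2 : FP fun q : List GC × (List (List (ℕ × ℚ)) × GC) => q.2.2.2.1 := FP.fst' (FP.snd' ht)
  have t3 : FP fun q : List GC × (List (List (ℕ × ℚ)) × GC) => q.2.2.2.2.1 :=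
    FP.fst' (FP.snd' (FP.snd' ht))
  have t4 : FP fun q : List GC × (List (List (ℕ × ℚ)) × GC) => q.2.2.2.2.2 :=
    FP.snd' (FP.snd' (FP.snd' ht))
  have u1 : FP fun q : List GC × (List (List (ℕ × ℚ)) × GC) => useC q.1 q.2.1 q.2.2.2.1 :=
    fp_useC.comp (FP.pair hl (FP.pair hT t2))
  have u2 : FP fun q : List GC × (List (List (ℕ × ℚ)) × GC) => useC q.1 q.2.1 q.2.2.2.2.1 :=
    fp_useC.comp (FP.pair hl (FP.pair hT t3))
  have c1 : FP fun q : List GC × (List (List (ℕ × ℚ)) × GC) => ([(0, q.2.2.2.2.2)] : List (ℕ × ℚ)) :=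
    FP.cons (FP.pair (FP.const 0) t4) (FP.const [])
  have c2 : FP fun q : List GC × (List (List (ℕ × ℚ)) × GC) =>
      ([(2 * q.2.2.2.1 + 3, 0)] : List (ℕ × ℚ)) :=
    FP.cons (FP.pair (FP.natAdd (FP.natMul (FP.const 2) t2) (FP.const 3)) (FP.const 0)) (FP.const [])
  have c3 : FP fun q : List GC × (List (List (ℕ × ℚ)) × GC) =>
      ([(if decide (q.2.2.1 = 2) then 1 else 2, 0)] : List (ℕ × ℚ)) :=
    FP.cons (FP.pair (FP.ite (FP.natEq t1 (FP.const 2)) (FP.const 1) (FP.const 2)) (FP.const 0))
      (FP.const [])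
  exact FP.ite (FP.natEq t1 (FP.const 0)) c1 (FP.ite (FP.natEq t1 (FP.const 1)) c2
    (FP.append (FP.append u1 u2) c3))

private theorem fp_cpL : FP fun q : List Bool × List (ℕ × ℚ) => cpL q.1 q.2 := by
  have h1 : FP fun q : List Bool × List (ℕ × ℚ) => (bitEncode q.2 : List Bool) := fp_raw FP.snd
  have h2 : FP fun q : List Bool × List (ℕ × ℚ) => decide (sz q.2 ≤ q.1.length) :=
    FP.length_le h1 FP.fst
  exact FP.ite h2 FP.snd (FP.const [])

private theorem sz_cpL (B : List Bool) (l : List (ℕ × ℚ)) : sz (cpL B l) ≤ B.length := by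
  unfold cpL
  by_cases h : sz l ≤ B.length
  · rw [if_pos (decide_eq_true h)]
    exact h
  · rw [if_neg (by simpa using h)]
    exact Nat.zero_le _

/-- the states of the fold -/
private abbrev StF := List Bool × (List GC × List (List (ℕ × ℚ)))

/-- the step of the fold -/
private def stepF (s : StF) (t : GC) : StF :=
  (s.1, (s.2.1, s.2.2 ++ [cpL s.1 (stC s.2.1 s.2.2 t)]))

private theorem stepF_foldl (l' : List GC) (B : List Bool) (l : List GC)
    (T : List (List (ℕ × ℚ))) : l'.foldl stepF (B, (l, T)) =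
      (B, (l, l'.foldl (fun T t => T ++ [cpL B (stC l T t)]) T)) := by
  induction l' generalizing T with
  | nil => rfl
  | cons t l' ih => exact ih _

private theorem sz_foldF (l' : List GC) (B : List Bool) (l : List GC)
    (T : List (List (ℕ × ℚ))) :
    sz (l'.foldl (fun T t => T ++ [cpL B (stC l T t)]) T) ≤
      sz T + l'.length * (2 * B.length + 1) := by
  induction l' generalizing T with
  | nil => simp
  | cons t l' ih =>
    rw [List.foldl_cons]
    refine (ih _).trans ?_
    have h1 := sz_cpL B (stC l T t)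
    rw [sz_append, sz_cons, sz_nil, List.length_cons]
    have h2 : (l'.length + 1) * (2 * B.length + 1) = l'.length * (2 * B.length + 1) +
      (2 * B.length + 1) := by ring
    omega

private theorem fp_foldF : FP fun p : List GC × StF => p.1.foldl stepF p.2 := by
  refine FP.foldl (g := stepF) ?_ (B := fun n => n + n * (2 * n + 1)) (by fun_prop) ?_
  · have h1 : FP fun p : StF × GC => p.1.1 := FP.fst.comp FP.fst
    have h2 : FP fun p : StF × GC => p.1.2.1 := FP.fst.comp (FP.snd.comp FP.fst)
    have h3 : FP fun p : StF × GC => p.1.2.2 := FP.snd.comp (FP.snd.comp FP.fst)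
    have h4 : FP fun p : StF × GC => stC p.1.2.1 p.1.2.2 p.2 :=
      fp_stC.comp (FP.pair h2 (FP.pair h3 FP.snd))
    have h5 : FP fun p : StF × GC => cpL p.1.1 (stC p.1.2.1 p.1.2.2 p.2) :=
      fp_cpL.comp (FP.pair h1 h4)
    exact FP.pair h1 (FP.pair h2 (FP.append h3 (FP.cons h5 (FP.const []))))
  · rintro l' ⟨B, l, T⟩
    rw [stepF_foldl]
    have h1 := sz_foldF l' B l T
    have h2 := length_le_sz l'
    generalize l'.foldl (fun T t => T ++ [cpL B (stC l T t)]) T = T' at h1 ⊢
    simp only [sz_pair, sz_bits]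
    generalize hN : sz l' + (2 * (3 * B.length) + 1 + (2 * sz l + 1 + sz T)) = N
    have h3 : l'.length * (2 * B.length + 1) ≤ N * (2 * N + 1) :=
      Nat.mul_le_mul (by omega) (by omega)
    omega

private theorem fp_fmsC : FP fun q : List Bool × List GC => fmsC q.1 q.2 q.2 := by
  have h1 : FP fun q : List Bool × List GC => q.2.foldl stepF (q.1, (q.2, [])) :=
    fp_foldF.comp (FP.pair FP.snd (FP.pair FP.fst (FP.pair FP.snd (FP.const []))))
  refine (congrArg FP (funext fun q => ?_)).mp (FP.snd' (FP.snd' h1))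
  rw [stepF_foldl]
  rfl

private theorem fp_bdC : FP bdC := by
  have h1 : FP fun l : List GC => un ((un 3).length * (un l.length ++ un 1).length) :=
    FP.unMul (FP.const (un 3)) (FP.append (FP.un_length FP.id) (FP.const (un 1)))
  have h2 : FP fun l : List GC => un ((un 10).length * ((bitEncode l : List Bool) ++ un 10).length) :=
    FP.unMul (FP.const (un 10)) (FP.append (fp_raw FP.id) (FP.const (un 10)))
  refine (congrArg FP (funext fun l => ?_)).mp (FP.unMul h1 h2)
  simp only [un_length, List.length_append]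
  rfl

theorem fp_toCirC : FP toCirC := by
  have hb : FP fun l : List GC => (bdC l, l) := FP.pair (f := bdC) (g := fun l => l) fp_bdC FP.id
  have hf : FP fun l : List GC => fmsC (bdC l) l l :=
    FP.comp (g := fun q : List Bool × List GC => fmsC q.1 q.2 q.2)
      (f := fun l : List GC => (bdC l, l)) fp_fmsC hb
  have hf' : FP fun q : List GC × ℕ => fmsC (bdC q.1) q.1 q.1 :=
    FP.comp (g := fun l : List GC => fmsC (bdC l) l l) (f := fun q : List GC × ℕ => q.1) hf FP.fst
  have h1 : FP fun q : List GC × ℕ => if isReC q.1 q.2 then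
      (fmsC (bdC q.1) q.1 q.1).getD q.2 zC else zC :=
    FP.ite fp_isReC (fp_getN hf' FP.snd zC) (FP.const zC)
  have h2 : FP fun l : List GC => (List.range l.length).map fun a =>
      (fun q : List GC × ℕ => if isReC q.1 q.2 then
        (fmsC (bdC q.1) q.1 q.1).getD q.2 zC else zC) (l, a) :=
    Pool.Agent.Helper6.SP.fp_map (FP.range FP.id) h1
  have h3 : FP fun l : List GC => useC l (fmsC (bdC l) l l) (l.length - 1) :=
    fp_useC.comp (FP.pair FP.id (FP.pair hf
      (Pool.Agent.PQ.fp_natSub (FP.length FP.id) (FP.const 1))))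
  exact FP.pair h2 h3

end Pool.Agent.CK
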