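import Pool.Agent.CK.GDefs

set_option autoImplicit false

/-!
Folds which add one element to a list in every step.
-/

namespace Pool.Agent.CK

section

variable {γ δ : Type}

/-- the list of the values of `f`, which depend on the values before -/
def rec' (f : List δ → γ → δ) (l : List γ) : List δ := l.foldl (fun T g => T ++ [f T g]) []

theorem rec'_nil (f : List δ → γ → δ) : rec' f [] = [] := rfl

theorem rec'_snoc (f : List δ → γ → δ) (l : List γ) (g : γ) :
    rec' f (l ++ [g]) = rec' f l ++ [f (rec' f l) g] := by
  simp [rec']

@[simp] theorem rec'_length (f : List δ → γ → δ) (l : List γ) : (rec' f l).length = l.length := by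
  induction l using List.reverseRecOn with
  | nil => rfl
  | append_singleton l g ih => rw [rec'_snoc, List.length_append, List.length_append, ih]; rfl

theorem rec'_append (f : List δ → γ → δ) (l l' : List γ) :
    ∃ T, rec' f (l ++ l') = rec' f l ++ T ∧ T.length = l'.length := by
  induction l' using List.reverseRecOn with
  | nil => exact ⟨[], by simp, rfl⟩
  | append_singleton l' g ih =>
    obtain ⟨T, hT, hl⟩ := ih
    refine ⟨T ++ [f (rec' f (l ++ l')) g], ?_, ?_⟩
    · rw [← List.append_assoc, rec'_snoc, hT, List.append_assoc]
    · simp [hl]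

theorem rec'_take (f : List δ → γ → δ) (l : List γ) (a : ℕ) :
    rec' f (l.take a) = (rec' f l).take a := by
  obtain ⟨T, hT, _⟩ := rec'_append f (l.take a) (l.drop a)
  rw [List.take_append_drop] at hT
  rw [hT]
  by_cases h : a ≤ l.length
  · rw [List.take_append_of_le_length (by rw [rec'_length, List.length_take]; omega)]
    exact (List.take_of_length_le (by rw [rec'_length, List.length_take]; omega)).symm
  · have h1 : l.length ≤ a := by omega
    have h2 : T = [] := by
      have h3 := congrArg List.length hT
      rw [List.length_append, rec'_length, rec'_length, List.take_of_length_le h1] at h3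
      exact List.length_eq_zero_iff.1 (by omega)
    rw [h2, List.append_nil, List.take_of_length_le (l := rec' f (l.take a)) (by
      rw [rec'_length, List.length_take]; omega)]

theorem rec'_getD (f : List δ → γ → δ) (l : List γ) {a : ℕ} (ha : a < l.length) (d : δ) :
    (rec' f l).getD a d = f ((rec' f l).take a) (l[a]) := by
  have h1 : l.take (a + 1) = l.take a ++ [l[a]] := by
    rw [List.take_add_one, List.getElem?_eq_getElem ha]
    rfl
  have h2 := rec'_take f l (a + 1)
  rw [h1, rec'_snoc, rec'_take] at h2
  have h3 : (rec' f l).getD a d = ((rec' f l).take (a + 1)).getD a d := by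
    rw [List.getD_eq_getElem?_getD, List.getD_eq_getElem?_getD, List.getElem?_take_of_lt
      (Nat.lt_succ_self a)]
  rw [h3, ← h2, List.getD_append_right _ _ _ _ (by
    rw [List.length_take, rec'_length]; omega)]
  rw [List.length_take, rec'_length, min_eq_left ha.le, Nat.sub_self]
  rfl

end

open MvPolynomial

theorem vals_eq {A : Type} [CommSemiring A] [Algebra ℚ A] (σ : ℕ → A) (l : List Fr) :
    vals σ l = rec' (fun ys F => F.evl σ fun j => ys.getD j 0) l := rfl

theorem gvals_eq {A : Type} [CommSemiring A] [Algebra ℚ A] (σ : ℕ → A) (l : List Gt) :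
    gvals σ l = rec' (fun ys g => g.evl σ fun j => ys.getD j 0) l := rfl

theorem fms_eq (C l : List Gt) : fms C l = rec' (stF C) l := rfl

theorem fms_length (C l : List Gt) : (fms C l).length = l.length := by
  rw [fms_eq, rec'_length]

/-- the formula of the gate number `a` -/
theorem fms_getD {C : List Gt} {a : ℕ} (ha : a < C.length) :
    (fms C C).getD a (.const 0) = stF C ((fms C C).take a) (C.getD a (.const 0)) := by
  rw [fms_eq, rec'_getD _ _ ha, List.getD_eq_getElem _ _ ha]

/-- the formula used by gate number `a` (or by the output, if `a = C.length`) for gate `b` -/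
theorem useF_take {C : List Gt} {a b : ℕ} (ha : a ≤ C.length) :
    useF C ((fms C C).take a) b = if b < a then (if isRe C b then .ref b else
      (fms C C).getD b (.const 0)) else .const 0 := by
  unfold useF
  rw [List.length_take, fms_length, min_eq_left ha]
  by_cases hb : b < a
  · rw [if_pos hb, if_pos hb, List.getD_eq_getElem?_getD, List.getElem?_take_of_lt hb,
      ← List.getD_eq_getElem?_getD]
  · rw [if_neg hb, if_neg hb]

theorem dep_getD {C : List Gt} {a : ℕ} (ha : a < C.length) :
    (dep C).getD a ∅ = match C.getD a (.const 0) with
      | .const _ => ∅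
      | .var i => {i}
      | .add b c => ((dep C).take a).getD b ∅ ∪ ((dep C).take a).getD c ∅
      | .mul b c => ((dep C).take a).getD b ∅ ∪ ((dep C).take a).getD c ∅ := by
  have h : dep C = rec' (fun (ys : List (Finset ℕ)) (g : Gt) => match g with
    | .const _ => ∅
    | .var i => {i}
    | .add a b => ys.getD a ∅ ∪ ys.getD b ∅
    | .mul a b => ys.getD a ∅ ∪ ys.getD b ∅) C := rfl
  rw [h, rec'_getD _ _ ha, List.getD_eq_getElem _ _ ha]

end Pool.Agent.CK
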