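import Pool.Agent.CK.GPre

set_option autoImplicit false

/-!
CK-GVal. The translation `toCir` is correct: the formula of a gate has the value of the gate if the
references have the values of the gates, and so have the reused gates of the translation.
-/

namespace Pool.Agent.CK

open MvPolynomial

section

variable {A : Type} [CommSemiring A] [Algebra ℚ A]

private lemma take_getD {δ : Type} (l : List δ) (a j : ℕ) (d : δ) :
    (l.take a).getD j d = if j < a then l.getD j d else d := by
  by_cases h : j < a
  · rw [if_pos h, List.getD_eq_getElem?_getD, List.getElem?_take_of_lt h,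
      ← List.getD_eq_getElem?_getD]
  · rw [if_neg h, List.getD_eq_getElem?_getD, List.getElem?_eq_none]
    · rfl
    · rw [List.length_take]
      omega

private lemma gvals_getD (σ : ℕ → A) {C : List Gt} {a : ℕ} (ha : a < C.length) :
    (gvals σ C).getD a 0 = (C.getD a (.const 0)).evl σ
      fun j => if j < a then (gvals σ C).getD j 0 else 0 := by
  rw [gvals_eq, rec'_getD _ _ ha, List.getD_eq_getElem _ _ ha]
  congr 1
  funext j
  rw [take_getD]

private lemma vals_getD (σ : ℕ → A) {l : List Fr} {a : ℕ} (ha : a < l.length) :
    (vals σ l).getD a 0 = (l.getD a (.const 0)).evl σ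
      fun j => if j < a then (vals σ l).getD j 0 else 0 := by
  rw [vals_eq, rec'_getD _ _ ha, List.getD_eq_getElem _ _ ha]
  congr 1
  funext j
  rw [take_getD]

/-- the value of the formula of a gate -/
private lemma claimB (σ : ℕ → A) (C : List Gt) : ∀ a, a < C.length → ∀ y : ℕ → A,
    (∀ b, b < a → isRe C b = true → y b = (gvals σ C).getD b 0) →
    ((fms C C).getD a (.const 0)).evl σ y = (gvals σ C).getD a 0 := by
  intro a
  induction a using Nat.strong_induction_on with
  | _ a ih =>
    intro ha y hy
    have hU : ∀ b, (useF C ((fms C C).take a) b).evl σ y =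
        if b < a then (gvals σ C).getD b 0 else 0 := by
      intro b
      rw [useF_take ha.le]
      by_cases hb : b < a
      · rw [if_pos hb, if_pos hb]
        by_cases hR : isRe C b = true
        · rw [if_pos hR]
          exact hy b hb hR
        · rw [if_neg hR]
          exact ih b hb (hb.trans ha) y fun c hc hcR => hy c (hc.trans hb) hcR
      · rw [if_neg hb, if_neg hb]
        exact map_zero _
    rw [fms_getD ha, gvals_getD σ ha]
    cases C.getD a (.const 0) with
    | const q => rfl
    | var i => rfl
    | add b c =>
      have h1 := hU b
      have h2 := hU c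
      simp only [stF, Fr.evl, Gt.evl]
      rw [h1, h2]
    | mul b c =>
      have h1 := hU b
      have h2 := hU c
      simp only [stF, Fr.evl, Gt.evl]
      rw [h1, h2]

private lemma gates_getD {C : List Gt} {a : ℕ} (ha : a < C.length) :
    (toCir C).gates.getD a (.const 0) =
      if isRe C a then (fms C C).getD a (.const 0) else .const 0 := by
  have h : a < (toCir C).gates.length := by
    simp only [toCir, List.length_map, List.length_range]
    exact ha
  rw [List.getD_eq_getElem _ _ h]
  simp only [toCir, List.getElem_map, List.getElem_range]

private lemma claimC (σ : ℕ → A) (C : List Gt) : ∀ a, a < C.length → isRe C a = true →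
    (vals σ (toCir C).gates).getD a 0 = (gvals σ C).getD a 0 := by
  intro a
  induction a using Nat.strong_induction_on with
  | _ a ih =>
    intro ha hR
    have h : a < (toCir C).gates.length := by
      simp only [toCir, List.length_map, List.length_range]
      exact ha
    rw [vals_getD σ h, gates_getD ha, if_pos hR]
    refine claimB σ C a ha _ fun b hb hbR => ?_
    rw [if_pos hb]
    exact ih b hb (hb.trans ha) hbR

private lemma toCir_evl (σ : ℕ → A) (C : List Gt) :
    (toCir C).evl σ = (gvals σ C).getD (C.length - 1) 0 := by
  have h0 : (toCir C).evl σ = (useF C (fms C C) (C.length - 1)).evl σ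
      fun j => (vals σ (toCir C).gates).getD j 0 := rfl
  rw [h0]
  rcases Nat.eq_zero_or_pos C.length with hC | hC
  · have h1 : C = [] := List.length_eq_zero_iff.1 hC
    subst h1
    have h2 : useF [] (fms [] []) (([] : List Gt).length - 1) = .const 0 := rfl
    rw [h2]
    exact map_zero _
  · have ha : C.length - 1 < C.length := by omega
    rw [useF, if_pos (by rw [fms_length]; exact ha)]
    by_cases hR : isRe C (C.length - 1) = true
    · rw [if_pos hR]
      exact claimC σ C _ ha hR
    · rw [if_neg hR]
      exact claimB σ C _ ha _ fun b hb hbR => claimC σ C b (hb.trans ha) hbR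

end

theorem toCir_poly (C : List Gt) : (toCir C).poly = gpoly C :=
  toCir_evl X C

end Pool.Agent.CK
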