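import Pool.Agent.CK.Defs

set_option autoImplicit false

/-!
CK-NumC. Numbers.

`num_choose` bounds a binomial coefficient, and `elim_num` is the comparison of the number of the
values of the counting argument with the dimension of the target.
-/

namespace Pool.Agent.CK

open MvPolynomial

/-- `n ^ n ≤ 3 ^ n * n !` -/
private theorem pow_le_fact (n : ℕ) : n ^ n ≤ 3 ^ n * n.factorial := by
  have h1 : ((n : ℝ) ^ n) / (n.factorial : ℝ) ≤ Real.exp (n : ℝ) :=
    Real.pow_div_factorial_le_exp (n : ℝ) (Nat.cast_nonneg n) n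
  have h2 : Real.exp (n : ℝ) = Real.exp 1 ^ n := by
    rw [← Real.exp_nat_mul, mul_one]
  have h3 : Real.exp 1 ^ n ≤ 3 ^ n :=
    pow_le_pow_left₀ (Real.exp_pos 1).le Real.exp_one_lt_three.le n
  have hf : (0 : ℝ) < (n.factorial : ℝ) := by exact_mod_cast n.factorial_pos
  have h4 : (n : ℝ) ^ n ≤ 3 ^ n * (n.factorial : ℝ) := by
    have h5 : ((n : ℝ) ^ n) / (n.factorial : ℝ) ≤ 3 ^ n := by
      calc ((n : ℝ) ^ n) / (n.factorial : ℝ) ≤ Real.exp (n : ℝ) := h1
        _ = Real.exp 1 ^ n := h2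
        _ ≤ 3 ^ n := h3
    exact (div_le_iff₀ hf).mp h5
  exact_mod_cast h4

theorem num_choose (N n : ℕ) : n ^ n * (N + n).choose n ≤ (3 * (N + n)) ^ n := by
  have h1 := pow_le_fact n
  have h2 : n.factorial * (N + n).choose n ≤ (N + n) ^ n := by
    rw [← Nat.descFactorial_eq_factorial_mul_choose]
    exact Nat.descFactorial_le_pow _ _
  calc n ^ n * (N + n).choose n ≤ 3 ^ n * n.factorial * (N + n).choose n :=
        Nat.mul_le_mul_right _ h1
    _ = 3 ^ n * (n.factorial * (N + n).choose n) := by rw [mul_assoc]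
    _ ≤ 3 ^ n * (N + n) ^ n := Nat.mul_le_mul_left _ h2
    _ = (3 * (N + n)) ^ n := by rw [mul_pow]

theorem elim_num {m r q D e k : ℕ} (hr : 1 ≤ r) (hm : 2 * r ≤ m) (hD : 1 ≤ D) (hDe : D ≤ 2 ^ e)
    (h : m + 3 * k + 4 * (m + r) + e * r < q * (m + 1 - 2 * r)) :
    2 ^ m * (2 ^ q) ^ (r - 1) *
      (2 ^ (3 * k) * (D * (3 * m * 2 ^ q) + (m + r)).choose (m + r)) <
        (2 ^ q) ^ m * (D * 2 ^ q) ^ m := by
  obtain ⟨b, hb⟩ : ∃ b : ℕ, b = 2 ^ q := ⟨_, rfl⟩
  have hb1 : 1 ≤ b := by rw [hb]; exact Nat.one_le_two_pow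
  -- the binomial coefficient
  have hch : (D * (3 * m * 2 ^ q) + (m + r)).choose (m + r) ≤ (16 * (D * b)) ^ (m + r) := by
    rw [← hb]
    have h1 := num_choose (D * (3 * m * b)) (m + r)
    have hn : 0 < m + r := by omega
    have h2 : 3 * (D * (3 * m * b) + (m + r)) ≤ (m + r) * (16 * (D * b)) := by
      have h3 : 1 ≤ D * b := Nat.mul_pos hD hb1
      have h4 : D * (3 * m * b) = 3 * (m * (D * b)) := by ring
      have h5 : m * (D * b) ≤ (m + r) * (D * b) := Nat.mul_le_mul_right _ (by omega)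
      have h6 : (m + r) * 1 ≤ (m + r) * (D * b) := Nat.mul_le_mul_left _ h3
      have h7 : (m + r) * (16 * (D * b)) = 16 * ((m + r) * (D * b)) := by ring
      omega
    have h3 : (m + r) ^ (m + r) * (D * (3 * m * b) + (m + r)).choose (m + r) ≤
        (m + r) ^ (m + r) * (16 * (D * b)) ^ (m + r) := by
      calc (m + r) ^ (m + r) * (D * (3 * m * b) + (m + r)).choose (m + r)
          ≤ (3 * (D * (3 * m * b) + (m + r))) ^ (m + r) := h1
        _ ≤ ((m + r) * (16 * (D * b))) ^ (m + r) := Nat.pow_le_pow_left h2 _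
        _ = (m + r) ^ (m + r) * (16 * (D * b)) ^ (m + r) := by rw [mul_pow]
    exact Nat.le_of_mul_le_mul_left h3 (Nat.pow_pos hn)
  -- the power of `D`
  have hDr : D ^ r ≤ 2 ^ (e * r) := by
    calc D ^ r ≤ (2 ^ e) ^ r := Nat.pow_le_pow_left hDe r
      _ = 2 ^ (e * r) := by rw [← pow_mul]
  have hch2 : (16 * (D * b)) ^ (m + r) ≤ 2 ^ (4 * (m + r) + e * r + q * (m + r)) * D ^ m := by
    have h1 : (16 * (D * b)) ^ (m + r) = 2 ^ (4 * (m + r)) * (D ^ m * D ^ r * 2 ^ (q * (m + r))) := by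
      rw [mul_pow, mul_pow, pow_add D, hb, pow_mul 2 q, pow_mul 2 4]
      norm_num
    rw [h1]
    calc 2 ^ (4 * (m + r)) * (D ^ m * D ^ r * 2 ^ (q * (m + r)))
        ≤ 2 ^ (4 * (m + r)) * (D ^ m * 2 ^ (e * r) * 2 ^ (q * (m + r))) :=
          Nat.mul_le_mul_left _ (Nat.mul_le_mul_right _ (Nat.mul_le_mul_left _ hDr))
      _ = 2 ^ (4 * (m + r) + e * r + q * (m + r)) * D ^ m := by
          rw [pow_add 2 (4 * (m + r) + e * r), pow_add 2 (4 * (m + r))]
          ring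
  -- the comparison of the exponents
  have hexp : m + q * (r - 1) + 3 * k + (4 * (m + r) + e * r + q * (m + r)) < q * m + q * m := by
    obtain ⟨r', rfl⟩ : ∃ r', r = r' + 1 := ⟨r - 1, by omega⟩
    obtain ⟨m', rfl⟩ : ∃ m', m = 2 * (r' + 1) + m' := ⟨m - 2 * (r' + 1), by omega⟩
    have h1 : 2 * (r' + 1) + m' + 1 - 2 * (r' + 1) = m' + 1 := by omega
    rw [h1] at h
    have h2 : r' + 1 - 1 = r' := by omega
    rw [h2]
    have h3 : q * (2 * (r' + 1) + m') + q * (2 * (r' + 1) + m') =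
        q * (m' + 1) + (q * r' + q * (2 * (r' + 1) + m' + (r' + 1))) := by ring
    rw [h3]
    omega
  have hDm : 0 < D ^ m := Nat.pow_pos hD
  calc 2 ^ m * (2 ^ q) ^ (r - 1) *
      (2 ^ (3 * k) * (D * (3 * m * 2 ^ q) + (m + r)).choose (m + r))
      ≤ 2 ^ m * (2 ^ q) ^ (r - 1) *
        (2 ^ (3 * k) * (2 ^ (4 * (m + r) + e * r + q * (m + r)) * D ^ m)) :=
        Nat.mul_le_mul_left _ (Nat.mul_le_mul_left _ (hch.trans hch2))
    _ = 2 ^ (m + q * (r - 1) + 3 * k + (4 * (m + r) + e * r + q * (m + r))) * D ^ m := by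
        rw [pow_add 2 (m + q * (r - 1) + 3 * k), pow_add 2 (m + q * (r - 1)), pow_add 2 m,
          pow_mul 2 q (r - 1)]
        ring
    _ < 2 ^ (q * m + q * m) * D ^ m :=
        Nat.mul_lt_mul_of_pos_right (Nat.pow_lt_pow_right (by norm_num) hexp) hDm
    _ = (2 ^ q) ^ m * (D * 2 ^ q) ^ m := by
        rw [mul_pow, pow_add, pow_mul]
        ring

end Pool.Agent.CK
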