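import Pool.Agent.CK.Elim
import Pool.Agent.CK.NumC
import Pool.Agent.CK.Dig

set_option autoImplicit false

/-!
CK-Lev. The hitting set for chains over polynomials of bounded degree: a nonzero element of a chain
over `Vd n D` does not vanish at one of the points `Pt T J n i`, `i < 2 ^ (T * (J + 1))`.
-/

namespace Pool.Agent.CK

open MvPolynomial

theorem lf_eval (m : ℕ) (θ y : ℕ → ℕ) (p : MvPolynomial ℕ ℚ) :
    eval (fun v => ((lf m θ y v : ℕ) : ℚ)) p =
      eval (fun v => ((y v : ℕ) : ℚ)) (aeval (sb m θ) p) := by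
  have h : (eval (fun v => ((lf m θ y v : ℕ) : ℚ))) =
      (eval (fun v => ((y v : ℕ) : ℚ))).comp
        (aeval (sb m θ) : MvPolynomial ℕ ℚ →ₐ[ℚ] MvPolynomial ℕ ℚ).toRingHom := by
    apply MvPolynomial.ringHom_ext
    · intro r
      simp [algebraMap_eq]
    · intro v
      have h2 : eval (fun v => ((y v : ℕ) : ℚ)) (sb m θ v) = ((lf m θ y v : ℕ) : ℚ) := by
        unfold sb lf
        split_ifs with hv
        · simp
        · unfold wl
          rw [map_sum, Nat.cast_sum]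
          apply Finset.sum_congr rfl
          intro l _
          rw [map_mul, eval_C, eval_X]
          push_cast
          ring
      simp [h2]
  rw [h]
  rfl

private theorem lf_congr {m : ℕ} {θ θ' : ℕ → ℕ} (h : ∀ l < m, θ l = θ' l) (y : ℕ → ℕ) :
    lf m θ y = lf m θ' y := by
  funext v
  unfold lf
  split_ifs with hv
  · rfl
  · apply Finset.sum_congr rfl
    intro l hl
    rw [h l (Finset.mem_range.1 hl)]

private theorem eval_vars {n : ℕ} {f : MvPolynomial ℕ ℚ} (hf : ∀ i ∈ f.vars, i < n)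
    {x y : ℕ → ℕ} (h : ∀ i < n, x i = y i) :
    eval (fun v => ((x v : ℕ) : ℚ)) f = eval (fun v => ((y v : ℕ) : ℚ)) f := by
  apply hom_congr_vars (f₁ := eval (fun v => ((x v : ℕ) : ℚ)))
    (f₂ := eval (fun v => ((y v : ℕ) : ℚ)))
  · ext r
    rw [RingHom.comp_apply, RingHom.comp_apply, eval_C, eval_C]
  · intro i hi _
    rw [eval_X, eval_X, h i (hf i hi)]
  · rfl

private theorem grid_pt (G : MvPolynomial ℕ ℚ) (s : ℕ) (hG : ∀ i, G.degreeOf i ≤ s) (h0 : G ≠ 0) :
    ∃ ρ : ℕ → ℕ, (∀ i, ρ i ≤ s) ∧ eval (fun i => (ρ i : ℚ)) G ≠ 0 := by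
  classical
  obtain ⟨t, q, hq⟩ := exists_finset_rename G
  have hq0 : q ≠ 0 := by
    intro h
    apply h0
    rw [hq, h, map_zero]
  have h1 : ∃ x : {x // x ∈ t} → ℚ,
      (∀ i, x i ∈ (Finset.range (s + 1)).image (fun m : ℕ => (m : ℚ))) ∧ eval x q ≠ 0 := by
    by_contra hcon
    push Not at hcon
    apply hq0
    apply eq_zero_of_eval_zero_at_prod_finset q
      (fun _ => (Finset.range (s + 1)).image (fun m : ℕ => (m : ℚ)))
    · intro i
      rw [Finset.card_image_of_injective _ Nat.cast_injective, Finset.card_range]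
      have h2 := degreeOf_rename_of_injective (p := q) (Subtype.val_injective) i
      have h3 := hG i
      rw [hq, h2] at h3
      omega
    · exact hcon
  obtain ⟨x, hx, hx0⟩ := h1
  have h2 : ∀ i, ∃ m : ℕ, m ≤ s ∧ (m : ℚ) = x i := by
    intro i
    have := hx i
    rw [Finset.mem_image] at this
    obtain ⟨m, hm, hm'⟩ := this
    exact ⟨m, by rw [Finset.mem_range] at hm; omega, hm'⟩
  choose y hy1 hy2 using h2
  refine ⟨fun i => if h : i ∈ t then y ⟨i, h⟩ else 0, ?_, ?_⟩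
  · intro i
    dsimp only
    split_ifs with h
    · exact hy1 _
    · exact Nat.zero_le _
  · rw [hq, eval_rename]
    have h3 : ((fun i : ℕ => (((if h : i ∈ t then y ⟨i, h⟩ else 0 : ℕ)) : ℚ)) ∘ Subtype.val :
        {x // x ∈ t} → ℚ) = x := by
      funext i
      simp only [Function.comp_apply]
      rw [dif_pos i.2]
      exact hy2 i
    rw [h3]
    exact hx0

theorem lev {T k e D n₀ : ℕ} (hT : 12 * k + (21 + 3 * e) * n₀ ≤ T) (hD : 1 ≤ D) (hDe : D ≤ 2 ^ e)
    (hn₀ : 1 ≤ n₀) (J : ℕ) : ∀ (n : ℕ) (V : Submodule ℚ (MvPolynomial ℕ ℚ))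
      (f : MvPolynomial ℕ ℚ), Ch (Vd n D) k V → f ∈ V → f ≠ 0 → n ≤ n₀ → nx J n ≤ 3 →
        ∃ i < 2 ^ (T * (J + 1)), eval (fun v => ((Pt T J n i v : ℕ) : ℚ)) f ≠ 0 := by
  induction J with
  | zero =>
    intro n V f hV hf h0 hn hnx
    have hn3 : n ≤ 3 := hnx
    obtain ⟨hv, hd⟩ := mem_Vd.1 (ch_deg hV hf)
    have hek : D * 2 ^ k ≤ 2 ^ (e + k) := by
      rw [pow_add]
      exact Nat.mul_le_mul_right _ hDe
    obtain ⟨x, hx, hx0⟩ := grid_pt f (2 ^ (e + k))
      (fun i => (degreeOf_le_totalDegree f i).trans (hd.trans hek)) h0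
    have hq : e + k + 1 ≤ T / 3 := by
      rw [Nat.le_div_iff_mul_le (by norm_num)]
      have h1 : (21 + 3 * e) * 1 ≤ (21 + 3 * e) * n₀ := Nat.mul_le_mul_left _ hn₀
      omega
    have hxq : ∀ l, x l < 2 ^ (T / 3) := by
      intro l
      calc x l ≤ 2 ^ (e + k) := hx l
        _ < 2 ^ (e + k + 1) := Nat.pow_lt_pow_right (by norm_num) (Nat.lt_succ_self _)
        _ ≤ 2 ^ (T / 3) := Nat.pow_le_pow_right (by norm_num) hq
    obtain ⟨i, hi1, _, hi3⟩ := dig (T := T) (m := 3) (by norm_num) x hxq 0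
    refine ⟨i, ?_, ?_⟩
    · have := hi3 0 (by norm_num)
      simpa using this
    · have h1 : eval (fun v => ((Pt T 0 n i v : ℕ) : ℚ)) f = eval (fun v => ((x v : ℕ) : ℚ)) f := by
        apply eval_vars hv
        intro l hl
        exact hi1 l (lt_of_lt_of_le hl hn3)
      rw [h1]
      exact hx0
  | succ J ih =>
    intro n V f hV hf h0 hn hnx
    have hnx' : nx J (n - n / 4) ≤ 3 := hnx
    have hTJ : T * (J + 1 + 1) = T + T * (J + 1) := by ring
    by_cases h3 : n ≤ 3
    · have h4 : n / 4 = 0 := by omega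
      have h5 : n - n / 4 = n := by omega
      rw [h5] at hnx'
      obtain ⟨i', hi', he⟩ := ih n V f hV hf h0 hn hnx'
      refine ⟨2 ^ T * i', ?_, ?_⟩
      · rw [hTJ, pow_add]
        exact Nat.mul_lt_mul_of_pos_left hi' (Nat.pow_pos (by norm_num))
      · have hv := (mem_Vd.1 (ch_deg hV hf)).1
        have h6 : eval (fun v => ((Pt T (J + 1) n (2 ^ T * i') v : ℕ) : ℚ)) f =
            eval (fun v => ((Pt T J n i' v : ℕ) : ℚ)) f := by
          apply eval_vars hv
          intro l hl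
          show lf (n - n / 4) (dg T (n - n / 4) (2 ^ T * i'))
            (Pt T J (n - n / 4) (2 ^ T * i' / 2 ^ T)) l = Pt T J n i' l
          rw [h5, Nat.mul_div_cancel_left _ (Nat.pow_pos (by norm_num))]
          unfold lf
          rw [if_pos hl]
        rw [h6]
        exact he
    · have h4 : 4 ≤ n := by omega
      obtain ⟨hr, h2r, hmr, hnum⟩ := lev_num hT h4 hn
      set r := n / 4 with hrdef
      set m := n - r with hmdef
      have hm0 : 0 < m := by omega
      have hV' : Ch (Vd (m + r) D) k V := by rw [hmr]; exact hV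
      obtain ⟨θ, hθ, hθ0⟩ := elim hr (Nat.one_le_two_pow (n := T / m)) hD hV' hf h0
        (elim_num hr h2r hD hDe hnum)
      have hmap := hV'.map (aeval (sb m θ) : MvPolynomial ℕ ℚ →ₐ[ℚ] MvPolynomial ℕ ℚ)
      have hle : (Vd (m + r) D).map
          (aeval (sb m θ) : MvPolynomial ℕ ℚ →ₐ[ℚ] MvPolynomial ℕ ℚ).toLinearMap ≤ Vd m D := by
        rintro _ ⟨p, hp, rfl⟩
        exact sb_Vd θ hp
      obtain ⟨V', hV1, hV2⟩ := hmap.up hle
      have hf' : (aeval (sb m θ) f : MvPolynomial ℕ ℚ) ∈ V' :=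
        hV1 (Submodule.mem_map_of_mem hf)
      obtain ⟨i', hi', he⟩ := ih m V' _ hV2 hf' hθ0 (by omega) hnx'
      obtain ⟨i, hi1, hi2, hi3⟩ := dig (T := T) hm0 θ hθ i'
      refine ⟨i, ?_, ?_⟩
      · rw [hTJ]
        exact hi3 _ hi'
      · have h6 : Pt T (J + 1) n i = lf m θ (Pt T J m i') := by
          show lf m (dg T m i) (Pt T J m (i / 2 ^ T)) = _
          rw [hi2]
          exact lf_congr hi1 _
        rw [h6, lf_eval]
        exact he

end Pool.Agent.CK
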