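import Pool.Agent.CK.ParF
import Pool.Agent.CK.EvB

set_option autoImplicit false

/-!
CK-ParC. A circuit, restricted to a block of variables, has few parameters: for every set `N` of
gates, `|N| + 5 s + 4 m` constants suffice for the values of the gates in `N`, where `s` is the
number of references and `m` the number of the leaves of the block in the gates (induction on the
list of the gates); then one applies `parF` to the output.
-/

namespace Pool.Agent.CK

open MvPolynomial

private theorem card_rfs (F : Fr) : F.rfs.card ≤ F.refs := by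
  induction F with
  | const q => exact le_of_eq Finset.card_empty
  | var i => exact le_of_eq Finset.card_empty
  | ref j => exact le_of_eq (Finset.card_singleton j)
  | add F G hF hG =>
    change (F.rfs ∪ G.rfs).card ≤ F.refs + G.refs
    exact (Finset.card_union_le _ _).trans (add_le_add hF hG)
  | mul F G hF hG =>
    change (F.rfs ∪ G.rfs).card ≤ F.refs + G.refs
    exact (Finset.card_union_le _ _).trans (add_le_add hF hG)

private theorem getD_last {A : Type} [CommSemiring A] [Algebra ℚ A] (σ : ℕ → A) (l : List Fr)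
    (F : Fr) : (vals σ (l ++ [F])).getD l.length 0 =
      F.evl σ fun j => (vals σ l).getD j 0 := by
  rw [vals_append, ← vals_length σ l, List.getD_eq_getElem?_getD,
    List.getElem?_append_right le_rfl, Nat.sub_self]
  rfl

private theorem getD_other {A : Type} [CommSemiring A] [Algebra ℚ A] (σ : ℕ → A) (l : List Fr)
    (F : Fr) {j : ℕ} (hj : j ≠ l.length) : (vals σ (l ++ [F])).getD j 0 =
      (vals σ l).getD j 0 := by
  rw [vals_append, List.getD_eq_getElem?_getD, List.getD_eq_getElem?_getD]
  have hl := vals_length σ l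
  rcases lt_or_gt_of_ne hj with h | h
  · rw [List.getElem?_append_left (by omega)]
  · rw [List.getElem?_append_right (by omega)]
    have h1 : (vals σ l)[j]? = none := List.getElem?_eq_none (by omega)
    have h2 : ([F.evl σ fun j => (vals σ l).getD j 0] : List A)[j - (vals σ l).length]? = none := by
      apply List.getElem?_eq_none
      rw [List.length_singleton]
      omega
    rw [h1, h2]

private theorem key {K A : Type} [Field K] [Algebra ℚ K] [CommRing A] [Algebra K A]
    [Algebra ℚ A] [IsScalarTower ℚ K A] (σ : ℕ → A) (B : ℕ → Prop) [DecidablePred B] (ρ : ℕ → K)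
    (hσ : ∀ v, ¬ B v → σ v = algebraMap K A (ρ v)) (l : List Fr) :
    ∀ N : Finset ℕ, ∃ T : Finset K, T.card ≤ N.card + 5 * (l.map Fr.refs).sum +
        4 * ((l.map Fr.lvs).sum.filter B).card ∧
      ∀ 𝓢 : Subalgebra ℚ A, (∀ c ∈ T, algebraMap K A c ∈ 𝓢) →
        (∀ v ∈ (l.map Fr.lvs).sum, B v → σ v ∈ 𝓢) → ∀ j ∈ N, (vals σ l).getD j 0 ∈ 𝓢 := by
  classical
  induction l using List.reverseRecOn with
  | nil =>
    intro N
    refine ⟨∅, by rw [Finset.card_empty]; exact Nat.zero_le _, ?_⟩
    intro 𝓢 _ _ j _
    have h : (vals σ []).getD j 0 = 0 := rfl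
    rw [h]
    exact 𝓢.zero_mem
  | append_singleton l F ih =>
    intro N
    have e1 : ((l ++ [F]).map Fr.refs).sum = (l.map Fr.refs).sum + F.refs := by
      rw [List.map_append, List.sum_append, List.map_singleton, List.sum_singleton]
    have e2 : ((l ++ [F]).map Fr.lvs).sum = (l.map Fr.lvs).sum + F.lvs := by
      rw [List.map_append, List.sum_append, List.map_singleton, List.sum_singleton]
    rw [e1, e2, Multiset.filter_add, Multiset.card_add]
    by_cases hN : l.length ∈ N
    · obtain ⟨T, hT, h⟩ := ih (N.erase l.length ∪ F.rfs)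
      obtain ⟨T', hT', h'⟩ := parF F σ (fun j => (vals σ l).getD j 0) B ρ hσ
      refine ⟨T ∪ T', ?_, ?_⟩
      · have h1 := Finset.card_union_le T T'
        have h2 := Finset.card_union_le (N.erase l.length) F.rfs
        have h3 := card_rfs F
        have h4 := Finset.card_erase_of_mem hN
        have h5 : 0 < N.card := Finset.card_pos.2 ⟨_, hN⟩
        omega
      · intro 𝓢 hc hv j hj
        have ha := h 𝓢 (fun c hc' => hc c (Finset.mem_union_left _ hc'))
          (fun v hv' hb => hv v (Multiset.mem_add.2 (Or.inl hv')) hb)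
        by_cases hjl : j = l.length
        · rw [hjl, getD_last]
          exact h' 𝓢 (fun c hc' => hc c (Finset.mem_union_right _ hc'))
            (fun v hv' hb => hv v (Multiset.mem_add.2 (Or.inr hv')) hb)
            (fun i hi => ha i (Finset.mem_union_right _ hi))
        · rw [getD_other σ l F hjl]
          exact ha j (Finset.mem_union_left _ (Finset.mem_erase.2 ⟨hjl, hj⟩))
    · obtain ⟨T, hT, h⟩ := ih N
      refine ⟨T, by omega, ?_⟩
      intro 𝓢 hc hv j hj
      have hjl : j ≠ l.length := by
        rintro rfl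
        exact hN hj
      rw [getD_other σ l F hjl]
      exact h 𝓢 hc (fun v hv' hb => hv v (Multiset.mem_add.2 (Or.inl hv')) hb) j hj

theorem parC (C : Cir) : QH.Par C.lvs (fun m => 4 * m + 5 * C.refs + 1) C.poly := by
  classical
  intro K A _ _ _ _ _ _ σ B _ ρ hσ
  obtain ⟨T, hT, h⟩ := key σ B ρ hσ C.gates C.out.rfs
  obtain ⟨T', hT', h'⟩ := parF C.out σ (fun j => (vals σ C.gates).getD j 0) B ρ hσ
  refine ⟨T ∪ T', ?_, ?_⟩
  · have h1 := Finset.card_union_le T T'
    have h3 := card_rfs C.out
    have e1 : C.refs = (C.gates.map Fr.refs).sum + C.out.refs := rfl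
    have e2 : (C.lvs.filter B).card = ((C.gates.map Fr.lvs).sum.filter B).card +
        (C.out.lvs.filter B).card := by
      rw [← Multiset.card_add, ← Multiset.filter_add]
      rfl
    change (T ∪ T').card ≤ 4 * (C.lvs.filter B).card + 5 * C.refs + 1
    rw [e1, e2]
    omega
  · intro 𝓢 hc hv
    rw [aeval_poly]
    have hv1 : ∀ v ∈ (C.gates.map Fr.lvs).sum, B v → σ v ∈ 𝓢 := fun v hv' hb =>
      hv v (Multiset.mem_add.2 (Or.inl hv')) hb
    have hv2 : ∀ v ∈ C.out.lvs, B v → σ v ∈ 𝓢 := fun v hv' hb =>
      hv v (Multiset.mem_add.2 (Or.inr hv')) hb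
    exact h' 𝓢 (fun c hc' => hc c (Finset.mem_union_right _ hc')) hv2
      (h 𝓢 (fun c hc' => hc c (Finset.mem_union_left _ hc')) hv1)

end Pool.Agent.CK
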