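import Pool.Agent.CK.Defs2
import Pool.Agent.CK.Defs
import Pool.Agent.QH.Ml
import Pool.Agent.QH.Hsh

set_option autoImplicit false

/-!
CK-Rn. The generator with numbered seeds: its coordinates are polynomials of degree at most `L + 1` in the first
`K + 1 + 2 ^ L + (K + 1) * L * qb b d L` variables, it does not kill the polynomials which the generator with named seeds
does not kill, and its values.
-/

namespace Pool.Agent.CK

open MvPolynomial

open Pool.Agent.QH

private theorem rn_hsh {b d v a L : ℕ} (hv : v < b ^ d) (ha : a < L) :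
    hsh b d v a < qb b d L := by
  rcases Nat.eq_zero_or_pos b with h | h
  · rcases Nat.eq_zero_or_pos d with h' | h'
    · subst h'
      unfold hsh qb
      simp
    · subst h
      rw [Nat.zero_pow h'] at hv
      omega
  · exact hsh_lt h ha

private theorem rn_idx {k K a L h Q : ℕ} (hk : k ≤ K) (ha : a < L) (hh : h < Q) :
    (k * L + a) * Q + h < (K + 1) * L * Q := by
  have h2 : k * L + a + 1 ≤ (K + 1) * L := by
    have h3 : k * L ≤ K * L := Nat.mul_le_mul_right _ hk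
    have h4 : (K + 1) * L = K * L + L := by ring
    omega
  calc (k * L + a) * Q + h < (k * L + a) * Q + Q := by omega
    _ = (k * L + a + 1) * Q := by ring
    _ ≤ (K + 1) * L * Q := Nat.mul_le_mul_right _ h2

private theorem rn_mono {n a b : ℕ} (h : a ≤ b) : Vd n a ≤ Vd n b := by
  unfold Vd
  exact restrictSupport_mono ℚ fun s hs => ⟨hs.1, hs.2.trans h⟩

private theorem rn_X {n j : ℕ} (h : j < n) : (X j : MvPolynomial ℕ ℚ) ∈ Vd n 1 := by
  classical
  unfold Vd
  rw [mem_restrictSupport_iff]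
  intro s hs
  rw [Finset.mem_coe, support_X, Finset.mem_singleton] at hs
  subst hs
  refine ⟨fun i hi => ?_, ?_⟩
  · have := Finsupp.support_single_subset hi
    rw [Finset.mem_singleton] at this
    rw [this]
    exact h
  · rw [Finsupp.degree_single]

private theorem rn_one {n : ℕ} : (1 : MvPolynomial ℕ ℚ) ∈ Vd n 0 := by
  classical
  unfold Vd
  rw [mem_restrictSupport_iff]
  intro s hs
  rw [Finset.mem_coe, support_one, Finset.mem_singleton] at hs
  subst hs
  refine ⟨fun i hi => ?_, ?_⟩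
  · simp at hi
  · simp

private theorem rn_mul {n a b : ℕ} {p q : MvPolynomial ℕ ℚ} (hp : p ∈ Vd n a)
    (hq : q ∈ Vd n b) : p * q ∈ Vd n (a + b) := by
  classical
  unfold Vd at hp hq ⊢
  have h1 := Submodule.mul_mem_mul hp hq
  rw [← restrictSupport_add] at h1
  refine restrictSupport_mono ℚ ?_ h1
  rintro s ⟨u, hu, w, hw, rfl⟩
  refine ⟨fun i hi => ?_, ?_⟩
  · rcases Finset.mem_union.1 (Finsupp.support_add hi) with h | h
    · exact hu.1 i h
    · exact hw.1 i h
  · show (u + w).degree ≤ a + b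
    rw [map_add]
    exact add_le_add hu.2 hw.2

private theorem rn_prod {n : ℕ} {f : ℕ → MvPolynomial ℕ ℚ} (s : Finset ℕ)
    (h : ∀ i ∈ s, f i ∈ Vd n 1) : ∏ i ∈ s, f i ∈ Vd n s.card := by
  classical
  induction s using Finset.induction_on with
  | empty =>
    rw [Finset.prod_empty, Finset.card_empty]
    exact rn_one
  | insert i s hi ih =>
    rw [Finset.prod_insert hi, Finset.card_insert_of_notMem hi, add_comm]
    exact rn_mul (h i (Finset.mem_insert_self i s))
      (ih fun j hj => h j (Finset.mem_insert_of_mem hj))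

theorem gX_mem {b d K L v : ℕ} {β : ℕ → ℕ} (hv : v < b ^ d) (hβ : β v ≤ K) :
    gX b d K L (qb b d L) β v ∈ Vd (K + 1 + 2 ^ L + (K + 1) * L * qb b d L) (L + 1) := by
  have h2L : 1 ≤ 2 ^ L := Nat.one_le_two_pow
  unfold gX gen ml
  refine add_mem (rn_mono (by omega) (rn_X (by omega))) (sum_mem fun S hS => ?_)
  rw [Finset.mem_range] at hS
  have h1 := rn_prod (n := K + 1 + 2 ^ L + (K + 1) * L * qb b d L)
    (f := fun a => X (K + 1 + 2 ^ L + ((β v * L + a) * qb b d L + hsh b d v a)))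
    ((Finset.range L).filter fun a => S.testBit a) (fun a ha => by
      have h2 := Finset.mem_range.1 (Finset.mem_filter.1 ha).1
      refine rn_X ?_
      have h3 := rn_idx hβ h2 (rn_hsh (b := b) (d := d) (v := v) hv h2)
      omega)
  have h2 : ((Finset.range L).filter fun a => S.testBit a).card ≤ L :=
    (Finset.card_filter_le _ _).trans (by rw [Finset.card_range])
  refine rn_mono ?_ (rn_mul (rn_X (j := K + 1 + S) ?_) h1)
  · omega
  · omega

theorem gX_ne {b d K L : ℕ} {β : ℕ → ℕ} {F : MvPolynomial ℕ ℚ}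
    (hF : ∀ v ∈ F.vars, v < b ^ d ∧ β v ≤ K)
    (h : aeval (gen b d L β (fun S => (X (Sum.inl S) : MvPolynomial Sd ℚ))
      (fun k => X (Sum.inr (Sum.inl k))) fun k a h => X (Sum.inr (Sum.inr (k, a, h)))) F ≠ 0) :
    aeval (gX b d K L (qb b d L) β) F ≠ 0 := by
  intro h0
  apply h
  obtain ⟨Q, hQ⟩ : ∃ Q, Q = qb b d L := ⟨_, rfl⟩
  have hQ0 : 0 < Q := by
    rw [hQ]
    exact Nat.succ_pos _
  rw [← hQ] at h0
  have h2L : 1 ≤ 2 ^ L := Nat.one_le_two_pow
  let inv : ℕ → Sd := fun j => if j < K + 1 then Sum.inr (Sum.inl j) else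
    if j < K + 1 + 2 ^ L then Sum.inl (j - (K + 1)) else
      Sum.inr (Sum.inr ((j - (K + 1 + 2 ^ L)) / Q / L,
        (j - (K + 1 + 2 ^ L)) / Q % L, (j - (K + 1 + 2 ^ L)) % Q))
  have i1 : ∀ k ≤ K, inv k = Sum.inr (Sum.inl k) := fun k hk => if_pos (by omega)
  have i2 : ∀ S < 2 ^ L, inv (K + 1 + S) = Sum.inl S := by
    intro S hS
    show (if K + 1 + S < K + 1 then _ else if K + 1 + S < K + 1 + 2 ^ L then
      Sum.inl (K + 1 + S - (K + 1)) else _) = _
    rw [if_neg (by omega), if_pos (by omega), Nat.add_sub_cancel_left]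
  have i3 : ∀ k a h, a < L → h < Q → inv (K + 1 + 2 ^ L + ((k * L + a) * Q + h)) =
      Sum.inr (Sum.inr (k, a, h)) := by
    intro k a h ha hh
    have e1 : ((k * L + a) * Q + h) / Q = k * L + a := by
      rw [add_comm, Nat.add_mul_div_right _ _ hQ0, Nat.div_eq_of_lt hh, zero_add]
    have e2 : ((k * L + a) * Q + h) % Q = h := by
      rw [add_comm, Nat.add_mul_mod_self_right, Nat.mod_eq_of_lt hh]
    have e3 : (k * L + a) / L = k := by
      rw [add_comm, Nat.add_mul_div_right _ _ (by omega), Nat.div_eq_of_lt ha, zero_add]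
    have e4 : (k * L + a) % L = a := by
      rw [add_comm, Nat.add_mul_mod_self_right, Nat.mod_eq_of_lt ha]
    generalize hr : (k * L + a) * Q + h = r at e1 e2 ⊢
    show (if K + 1 + 2 ^ L + r < K + 1 then _ else if K + 1 + 2 ^ L + r < K + 1 + 2 ^ L then
      _ else Sum.inr (Sum.inr ((K + 1 + 2 ^ L + r - (K + 1 + 2 ^ L)) / Q / L,
        (K + 1 + 2 ^ L + r - (K + 1 + 2 ^ L)) / Q % L,
        (K + 1 + 2 ^ L + r - (K + 1 + 2 ^ L)) % Q))) = _
    rw [if_neg (by omega), if_neg (by omega), Nat.add_sub_cancel_left, e1, e2, e3, e4]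
  let φ : MvPolynomial ℕ ℚ →ₐ[ℚ] MvPolynomial Sd ℚ := aeval fun j => X (inv j)
  have hφ : ∀ j, (φ : MvPolynomial ℕ ℚ →+* MvPolynomial Sd ℚ) (X j) = X (inv j) :=
    fun j => aeval_X _ _
  have key : ∀ v ∈ F.vars, (φ : MvPolynomial ℕ ℚ →+* MvPolynomial Sd ℚ) (gX b d K L Q β v) =
      gen b d L β (fun S => (X (Sum.inl S) : MvPolynomial Sd ℚ))
        (fun k => X (Sum.inr (Sum.inl k))) (fun k a h => X (Sum.inr (Sum.inr (k, a, h)))) v := by
    intro v hv
    obtain ⟨hv1, hv2⟩ := hF v hv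
    unfold gX
    rw [gen_map]
    unfold gen
    simp only [hφ]
    rw [i1 _ hv2]
    congr 1
    refine ml_congr (fun S hS => ?_) fun a ha => ?_
    · rw [i2 S hS]
    · rw [i3 _ _ _ ha (hQ ▸ rn_hsh hv1 ha)]
  have h1 : (φ : MvPolynomial ℕ ℚ →+* MvPolynomial Sd ℚ) (aeval (gX b d K L Q β) F) = 0 := by
    rw [h0, map_zero]
  rw [← h1]
  have h2 : ((φ : MvPolynomial ℕ ℚ →+* MvPolynomial Sd ℚ).comp
      (aeval (gX b d K L Q β) : MvPolynomial ℕ ℚ →ₐ[ℚ] MvPolynomial ℕ ℚ).toRingHom) F =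
      (φ : MvPolynomial ℕ ℚ →+* MvPolynomial Sd ℚ) (aeval (gX b d K L Q β) F) := rfl
  rw [← h2]
  refine hom_congr_vars (f₁ := (aeval (gen b d L β (fun S => (X (Sum.inl S) : MvPolynomial Sd ℚ))
      (fun k => X (Sum.inr (Sum.inl k))) fun k a h => X (Sum.inr (Sum.inr (k, a, h)))) :
      MvPolynomial ℕ ℚ →ₐ[ℚ] MvPolynomial Sd ℚ).toRingHom) ?_ ?_ rfl
  · refine RingHom.ext fun q => ?_
    simp
  · intro v hv _
    have e1 : (aeval (gX b d K L Q β) : MvPolynomial ℕ ℚ →ₐ[ℚ] MvPolynomial ℕ ℚ).toRingHom (X v) =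
        gX b d K L Q β v := aeval_X _ _
    rw [RingHom.comp_apply, e1, key v hv]
    exact aeval_X _ _

theorem gX_eval (b d K L Q : ℕ) (β Y : ℕ → ℕ) (v : ℕ) :
    eval (fun j => ((Y j : ℕ) : ℚ)) (gX b d K L Q β v) =
      ((gen b d L β (fun S => Y (K + 1 + S)) (fun k => Y k)
        (fun k a h => Y (K + 1 + 2 ^ L + ((k * L + a) * Q + h))) v : ℕ) : ℚ) := by
  unfold gX
  have h1 := gen_map (Nat.castRingHom ℚ) b d L β (fun S => Y (K + 1 + S)) (fun k => Y k)
    (fun k a h => Y (K + 1 + 2 ^ L + ((k * L + a) * Q + h))) v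
  rw [Nat.coe_castRingHom] at h1
  rw [h1, gen_map]
  simp only [eval_X]

end Pool.Agent.CK
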