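import Pool.Agent.CK.Defs2
import Pool.Agent.CK.Lev
import Pool.Agent.CK.CirCh
import Pool.Agent.CK.ParC
import Pool.Agent.CK.Rn
import Pool.Agent.QH.Comp
import Pool.Agent.QH.Cuts
import Pool.Agent.QH.Spec

set_option autoImplicit false

/-!
CK-HitC. The points `ptC` hit all circuits.

Plan. `m = rt 1 s > 0` (`rt_spec`), `b = rtc d s`, `s ≤ b ^ d` (`rtc_spec`), `L = LC d s t ≥ 1`, `K = KC s`, `n = nC d s t ≥ 1`. `cuts` (with `n = s`): cuts `c k ≤ s`; `β v` = number of the `k < K` with `c k ≤ v`, `β v ≤ K`. `Par C.lvs (4 m + 5 t + 1) C.poly` from `parC` (as `par_mono` in `Pool/Agent/QH/Main.lean`). `2 ^ (L - 1) = 2 ^ (2 * p).size > 2 * p ≥ p` with `p = 4 m + 5 t + 1 + m 2 ^ (d - 1)`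
(`Nat.lt_size_self`). `compQ` (with `vars_poly`; `v ∈ C.lvs → v < s ≤ b ^ d`) and `gX_ne`: `P := aeval (gX b d K L (qb b d L) β) C.poly ≠ 0`, `P = C.evl (gX ..)` (`aeval_poly`). `cirCh` with `P a := Vd n ((L + 1) * a)`, `S = s`, `V₀ = Vd n D`, `D = (L + 1) * s ≥ 1`: (`one_mem_Vd`, `Vd_mul_le`, `Vd_mono`, `gX_mem` for the labels):
`W` with `Ch (Vd n D) (3 * C.refs) W`, `P ∈ W`; `Ch.mono` to `3 * t`. `lev` with `T = TC d s t`, `k = 3 * t`, `e = eC d s t` (`D < 2 ^ e`, `Nat.lt_size_self`), `n₀ = n`, `J = JC d s t` (`nx_le`): `i' < 2 ^ (T * (J + 1))` with `eval (Pt T J n i') P ≠ 0`. By `gX_eval` and `eval`/`aeval` composition this is `eval (gen .. seeds ..) C.poly`.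
`i = (∑ k < K, c k * (s + 1) ^ k) + (s + 1) ^ K * i'`: `i / (s + 1) ^ k % (s + 1) = c k` for `k < K`, `i / (s + 1) ^ K = i'`, `i < (s + 1) ^ K * 2 ^ (T * (J + 1))` (digits as `hit_lt`, `hit_dig` in `Pool/Agent/QH/Hit.lean`, copy them privately). The function `β` of `ptC` is then the function `β` of the cuts.
-/

namespace Pool.Agent.CK

open MvPolynomial

open Pool.Agent.QH

private theorem hc_lt {B : ℕ} {dg : ℕ → ℕ} (h : ∀ j, dg j < B) (n : ℕ) :
    ∑ j ∈ Finset.range n, dg j * B ^ j < B ^ n := by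
  induction n with
  | zero => simp
  | succ n ih =>
    rw [Finset.sum_range_succ, pow_succ]
    have h1 : dg n + 1 ≤ B := h n
    calc ∑ j ∈ Finset.range n, dg j * B ^ j + dg n * B ^ n < B ^ n + dg n * B ^ n := by omega
      _ = (dg n + 1) * B ^ n := by ring
      _ ≤ B * B ^ n := Nat.mul_le_mul_right _ h1
      _ = B ^ n * B := by ring

private theorem hc_dig {B : ℕ} {dg : ℕ → ℕ} (h : ∀ j, dg j < B) (n i : ℕ) (hi : i < n) :
    (∑ j ∈ Finset.range n, dg j * B ^ j) / B ^ i % B = dg i := by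
  have hB : 0 < B := lt_of_le_of_lt (Nat.zero_le _) (h 0)
  induction n with
  | zero => omega
  | succ n ih =>
    rw [Finset.sum_range_succ]
    by_cases hin : i = n
    · subst hin
      rw [Nat.add_mul_div_right _ _ (Nat.pow_pos hB), Nat.div_eq_of_lt (hc_lt h i), zero_add,
        Nat.mod_eq_of_lt (h i)]
    · have h1 := ih (by omega)
      have h2 : dg n * B ^ n = (dg n * B ^ (n - i - 1)) * B * B ^ i := by
        rw [mul_assoc, mul_assoc, ← pow_succ', ← pow_add]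
        congr 2
        omega
      rw [h2, Nat.add_mul_div_right _ _ (Nat.pow_pos hB), Nat.add_mul_mod_self_right]
      exact h1

/-- the number with the given low digits and the given rest -/
private theorem hc_num {B K N : ℕ} {dg : ℕ → ℕ} (h : ∀ j, dg j < B) {i' : ℕ} (hi' : i' < N) :
    ∃ i < B ^ K * N, (∀ k < K, i / B ^ k % B = dg k) ∧ i / B ^ K = i' := by
  have hB : 0 < B := lt_of_le_of_lt (Nat.zero_le _) (h 0)
  have hlt := hc_lt h K
  refine ⟨(∑ j ∈ Finset.range K, dg j * B ^ j) + B ^ K * i', ?_, ?_, ?_⟩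
  · calc (∑ j ∈ Finset.range K, dg j * B ^ j) + B ^ K * i' < B ^ K + B ^ K * i' := by omega
      _ = B ^ K * (i' + 1) := by ring
      _ ≤ B ^ K * N := Nat.mul_le_mul_left _ hi'
  · intro k hk
    have h2 : B ^ K * i' = (i' * B ^ (K - k - 1)) * B * B ^ k := by
      have h3 : B ^ K = B ^ (K - k - 1) * B * B ^ k := by
        rw [mul_assoc, ← pow_succ', ← pow_add]
        congr 1
        omega
      rw [h3]
      ring
    rw [h2, Nat.add_mul_div_right _ _ (Nat.pow_pos hB), Nat.add_mul_mod_self_right]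
    exact hc_dig h K k hk
  · rw [Nat.add_mul_div_left _ _ (Nat.pow_pos hB), Nat.div_eq_of_lt hlt, zero_add]

private theorem hc_par {o : Multiset ℕ} {D D' : ℕ → ℕ} {F : MvPolynomial ℕ ℚ} (h : Par o D F)
    (hD : ∀ m, D m ≤ D' m) : Par o D' F := by
  intro K A _ _ _ _ _ _ σ B _ ρ hσ
  obtain ⟨T, hT, h1⟩ := h K A σ B ρ hσ
  exact ⟨T, hT.trans (hD _), h1⟩

/-- evaluation of a substitution -/
private theorem hc_ev (g : ℕ → MvPolynomial ℕ ℚ) (Y : ℕ → ℚ) (F : MvPolynomial ℕ ℚ) :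
    eval Y (aeval g F) = eval (fun v => eval Y (g v)) F := by
  have h : (eval Y).comp (aeval g : MvPolynomial ℕ ℚ →ₐ[ℚ] MvPolynomial ℕ ℚ).toRingHom =
      eval (fun v => eval Y (g v)) := by
    apply MvPolynomial.ringHom_ext
    · intro r
      simp [algebraMap_eq]
    · intro v
      simp
  exact congrArg (fun φ : MvPolynomial ℕ ℚ →+* ℚ => φ F) h

theorem hitC {d s t : ℕ} (hd : 1 ≤ d) (hs : 1 ≤ s) {C : Cir} (hc : C.lvs.card ≤ s)
    (hi : ∀ i ∈ C.lvs, i < s) (ht : C.refs ≤ t) (h0 : C.poly ≠ 0) :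
    ∃ i < (s + 1) ^ KC s * 2 ^ (TC d s t * (JC d s t + 1)),
      eval (fun v => ((ptC d s t i v : ℕ) : ℚ)) C.poly ≠ 0 := by
  have hm := (rt_spec 1 s).2.2
  have hb := (rtc_spec hd s).1
  obtain ⟨c, hcs, hcut⟩ := cuts hm hi hc
  have hP : Par C.lvs (fun m => 4 * m + 5 * t + 1) C.poly :=
    hc_par (parC C) (fun m => by
      show 4 * m + 5 * C.refs + 1 ≤ 4 * m + 5 * t + 1
      omega)
  have hmon : Monotone fun m : ℕ => 4 * m + 5 * t + 1 := by
    intro x y hxy
    show 4 * x + 5 * t + 1 ≤ 4 * y + 5 * t + 1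
    omega
  have hL1 : 1 ≤ LC d s t := Nat.le_add_left _ _
  have hL : (fun m : ℕ => 4 * m + 5 * t + 1) (rt 1 s) + rt 1 s * 2 ^ (d - 1) <
      2 ^ (LC d s t - 1) := by
    have h1 : LC d s t - 1 = (2 * (4 * rt 1 s + 5 * t + 1 + rt 1 s * 2 ^ (d - 1))).size :=
      Nat.add_sub_cancel _ _
    rw [h1]
    have h2 := Nat.lt_size_self (2 * (4 * rt 1 s + 5 * t + 1 + rt 1 s * 2 ^ (d - 1)))
    show 4 * rt 1 s + 5 * t + 1 + rt 1 s * 2 ^ (d - 1) < _
    omega
  have hbv : ∀ v ∈ C.lvs, v < rtc d s ^ d := fun v hv => (hi v hv).trans_le hb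
  let β : ℕ → ℕ := fun v => ((Finset.range (KC s)).filter fun k => c k ≤ v).card
  have hβ : ∀ v, β v ≤ KC s := fun v =>
    (Finset.card_filter_le _ _).trans (by rw [Finset.card_range])
  have hne := compQ hmon hP (vars_poly C) hL1 hL hbv β hcut h0
  have hne2 : aeval (gX (rtc d s) d (KC s) (LC d s t) (qb (rtc d s) d (LC d s t)) β) C.poly ≠ 0 :=
    gX_ne (fun v hv => ⟨hbv v (vars_poly C v hv), hβ v⟩) hne
  have hn : nC d s t = KC s + 1 + 2 ^ LC d s t +
      (KC s + 1) * LC d s t * qb (rtc d s) d (LC d s t) := rfl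
  have hn1 : 1 ≤ nC d s t := by
    rw [hn]
    exact Nat.succ_le_of_lt (by positivity)
  obtain ⟨W, hW, hPW⟩ := cirCh (R := MvPolynomial ℕ ℚ)
    (P := fun a => Vd (nC d s t) ((LC d s t + 1) * a))
    (V₀ := Vd (nC d s t) ((LC d s t + 1) * s)) (S := s)
    (σ := gX (rtc d s) d (KC s) (LC d s t) (qb (rtc d s) d (LC d s t)) β)
    (one_mem_Vd _ _)
    (fun a b => by
      show Vd (nC d s t) ((LC d s t + 1) * a) * Vd (nC d s t) ((LC d s t + 1) * b) ≤
        Vd (nC d s t) ((LC d s t + 1) * (a + b))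
      rw [Nat.mul_add]
      exact Vd_mul_le _ _ _)
    (fun a b hab => Vd_mono le_rfl (Nat.mul_le_mul_left _ hab)) le_rfl C
    (fun i hiC => by
      show _ ∈ Vd (nC d s t) ((LC d s t + 1) * 1)
      rw [Nat.mul_one, hn]
      exact gX_mem (hbv i hiC) (hβ i)) hc
  rw [← aeval_poly] at hPW
  obtain ⟨i', hi', hev⟩ := lev (T := TC d s t) (k := 3 * t) (e := eC d s t)
    (D := (LC d s t + 1) * s) (n₀ := nC d s t) le_rfl
    (Nat.mul_pos (Nat.succ_pos _) hs) (Nat.lt_size_self _).le hn1 (JC d s t) (nC d s t) W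
    (aeval (gX (rtc d s) d (KC s) (LC d s t) (qb (rtc d s) d (LC d s t)) β) C.poly)
    (hW.mono (Nat.mul_le_mul_left _ ht)) hPW hne2 le_rfl (nx_le _)
  obtain ⟨i, hiN, hdig, hrest⟩ := hc_num (B := s + 1) (K := KC s) (dg := c)
    (fun j => Nat.lt_succ_of_le (hcs j)) hi'
  refine ⟨i, hiN, ?_⟩
  have hpt : ∀ v, eval (fun j => ((sdC d s t i' j : ℕ) : ℚ))
      (gX (rtc d s) d (KC s) (LC d s t) (qb (rtc d s) d (LC d s t)) β v) =
        ((ptC d s t i v : ℕ) : ℚ) := by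
    intro v
    rw [gX_eval]
    congr 1
    have hβ' : (fun v => ((Finset.range (KC s)).filter
        fun k => i / (s + 1) ^ k % (s + 1) ≤ v).card) = β := by
      funext v
      show _ = ((Finset.range (KC s)).filter fun k => c k ≤ v).card
      congr 1
      refine Finset.filter_congr fun k hk => ?_
      rw [hdig k (Finset.mem_range.1 hk)]
    unfold ptC
    rw [hβ', hrest]
    rfl
  rw [hc_ev] at hev
  have hfun : (fun v => eval (fun j => ((Pt (TC d s t) (JC d s t) (nC d s t) i' j : ℕ) : ℚ))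
      (gX (rtc d s) d (KC s) (LC d s t) (qb (rtc d s) d (LC d s t)) β v)) =
        fun v => ((ptC d s t i v : ℕ) : ℚ) := funext hpt
  rw [hfun] at hev
  exact hev

end Pool.Agent.CK
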