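import Pool.Agent.CK.Defs2
import Pool.Agent.CK.EvB

set_option autoImplicit false

/-!
CK-HvC. Heavy variables on codes: the tests on the tokens of the code of a circuit agree with the notions for
the circuit.
-/

namespace Pool.Agent.CK

open MvPolynomial

open Pool.Agent.QH
open Pool.Agent.Helper6.WB (Fm)

private theorem ctk_app (n : ℕ) (l l' : List (ℕ × ℚ)) : ctk n (l ++ l') = ctk n l + ctk n l' := by
  rw [ctk, List.filter_append, List.length_append, ctk, ctk]

private theorem ctk_code (i : ℕ) (F : Fr) : ctk (2 * i + 3) F.code = F.lvs.count i := by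
  induction F with
  | const q =>
    show (List.filter (fun t : ℕ × ℚ => decide (t.1 = 2 * i + 3)) [(0, q)]).length = _
    rw [List.filter_cons_of_neg (by simp)]
    rfl
  | var j =>
    show (List.filter (fun t : ℕ × ℚ => decide (t.1 = 2 * i + 3)) [(2 * j + 3, 0)]).length =
      Multiset.count i {j}
    rw [Multiset.count_singleton]
    by_cases h : i = j
    · rw [if_pos h, List.filter_cons_of_pos (by simp [h])]
      rfl
    · rw [if_neg h, List.filter_cons_of_neg (by simp; omega)]
      rfl
  | ref j =>
    show (List.filter (fun t : ℕ × ℚ => decide (t.1 = 2 * i + 3)) [(2 * j + 4, 0)]).length = _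
    rw [List.filter_cons_of_neg (by simp; omega)]
    rfl
  | add F G h1 h2 =>
    show ctk (2 * i + 3) (F.code ++ G.code ++ [(1, 0)]) = Multiset.count i (F.lvs + G.lvs)
    rw [ctk_app, ctk_app, h1, h2, Multiset.count_add]
    have e : ctk (2 * i + 3) [((1 : ℕ), (0 : ℚ))] = 0 := by
      rw [ctk, List.filter_cons_of_neg (by simp)]
      rfl
    rw [e, add_zero]
  | mul F G h1 h2 =>
    show ctk (2 * i + 3) (F.code ++ G.code ++ [(2, 0)]) = Multiset.count i (F.lvs + G.lvs)
    rw [ctk_app, ctk_app, h1, h2, Multiset.count_add]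
    have e : ctk (2 * i + 3) [((2 : ℕ), (0 : ℚ))] = 0 := by
      rw [ctk, List.filter_cons_of_neg (by simp)]
      rfl
    rw [e, add_zero]

private theorem occ_eq (i : ℕ) (F : Fr) : F.occ i = F.lvs.count i := by
  induction F with
  | const q => rfl
  | var j =>
    show (if j = i then 1 else 0) = Multiset.count i {j}
    rw [Multiset.count_singleton]
    by_cases h : i = j
    · rw [if_pos h.symm, if_pos h]
    · rw [if_neg (fun h' => h h'.symm), if_neg h]
  | ref j => rfl
  | add F G h1 h2 =>
    show F.occ i + G.occ i = Multiset.count i (F.lvs + G.lvs)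
    rw [h1, h2, Multiset.count_add]
  | mul F G h1 h2 =>
    show F.occ i + G.occ i = Multiset.count i (F.lvs + G.lvs)
    rw [h1, h2, Multiset.count_add]

private theorem ctk_flat (i : ℕ) (l : List Fr) :
    1 ≤ ctk (2 * i + 3) (l.map Fr.code).flatten ↔ ∃ F ∈ l, i ∈ F.lvs := by
  induction l with
  | nil =>
    constructor
    · intro h
      have e : ctk (2 * i + 3) (List.map Fr.code []).flatten = 0 := rfl
      omega
    · rintro ⟨F, hF, -⟩
      exact absurd hF List.not_mem_nil
  | cons F l ih =>
    rw [List.map_cons, List.flatten_cons, ctk_app, ctk_code]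
    constructor
    · intro h
      by_cases h1 : 1 ≤ F.lvs.count i
      · exact ⟨F, List.mem_cons_self, Multiset.one_le_count_iff_mem.1 h1⟩
      · obtain ⟨G, hG, hi⟩ := ih.1 (by omega)
        exact ⟨G, List.mem_cons_of_mem _ hG, hi⟩
    · rintro ⟨G, hG, hi⟩
      rcases List.mem_cons.1 hG with rfl | hG
      · have := Multiset.one_le_count_iff_mem.2 hi
        omega
      · have := ih.2 ⟨G, hG, hi⟩
        omega

theorem isHC_iff (r : ℕ) (C : Cir) (i : ℕ) : isHC r C.code i = true ↔ C.Heavy r i := by
  rw [isHC, Bool.or_eq_true, decide_eq_true_eq, decide_eq_true_eq, Cir.Heavy, occ_eq]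
  show 1 ≤ ctk (2 * i + 3) (C.gates.map Fr.code).flatten ∨ r + 1 ≤ ctk (2 * i + 3) C.out.code ↔ _
  rw [ctk_flat, ctk_code]
  exact Iff.rfl

private theorem flt_code (c : ℕ → Bool) (F : Fr) :
    (F.code.filter fun t => (decide (3 ≤ t.1) && decide (t.1 % 2 = 1)) &&
      c ((t.1 - 3) / 2)).length = (F.lvs.filter fun i => c i = true).card := by
  induction F with
  | const q =>
    show (List.filter (fun t : ℕ × ℚ => (decide (3 ≤ t.1) && decide (t.1 % 2 = 1)) &&
      c ((t.1 - 3) / 2)) [(0, q)]).length = _
    rw [List.filter_cons_of_neg (by simp)]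
    rfl
  | var j =>
    show (List.filter (fun t : ℕ × ℚ => (decide (3 ≤ t.1) && decide (t.1 % 2 = 1)) &&
      c ((t.1 - 3) / 2)) [(2 * j + 3, 0)]).length =
        (Multiset.filter (fun i => c i = true) {j}).card
    have e1 : (2 * j + 3) % 2 = 1 := by omega
    have e2 : (2 * j + 3 - 3) / 2 = j := by omega
    by_cases h : c j = true
    · rw [List.filter_cons_of_pos (by simp [e1, h]), Multiset.filter_singleton, if_pos h]
      rfl
    · rw [List.filter_cons_of_neg (by simp [e1, h]), Multiset.filter_singleton, if_neg h]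
      rfl
  | ref j =>
    show (List.filter (fun t : ℕ × ℚ => (decide (3 ≤ t.1) && decide (t.1 % 2 = 1)) &&
      c ((t.1 - 3) / 2)) [(2 * j + 4, 0)]).length = _
    have e1 : (2 * j + 4) % 2 = 0 := by omega
    rw [List.filter_cons_of_neg (by simp [e1])]
    rfl
  | add F G h1 h2 =>
    show (List.filter (fun t : ℕ × ℚ => (decide (3 ≤ t.1) && decide (t.1 % 2 = 1)) &&
      c ((t.1 - 3) / 2)) (F.code ++ G.code ++ [(1, 0)])).length =
        (Multiset.filter (fun i => c i = true) (F.lvs + G.lvs)).card
    rw [List.filter_append, List.filter_append, List.length_append, List.length_append, h1, h2,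
      Multiset.filter_add, Multiset.card_add, List.filter_cons_of_neg (by simp)]
    rfl
  | mul F G h1 h2 =>
    show (List.filter (fun t : ℕ × ℚ => (decide (3 ≤ t.1) && decide (t.1 % 2 = 1)) &&
      c ((t.1 - 3) / 2)) (F.code ++ G.code ++ [(2, 0)])).length =
        (Multiset.filter (fun i => c i = true) (F.lvs + G.lvs)).card
    rw [List.filter_append, List.filter_append, List.length_append, List.length_append, h1, h2,
      Multiset.filter_add, Multiset.card_add, List.filter_cons_of_neg (by simp)]
    rfl

private theorem flt_flat (c : ℕ → Bool) (l : List Fr) :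
    ((l.map Fr.code).flatten.filter fun t => (decide (3 ≤ t.1) && decide (t.1 % 2 = 1)) &&
      c ((t.1 - 3) / 2)).length = ((l.map Fr.lvs).sum.filter fun i => c i = true).card := by
  induction l with
  | nil => rfl
  | cons F l ih =>
    rw [List.map_cons, List.flatten_cons, List.filter_append, List.length_append, ih, flt_code,
      List.map_cons, List.sum_cons, Multiset.filter_add, Multiset.card_add]

theorem length_hlC (r : ℕ) (C : Cir) : (hlC r C.code).length = C.heavy r := by
  rw [hlC, List.length_map]
  have h1 : tks C.code = (C.gates.map Fr.code).flatten ++ C.out.code := rfl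
  rw [h1, List.filter_append, List.length_append, flt_flat (isHC r C.code),
    flt_code (isHC r C.code), ← Multiset.card_add, ← Multiset.filter_add, Cir.heavy, Cir.lvs]
  congr 1
  exact Multiset.filter_congr fun i _ => isHC_iff r C i

private theorem mem_code {i : ℕ} {F : Fr} (h : i ∈ F.lvs) :
    ((2 * i + 3, 0) : ℕ × ℚ) ∈ F.code := by
  induction F with
  | const q => exact absurd h (Multiset.notMem_zero i)
  | var j =>
    have h1 : i = j := Multiset.mem_singleton.1 h
    rw [h1]
    exact List.mem_singleton.2 rfl
  | ref j => exact absurd h (Multiset.notMem_zero i)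
  | add F G h1 h2 =>
    rcases Multiset.mem_add.1 h with h | h
    · exact List.mem_append_left _ (List.mem_append_left _ (h1 h))
    · exact List.mem_append_left _ (List.mem_append_right _ (h2 h))
  | mul F G h1 h2 =>
    rcases Multiset.mem_add.1 h with h | h
    · exact List.mem_append_left _ (List.mem_append_left _ (h1 h))
    · exact List.mem_append_left _ (List.mem_append_right _ (h2 h))

private theorem mem_flat {i : ℕ} {l : List Fr} (h : i ∈ (l.map Fr.lvs).sum) :
    ((2 * i + 3, 0) : ℕ × ℚ) ∈ (l.map Fr.code).flatten := by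
  induction l with
  | nil => exact absurd h (Multiset.notMem_zero i)
  | cons F l ih =>
    rw [List.map_cons, List.sum_cons, Multiset.mem_add] at h
    rw [List.map_cons, List.flatten_cons]
    rcases h with h | h
    · exact List.mem_append_left _ (mem_code h)
    · exact List.mem_append_right _ (ih h)

theorem mem_hlC {r : ℕ} {C : Cir} {i : ℕ} (hi : i ∈ C.lvs) (h : C.Heavy r i) :
    i ∈ hlC r C.code := by
  rw [hlC, List.mem_map]
  have e2 : (2 * i + 3 - 3) / 2 = i := by omega
  refine ⟨(2 * i + 3, 0), List.mem_filter.2 ⟨?_, ?_⟩, e2⟩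
  · have h1 : tks C.code = (C.gates.map Fr.code).flatten ++ C.out.code := rfl
    rw [h1]
    rw [Cir.lvs, Multiset.mem_add] at hi
    rcases hi with hi | hi
    · exact List.mem_append_left _ (mem_flat hi)
    · exact List.mem_append_right _ (mem_code hi)
  · have e1 : (2 * i + 3) % 2 = 1 := by omega
    show ((decide (3 ≤ 2 * i + 3) && decide ((2 * i + 3) % 2 = 1)) &&
      isHC r C.code ((2 * i + 3 - 3) / 2)) = true
    rw [e1, e2, (isHC_iff r C i).2 h]
    simp

private theorem rf_code (F : Fr) :
    (F.code.filter fun t => decide (4 ≤ t.1) && decide (t.1 % 2 = 0)).length = F.refs := by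
  induction F with
  | const q =>
    show (List.filter (fun t : ℕ × ℚ => decide (4 ≤ t.1) && decide (t.1 % 2 = 0))
      [(0, q)]).length = _
    rw [List.filter_cons_of_neg (by simp)]
    rfl
  | var j =>
    show (List.filter (fun t : ℕ × ℚ => decide (4 ≤ t.1) && decide (t.1 % 2 = 0))
      [(2 * j + 3, 0)]).length = _
    have e1 : (2 * j + 3) % 2 = 1 := by omega
    rw [List.filter_cons_of_neg (by simp [e1])]
    rfl
  | ref j =>
    show (List.filter (fun t : ℕ × ℚ => decide (4 ≤ t.1) && decide (t.1 % 2 = 0))
      [(2 * j + 4, 0)]).length = _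
    have e1 : (2 * j + 4) % 2 = 0 := by omega
    rw [List.filter_cons_of_pos (by simp [e1])]
    rfl
  | add F G h1 h2 =>
    show (List.filter (fun t : ℕ × ℚ => decide (4 ≤ t.1) && decide (t.1 % 2 = 0))
      (F.code ++ G.code ++ [(1, 0)])).length = F.refs + G.refs
    rw [List.filter_append, List.filter_append, List.length_append, List.length_append, h1, h2,
      List.filter_cons_of_neg (by simp)]
    rfl
  | mul F G h1 h2 =>
    show (List.filter (fun t : ℕ × ℚ => decide (4 ≤ t.1) && decide (t.1 % 2 = 0))
      (F.code ++ G.code ++ [(2, 0)])).length = F.refs + G.refs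
    rw [List.filter_append, List.filter_append, List.length_append, List.length_append, h1, h2,
      List.filter_cons_of_neg (by simp)]
    rfl

private theorem rf_flat (l : List Fr) :
    ((l.map Fr.code).flatten.filter fun t => decide (4 ≤ t.1) && decide (t.1 % 2 = 0)).length =
      (l.map Fr.refs).sum := by
  induction l with
  | nil => rfl
  | cons F l ih =>
    rw [List.map_cons, List.flatten_cons, List.filter_append, List.length_append, ih, rf_code,
      List.map_cons, List.sum_cons]

theorem length_rlC (C : Cir) : (rlC C.code).length = C.refs := by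
  rw [rlC, List.length_map]
  have h1 : tks C.code = (C.gates.map Fr.code).flatten ++ C.out.code := rfl
  rw [h1, List.filter_append, List.length_append, rf_flat, rf_code, Cir.refs]

private theorem subC_app (r : ℕ) (p : List (List (ℕ × ℚ)) × List (ℕ × ℚ)) (x : List ℕ)
    (l l' : List (ℕ × ℚ)) : subC r p x (l ++ l') = subC r p x l ++ subC r p x l' := by
  rw [subC, List.map_append, subC, subC]

theorem subC_code (r : ℕ) (C : Cir) (x : List ℕ) (F : Fm) :
    subC r C.code x F.code = (subF (fun i => if C.Heavy r i then
      some ((x.getD ((hlC r C.code).idxOf i) 0 : ℕ) : ℚ) else none) F).code := by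
  induction F with
  | const q =>
    show subC r C.code x [(0, q)] = [(0, q)]
    rw [subC, List.map_cons, if_neg (by simp)]
    rfl
  | var i =>
    show subC r C.code x [(i + 3, 0)] = ((if C.Heavy r i then
      some ((x.getD ((hlC r C.code).idxOf i) 0 : ℕ) : ℚ) else none).elim (Fm.var i) Fm.const).code
    have e1 : i + 3 - 3 = i := by omega
    by_cases h : C.Heavy r i
    · rw [if_pos h, subC, List.map_cons]
      show (if (decide (3 ≤ i + 3) && isHC r C.code (i + 3 - 3)) = true then
        ((0 : ℕ), ((x.getD ((hlC r C.code).idxOf (i + 3 - 3)) 0 : ℕ) : ℚ)) else (i + 3, 0)) :: _ = _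
      rw [e1, if_pos (by rw [(isHC_iff r C i).2 h]; simp)]
      rfl
    · rw [if_neg h, subC, List.map_cons]
      show (if (decide (3 ≤ i + 3) && isHC r C.code (i + 3 - 3)) = true then
        ((0 : ℕ), ((x.getD ((hlC r C.code).idxOf (i + 3 - 3)) 0 : ℕ) : ℚ)) else (i + 3, 0)) :: _ = _
      rw [e1, if_neg (by
        intro h'
        rw [Bool.and_eq_true] at h'
        exact h ((isHC_iff r C i).1 h'.2))]
      rfl
  | add F G h1 h2 =>
    show subC r C.code x (F.code ++ G.code ++ [(1, 0)]) = _ ++ _ ++ [(1, 0)]
    rw [subC_app, subC_app, h1, h2]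
    congr 1
  | mul F G h1 h2 =>
    show subC r C.code x (F.code ++ G.code ++ [(2, 0)]) = _ ++ _ ++ [(2, 0)]
    rw [subC_app, subC_app, h1, h2]
    congr 1

end Pool.Agent.CK
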