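import Pool.Agent.CK.Sep

set_option autoImplicit false

/-!
The products `Q_θ * g`, `θ ∈ Θ`, `g` a monomial in the variables `x_l`, `l < m`, are linearly
independent: a coefficient of the substitution `z = w(θ') + τ s` annihilates all of them with
`θ ≠ θ'`.
-/

namespace Pool.Agent.CK

open MvPolynomial

private theorem ind_mon {m : ℕ} (θ : ℕ → ℕ) (a : ℕ →₀ ℕ) (ha : a.support ⊆ Finset.range m) :
    aeval (ph m θ) (monomial a (1 : ℚ)) = Polynomial.C (monomial a (1 : ℚ)) := by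
  rw [aeval_monomial, map_one, one_mul, monomial_eq, map_one, one_mul, Finsupp.prod, Finsupp.prod,
    map_prod]
  refine Finset.prod_congr rfl fun i hi => ?_
  have h1 : i < m := Finset.mem_range.1 (ha hi)
  rw [ph, if_pos h1, map_pow]

private theorem ind_coeff_prod {ι : Type} (s : Finset ι)
    (g : ι → Polynomial (MvPolynomial ℕ ℚ)) :
    (∏ i ∈ s, g i).coeff 0 = ∏ i ∈ s, (g i).coeff 0 := by
  classical
  induction s using Finset.induction_on with
  | empty => simp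
  | insert i s hi ih =>
    rw [Finset.prod_insert hi, Finset.prod_insert hi, Polynomial.mul_coeff_zero, ih]

private theorem ind_key {m r B : ℕ} {Z : Finset ℕ} {f : MvPolynomial ℕ ℚ} {θ' : ℕ → ℕ}
    (h : SepP m r f θ' Z) (hB' : ∀ l, θ' l < B) :
    ∃ (N : ℕ) (Γ : MvPolynomial ℕ ℚ), Γ ≠ 0 ∧ ∀ (θ : ℕ → ℕ), (∀ l, θ l < B) →
      ∀ a : ℕ →₀ ℕ, a.support ⊆ Finset.range m →
        ((∃ l ∈ Finset.range m \ Z, θ l ≠ θ' l) →
          (aeval (ph m θ') (qq m r B Z θ f * monomial a (1 : ℚ))).coeff N = 0) ∧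
        (θ = θ' → (aeval (ph m θ') (qq m r B Z θ f * monomial a (1 : ℚ))).coeff N =
          Γ * monomial a (1 : ℚ)) := by
  classical
  obtain ⟨μ, c0, hc0, h⟩ := h
  choose! ρ hρ using h
  have hq : ∀ θ : ℕ → ℕ, (∀ l, θ l < B) → aeval (ph m θ') (qq m r B Z θ f) =
      Polynomial.X ^ (μ * ((Finset.range m \ Z).card * (B - 1))) *
        ∏ l ∈ Finset.range m \ Z, ∏ b ∈ (Finset.range B).erase (θ l), ρ l b := by
    intro θ hB
    rw [qq, map_prod]
    have h1 : ∀ l ∈ Finset.range m \ Z, aeval (ph m θ')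
        (∏ b ∈ (Finset.range B).erase (θ l), (pderiv l f + C ((b : ℕ) : ℚ) * cc m r l f)) =
          Polynomial.X ^ (μ * (B - 1)) * ∏ b ∈ (Finset.range B).erase (θ l), ρ l b := by
      intro l hl
      have hlm : l < m := Finset.mem_range.1 (Finset.mem_sdiff.1 hl).1
      rw [map_prod]
      rw [Finset.prod_congr rfl fun b _ => (hρ l hlm b).1, Finset.prod_mul_distrib,
        Finset.prod_const, Finset.card_erase_of_mem (Finset.mem_range.2 (hB l)),
        Finset.card_range, pow_mul]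
    rw [Finset.prod_congr rfl h1, Finset.prod_mul_distrib, Finset.prod_const, ← pow_mul]
    congr 2
    ring
  refine ⟨μ * ((Finset.range m \ Z).card * (B - 1)), ∏ l ∈ Finset.range m \ Z,
    ∏ b ∈ (Finset.range B).erase (θ' l), (C (((b : ℕ) : ℚ) - ((θ' l : ℕ) : ℚ)) * c0 l), ?_, ?_⟩
  · rw [Finset.prod_ne_zero_iff]
    intro l hl
    rw [Finset.prod_ne_zero_iff]
    intro b hb
    refine mul_ne_zero ?_ (hc0 l hl)
    rw [Ne, C_eq_zero, sub_eq_zero]
    intro hh
    exact (Finset.mem_erase.1 hb).1 (by exact_mod_cast hh)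
  · intro θ hB a ha
    have h2 : (aeval (ph m θ') (qq m r B Z θ f * monomial a (1 : ℚ))).coeff
        (μ * ((Finset.range m \ Z).card * (B - 1))) =
          (∏ l ∈ Finset.range m \ Z, ∏ b ∈ (Finset.range B).erase (θ l),
            (C (((b : ℕ) : ℚ) - ((θ' l : ℕ) : ℚ)) * c0 l)) * monomial a (1 : ℚ) := by
      rw [map_mul, hq θ hB, ind_mon θ' a ha, mul_assoc]
      have h3 := Polynomial.coeff_X_pow_mul
        ((∏ l ∈ Finset.range m \ Z, ∏ b ∈ (Finset.range B).erase (θ l), ρ l b) *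
          Polynomial.C (monomial a (1 : ℚ))) (μ * ((Finset.range m \ Z).card * (B - 1))) 0
      rw [zero_add] at h3
      rw [h3, Polynomial.mul_coeff_zero, Polynomial.coeff_C_zero, ind_coeff_prod]
      congr 1
      refine Finset.prod_congr rfl fun l hl => ?_
      have hlm : l < m := Finset.mem_range.1 (Finset.mem_sdiff.1 hl).1
      rw [ind_coeff_prod]
      exact Finset.prod_congr rfl fun b _ => (hρ l hlm b).2
    constructor
    · rintro ⟨l, hl, hne⟩
      rw [h2]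
      have h4 : (∏ l ∈ Finset.range m \ Z, ∏ b ∈ (Finset.range B).erase (θ l),
            (C (((b : ℕ) : ℚ) - ((θ' l : ℕ) : ℚ)) * c0 l)) = 0 := by
        refine Finset.prod_eq_zero hl (Finset.prod_eq_zero (i := θ' l) ?_ ?_)
        · exact Finset.mem_erase.2 ⟨Ne.symm hne, Finset.mem_range.2 (hB' l)⟩
        · rw [sub_self, C_0, zero_mul]
      rw [h4, zero_mul]
    · intro he
      rw [h2, he]

theorem ind {m r B : ℕ} {Z : Finset ℕ} {f : MvPolynomial ℕ ℚ} (Θ : Finset (ℕ → ℕ))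
    (hΘ : ∀ θ ∈ Θ, SepP m r f θ Z) (hB : ∀ θ ∈ Θ, ∀ l, θ l < B)
    (hZ : ∀ θ ∈ Θ, ∀ θ' ∈ Θ, θ ≠ θ' → ∃ l ∈ Finset.range m \ Z, θ l ≠ θ' l) :
    LinearIndependent ℚ fun p : {θ // θ ∈ Θ} × {a : ℕ →₀ ℕ // a.support ⊆ Finset.range m} =>
      qq m r B Z p.1.1 f * monomial p.2.1 (1 : ℚ) := by
  classical
  rw [linearIndependent_iff']
  intro s g hg p₀ hp₀
  obtain ⟨N, Γ, hΓ, hkey⟩ := ind_key (hΘ p₀.1.1 p₀.1.2) (hB p₀.1.1 p₀.1.2)
  have h1 : ∑ p ∈ s, g p • (aeval (ph m p₀.1.1)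
      (qq m r B Z p.1.1 f * monomial p.2.1 (1 : ℚ))).coeff N = 0 := by
    have h2 := congrArg (fun q => (aeval (ph m p₀.1.1) q).coeff N) hg
    simp only [map_sum, map_smul, Polynomial.finsetSum_coeff, Polynomial.coeff_smul, map_zero,
      Polynomial.coeff_zero] at h2
    exact h2
  have h3 : ∀ p ∈ s, g p • (aeval (ph m p₀.1.1)
      (qq m r B Z p.1.1 f * monomial p.2.1 (1 : ℚ))).coeff N =
        Γ * (if p.1 = p₀.1 then g p • monomial p.2.1 (1 : ℚ) else 0) := by
    intro p _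
    obtain ⟨h4, h5⟩ := hkey p.1.1 (hB p.1.1 p.1.2) p.2.1 p.2.2
    by_cases hp : p.1 = p₀.1
    · rw [if_pos hp, h5 (by rw [hp]), mul_smul_comm]
    · rw [if_neg hp, mul_zero]
      have hne : p.1.1 ≠ p₀.1.1 := fun h => hp (Subtype.ext h)
      rw [h4 (hZ p.1.1 p.1.2 p₀.1.1 p₀.1.2 hne), smul_zero]
  rw [Finset.sum_congr rfl h3, ← Finset.mul_sum] at h1
  have h6 := (mul_eq_zero.1 h1).resolve_left hΓ
  have h7 := congrArg (coeff p₀.2.1) h6
  rw [coeff_sum, coeff_zero, Finset.sum_eq_single p₀] at h7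
  · rw [if_pos rfl, coeff_smul, coeff_monomial, if_pos rfl, smul_eq_mul, mul_one] at h7
    exact h7
  · intro p _ hne
    by_cases hp : p.1 = p₀.1
    · rw [if_pos hp, coeff_smul, coeff_monomial, if_neg, smul_zero]
      intro h8
      exact hne (Prod.ext hp (Subtype.ext h8))
    · rw [if_neg hp, coeff_zero]
  · intro h
    exact absurd hp₀ h

end Pool.Agent.CK
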