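import Pool.Agent.CK.Defs

set_option autoImplicit false

/-!
The points with `J` levels, computed with lists (`PtL_eq`), and the sizes of the numbers
(`stL_size`).
-/

namespace Pool.Agent.CK

open MvPolynomial

/-- the number of the variables at level `j` -/
def nj (n j : ℕ) : ℕ := (fun n => n - n / 4)^[j] n

/-- level `j` -/
def stL (T n i j : ℕ) (ys : List ℕ) : List ℕ :=
  (List.range (nj n j)).map (lf (nj n (j + 1)) (dg T (nj n (j + 1)) (i / 2 ^ (T * j)))
    fun l => ys.getD l 0)

/-- the last level -/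
def baL (T n i J : ℕ) : List ℕ := (List.range (nj n J)).map (dg T 3 (i / 2 ^ (T * J)))

private theorem nj_zero (n : ℕ) : nj n 0 = n := rfl

private theorem nj_succ (n j : ℕ) : nj n (j + 1) = nj (n - n / 4) j := by
  unfold nj
  rw [Function.iterate_succ_apply]

private theorem nj_one (n : ℕ) : nj n (0 + 1) = n - n / 4 := by
  rw [nj_succ, nj_zero]

theorem nj_le (n j : ℕ) : nj n j ≤ n := by
  induction j generalizing n with
  | zero => exact le_refl n
  | succ j ih =>
    rw [nj_succ]
    exact (ih _).trans (Nat.sub_le _ _)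

private theorem div_succ (T i j : ℕ) : i / 2 ^ (T * (j + 1)) = i / 2 ^ T / 2 ^ (T * j) := by
  rw [Nat.div_div_eq_div_mul, ← pow_add]
  congr 2
  ring

private theorem stL_succ (T n i j : ℕ) (ys : List ℕ) :
    stL T n i (j + 1) ys = stL T (n - n / 4) (i / 2 ^ T) j ys := by
  unfold stL
  rw [nj_succ n (j + 1), nj_succ n j, div_succ]

private theorem baL_succ (T n i J : ℕ) :
    baL T n i (J + 1) = baL T (n - n / 4) (i / 2 ^ T) J := by
  unfold baL
  rw [nj_succ, div_succ]

private theorem lf_congr_y {m : ℕ} (θ : ℕ → ℕ) {y y' : ℕ → ℕ} (h : ∀ l < m, y l = y' l) (v : ℕ) :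
    lf m θ y v = lf m θ y' v := by
  unfold lf
  split_ifs with hv
  · exact h v hv
  · apply Finset.sum_congr rfl
    intro l hl
    rw [h l (Finset.mem_range.1 hl)]

theorem PtL_eq (T J n i : ℕ) : (List.range n).map (Pt T J n i) =
    (List.range J).reverse.foldl (fun ys j => stL T n i j ys) (baL T n i J) := by
  induction J generalizing n i with
  | zero =>
    have h1 : i / 2 ^ (T * 0) = i := by
      rw [Nat.mul_zero, pow_zero, Nat.div_one]
    unfold baL
    rw [h1, nj_zero]
    rfl
  | succ J ih =>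
    have h1 : i / 2 ^ (T * 0) = i := by
      rw [Nat.mul_zero, pow_zero, Nat.div_one]
    rw [List.range_succ_eq_map, List.reverse_cons, List.foldl_append, ← List.map_reverse,
      List.foldl_map, baL_succ]
    have h2 : (fun (ys : List ℕ) (j : ℕ) => stL T n i j.succ ys) =
        fun ys j => stL T (n - n / 4) (i / 2 ^ T) j ys := by
      funext ys j
      exact stL_succ T n i j ys
    rw [h2, ← ih (n - n / 4) (i / 2 ^ T), List.foldl_cons, List.foldl_nil]
    unfold stL
    rw [h1, nj_zero, nj_one]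
    apply List.map_congr_left
    intro v _
    show lf (n - n / 4) (dg T (n - n / 4) i) (Pt T J (n - n / 4) (i / 2 ^ T)) v = _
    apply lf_congr_y
    intro l hl
    rw [List.getD_eq_getElem _ _ (by rw [List.length_map, List.length_range]; exact hl),
      List.getElem_map, List.getElem_range]

private theorem succ_le_two_pow (n : ℕ) : n + 1 ≤ 2 ^ n := Nat.lt_two_pow_self

theorem stL_size {T n i j S : ℕ} {ys : List ℕ} (h : ∀ y ∈ ys, y.size ≤ S) :
    ∀ x ∈ stL T n i j ys, x.size ≤ S + (n + 1) * (n + 2) + i.size + n + 3 := by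
  intro x hx
  unfold stL at hx
  rw [List.mem_map] at hx
  obtain ⟨v, hv, rfl⟩ := hx
  rw [List.mem_range] at hv
  have hvn : v < n := lt_of_lt_of_le hv (nj_le n j)
  have hm : nj n (j + 1) ≤ n := nj_le n (j + 1)
  generalize nj n (j + 1) = m at hm ⊢
  have hy : ∀ l, (ys.getD l 0).size ≤ S := by
    intro l
    by_cases hl : l < ys.length
    · rw [List.getD_eq_getElem _ _ hl]
      exact h _ (List.getElem_mem hl)
    · rw [List.getD_eq_default _ _ (not_lt.1 hl)]
      exact Nat.zero_le _
  have hy2 : ∀ l, ys.getD l 0 ≤ 2 ^ S := fun l => (Nat.size_le.1 (hy l)).le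
  have hth : ∀ l, dg T m (i / 2 ^ (T * j)) l ≤ 2 ^ i.size := by
    intro l
    unfold dg
    refine (Nat.mod_le _ _).trans ?_
    refine (Nat.div_le_self _ _).trans ?_
    refine (Nat.div_le_self _ _).trans ?_
    exact (Nat.lt_size_self i).le
  unfold lf
  split_ifs with hvm
  · have h1 := hy v
    show (ys.getD v 0).size ≤ _
    omega
  · have hterm : ∀ l ∈ Finset.range m, (l + 1) ^ (v - m) * dg T m (i / 2 ^ (T * j)) l *
        ys.getD l 0 ≤ 2 ^ (n * n) * 2 ^ i.size * 2 ^ S := by
      intro l hl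
      rw [Finset.mem_range] at hl
      refine Nat.mul_le_mul (Nat.mul_le_mul ?_ (hth l)) (hy2 l)
      calc (l + 1) ^ (v - m) ≤ (l + 1) ^ n := Nat.pow_le_pow_right (Nat.succ_pos l) (by omega)
        _ ≤ (2 ^ n) ^ n := Nat.pow_le_pow_left ((by omega : l + 1 ≤ n + 1).trans
            (succ_le_two_pow n)) n
        _ = 2 ^ (n * n) := by rw [← pow_mul]
    have hsum := Finset.sum_le_card_nsmul _ _ _ hterm
    rw [Finset.card_range, smul_eq_mul] at hsum
    have h2 : m * (2 ^ (n * n) * 2 ^ i.size * 2 ^ S) ≤ 2 ^ (n + (n * n + i.size + S)) := by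
      rw [pow_add 2 n, pow_add 2 (n * n + i.size), pow_add 2 (n * n)]
      refine Nat.mul_le_mul_right _ ?_
      exact hm.trans ((Nat.le_succ n).trans (succ_le_two_pow n))
    rw [Nat.size_le]
    refine lt_of_le_of_lt (hsum.trans h2) (Nat.pow_lt_pow_right (by norm_num) ?_)
    nlinarith

end Pool.Agent.CK
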