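import Pool.Agent.CK.Defs2
import Pool.Agent.QH.Spec
import Pool.Agent.QH.Num

set_option autoImplicit false

/-!
CK-NumP. The number of the points.

With `x = √s + t` and `ℓ = 1 + log x` the exponent is at most `C * x ^ (1 + 2 / d) * ℓ ^ (d + 3)`.
-/

namespace Pool.Agent.CK

open MvPolynomial

private theorem root_le {a s n : ℕ} (hn : n ≠ 0) (h : a ^ n ≤ s) :
    (a : ℝ) ≤ (s : ℝ) ^ ((n : ℝ)⁻¹) := by
  rw [← Real.pow_rpow_inv_natCast (Nat.cast_nonneg a) hn]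
  refine Real.rpow_le_rpow (by positivity) ?_ (by positivity)
  exact_mod_cast h

private theorem two_pow_size {n : ℕ} (hn : 0 < n) : 2 ^ n.size ≤ 2 * n := by
  have h0 : 0 < n.size := Nat.size_pos.2 hn
  have h1 : n.size - 1 < n.size := by omega
  have h2 := Nat.lt_size.1 h1
  calc 2 ^ n.size = 2 ^ (n.size - 1 + 1) := by
        congr 1
        omega
    _ = 2 * 2 ^ (n.size - 1) := by ring
    _ ≤ 2 * n := by omega

private theorem size_le' {n j : ℕ} {C x : ℝ} (hC : 1 ≤ C) (hx : 1 ≤ x) (hn : (n : ℝ) ≤ C * x ^ j) :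
    (n.size : ℝ) ≤ (1 + (Real.log C + j) / Real.log 2) * (1 + Real.log x) := by
  have hlog2 : 0 < Real.log 2 := Real.log_pos (by norm_num)
  have hlogC : 0 ≤ Real.log C := Real.log_nonneg hC
  have hlogx : 0 ≤ Real.log x := Real.log_nonneg hx
  rcases Nat.eq_zero_or_pos n with h0 | h0
  · rw [h0, Nat.size_zero, Nat.cast_zero]
    positivity
  · have h1 : 0 < n.size := Nat.size_pos.2 h0
    have h2 : 2 ^ (n.size - 1) ≤ n := Nat.lt_size.1 (by omega)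
    have h3 : (2 : ℝ) ^ (n.size - 1) ≤ C * x ^ j := by
      refine le_trans ?_ hn
      exact_mod_cast h2
    have h4 : ((n.size - 1 : ℕ) : ℝ) * Real.log 2 ≤ Real.log C + j * Real.log x := by
      rw [← Real.log_pow, ← Real.log_pow, ← Real.log_mul (by linarith) (by positivity)]
      exact Real.log_le_log (by positivity) h3
    have h5 : ((n.size - 1 : ℕ) : ℝ) = (n.size : ℝ) - 1 := by
      rw [Nat.cast_sub h1, Nat.cast_one]
    rw [h5] at h4
    have h6 : (n.size : ℝ) - 1 ≤ (Real.log C + j * Real.log x) / Real.log 2 := by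
      rw [le_div_iff₀ hlog2]
      exact h4
    have h7 : (Real.log C + j * Real.log x) / Real.log 2 ≤
        (Real.log C + j) / Real.log 2 * (1 + Real.log x) := by
      rw [div_mul_eq_mul_div]
      refine div_le_div_of_nonneg_right ?_ hlog2.le
      have hj : (0 : ℝ) ≤ j := Nat.cast_nonneg j
      nlinarith [mul_nonneg hlogC hlogx]
    nlinarith

private theorem expo {d : ℕ} (hd : 1 ≤ d) : ∃ C : ℝ, 0 ≤ C ∧ ∀ s t : ℕ, 1 ≤ s →
    (KC s : ℝ) * Real.logb 2 ((s : ℝ) + 1) + (TC d s t : ℝ) * ((JC d s t : ℝ) + 1) ≤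
      C * ((Real.sqrt s + t) * (Real.sqrt s + t) ^ ((2 : ℝ) / d) *
        (1 + Real.log (Real.sqrt s + t)) ^ (d + 3)) := by
  have hlog2 : 0 < Real.log 2 := Real.log_pos (by norm_num)
  have hpow1 : (1 : ℝ) ≤ (2 : ℝ) ^ d := one_le_pow₀ (by norm_num)
  set C₁ : ℝ := 14 + 2 ^ d with hC₁
  have hC₁1 : 1 ≤ C₁ := by linarith
  set C₃ : ℝ := 2 + (Real.log (2 * C₁) + (1 : ℕ)) / Real.log 2 with hC₃
  have hlogC₁ : 0 ≤ Real.log (2 * C₁) := Real.log_nonneg (by linarith)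
  have hC₃2 : 2 ≤ C₃ := by
    rw [hC₃]
    have : (0 : ℝ) ≤ (Real.log (2 * C₁) + (1 : ℕ)) / Real.log 2 := by positivity
    linarith
  set C₄ : ℝ := 2 * d * C₃ ^ d + 1 with hC₄
  have hC₄1 : 1 ≤ C₄ := by
    have : (0 : ℝ) ≤ 2 * d * C₃ ^ d := by positivity
    linarith
  set C₅ : ℝ := 4 + 8 * C₁ + 4 * C₃ * C₄ with hC₅
  have hC₅1 : 1 ≤ C₅ := by
    have : (0 : ℝ) ≤ 4 * C₃ * C₄ := by positivity
    linarith
  set C₆ : ℝ := 1 + (Real.log (C₃ + 1) + (3 : ℕ)) / Real.log 2 with hC₆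
  have hC₆0 : 0 ≤ C₆ := by
    have : 0 ≤ Real.log (C₃ + 1) := Real.log_nonneg (by linarith)
    positivity
  set C₇ : ℝ := 36 + (21 + 3 * C₆) * C₅ with hC₇
  have hC₇0 : 0 ≤ C₇ := by positivity
  set C₈ : ℝ := 1 + (Real.log C₅ + ((d + 4 : ℕ) : ℝ)) / Real.log 2 with hC₈
  have hC₈0 : 0 ≤ C₈ := by
    have : 0 ≤ Real.log C₅ := Real.log_nonneg hC₅1
    positivity
  set C₉ : ℝ := 3 * C₈ + 1 with hC₉
  have hC₉0 : 0 ≤ C₉ := by positivity
  refine ⟨12 + C₇ * C₉, by positivity, fun s t hs => ?_⟩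
  have hs1 : (1 : ℝ) ≤ (s : ℝ) := by exact_mod_cast hs
  have hsq1 : 1 ≤ Real.sqrt s := by
    rw [Real.one_le_sqrt]
    exact hs1
  have ht0 : (0 : ℝ) ≤ t := Nat.cast_nonneg t
  set x : ℝ := Real.sqrt s + t with hx
  have hsx : Real.sqrt s ≤ x := by linarith
  have htx : (t : ℝ) ≤ x := by linarith
  have hx1 : 1 ≤ x := by linarith
  have hx0 : 0 < x := by linarith
  have hlogx : 0 ≤ Real.log x := Real.log_nonneg hx1
  set ℓ : ℝ := 1 + Real.log x with hℓ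
  have hℓ1 : 1 ≤ ℓ := by linarith
  have hℓx : ℓ ≤ x := by
    have := Real.log_le_sub_one_of_pos hx0
    linarith
  have hd0 : (0 : ℝ) < d := by exact_mod_cast hd
  have hd1 : (1 : ℝ) ≤ d := by exact_mod_cast hd
  set β : ℝ := x ^ ((2 : ℝ) / d) with hβ
  have hβ1 : 1 ≤ β := Real.one_le_rpow hx1 (by positivity)
  have hβ2 : β ≤ x ^ 2 := by
    rw [hβ, ← Real.rpow_natCast x 2]
    refine Real.rpow_le_rpow_of_exponent_le hx1 ?_
    rw [div_le_iff₀ hd0]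
    push_cast
    linarith
  have hsx2 : (s : ℝ) ≤ x ^ 2 := by
    have h1 : Real.sqrt s ^ 2 = s := Real.sq_sqrt (by linarith)
    rw [← h1]
    exact pow_le_pow_left₀ (by linarith) hsx 2
  have hx2 : 1 ≤ x ^ 2 := one_le_pow₀ hx1
  obtain ⟨hr1, hr2, hr3⟩ := QH.rt_spec 1 s
  set m := QH.rt 1 s with hm
  have hm1 : Real.sqrt s < m := by
    rw [Real.sqrt_lt' (by exact_mod_cast hr3)]
    exact_mod_cast hr1
  have hm2 : (m : ℝ) ≤ 2 * x := by
    have h1 : ((m - 1 : ℕ) : ℝ) ≤ Real.sqrt s := by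
      apply Real.le_sqrt_of_sq_le
      exact_mod_cast hr2
    rw [Nat.cast_sub hr3, Nat.cast_one] at h1
    linarith
  have hm0 : (0 : ℝ) < m := by linarith
  -- K
  have hK : (KC s : ℝ) ≤ 3 * x := by
    have h1 : ((s / m : ℕ) : ℝ) ≤ Real.sqrt s := by
      refine (Nat.cast_div_le).trans ?_
      rw [div_le_iff₀ hm0]
      have h2 : Real.sqrt s * Real.sqrt s = s := Real.mul_self_sqrt (by linarith)
      have h3 : Real.sqrt s * Real.sqrt s ≤ Real.sqrt s * m :=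
        mul_le_mul_of_nonneg_left hm1.le (Real.sqrt_nonneg _)
      linarith
    have h3 : (KC s : ℝ) = 2 * ((s / m : ℕ) : ℝ) + 1 := by
      unfold KC QH.kc
      push_cast
      rfl
    rw [h3]
    linarith
  have hK0 : (0 : ℝ) ≤ KC s := Nat.cast_nonneg _
  -- p
  set p : ℕ := 4 * m + 5 * t + 1 + m * 2 ^ (d - 1) with hp
  have hp0 : 0 < p := by omega
  have hpx : (p : ℝ) ≤ C₁ * x := by
    have h3 : (m : ℝ) * 2 ^ (d - 1) ≤ 2 * x * 2 ^ (d - 1) :=
      mul_le_mul_of_nonneg_right hm2 (by positivity)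
    have h4 : (2 : ℝ) * 2 ^ (d - 1) = 2 ^ d := by
      rw [← pow_succ']
      congr 1
      omega
    have h5 : (m : ℝ) * 2 ^ (d - 1) ≤ 2 ^ d * x := by
      rw [← h4]
      refine h3.trans (le_of_eq ?_)
      ring
    have h6 : (p : ℝ) = 4 * m + 5 * t + 1 + m * 2 ^ (d - 1) := by
      rw [hp]
      push_cast
      rfl
    rw [h6, hC₁, add_mul]
    linarith
  -- L
  set L := LC d s t with hL
  have hLp : L = (2 * p).size + 1 := rfl
  have hLℓ : (L : ℝ) ≤ C₃ * ℓ := by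
    have h1 := size_le' (n := 2 * p) (j := 1) (C := 2 * C₁) (x := x) (by linarith) hx1 (by
      push_cast
      rw [pow_one]
      linarith)
    have h2 : (L : ℝ) = ((2 * p).size : ℝ) + 1 := by
      rw [hLp]
      push_cast
      rfl
    rw [h2, hC₃]
    refine (add_le_add h1 hℓ1).trans (le_of_eq ?_)
    rw [hℓ]
    ring
  have hL2 : (2 : ℝ) ^ L ≤ 8 * C₁ * x := by
    have h1 := two_pow_size (n := 2 * p) (by omega)
    have h2 : 2 ^ L ≤ 8 * p := by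
      rw [hLp, pow_succ]
      omega
    have h3 : (2 : ℝ) ^ L ≤ 8 * p := by exact_mod_cast h2
    linarith
  have hL0 : (0 : ℝ) ≤ L := Nat.cast_nonneg _
  -- b
  have hrtc := (QH.rtc_spec hd s).2
  set b := QH.rtc d s with hb
  have hb2 : (b : ℝ) ≤ 2 * β := by
    rcases hrtc with h | h
    · rw [h, Nat.cast_zero]
      linarith
    · have h1 := root_le (by omega : d ≠ 0) h.le
      have h2 : (s : ℝ) ^ ((d : ℝ)⁻¹) ≤ β := by
        have h3 : β = (x ^ 2) ^ ((d : ℝ)⁻¹) := by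
          rw [hβ, ← Real.rpow_natCast x 2, ← Real.rpow_mul hx0.le]
          congr 1
        rw [h3]
        exact Real.rpow_le_rpow (by linarith) hsx2 (by positivity)
      rcases Nat.eq_zero_or_pos b with h0 | h0
      · rw [h0, Nat.cast_zero]
        linarith
      · rw [Nat.cast_sub h0] at h1
        push_cast at h1
        linarith
  -- Q
  set Q := QC d s t with hQ
  have hQ2 : (Q : ℝ) ≤ C₄ * (β * ℓ ^ d) := by
    have h0 : (Q : ℝ) = d * b * L ^ d + 1 := by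
      rw [hQ]
      unfold QC QH.qb
      push_cast
      rfl
    rw [h0]
    have h1 : (L : ℝ) ^ d ≤ C₃ ^ d * ℓ ^ d := by
      rw [← mul_pow]
      exact pow_le_pow_left₀ hL0 hLℓ d
    have h2 : (d : ℝ) * b * L ^ d ≤ d * (2 * β) * (C₃ ^ d * ℓ ^ d) := by
      refine mul_le_mul ?_ h1 (by positivity) (by positivity)
      exact mul_le_mul_of_nonneg_left hb2 (by positivity)
    have h3 : 1 ≤ β * ℓ ^ d := one_le_mul_of_one_le_of_one_le hβ1 (one_le_pow₀ hℓ1)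
    calc (d : ℝ) * b * L ^ d + 1 ≤ d * (2 * β) * (C₃ ^ d * ℓ ^ d) + β * ℓ ^ d := add_le_add h2 h3
      _ = C₄ * (β * ℓ ^ d) := by rw [hC₄]; ring
  have hQ0 : (0 : ℝ) ≤ Q := Nat.cast_nonneg _
  -- n
  set n := nC d s t with hn
  have hβℓ : 1 ≤ β * ℓ ^ (d + 1) := one_le_mul_of_one_le_of_one_le hβ1 (one_le_pow₀ hℓ1)
  have hn2 : (n : ℝ) ≤ C₅ * (x * (β * ℓ ^ (d + 1))) := by
    have h0 : (n : ℝ) = KC s + 1 + 2 ^ L + (KC s + 1) * L * Q := by
      rw [hn]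
      unfold nC
      push_cast
      rfl
    rw [h0]
    have h6 : ((KC s : ℝ) + 1) ≤ 4 * x := by linarith
    have h7 : ((KC s : ℝ) + 1) * L ≤ 4 * x * (C₃ * ℓ) :=
      mul_le_mul h6 hLℓ hL0 (by positivity)
    have h8 : ((KC s : ℝ) + 1) * L * Q ≤ 4 * x * (C₃ * ℓ) * (C₄ * (β * ℓ ^ d)) :=
      mul_le_mul h7 hQ2 hQ0 (by positivity)
    have h9 : 4 * x * (C₃ * ℓ) * (C₄ * (β * ℓ ^ d)) = 4 * C₃ * C₄ * (x * (β * ℓ ^ (d + 1))) := by
      rw [pow_succ]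
      ring
    have h10 : x ≤ x * (β * ℓ ^ (d + 1)) := le_mul_of_one_le_right hx0.le hβℓ
    have h11 : (4 + 8 * C₁) * x ≤ (4 + 8 * C₁) * (x * (β * ℓ ^ (d + 1))) :=
      mul_le_mul_of_nonneg_left h10 (by linarith)
    have h12 : C₅ * (x * (β * ℓ ^ (d + 1))) = (4 + 8 * C₁) * (x * (β * ℓ ^ (d + 1))) +
        4 * C₃ * C₄ * (x * (β * ℓ ^ (d + 1))) := by
      rw [hC₅]
      ring
    rw [h12]
    rw [h9] at h8
    linarith
  have hn0 : (0 : ℝ) ≤ n := Nat.cast_nonneg _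
  -- e
  set e := eC d s t with he
  have he2 : (e : ℝ) ≤ C₆ * ℓ := by
    have h1 := size_le' (n := (L + 1) * s) (j := 3) (C := C₃ + 1) (x := x) (by linarith) hx1 (by
      push_cast
      have h2 : (L : ℝ) + 1 ≤ (C₃ + 1) * x := by
        have h3 : C₃ * ℓ ≤ C₃ * x := mul_le_mul_of_nonneg_left hℓx (by linarith)
        rw [add_mul, one_mul]
        linarith
      calc ((L : ℝ) + 1) * s ≤ (C₃ + 1) * x * x ^ 2 :=
            mul_le_mul h2 hsx2 (by linarith) (by positivity)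
        _ = (C₃ + 1) * x ^ 3 := by ring)
    exact h1
  have he0 : (0 : ℝ) ≤ e := Nat.cast_nonneg _
  -- T
  have hT : (TC d s t : ℝ) ≤ C₇ * (x * (β * ℓ ^ (d + 2))) := by
    have h0 : (TC d s t : ℝ) = 36 * t + (21 + 3 * e) * n := by
      unfold TC
      push_cast
      ring
    rw [h0]
    have h1 : 21 + 3 * (e : ℝ) ≤ (21 + 3 * C₆) * ℓ := by
      have h2 : (21 + 3 * C₆) * ℓ = 21 * ℓ + 3 * (C₆ * ℓ) := by ring
      rw [h2]
      linarith
    have h2 : (21 + 3 * (e : ℝ)) * n ≤ (21 + 3 * C₆) * ℓ * (C₅ * (x * (β * ℓ ^ (d + 1)))) :=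
      mul_le_mul h1 hn2 hn0 (by positivity)
    have h3 : (21 + 3 * C₆) * ℓ * (C₅ * (x * (β * ℓ ^ (d + 1)))) =
        (21 + 3 * C₆) * C₅ * (x * (β * ℓ ^ (d + 2))) := by
      rw [pow_succ ℓ (d + 1)]
      ring
    have h4 : 1 ≤ β * ℓ ^ (d + 2) := one_le_mul_of_one_le_of_one_le hβ1 (one_le_pow₀ hℓ1)
    have h5 : x ≤ x * (β * ℓ ^ (d + 2)) := le_mul_of_one_le_right hx0.le h4
    rw [hC₇, add_mul]
    rw [h3] at h2
    linarith
  have hT0 : (0 : ℝ) ≤ TC d s t := Nat.cast_nonneg _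
  -- J
  have hJ : (JC d s t : ℝ) + 1 ≤ C₉ * ℓ := by
    have h1 := size_le' (n := n) (j := d + 4) (C := C₅) (x := x) hC₅1 hx1 (by
      refine hn2.trans ?_
      refine mul_le_mul_of_nonneg_left ?_ (by linarith)
      have h2 : ℓ ^ (d + 1) ≤ x ^ (d + 1) := pow_le_pow_left₀ (by linarith) hℓx _
      calc x * (β * ℓ ^ (d + 1)) ≤ x * (x ^ 2 * x ^ (d + 1)) := by
            refine mul_le_mul_of_nonneg_left ?_ hx0.le
            exact mul_le_mul hβ2 h2 (by positivity) (by positivity)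
        _ = x ^ (d + 4) := by ring)
    have h0 : (JC d s t : ℝ) = 3 * (n.size : ℝ) := by
      unfold JC
      push_cast
      rfl
    rw [h0, hC₉]
    have h1' : (n.size : ℝ) ≤ C₈ * ℓ := h1
    have h2 : (3 * C₈ + 1) * ℓ = 3 * (C₈ * ℓ) + ℓ := by ring
    rw [h2]
    linarith
  have hJ0 : (0 : ℝ) ≤ (JC d s t : ℝ) + 1 := by positivity
  -- the first factor
  have hlb : Real.logb 2 ((s : ℝ) + 1) ≤ 4 * ℓ := by
    have h1 : Real.log ((s : ℝ) + 1) ≤ 2 * ℓ := by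
      have h2 : Real.log ((s : ℝ) + 1) ≤ Real.log (2 * x ^ 2) :=
        Real.log_le_log (by linarith) (by linarith)
      rw [Real.log_mul (by norm_num) (by positivity), Real.log_pow] at h2
      have h3 : Real.log 2 ≤ 1 := by
        have := Real.log_two_lt_d9
        linarith
      push_cast at h2
      linarith
    have h2 : (1 : ℝ) / 2 ≤ Real.log 2 := by
      have := Real.log_two_gt_d9
      linarith
    unfold Real.logb
    rw [div_le_iff₀ hlog2]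
    have h3 : 4 * ℓ * (1 / 2) ≤ 4 * ℓ * Real.log 2 :=
      mul_le_mul_of_nonneg_left h2 (by positivity)
    linarith
  have hlb0 : 0 ≤ Real.logb 2 ((s : ℝ) + 1) := Real.logb_nonneg (by norm_num) (by linarith)
  have hA : (KC s : ℝ) * Real.logb 2 ((s : ℝ) + 1) ≤ 12 * (x * β * ℓ ^ (d + 3)) := by
    have h1 : (KC s : ℝ) * Real.logb 2 ((s : ℝ) + 1) ≤ 3 * x * (4 * ℓ) :=
      mul_le_mul hK hlb hlb0 (by positivity)
    have h2 : 1 ≤ β * ℓ ^ (d + 2) := one_le_mul_of_one_le_of_one_le hβ1 (one_le_pow₀ hℓ1)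
    have h3 : x * ℓ ≤ x * ℓ * (β * ℓ ^ (d + 2)) := le_mul_of_one_le_right (by positivity) h2
    have h4 : x * ℓ * (β * ℓ ^ (d + 2)) = x * β * ℓ ^ (d + 3) := by
      rw [pow_succ ℓ (d + 2)]
      ring
    rw [h4] at h3
    linarith
  have hB : (TC d s t : ℝ) * ((JC d s t : ℝ) + 1) ≤ C₇ * C₉ * (x * β * ℓ ^ (d + 3)) := by
    have h1 : (TC d s t : ℝ) * ((JC d s t : ℝ) + 1) ≤ C₇ * (x * (β * ℓ ^ (d + 2))) * (C₉ * ℓ) :=
      mul_le_mul hT hJ hJ0 (by positivity)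
    refine h1.trans (le_of_eq ?_)
    rw [pow_succ ℓ (d + 2)]
    ring
  rw [add_mul]
  exact add_le_add hA hB

theorem numC {ε : ℝ} (hε : 0 < ε) : ∃ d c : ℕ, 1 ≤ d ∧ ∀ s t : ℕ, 1 ≤ s →
    ((((s + 1) ^ KC s * 2 ^ (TC d s t * (JC d s t + 1)) : ℕ)) : ℝ) ≤
      (2 : ℝ) ^ ((c : ℝ) * (Real.sqrt s + t) ^ (1 + ε)) := by
  obtain ⟨d, hd⟩ := exists_nat_gt (4 / ε)
  have hd1 : (0 : ℝ) < d := lt_trans (by positivity) hd
  have hd0 : 1 ≤ d := by exact_mod_cast hd1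
  have hdε : (2 : ℝ) / d ≤ ε / 2 := by
    rw [div_lt_iff₀ hε] at hd
    rw [div_le_iff₀ hd1]
    linarith
  obtain ⟨C, hC, hbd⟩ := expo hd0
  set η : ℝ := ε / (2 * (d + 3)) with hη
  have hη0 : 0 < η := by positivity
  set C₆ : ℝ := (1 + 1 / η) ^ (d + 3) with hC₆
  have hC₆0 : 0 ≤ C₆ := by positivity
  refine ⟨d, ⌈C * C₆⌉₊, hd0, fun s t hs => ?_⟩
  have h0 := hbd s t hs
  have hs1 : (1 : ℝ) ≤ (s : ℝ) := by exact_mod_cast hs
  have hsq1 : 1 ≤ Real.sqrt s := by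
    rw [Real.one_le_sqrt]
    exact hs1
  have ht0 : (0 : ℝ) ≤ t := Nat.cast_nonneg t
  set x : ℝ := Real.sqrt s + t with hx
  have hx1 : 1 ≤ x := by linarith
  have hx0 : 0 < x := by linarith
  have hlogx : 0 ≤ Real.log x := Real.log_nonneg hx1
  set ℓ : ℝ := 1 + Real.log x with hℓ
  have hℓ1 : 1 ≤ ℓ := by linarith
  have hℓη : ℓ ≤ (1 + 1 / η) * x ^ η := by
    have h1 := Real.log_le_rpow_div hx0.le hη0
    have h2 : (1 : ℝ) ≤ x ^ η := Real.one_le_rpow hx1 hη0.le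
    have h3 : x ^ η / η = 1 / η * x ^ η := by ring
    rw [hℓ, add_mul, ← h3, one_mul]
    exact add_le_add h2 h1
  have hℓpow : ℓ ^ (d + 3) ≤ C₆ * x ^ (ε / 2) := by
    have h1 : ℓ ^ (d + 3) ≤ ((1 + 1 / η) * x ^ η) ^ (d + 3) :=
      pow_le_pow_left₀ (by linarith) hℓη _
    refine h1.trans (le_of_eq ?_)
    rw [mul_pow, hC₆]
    congr 1
    rw [← Real.rpow_natCast, ← Real.rpow_mul hx0.le]
    congr 1
    rw [hη]
    push_cast
    field_simp
  have hβε : x ^ ((2 : ℝ) / d) ≤ x ^ (ε / 2) := Real.rpow_le_rpow_of_exponent_le hx1 hdε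
  have hgoal : (KC s : ℝ) * Real.logb 2 ((s : ℝ) + 1) + (TC d s t : ℝ) * ((JC d s t : ℝ) + 1) ≤
      (⌈C * C₆⌉₊ : ℝ) * x ^ (1 + ε) := by
    have h3 : x ^ ((2 : ℝ) / d) * ℓ ^ (d + 3) ≤ x ^ (ε / 2) * (C₆ * x ^ (ε / 2)) :=
      mul_le_mul hβε hℓpow (by positivity) (by positivity)
    have h4 : x ^ (ε / 2) * (C₆ * x ^ (ε / 2)) = C₆ * x ^ ε := by
      rw [mul_left_comm, ← Real.rpow_add hx0, add_halves]
    rw [h4] at h3
    calc (KC s : ℝ) * Real.logb 2 ((s : ℝ) + 1) + (TC d s t : ℝ) * ((JC d s t : ℝ) + 1)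
        ≤ C * (x * x ^ ((2 : ℝ) / d) * ℓ ^ (d + 3)) := h0
      _ = C * (x * (x ^ ((2 : ℝ) / d) * ℓ ^ (d + 3))) := by ring
      _ ≤ C * (x * (C₆ * x ^ ε)) := by
          refine mul_le_mul_of_nonneg_left ?_ hC
          exact mul_le_mul_of_nonneg_left h3 hx0.le
      _ = C * C₆ * x ^ (1 + ε) := by
          rw [Real.rpow_add hx0, Real.rpow_one]
          ring
      _ ≤ _ := mul_le_mul_of_nonneg_right (Nat.le_ceil _) (by positivity)
  have hcast : ((((s + 1) ^ KC s * 2 ^ (TC d s t * (JC d s t + 1)) : ℕ)) : ℝ) =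
      (2 : ℝ) ^ ((KC s : ℝ) * Real.logb 2 ((s : ℝ) + 1) +
        (TC d s t : ℝ) * ((JC d s t : ℝ) + 1)) := by
    rw [Real.rpow_add (by norm_num)]
    push_cast
    congr 1
    · rw [mul_comm, Real.rpow_mul (by norm_num), Real.rpow_natCast,
        Real.rpow_logb (by norm_num) (by norm_num) (by linarith)]
    · rw [← Real.rpow_natCast]
      congr 1
      push_cast
      rfl
  rw [hcast]
  exact Real.rpow_le_rpow_of_exponent_le (by norm_num) hgoal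

end Pool.Agent.CK
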