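import Pool.Agent.CK.HitC
import Pool.Agent.CK.NumP
import Pool.Agent.CK.FpPtC

set_option autoImplicit false

/-!
The hitting sets for circuits: the algorithm lists the points number `i` for `i < v.length ^ c`.
-/

namespace Pool.Agent.CK

open N487b59b3 N68a2faeb MvPolynomial Pool.Agent.Helper22

private theorem mb_unPow {α : Type} [N487b59b3 α] {f : α → List Bool} (hf : FP f) (c : ℕ) :
    FP fun a => un ((f a).length ^ c) := by
  induction c with
  | zero =>
    refine (congrArg FP (funext fun a => ?_)).mp (FP.const (α := α) (un 1))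
    rw [pow_zero]
  | succ c ih =>
    refine (congrArg FP (funext fun a => ?_)).mp (FP.unMul ih hf)
    rw [un_length, pow_succ]

/-- the algorithm -/
private def mbAlg (d c : ℕ) (p : (List Bool × List Bool) × List Bool) : List (List ℕ) :=
  (List.range (p.2.length ^ c)).map fun i =>
    (List.range p.1.1.length).map fun x => ptC d p.1.1.length p.1.2.length i x

private theorem mb_fp {d : ℕ} (hd : 1 ≤ d) (c : ℕ) : FP (mbAlg d c) := by
  have hW : FP fun p : (List Bool × List Bool) × List Bool => un (p.2.length ^ c) :=
    mb_unPow FP.snd c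
  have h1 : FP fun q : ((List Bool × List Bool) × List Bool) × ℕ =>
      (List.range q.1.1.1.length).map fun x =>
        ptC d q.1.1.1.length q.1.1.2.length (min q.2 (un (q.1.2.length ^ c)).length) x := by
    have h2 : FP fun q : ((List Bool × List Bool) × List Bool) × ℕ =>
        (q.1.1, (un (q.1.2.length ^ c), q.2)) :=
      FP.pair (FP.fst.comp FP.fst) (FP.pair (hW.comp FP.fst) FP.snd)
    have h6 := (fp_ptC hd).comp h2
    exact h6
  have h5 : FP fun p : (List Bool × List Bool) × List Bool =>
      (List.range (un (p.2.length ^ c)).length).map fun i =>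
        (List.range p.1.1.length).map fun x =>
          ptC d p.1.1.length p.1.2.length (min i (un (p.2.length ^ c)).length) x := by
    have h6 := Pool.Agent.Helper6.SP.fp_map (Pool.Agent.Helper6.WB.FP.range hW) h1
    exact h6
  refine (congrArg FP (funext fun p => ?_)).mp h5
  unfold mbAlg
  rw [un_length]
  apply List.map_congr_left
  intro i hi
  apply List.map_congr_left
  intro x _
  rw [min_eq_left (List.mem_range.1 hi).le]

/-- **Hitting sets for all circuits.** -/
theorem mainB {ε : ℝ} (hε : 0 < ε) :
    ∃ g : (List Bool × List Bool) × List Bool → List (List ℕ), N68a2faeb.IsPolyTime g ∧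
      ∀ u w v : List Bool,
        (2 : ℝ) ^ ((Real.sqrt u.length + w.length) ^ (1 + ε)) ≤ v.length →
          ∀ C : Cir, C.lvs.card ≤ u.length → (∀ i ∈ C.lvs, i < u.length) →
            C.refs ≤ w.length → C.poly ≠ 0 →
              ∃ x ∈ g ((u, w), v), eval (fun i => ((x.getD i 0 : ℕ) : ℚ)) C.poly ≠ 0 := by
  obtain ⟨d, c, hd, hnum⟩ := numC hε
  refine ⟨mbAlg d c, (isPolyTime_iff _).2 (mb_fp hd c), ?_⟩
  intro u w v huv C hc hi ht h0
  have hx0 : (0 : ℝ) ≤ (Real.sqrt u.length + w.length) ^ (1 + ε) := by positivity
  have hv1 : 1 ≤ v.length := by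
    have h1 : (1 : ℝ) ≤ (2 : ℝ) ^ ((Real.sqrt u.length + w.length) ^ (1 + ε)) :=
      Real.one_le_rpow (by norm_num) hx0
    exact_mod_cast h1.trans huv
  rcases Nat.eq_zero_or_pos u.length with hs | hs
  · -- no variables
    have hvar : ∀ i, i ∉ C.poly.vars := by
      intro i hiv
      have h1 := hi i (vars_poly C i hiv)
      omega
    refine ⟨_, List.mem_map.2 ⟨0, List.mem_range.2 (Nat.pow_pos hv1), rfl⟩, ?_⟩
    intro hz
    apply h0
    have h2 : C.poly.vars = ∅ := Finset.eq_empty_of_forall_notMem hvar
    obtain ⟨q, hq⟩ : ∃ q : ℚ, C.poly = MvPolynomial.C q := by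
      refine ⟨C.poly.coeff 0, ?_⟩
      ext m
      rw [coeff_C]
      split_ifs with hm
      · rw [hm]
      · by_contra hne
        have h3 : m ∈ C.poly.support := by
          rw [mem_support_iff]
          exact hne
        apply hm
        symm
        rw [← Finsupp.support_eq_empty]
        apply Finset.eq_empty_of_forall_notMem
        intro i hi'
        exact hvar i ((mem_vars_iff_mem_support i).2 ⟨m, h3, hi'⟩)
    rw [hq, eval_C] at hz
    rw [hq, hz, map_zero]
  · obtain ⟨i, hi', hev⟩ := hitC hd hs hc hi ht h0
    have hiv : i < v.length ^ c := by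
      have h1 := hnum u.length w.length hs
      have h2 : ((((u.length + 1) ^ KC u.length *
          2 ^ (TC d u.length w.length * (JC d u.length w.length + 1)) : ℕ)) : ℝ) ≤
            (v.length : ℝ) ^ c := by
        refine h1.trans ?_
        rw [mul_comm, Real.rpow_mul (by norm_num), Real.rpow_natCast]
        exact pow_le_pow_left₀ (Real.rpow_nonneg (by norm_num) _) huv c
      exact hi'.trans_le (by exact_mod_cast h2)
    refine ⟨(List.range u.length).map fun x => ptC d u.length w.length i x,
      List.mem_map.2 ⟨i, List.mem_range.2 hiv, rfl⟩, ?_⟩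
    have h3 : eval (fun j => ((((List.range u.length).map fun x =>
        ptC d u.length w.length i x).getD j 0 : ℕ) : ℚ)) C.poly =
          eval (fun j => ((ptC d u.length w.length i j : ℕ) : ℚ)) C.poly := by
      refine eval₂Hom_congr' rfl (fun j hj _ => ?_) rfl
      have hjs : j < u.length := hi j (vars_poly C j hj)
      have h4 : ((List.range u.length).map fun x => ptC d u.length w.length i x).getD j 0 =
          ptC d u.length w.length i j := by
        rw [List.getD_eq_getElem?_getD, List.getElem?_map, List.getElem?_range hjs]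
        rfl
      rw [h4]
    rw [h3]
    exact hev

end Pool.Agent.CK
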