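import Pool.Agent.CK.Defs2
import Pool.Agent.CK.EvB

set_option autoImplicit false

/-!
CK-RenC. Renaming the heavy variables and substituting constants for the other variables: the
number of the references does not change, the labels of the leaves are the renamed heavy labels.
-/

namespace Pool.Agent.CK

open MvPolynomial

variable {H : ℕ → Prop} [DecidablePred H] {ix : ℕ → ℕ} {a : ℕ → ℚ}

private theorem fren_refs (F : Fr) : (F.ren H ix a).refs = F.refs := by
  induction F with
  | const q => rfl
  | var i =>
    unfold Fr.ren
    split_ifs <;> rfl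
  | ref j => rfl
  | add F G hF hG =>
    show (F.ren H ix a).refs + (G.ren H ix a).refs = F.refs + G.refs
    rw [hF, hG]
  | mul F G hF hG =>
    show (F.ren H ix a).refs + (G.ren H ix a).refs = F.refs + G.refs
    rw [hF, hG]

theorem ren_refs (C : Cir) : (C.ren H ix a).refs = C.refs := by
  show ((C.gates.map (Fr.ren H ix a)).map Fr.refs).sum + (C.out.ren H ix a).refs =
    (C.gates.map Fr.refs).sum + C.out.refs
  rw [List.map_map, fren_refs]
  congr 3
  funext F
  exact fren_refs F

private theorem fren_lvs (F : Fr) : (F.ren H ix a).lvs = (F.lvs.filter H).map ix := by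
  induction F with
  | const q => rfl
  | var i =>
    show (if H i then Fr.var (ix i) else Fr.const (a i)).lvs =
      (Multiset.filter H {i}).map ix
    rw [Multiset.filter_singleton]
    split_ifs with h
    · rw [Multiset.map_singleton]
      rfl
    · rfl
  | ref j => rfl
  | add F G hF hG =>
    show (F.ren H ix a).lvs + (G.ren H ix a).lvs = ((F.lvs + G.lvs).filter H).map ix
    rw [hF, hG, Multiset.filter_add, Multiset.map_add]
  | mul F G hF hG =>
    show (F.ren H ix a).lvs + (G.ren H ix a).lvs = ((F.lvs + G.lvs).filter H).map ix
    rw [hF, hG, Multiset.filter_add, Multiset.map_add]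

private theorem list_lvs (l : List Fr) : ((l.map (Fr.ren H ix a)).map Fr.lvs).sum =
    (((l.map Fr.lvs).sum).filter H).map ix := by
  induction l with
  | nil => rfl
  | cons F l ih =>
    rw [List.map_cons, List.map_cons, List.sum_cons, ih, fren_lvs, List.map_cons, List.sum_cons,
      Multiset.filter_add, Multiset.map_add]

theorem ren_lvs (C : Cir) : (C.ren H ix a).lvs = (C.lvs.filter H).map ix := by
  show ((C.gates.map (Fr.ren H ix a)).map Fr.lvs).sum + (C.out.ren H ix a).lvs =
    (((C.gates.map Fr.lvs).sum + C.out.lvs).filter H).map ix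
  rw [list_lvs, fren_lvs, Multiset.filter_add, Multiset.map_add]

private theorem fren_evl {A : Type} [CommSemiring A] [Algebra ℚ A] (F : Fr) (σ y : ℕ → A) :
    (F.ren H ix a).evl σ y =
      F.evl (fun i => if H i then σ (ix i) else algebraMap ℚ A (a i)) y := by
  induction F with
  | const q => rfl
  | var i =>
    show (if H i then Fr.var (ix i) else Fr.const (a i)).evl σ y =
      if H i then σ (ix i) else algebraMap ℚ A (a i)
    split_ifs with h <;> rfl
  | ref j => rfl
  | add F G hF hG =>
    show (F.ren H ix a).evl σ y + (G.ren H ix a).evl σ y = _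
    rw [hF, hG]
    rfl
  | mul F G hF hG =>
    show (F.ren H ix a).evl σ y * (G.ren H ix a).evl σ y = _
    rw [hF, hG]
    rfl

private theorem vals_ren {A : Type} [CommSemiring A] [Algebra ℚ A] (σ : ℕ → A) (l : List Fr) :
    vals σ (l.map (Fr.ren H ix a)) =
      vals (fun i => if H i then σ (ix i) else algebraMap ℚ A (a i)) l := by
  induction l using List.reverseRecOn with
  | nil => rfl
  | append_singleton l F ih =>
    rw [List.map_append, List.map_singleton, vals_append, vals_append, ih, fren_evl]

theorem ren_evl {A : Type} [CommSemiring A] [Algebra ℚ A] (C : Cir) (σ : ℕ → A) :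
    (C.ren H ix a).evl σ = C.evl fun i => if H i then σ (ix i) else algebraMap ℚ A (a i) := by
  show (C.out.ren H ix a).evl σ (fun j => (vals σ (C.gates.map (Fr.ren H ix a))).getD j 0) = _
  rw [vals_ren, fren_evl]
  rfl

end Pool.Agent.CK
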