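import Pool.Agent.CK.Unf

set_option autoImplicit false

/-!
CK-UnfL. The length of the unfolded circuit; the cut off is harmless.
-/

namespace Pool.Agent.CK

open MvPolynomial

open Pool.Agent.Helper6.WB (Fm)

private theorem ul_pos (F : Fr) : 1 ≤ F.code.length := by
  cases F with
  | const q => simp [Fr.code]
  | var i => simp [Fr.code]
  | ref j => simp [Fr.code]
  | add F G =>
    rw [Fr.code, List.length_append, List.length_singleton]
    exact Nat.le_add_left _ _
  | mul F G =>
    rw [Fr.code, List.length_append, List.length_singleton]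
    exact Nat.le_add_left _ _

private theorem ul_unf {ys : List Fm} {M : ℕ} (hM : 1 ≤ M) (h : ∀ G ∈ ys, G.code.length ≤ M)
    (F : Fr) : (F.unf ys).code.length ≤ F.code.length + F.refs * M := by
  induction F with
  | const q => simp [Fr.unf, Fm.code, Fr.code]
  | var i => simp [Fr.unf, Fm.code, Fr.code]
  | ref j =>
    rw [Fr.unf, Fr.refs, one_mul]
    rcases lt_or_ge j ys.length with hj | hj
    · rw [List.getD_eq_getElem _ _ hj]
      exact (h _ (List.getElem_mem hj)).trans (Nat.le_add_left _ _)
    · rw [List.getD_eq_default _ _ hj]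
      refine le_trans ?_ (Nat.le_add_left _ _)
      rw [Fm.code, List.length_singleton]
      exact hM
  | add F G ihF ihG =>
    rw [Fr.unf, Fm.code, Fr.code, Fr.refs]
    simp only [List.length_append, List.length_singleton, add_mul]
    omega
  | mul F G ihF ihG =>
    rw [Fr.unf, Fm.code, Fr.code, Fr.refs]
    simp only [List.length_append, List.length_singleton, add_mul]
    omega

private theorem ul_bound {ys : List Fm} {K t : ℕ} (h : ∀ G ∈ ys, G.code.length ≤ K * 2 ^ t)
    (F : Fr) : (F.unf ys).code.length ≤ (K + F.code.length) * 2 ^ (t + F.refs) := by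
  have h1 := ul_unf (M := K * 2 ^ t + 1) (Nat.le_add_left _ _)
    (fun G hG => (h G hG).trans (Nat.le_add_right _ _)) F
  have h2 : F.refs + 1 ≤ 2 ^ F.refs := Nat.lt_two_pow_self
  have h3 : 1 ≤ 2 ^ t := Nat.one_le_two_pow
  have h4 := ul_pos F
  refine h1.trans ?_
  rw [pow_add]
  have h5 : F.refs * (K * 2 ^ t) ≤ 2 ^ F.refs * (K * 2 ^ t) :=
    Nat.mul_le_mul_right _ (by omega)
  have h6 : F.code.length + F.refs ≤ F.code.length * 2 ^ F.refs := by
    have h7 : F.code.length * (F.refs + 1) ≤ F.code.length * 2 ^ F.refs :=
      Nat.mul_le_mul_left _ h2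
    have h8 : 1 * F.refs ≤ F.code.length * F.refs := Nat.mul_le_mul_right _ h4
    have h9 : F.code.length * (F.refs + 1) = F.code.length * F.refs + F.code.length := by ring
    omega
  have h10 : F.code.length * 2 ^ F.refs * 1 ≤ F.code.length * 2 ^ F.refs * 2 ^ t :=
    Nat.mul_le_mul_left _ h3
  calc F.code.length + F.refs * (K * 2 ^ t + 1)
      = (F.code.length + F.refs) + F.refs * (K * 2 ^ t) := by ring
    _ ≤ F.code.length * 2 ^ F.refs * 2 ^ t + 2 ^ F.refs * (K * 2 ^ t) := by omega
    _ = (K + F.code.length) * (2 ^ t * 2 ^ F.refs) := by ring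

private theorem ul_mono {a b c d : ℕ} (h1 : a ≤ b) (h2 : c ≤ d) : a * 2 ^ c ≤ b * 2 ^ d :=
  Nat.mul_le_mul h1 (Nat.pow_le_pow_right (by norm_num) h2)

private theorem ul_unfs (l : List Fr) : ∀ G ∈ unfs l, G.code.length ≤
    (l.map fun F => F.code.length).sum * 2 ^ (l.map Fr.refs).sum := by
  induction l using List.reverseRecOn with
  | nil =>
    intro G hG
    exact absurd hG (by simp [unfs])
  | append_singleton l F ih =>
    intro G hG
    rw [unfs_append, List.mem_append, List.mem_singleton] at hG
    rw [List.map_append, List.map_append, List.sum_append, List.sum_append]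
    simp only [List.map_cons, List.map_nil, List.sum_cons, List.sum_nil, add_zero]
    rcases hG with hG | hG
    · exact (ih G hG).trans (ul_mono (Nat.le_add_right _ _) (Nat.le_add_right _ _))
    · rw [hG]
      exact ul_bound ih F

private theorem ul_cdus_append (N : ℕ) (gl : List (List (ℕ × ℚ))) (l : List (ℕ × ℚ)) :
    cdus N (gl ++ [l]) = cdus N gl ++ [(cdu (cdus N gl) l).take N] := by
  unfold cdus
  rw [List.foldl_append]
  rfl

private theorem ul_cdus {N : ℕ} (l : List Fr)
    (h : (l.map fun F => F.code.length).sum * 2 ^ (l.map Fr.refs).sum ≤ N) :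
    cdus N (l.map Fr.code) = (unfs l).map Fm.code := by
  induction l using List.reverseRecOn with
  | nil => rfl
  | append_singleton l F ih =>
    have hb : ∀ G ∈ unfs (l ++ [F]), G.code.length ≤ N := fun G hG =>
      (ul_unfs (l ++ [F]) G hG).trans h
    rw [List.map_append, List.map_append, List.sum_append, List.sum_append] at h
    simp only [List.map_cons, List.map_nil, List.sum_cons, List.sum_nil, add_zero] at h
    have ih' := ih ((ul_mono (Nat.le_add_right _ _) (Nat.le_add_right _ _)).trans h)
    rw [List.map_append, List.map_singleton, ul_cdus_append, ih', cdu_code, unfs_append,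
      List.map_append, List.map_singleton, List.take_of_length_le]
    refine hb _ ?_
    rw [unfs_append]
    exact List.mem_append_right _ (List.mem_singleton_self _)

theorem cduC_code {N : ℕ} {C : Cir} (hN : (tks C.code).length * 2 ^ C.refs ≤ N) :
    cduC N C.code = C.unf.code := by
  have hlen : (tks C.code).length =
      (C.gates.map fun F => F.code.length).sum + C.out.code.length := by
    unfold tks Cir.code
    rw [List.length_append, List.length_flatten, List.map_map]
    rfl
  rw [hlen] at hN
  have hrefs : C.refs = (C.gates.map Fr.refs).sum + C.out.refs := rfl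
  rw [hrefs] at hN
  have h1 : cdus N (C.gates.map Fr.code) = (unfs C.gates).map Fm.code :=
    ul_cdus C.gates ((ul_mono (Nat.le_add_right _ _) (Nat.le_add_right _ _)).trans hN)
  have h2 : cduC N C.code = ((C.unf).code).take N := by
    change (cdu (cdus N (C.gates.map Fr.code)) C.out.code).take N = _
    rw [h1, cdu_code]
    rfl
  rw [h2, List.take_of_length_le]
  exact (ul_bound (ul_unfs C.gates) C.out).trans hN

end Pool.Agent.CK
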