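import Pool.Agent.CK.MainB
import Pool.Agent.CK.UnfL
import Pool.Agent.CK.HvC
import Pool.Agent.CK.RenC
import Pool.Agent.CK.FpUnf
import Pool.Agent.CK.FpHv
import Pool.Agent.Helper6.SP.Main

set_option autoImplicit false

/-!
Identity testing for all arithmetic circuits: numbers are substituted for the heavy variables, and
the unfolded formula, in which every other variable labels at most `r` leaves, is tested by the
algorithm for formulas of bounded reading.
-/

namespace Pool.Agent.CK

open N487b59b3 N68a2faeb MvPolynomial Pool.Agent.QH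
open Pool.Agent.Helper22 (FP isPolyTime_iff un)
open Pool.Agent.Helper6.WB (Fm)

/-- the codes of circuits -/
abbrev Cd := List (List (ℕ × ℚ)) × List (ℕ × ℚ)

/-- the bound for the length of the unfolded formula, in unary -/
private def wmN (p : List Bool × Cd) : List Bool := un ((tks p.2).length * p.1.length)

/-- the input of the test of the formula after the substitution -/
private def wmIn (r : ℕ) (p : List Bool × Cd) (x : List ℕ) :
    List (ℕ × ℚ) × List (List (List (ℕ × ℚ))) :=
  ([(3, 0)], [[subC r p.2 x (cduC (wmN p).length p.2)]])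

private theorem wm_fp_N : FP wmN := by
  have h1 : FP fun p : List Bool × Cd => un (tks p.2).length :=
    Pool.Agent.Helper22.FP.un_length (fp_tks.comp FP.snd)
  have h2 : FP fun p : List Bool × Cd => p.1 := FP.fst
  have h3 := Pool.Agent.Helper22.FP.unMul h1 h2
  refine (congrArg FP (funext fun p => ?_)).mp h3
  simp only [wmN, Pool.Agent.Helper22.un_length]

private theorem wm_fp_in (r : ℕ) :
    FP fun q : (List Bool × Cd) × List ℕ => wmIn r q.1 q.2 := by
  have h1 : FP fun q : (List Bool × Cd) × List ℕ => (wmN q.1, q.1.2) :=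
    FP.pair (wm_fp_N.comp FP.fst) (FP.snd.comp FP.fst)
  have h2 : FP fun q : (List Bool × Cd) × List ℕ => cduC (wmN q.1).length q.1.2 :=
    fp_cduC.comp h1
  have h3 : FP fun q : (List Bool × Cd) × List ℕ =>
      ((q.1.2, q.2), cduC (wmN q.1).length q.1.2) :=
    FP.pair (FP.pair (FP.snd.comp FP.fst) FP.snd) h2
  have h4 : FP fun q : (List Bool × Cd) × List ℕ =>
      subC r q.1.2 q.2 (cduC (wmN q.1).length q.1.2) := (fp_subC r).comp h3
  have h5 : FP fun q : (List Bool × Cd) × List ℕ =>
      [subC r q.1.2 q.2 (cduC (wmN q.1).length q.1.2)] := FP.cons h4 (FP.const [])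
  have h6 : FP fun q : (List Bool × Cd) × List ℕ =>
      [[subC r q.1.2 q.2 (cduC (wmN q.1).length q.1.2)]] := FP.cons h5 (FP.const [])
  exact FP.pair (FP.const [((3 : ℕ), (0 : ℚ))]) h6

/-- the algorithm -/
private def wmDec (r : ℕ) (g : (List Bool × List Bool) × List Bool → List (List ℕ))
    (f₀ : List (ℕ × ℚ) × List (List (List (ℕ × ℚ))) → Bool) (p : List Bool × Cd) : Bool :=
  !((g (((hlC r p.2).map (fun _ => true), rlC p.2), p.1)).any fun x => !(f₀ (wmIn r p x)))

private theorem wm_fp_dec (r : ℕ) {g : (List Bool × List Bool) × List Bool → List (List ℕ)}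
    (hg : FP g) {f₀ : List (ℕ × ℚ) × List (List (List (ℕ × ℚ))) → Bool} (hf : FP f₀) :
    FP (wmDec r g f₀) := by
  have h1 : FP fun p : List Bool × Cd => (hlC r p.2).map (fun _ => true) :=
    Pool.Agent.Helper6.SP.fp_map (f := fun p : List Bool × Cd => hlC r p.2)
      (h := fun _ => true) ((fp_hlC r).comp FP.snd) (FP.const true)
  have h2 : FP fun p : List Bool × Cd =>
      g (((hlC r p.2).map (fun _ => true), rlC p.2), p.1) :=
    hg.comp (FP.pair (FP.pair h1 (fp_rlC.comp FP.snd)) FP.fst)
  have h3 : FP fun q : (List Bool × Cd) × List ℕ => !(f₀ (wmIn r q.1 q.2)) :=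
    FP.not (hf.comp (wm_fp_in r))
  exact FP.not (Pool.Agent.Helper6.SP.fp_any h2 h3)

/-- the substitution -/
private noncomputable def hh (r : ℕ) (C : Cir) (x : List ℕ) (i : ℕ) : Option ℚ :=
  if C.Heavy r i then some ((x.getD ((hlC r C.code).idxOf i) 0 : ℕ) : ℚ) else none

private theorem wm_dec_iff (r : ℕ) (g : (List Bool × List Bool) × List Bool → List (List ℕ))
    (f₀ : List (ℕ × ℚ) × List (List (List (ℕ × ℚ))) → Bool) (v : List Bool) (C : Cir)
    (hv : 2 ^ C.refs ≤ v.length)
    (hf : ∀ (Q : Fm) (L : List (List Fm)), (∀ p ∈ L, ∀ g ∈ p, ∀ i, g.reads i ≤ r) →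
      (∀ b : Finset (Fin L.length), AlgebraicIndepOn ℚ
        (fun i => ((L.get i).map Fm.poly).prod) (b : Set (Fin L.length)) → b.card ≤ 1) →
      (f₀ (Q.code, L.map fun p => p.map Fm.code) = true ↔
        aeval (fun i => ((L.getD i [Fm.const 0]).map Fm.poly).prod) Q.poly = 0)) :
    wmDec r g f₀ (v, C.code) = true ↔
      ∀ x ∈ g (((hlC r C.code).map (fun _ => true), rlC C.code), v),
        (subF (hh r C x) C.unf).poly = 0 := by
  have hN : cduC (wmN (v, C.code)).length C.code = C.unf.code := by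
    apply cduC_code
    unfold wmN
    rw [Pool.Agent.Helper22.un_length]
    exact Nat.mul_le_mul_left _ hv
  have key : ∀ x : List ℕ, f₀ (wmIn r (v, C.code) x) = true ↔
      (subF (hh r C x) C.unf).poly = 0 := by
    intro x
    have e1 : wmIn r (v, C.code) x = ((Fm.var 0).code, [[subF (hh r C x) C.unf]].map
          fun p => p.map Fm.code) := by
      unfold wmIn
      rw [hN, subC_code]
      rfl
    rw [e1, hf (Fm.var 0) _ ?_ ?_]
    · simp only [Fm.poly, aeval_X, List.getD_cons_zero, List.map_cons, List.map_nil,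
        List.prod_cons, List.prod_nil, mul_one]
    · intro p hp g hg i
      rw [List.mem_singleton] at hp
      subst hp
      rw [List.mem_singleton] at hg
      subst hg
      refine reads_subF ?_ i
      intro j hj
      have hnH : ¬ C.Heavy r j := by
        intro hH
        unfold hh at hj
        rw [if_pos hH] at hj
        exact Option.some_ne_none _ hj
      unfold Cir.Heavy at hnH
      push Not at hnH
      rw [occ_unf hnH.1]
      exact hnH.2
    · intro b _
      have h1 := Finset.card_le_univ b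
      rw [Fintype.card_fin] at h1
      exact h1
  unfold wmDec
  rw [Bool.not_eq_true', Bool.eq_false_iff, ne_eq, List.any_eq_true]
  constructor
  · intro h x hx
    rw [← key x]
    by_contra hc
    apply h
    refine ⟨x, hx, ?_⟩
    simp only [Bool.not_eq_true] at hc
    simp only [hc, Bool.not_false]
  · rintro h ⟨x, hx, hc⟩
    have h1 := (key x).2 (h x hx)
    simp only [h1, Bool.not_true] at hc
    exact Bool.false_ne_true hc

private theorem wm_eval_sub (r : ℕ) (C : Cir) (x : List ℕ) (a : ℕ → ℚ) :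
    eval a (subF (hh r C x) C.unf).poly =
      C.evl fun i => if C.Heavy r i then
        ((x.getD ((hlC r C.code).idxOf i) 0 : ℕ) : ℚ) else a i := by
  rw [poly_subF, unf_poly, aeval_poly]
  have h1 := Cir.evl_map (MvPolynomial.aeval a : MvPolynomial ℕ ℚ →ₐ[ℚ] ℚ)
    (fun i => (hh r C x i).elim (X i : MvPolynomial ℕ ℚ) MvPolynomial.C) C
  have h2 : ∀ p : MvPolynomial ℕ ℚ, (MvPolynomial.aeval a) p = eval a p := by
    intro p
    rw [MvPolynomial.aeval_eq_eval]
  rw [h2] at h1
  rw [h1]
  congr 1
  funext i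
  rw [h2]
  unfold hh
  by_cases hi : C.Heavy r i
  · simp only [if_pos hi, Option.elim_some, eval_C]
  · simp only [if_neg hi, Option.elim_none, eval_X]

private theorem wm_exists (r : ℕ) (C : Cir) (g : List (List ℕ)) (hC : C.poly ≠ 0)
    (hg : ∀ C' : Cir, C'.lvs.card ≤ C.heavy r → (∀ i ∈ C'.lvs, i < C.heavy r) →
      C'.refs ≤ C.refs → C'.poly ≠ 0 →
        ∃ x ∈ g, eval (fun i => ((x.getD i 0 : ℕ) : ℚ)) C'.poly ≠ 0) :
    ∃ x ∈ g, (subF (hh r C x) C.unf).poly ≠ 0 := by
  obtain ⟨a, ha⟩ : ∃ a : ℕ → ℚ, eval a C.poly ≠ 0 := by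
    by_contra hc
    apply hC
    refine MvPolynomial.funext ?_
    intro x
    rw [map_zero]
    by_contra hc2
    exact hc ⟨x, hc2⟩
  obtain ⟨ix, hix⟩ : ∃ ix : ℕ → ℕ, ix = fun i => (hlC r C.code).idxOf i := ⟨_, rfl⟩
  have hne : (C.ren (fun i => C.Heavy r i) ix a).poly ≠ 0 := by
    intro h0
    have h1 := congrArg (eval fun k => a ((hlC r C.code).getD k 0)) h0
    rw [eval_poly, map_zero, ren_evl] at h1
    apply ha
    rw [eval_poly, ← h1]
    refine Cir.evl_congr fun i hi => ?_
    by_cases hr : C.Heavy r i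
    · rw [if_pos hr]
      have hm : i ∈ hlC r C.code := mem_hlC hi hr
      have hlt : (hlC r C.code).idxOf i < (hlC r C.code).length := List.idxOf_lt_length_iff.2 hm
      rw [hix]
      simp only
      rw [List.getD_eq_getElem _ _ hlt, List.getElem_idxOf]
    · rw [if_neg hr]
      rfl
  obtain ⟨x, hx, hx2⟩ := hg _ (by rw [ren_lvs, Multiset.card_map]; exact le_refl _) (by
    intro k hk
    rw [ren_lvs, Multiset.mem_map] at hk
    obtain ⟨i, hi, hik⟩ := hk
    rw [Multiset.mem_filter] at hi
    rw [← hik, ← length_hlC, hix]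
    exact List.idxOf_lt_length_iff.2 (mem_hlC hi.1 hi.2)) (by rw [ren_refs]) hne
  refine ⟨x, hx, ?_⟩
  intro h0
  apply hx2
  rw [eval_poly, ren_evl]
  have h1 := wm_eval_sub r C x a
  rw [h0, map_zero] at h1
  rw [h1, hix]
  rfl

/-- **Main theorem.** -/
theorem mainC (r : ℕ) {ε : ℝ} (hε : 0 < ε) :
    ∃ f : List Bool × (List (List (ℕ × ℚ)) × List (ℕ × ℚ)) → Bool, N68a2faeb.IsPolyTime f ∧
      ∀ (v : List Bool) (C : Cir),
        (2 : ℝ) ^ ((Real.sqrt (C.heavy r) + C.refs) ^ (1 + ε)) ≤ v.length →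
          (f (v, C.code) = true ↔ C.poly = 0) := by
  obtain ⟨g, hg, hg2⟩ := mainB hε
  obtain ⟨f₀, hf, hf2⟩ := Pool.Agent.Helper6.SP.main r 1
  refine ⟨wmDec r g f₀, (isPolyTime_iff _).mpr (wm_fp_dec r ((isPolyTime_iff _).mp hg)
    ((isPolyTime_iff _).mp hf)), ?_⟩
  intro v C hv
  have hvt : 2 ^ C.refs ≤ v.length := by
    have h1 : (C.refs : ℝ) ≤ (Real.sqrt (C.heavy r) + C.refs) ^ (1 + ε) := by
      have h2 : (C.refs : ℝ) ≤ Real.sqrt (C.heavy r) + C.refs :=
        le_add_of_nonneg_left (Real.sqrt_nonneg _)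
      rcases Nat.eq_zero_or_pos C.refs with h0 | h0
      · rw [h0, Nat.cast_zero]
        positivity
      · have h3 : (1 : ℝ) ≤ C.refs := by exact_mod_cast h0
        have h4 : (1 : ℝ) ≤ Real.sqrt (C.heavy r) + C.refs := h3.trans h2
        refine h2.trans ?_
        calc Real.sqrt (C.heavy r) + C.refs = (Real.sqrt (C.heavy r) + C.refs) ^ (1 : ℝ) :=
              (Real.rpow_one _).symm
          _ ≤ _ := Real.rpow_le_rpow_of_exponent_le h4 (by linarith)
    have h2 : ((2 : ℝ) ^ (C.refs : ℝ)) ≤ v.length :=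
      (Real.rpow_le_rpow_of_exponent_le (by norm_num) h1).trans hv
    rw [Real.rpow_natCast] at h2
    exact_mod_cast h2
  rw [wm_dec_iff r g f₀ v C hvt hf2]
  constructor
  · intro h
    by_contra hC
    have hlen : ((hlC r C.code).map (fun _ => true)).length = C.heavy r := by
      rw [List.length_map, length_hlC]
    obtain ⟨x, hx, hx2⟩ := wm_exists r C
      (g (((hlC r C.code).map (fun _ => true), rlC C.code), v)) hC (by
        intro C' h1 h2 h3 h4
        refine hg2 _ _ v ?_ C' ?_ ?_ ?_ h4
        · rw [hlen, length_rlC]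
          exact hv
        · rw [hlen]
          exact h1
        · rw [hlen]
          exact h2
        · rw [length_rlC]
          exact h3)
    exact hx2 (h x hx)
  · intro h x _
    rw [poly_subF, unf_poly, h, map_zero]

end Pool.Agent.CK
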