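import Pool.Agent.CK.GVal
import Pool.Agent.CK.GCnt
import Pool.Agent.CK.GCode
import Pool.Agent.CK.GFp

set_option autoImplicit false

/-!
Ordinary arithmetic circuits: the algorithm for `Cir` after the translation.
-/

namespace Pool.Agent.CK

open N487b59b3 N68a2faeb Pool.Agent.Helper22

theorem mainG_of {r : ℕ} {ε : ℝ} (hε : 0 < ε)
    (h : ∃ f : List Bool × (List (List (ℕ × ℚ)) × List (ℕ × ℚ)) → Bool, IsPolyTime f ∧
      ∀ (v : List Bool) (C : Cir),
        (2 : ℝ) ^ ((Real.sqrt (C.heavy r) + C.refs) ^ (1 + ε)) ≤ v.length →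
          (f (v, C.code) = true ↔ C.poly = 0)) :
    ∃ f : List Bool × List (ℕ × (ℕ × (ℕ × ℚ))) → Bool, IsPolyTime f ∧
      ∀ (v : List Bool) (C : List Gt),
        (2 : ℝ) ^ ((Real.sqrt (gHeavy r C) + gReused C) ^ (1 + ε)) ≤ v.length →
          (f (v, C.map Gt.code) = true ↔ gpoly C = 0) := by
  obtain ⟨f, hf, h⟩ := h
  refine ⟨fun p => f (p.1, toCirC p.2), (isPolyTime_iff _).2 ?_, ?_⟩
  · exact ((isPolyTime_iff _).1 hf).comp (FP.pair FP.fst (fp_toCirC.comp FP.snd))
  · intro v C hv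
    show f (v, toCirC (C.map Gt.code)) = true ↔ gpoly C = 0
    rw [toCirC_code, ← toCir_poly]
    refine h v (toCir C) (le_trans ?_ hv)
    refine Real.rpow_le_rpow_of_exponent_le one_le_two ?_
    refine Real.rpow_le_rpow (by positivity) ?_ (by linarith)
    refine add_le_add (Real.sqrt_le_sqrt ?_) ?_
    · exact_mod_cast heavy_le r C
    · exact_mod_cast refs_le C

end Pool.Agent.CK
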