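import Pool.Agent.CK.GVal
import Pool.Agent.CK.GCnt
import Pool.Agent.CK.MainB

set_option autoImplicit false

/-!
Ordinary arithmetic circuits: the hitting sets.
-/

namespace Pool.Agent.CK

open MvPolynomial

theorem mainGB {ε : ℝ} (hε : 0 < ε) :
    ∃ g : (List Bool × List Bool) × List Bool → List (List ℕ), N68a2faeb.IsPolyTime g ∧
      ∀ u w v : List Bool,
        (2 : ℝ) ^ ((Real.sqrt u.length + w.length) ^ (1 + ε)) ≤ v.length →
          ∀ C : List Gt, gLeaves C ≤ u.length → (∀ i, gOcc C i ≠ 0 → i < u.length) →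
            gReused C ≤ w.length → gpoly C ≠ 0 →
              ∃ x ∈ g ((u, w), v), eval (fun i => ((x.getD i 0 : ℕ) : ℚ)) (gpoly C) ≠ 0 := by
  obtain ⟨g, hg, h⟩ := mainB hε
  refine ⟨g, hg, fun u w v huv C h1 h2 h3 h4 => ?_⟩
  rw [← toCir_poly] at h4 ⊢
  exact h u w v huv (toCir C) ((lvs_le C).trans h1) (fun i hi => h2 i (gOcc_of_mem hi))
    ((refs_le C).trans h3) h4

end Pool.Agent.CK
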