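import Pool.Agent.CK.Defs
import Pool.Agent.QH.TreeP

set_option autoImplicit false

/-!
CK-ParF. A formula with references, restricted to a block of variables, has few parameters: the
variables `x_i` and the references to gate `j` become the variables `2 * i` and `2 * j + 1` of a tree
of width one, to which `Tree.par` is applied; the references count as variables of the block.
-/

namespace Pool.Agent.CK

open MvPolynomial

private def pfLs : Fr → Multiset ℕ
  | .const _ => 0
  | .var i => {2 * i}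
  | .ref j => {2 * j + 1}
  | .add F G => pfLs F + pfLs G
  | .mul F G => pfLs F + pfLs G

private noncomputable def pfPl (F : Fr) : MvPolynomial ℕ ℚ :=
  F.evl (fun i => X (2 * i)) (fun j => X (2 * j + 1))

private theorem pf_tree_congr {o : Multiset ℕ} {f g : Fin 1 → MvPolynomial ℕ ℚ}
    (h : QH.Tree 1 o f) (e : f = g) : QH.Tree 1 o g := e ▸ h

private theorem pf_tree (F : Fr) : QH.Tree 1 (pfLs F) (fun _ => pfPl F) := by
  induction F with
  | const q => exact pf_tree_congr (QH.Tree.const fun _ => q) rfl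
  | var i =>
    refine pf_tree_congr (QH.Tree.var (2 * i) fun _ => 1) ?_
    funext j
    rw [C_1, one_mul]
    rfl
  | ref i =>
    refine pf_tree_congr (QH.Tree.var (2 * i + 1) fun _ => 1) ?_
    funext j
    rw [C_1, one_mul]
    rfl
  | add F G ihF ihG => exact QH.Tree.add ihF ihG
  | mul F G ihF ihG =>
    refine pf_tree_congr (QH.Tree.mul (fun _ _ _ => 1) ihF ihG) ?_
    funext j
    simp only [Finset.univ_unique, Finset.sum_const, Finset.card_singleton, one_smul, map_one,
      one_mul]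
    rfl

private theorem pf_card (B : ℕ → Prop) [DecidablePred B] (F : Fr) :
    ((pfLs F).filter fun v => v % 2 = 1 ∨ B (v / 2)).card = (F.lvs.filter B).card + F.refs := by
  induction F with
  | const q => simp [pfLs, Fr.lvs, Fr.refs]
  | var i =>
    have h1 : 2 * i % 2 ≠ 1 := by omega
    have h2 : 2 * i / 2 = i := by omega
    simp only [pfLs, Fr.lvs, Fr.refs, add_zero]
    rw [Multiset.filter_singleton, Multiset.filter_singleton]
    by_cases h : B i
    · rw [if_pos (Or.inr (by rw [h2]; exact h)), if_pos h]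
      rfl
    · rw [if_neg (by rw [h2]; exact fun e => e.elim h1 h), if_neg h]
  | ref i =>
    have h1 : (2 * i + 1) % 2 = 1 := by omega
    simp only [pfLs, Fr.lvs, Fr.refs]
    rw [Multiset.filter_singleton, if_pos (Or.inl h1)]
    simp
  | add F G ihF ihG =>
    simp only [pfLs, Fr.lvs, Fr.refs, Multiset.filter_add, Multiset.card_add, ihF, ihG]
    omega
  | mul F G ihF ihG =>
    simp only [pfLs, Fr.lvs, Fr.refs, Multiset.filter_add, Multiset.card_add, ihF, ihG]
    omega

private theorem pf_mem (F : Fr) {v : ℕ} (h : v ∈ pfLs F) :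
    (∃ i ∈ F.lvs, v = 2 * i) ∨ ∃ j ∈ F.rfs, v = 2 * j + 1 := by
  induction F with
  | const q => exact absurd h (Multiset.notMem_zero v)
  | var i => exact Or.inl ⟨i, Multiset.mem_singleton_self i, Multiset.mem_singleton.1 h⟩
  | ref i => exact Or.inr ⟨i, Finset.mem_singleton_self i, Multiset.mem_singleton.1 h⟩
  | add F G ihF ihG =>
    rcases Multiset.mem_add.1 h with h | h
    · rcases ihF h with ⟨i, hi, e⟩ | ⟨j, hj, e⟩
      · exact Or.inl ⟨i, Multiset.mem_add.2 (Or.inl hi), e⟩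
      · exact Or.inr ⟨j, Finset.mem_union_left _ hj, e⟩
    · rcases ihG h with ⟨i, hi, e⟩ | ⟨j, hj, e⟩
      · exact Or.inl ⟨i, Multiset.mem_add.2 (Or.inr hi), e⟩
      · exact Or.inr ⟨j, Finset.mem_union_right _ hj, e⟩
  | mul F G ihF ihG =>
    rcases Multiset.mem_add.1 h with h | h
    · rcases ihF h with ⟨i, hi, e⟩ | ⟨j, hj, e⟩
      · exact Or.inl ⟨i, Multiset.mem_add.2 (Or.inl hi), e⟩
      · exact Or.inr ⟨j, Finset.mem_union_left _ hj, e⟩
    · rcases ihG h with ⟨i, hi, e⟩ | ⟨j, hj, e⟩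
      · exact Or.inl ⟨i, Multiset.mem_add.2 (Or.inr hi), e⟩
      · exact Or.inr ⟨j, Finset.mem_union_right _ hj, e⟩

private theorem pf_aeval {A : Type} [CommRing A] [Algebra ℚ A] (σ y σ' : ℕ → A)
    (h0 : ∀ i, σ' (2 * i) = σ i) (h1 : ∀ j, σ' (2 * j + 1) = y j) (F : Fr) :
    aeval σ' (pfPl F) = F.evl σ y := by
  induction F with
  | const q =>
    show aeval σ' (algebraMap ℚ (MvPolynomial ℕ ℚ) q) = algebraMap ℚ A q
    exact AlgHom.commutes _ q
  | var i =>
    show aeval σ' (X (2 * i)) = σ i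
    rw [aeval_X, h0]
  | ref i =>
    show aeval σ' (X (2 * i + 1)) = y i
    rw [aeval_X, h1]
  | add F G ihF ihG =>
    show aeval σ' (pfPl F + pfPl G) = F.evl σ y + G.evl σ y
    rw [map_add, ihF, ihG]
  | mul F G ihF ihG =>
    show aeval σ' (pfPl F * pfPl G) = F.evl σ y * G.evl σ y
    rw [map_mul, ihF, ihG]

theorem parF (F : Fr) {K A : Type} [Field K] [Algebra ℚ K] [CommRing A] [Algebra K A]
    [Algebra ℚ A] [IsScalarTower ℚ K A] (σ y : ℕ → A) (B : ℕ → Prop) [DecidablePred B] (ρ : ℕ → K)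
    (hσ : ∀ v, ¬ B v → σ v = algebraMap K A (ρ v)) :
    ∃ T : Finset K, T.card ≤ 4 * ((F.lvs.filter B).card + F.refs) + 1 ∧
      ∀ 𝓢 : Subalgebra ℚ A, (∀ c ∈ T, algebraMap K A c ∈ 𝓢) → (∀ v ∈ F.lvs, B v → σ v ∈ 𝓢) →
        (∀ j ∈ F.rfs, y j ∈ 𝓢) → F.evl σ y ∈ 𝓢 := by
  let σ' : ℕ → A := fun v => if v % 2 = 1 then y (v / 2) else σ (v / 2)
  have hσ0 : ∀ i, σ' (2 * i) = σ i := by
    intro i
    have h1 : ¬ 2 * i % 2 = 1 := by omega
    have h2 : 2 * i / 2 = i := by omega
    show (if 2 * i % 2 = 1 then y (2 * i / 2) else σ (2 * i / 2)) = σ i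
    rw [if_neg h1, h2]
  have hσ1 : ∀ j, σ' (2 * j + 1) = y j := by
    intro j
    have h1 : (2 * j + 1) % 2 = 1 := by omega
    have h2 : (2 * j + 1) / 2 = j := by omega
    show (if (2 * j + 1) % 2 = 1 then y ((2 * j + 1) / 2) else σ ((2 * j + 1) / 2)) = y j
    rw [if_pos h1, h2]
  obtain ⟨T, hT, hT'⟩ := (pf_tree F).par 0 K A σ' (fun v => v % 2 = 1 ∨ B (v / 2))
    (fun v => ρ (v / 2)) (by
      intro v hv
      rw [not_or] at hv
      show (if v % 2 = 1 then y (v / 2) else σ (v / 2)) = _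
      rw [if_neg hv.1]
      exact hσ _ hv.2)
  refine ⟨T, ?_, ?_⟩
  · rw [pf_card] at hT
    refine hT.trans (le_of_eq ?_)
    show 2 * (1 ^ 2 + 1) * ((F.lvs.filter B).card + F.refs) + 1 = _
    ring
  · intro 𝓢 hc hv hj
    rw [← pf_aeval σ y σ' hσ0 hσ1 F]
    refine hT' 𝓢 hc ?_
    intro v hvm hB
    rcases pf_mem F hvm with ⟨i, hi, rfl⟩ | ⟨j, hj', rfl⟩
    · rw [hσ0]
      refine hv i hi ?_
      have h1 : ¬ 2 * i % 2 = 1 := by omega
      have h2 : 2 * i / 2 = i := by omega
      rcases hB with h | h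
      · exact absurd h h1
      · rwa [h2] at h
    · rw [hσ1]
      exact hj j hj'

end Pool.Agent.CK
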