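import Pool.Agent.CK.Defs

set_option autoImplicit false

/-!
For all but fewer than `r` indices `l` the leading coefficient of the form `c_l` is nonzero.
-/

namespace Pool.Agent.CK

open MvPolynomial

/-- the conclusion: the subspace of `θ` is separated by the factors with `l ∉ Z` -/
def SepP (m r : ℕ) (f : MvPolynomial ℕ ℚ) (θ : ℕ → ℕ) (Z : Finset ℕ) : Prop :=
  ∃ (μ : ℕ) (c0 : ℕ → MvPolynomial ℕ ℚ), (∀ l ∈ Finset.range m \ Z, c0 l ≠ 0) ∧
    ∀ l < m, ∀ b : ℕ, ∃ ρ : Polynomial (MvPolynomial ℕ ℚ),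
      aeval (ph m θ) (pderiv l f + C ((b : ℕ) : ℚ) * cc m r l f) = Polynomial.X ^ μ * ρ ∧
        ρ.coeff 0 = C (((b : ℕ) : ℚ) - ((θ l : ℕ) : ℚ)) * c0 l

theorem sep {m r : ℕ} {θ : ℕ → ℕ} {f : MvPolynomial ℕ ℚ}
    (h : ∃ (μ : ℕ) (G H : ℕ → Polynomial (MvPolynomial ℕ ℚ)),
      (∀ i < r, aeval (ph m θ) (pderiv (m + i) f) = Polynomial.X ^ μ * G i) ∧
      (∀ l < m, aeval (ph m θ) (pderiv l f + C ((θ l : ℕ) : ℚ) * cc m r l f) =
        Polynomial.X ^ (μ + 1) * H l) ∧
      ∃ i < r, (G i).coeff 0 ≠ 0) :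
    ∃ Z : Finset ℕ, Z ⊆ Finset.range m ∧ Z.card < r ∧ SepP m r f θ Z := by
  classical
  obtain ⟨μ, G, H, hG, hH, i0, hi0, hne⟩ := h
  let γ : ℕ → MvPolynomial ℕ ℚ := fun i => (G i).coeff 0
  let c0 : ℕ → MvPolynomial ℕ ℚ := fun l =>
    ∑ i ∈ Finset.range r, C ((((l + 1) ^ i : ℕ)) : ℚ) * γ i
  have hcastC : ∀ n : ℕ, (C ((n : ℕ) : ℚ) : MvPolynomial ℕ ℚ) = ((n : ℕ) : MvPolynomial ℕ ℚ) :=
    fun n => map_natCast (C : ℚ →+* MvPolynomial ℕ ℚ) n
  refine ⟨(Finset.range m).filter (fun l => c0 l = 0), Finset.filter_subset _ _, ?_, μ, c0, ?_, ?_⟩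
  · let q : Polynomial (MvPolynomial ℕ ℚ) :=
      ∑ i ∈ Finset.range r, Polynomial.C (γ i) * Polynomial.X ^ i
    have hcoeff : q.coeff i0 = γ i0 := by
      change (∑ i ∈ Finset.range r, Polynomial.C (γ i) * Polynomial.X ^ i).coeff i0 = γ i0
      rw [Polynomial.finset_sum_coeff, Finset.sum_eq_single i0]
      · simp [Polynomial.coeff_X_pow]
      · intro b _ hb
        rw [Polynomial.coeff_C_mul, Polynomial.coeff_X_pow, if_neg (Ne.symm hb), mul_zero]
      · intro h
        exact absurd (Finset.mem_range.2 hi0) h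
    have hq0 : q ≠ 0 := by
      intro h0
      rw [h0, Polynomial.coeff_zero] at hcoeff
      exact hne hcoeff.symm
    have hr : 0 < r := lt_of_le_of_lt (Nat.zero_le _) hi0
    have hdeg : q.natDegree < r := by
      have h1 : q.natDegree ≤ r - 1 := by
        refine Polynomial.natDegree_sum_le_of_forall_le _ _ ?_
        intro i hi
        refine (Polynomial.natDegree_C_mul_X_pow_le _ _).trans ?_
        have := Finset.mem_range.1 hi
        omega
      omega
    have hinj : Function.Injective (fun l : ℕ => ((l + 1 : ℕ) : MvPolynomial ℕ ℚ)) := by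
      intro a b hab
      have := Nat.cast_injective (R := MvPolynomial ℕ ℚ) hab
      omega
    have hcard : ((Finset.range m).filter (fun l => c0 l = 0)).card =
        (((Finset.range m).filter (fun l => c0 l = 0)).image
          (fun l : ℕ => ((l + 1 : ℕ) : MvPolynomial ℕ ℚ))).card :=
      (Finset.card_image_of_injective _ hinj).symm
    rw [hcard]
    refine lt_of_le_of_lt (Polynomial.card_le_degree_of_subset_roots (p := q) ?_) hdeg
    intro z hz
    have hz' : z ∈ ((Finset.range m).filter (fun l => c0 l = 0)).image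
          (fun l : ℕ => ((l + 1 : ℕ) : MvPolynomial ℕ ℚ)) := hz
    obtain ⟨l, hl, rfl⟩ := Finset.mem_image.1 hz'
    have hl0 : c0 l = 0 := (Finset.mem_filter.1 hl).2
    rw [Polynomial.mem_roots hq0, Polynomial.IsRoot.def]
    have : Polynomial.eval ((l + 1 : ℕ) : MvPolynomial ℕ ℚ) q = c0 l := by
      change Polynomial.eval ((l + 1 : ℕ) : MvPolynomial ℕ ℚ)
        (∑ i ∈ Finset.range r, Polynomial.C (γ i) * Polynomial.X ^ i) =
        ∑ i ∈ Finset.range r, C ((((l + 1) ^ i : ℕ)) : ℚ) * γ i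
      rw [Polynomial.eval_finset_sum]
      refine Finset.sum_congr rfl fun i _ => ?_
      rw [Polynomial.eval_mul, Polynomial.eval_C, Polynomial.eval_pow, Polynomial.eval_X,
        hcastC, Nat.cast_pow, mul_comm]
    rw [this, hl0]
  · intro l hl
    have h1 := Finset.mem_sdiff.1 hl
    intro h0
    exact h1.2 (Finset.mem_filter.2 ⟨h1.1, h0⟩)
  · intro l hl b
    have haC : ∀ c : ℚ, aeval (ph m θ) (C c : MvPolynomial ℕ ℚ) =
        (Polynomial.C (C c) : Polynomial (MvPolynomial ℕ ℚ)) := by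
      intro c
      rw [aeval_C]
      rfl
    let κ : Polynomial (MvPolynomial ℕ ℚ) :=
      ∑ i ∈ Finset.range r, Polynomial.C (C ((((l + 1) ^ i : ℕ)) : ℚ)) * G i
    have hκ0 : κ.coeff 0 = c0 l := by
      change (∑ i ∈ Finset.range r, Polynomial.C (C ((((l + 1) ^ i : ℕ)) : ℚ)) * G i).coeff 0 =
        ∑ i ∈ Finset.range r, C ((((l + 1) ^ i : ℕ)) : ℚ) * γ i
      rw [Polynomial.finset_sum_coeff]
      refine Finset.sum_congr rfl fun i _ => ?_
      rw [Polynomial.coeff_C_mul]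
    have hcc : aeval (ph m θ) (cc m r l f) = Polynomial.X ^ μ * κ := by
      change aeval (ph m θ) (∑ i ∈ Finset.range r,
        C ((((l + 1) ^ i : ℕ)) : ℚ) * pderiv (m + i) f) =
        Polynomial.X ^ μ * ∑ i ∈ Finset.range r, Polynomial.C (C ((((l + 1) ^ i : ℕ)) : ℚ)) * G i
      rw [map_sum, Finset.mul_sum]
      refine Finset.sum_congr rfl fun i hi => ?_
      rw [map_mul, haC, hG i (Finset.mem_range.1 hi)]
      ring
    refine ⟨Polynomial.X * H l + Polynomial.C (C (((b : ℕ) : ℚ) - ((θ l : ℕ) : ℚ))) * κ, ?_, ?_⟩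
    · have h1 : pderiv l f + C ((b : ℕ) : ℚ) * cc m r l f =
          (pderiv l f + C ((θ l : ℕ) : ℚ) * cc m r l f) +
            C (((b : ℕ) : ℚ) - ((θ l : ℕ) : ℚ)) * cc m r l f := by
        rw [C_sub]
        ring
      rw [h1, map_add, hH l hl, map_mul, haC, hcc, pow_succ]
      ring
    · rw [Polynomial.coeff_add, Polynomial.mul_coeff_zero, Polynomial.coeff_X_zero, zero_mul,
        zero_add, Polynomial.coeff_C_mul, hκ0]


end Pool.Agent.CK
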