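import Pool.Agent.CK.TFm

set_option autoImplicit false

/-!
The values of the gates are computed correctly if the bound for the numbers is large.
-/

namespace Pool.Agent.CK

open MvPolynomial N487b59b3 N68a2faeb Pool.Agent.Helper22
open Pool.Agent.Helper6.WB (Fm El toQ elAdd elMul qEl e0 bt run evE)

private theorem sz_mem_le {α : Type} [N487b59b3 α] {l : List α} {a : α} (h : a ∈ l) :
    sz a ≤ sz l := by
  induction l with
  | nil => simp at h
  | cons b l ih =>
    rw [sz_cons]
    rcases List.mem_cons.1 h with rfl | h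
    · omega
    · have := ih h
      omega

private theorem toQ_e0 : toQ e0 = 0 := by simp [toQ, e0]

private theorem bt_e0 : bt e0 = 1 := by decide

private theorem toQ_getD (V : List El) (j : ℕ) : toQ (V.getD j e0) = (V.map toQ).getD j 0 := by
  rw [List.getD_eq_getElem?_getD, List.getD_eq_getElem?_getD, List.getElem?_map]
  cases V[j]? with
  | none => simp [toQ_e0]
  | some a => simp

private theorem vlE_core {r : ℕ} {p : List (List (ℕ × ℚ)) × List (ℕ × ℚ)} {x : List ℕ}
    (W : List Bool) (S : ℕ) (hS : 1 ≤ S) (L : List Fr) :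
    (∀ F ∈ L, ∀ i ∈ F.lvs, hx r p x i ≠ none) →
    (∀ F ∈ L, 3 * sz (F.code.map (sbH r p x)) ≤ S) →
    S * 2 ^ (L.map Fr.refs).sum ≤ W.length →
    (vlE W (L.map fun F => F.code.map (sbH r p x))).map toQ =
      vals (fun i => (hx r p x i).getD 0) L ∧
    ∀ e ∈ vlE W (L.map fun F => F.code.map (sbH r p x)),
      e.2 ≠ 0 ∧ bt e ≤ S * 2 ^ (L.map Fr.refs).sum := by
  induction L using List.reverseRecOn with
  | nil =>
    intro _ _ _
    exact ⟨rfl, by simp [vlE]⟩
  | append_singleton L F ih =>
    intro hh hs hW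
    have hsum : ((L ++ [F]).map Fr.refs).sum = (L.map Fr.refs).sum + F.refs := by simp
    rw [hsum] at hW ⊢
    have hpow : S * 2 ^ (L.map Fr.refs).sum ≤ S * 2 ^ ((L.map Fr.refs).sum + F.refs) :=
      Nat.mul_le_mul_left _ (Nat.pow_le_pow_right (by norm_num) (by omega))
    obtain ⟨ih1, ih2⟩ := ih (fun G hG => hh G (by simp [hG])) (fun G hG => hs G (by simp [hG]))
      (hpow.trans hW)
    set V := vlE W (L.map fun F => F.code.map (sbH r p x)) with hV
    have hstep : vlE W ((L ++ [F]).map fun F => F.code.map (sbH r p x)) =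
        V ++ [capE W (evC (sbR V (F.code.map (sbH r p x))))] := by
      rw [hV]
      simp [vlE, List.foldl_append]
    have hvals : vals (fun i => (hx r p x i).getD 0) (L ++ [F]) =
        vals (fun i => (hx r p x i).getD 0) L ++
          [F.evl (fun i => (hx r p x i).getD 0)
            fun j => (vals (fun i => (hx r p x i).getD 0) L).getD j 0] := by
      simp [vals, List.foldl_append]
    have hev : evC (sbR V (F.code.map (sbH r p x))) =
        evE [] (toFm (fun j => V.getD j e0) (hx r p x) F) := by
      rw [← toFm_code, evC, Pool.Agent.Helper6.WB.run_code, List.headD_cons]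
    have hM1 : 1 ≤ S * 2 ^ (L.map Fr.refs).sum := Nat.mul_pos hS (by positivity)
    have hVj : ∀ j, (V.getD j e0).2 ≠ 0 ∧ bt (V.getD j e0) ≤ S * 2 ^ (L.map Fr.refs).sum := by
      intro j
      rw [List.getD_eq_getElem?_getD]
      cases hj : V[j]? with
      | none =>
        refine ⟨one_ne_zero, ?_⟩
        rw [Option.getD_none, bt_e0]
        exact hM1
      | some a =>
        rw [Option.getD_some]
        exact ih2 a (List.mem_of_getElem? hj)
    have hFin : F ∈ L ++ [F] := by simp
    have hbt : bt (evE [] (toFm (fun j => V.getD j e0) (hx r p x) F)) ≤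
        S * 2 ^ ((L.map Fr.refs).sum + F.refs) := by
      refine (bt_toFm (M := S * 2 ^ (L.map Fr.refs).sum) (fun j => (hVj j).2)
        (fun j => (hVj j).1) (hh F hFin)).trans ?_
      have h1 := hs F hFin
      have h2 : F.refs + 1 ≤ 2 ^ F.refs := Nat.lt_two_pow_self
      have h3 : S ≤ S * 2 ^ (L.map Fr.refs).sum := Nat.le_mul_of_pos_right _ (by positivity)
      calc S * 2 ^ (L.map Fr.refs).sum * F.refs + 3 * sz (F.code.map (sbH r p x))
          ≤ S * 2 ^ (L.map Fr.refs).sum * F.refs + S * 2 ^ (L.map Fr.refs).sum := by omega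
        _ = S * 2 ^ (L.map Fr.refs).sum * (F.refs + 1) := by ring
        _ ≤ S * 2 ^ (L.map Fr.refs).sum * 2 ^ F.refs := Nat.mul_le_mul_left _ h2
        _ = S * 2 ^ ((L.map Fr.refs).sum + F.refs) := by rw [pow_add]; ring
    have hcap : capE W (evC (sbR V (F.code.map (sbH r p x)))) =
        evE [] (toFm (fun j => V.getD j e0) (hx r p x) F) := by
      rw [hev, capE, if_pos]
      rw [decide_eq_true_iff]
      exact hbt.trans hW
    rw [hstep, hcap, hvals]
    refine ⟨?_, ?_⟩
    · rw [List.map_append, ih1, List.map_cons, List.map_nil, toFm_eval (hh F hFin)]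
      have hfun : (fun j => toQ (V.getD j e0)) =
          fun j => (vals (fun i => (hx r p x i).getD 0) L).getD j 0 := by
        funext j
        rw [toQ_getD, ih1]
      rw [hfun]
    · intro e he
      rcases List.mem_append.1 he with he | he
      · exact ⟨(ih2 e he).1, (ih2 e he).2.trans hpow⟩
      · rw [List.mem_singleton] at he
        rw [he]
        exact ⟨Pool.Agent.Helper6.WB.evE_den _ _, hbt⟩

theorem vlE_correct {r : ℕ} {p : List (List (ℕ × ℚ)) × List (ℕ × ℚ)} {x : List ℕ}
    {L : List Fr} {W : List Bool} (hh : ∀ F ∈ L, ∀ i ∈ F.lvs, hx r p x i ≠ none)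
    (hW : 3 * (sz (L.map fun F => F.code.map (sbH r p x)) + 1) * 2 ^ (L.map Fr.refs).sum ≤
      W.length) :
    (vlE W (L.map fun F => F.code.map (sbH r p x))).map toQ =
      vals (fun i => (hx r p x i).getD 0) L := by
  have h1 := (vlE_core W (3 * (sz (L.map fun F => F.code.map (sbH r p x)) + 1)) (by omega) L hh
    (fun F hF => by
      have h2 : sz (F.code.map (sbH r p x)) ≤ sz (L.map fun F => F.code.map (sbH r p x)) :=
        sz_mem_le (List.mem_map.2 ⟨F, hF, rfl⟩)
      omega) hW).1
  exact h1


end Pool.Agent.CK
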