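import Pool.Agent.CK.Defs
import Pool.Agent.QH.WForm
import Pool.Agent.Helper6.WB.Eval

set_option autoImplicit false

/-!
The algorithm for circuits: substitution of numbers for the heavy variables, evaluation of the
gates with a bound for the numbers, and the formula which remains.
-/

namespace Pool.Agent.CK

open MvPolynomial N487b59b3 N68a2faeb Pool.Agent.Helper22
open Pool.Agent.Helper6.WB (Fm El toQ elAdd elMul qEl e0 bt run evE)

/-! ### References replaced by numbers -/

/-- a formula with the value of the element `e` -/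
def elFm (e : El) : Fm :=
  .mul (.add (.const (e.1.1 : ℚ)) (.const (-(e.1.2 : ℚ)))) (.const ((e.2 : ℚ)⁻¹))

/-- its code -/
def cod (e : El) : List (ℕ × ℚ) :=
  [(0, (e.1.1 : ℚ)), (0, -(e.1.2 : ℚ)), (1, 0), (0, (e.2 : ℚ)⁻¹), (2, 0)]

/-- the token stands for a gate -/
def isRf (t : ℕ × ℚ) : Bool := decide (4 ≤ t.1) && decide (t.1 % 2 = 0)

/-- the references are replaced by the values `V` -/
def sbR (V : List El) (l : List (ℕ × ℚ)) : List (ℕ × ℚ) :=
  l.flatMap fun t => if isRf t then cod (V.getD (t.1 / 2 - 2) e0) else [t]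

/-- the value of a formula without variables -/
def evC (l : List (ℕ × ℚ)) : El := (run l []).1.headD e0

/-- numbers which are too long are replaced by `0` -/
def capE (W : List Bool) (e : El) : El := if decide (bt e ≤ W.length) then e else e0

/-- the values of the gates -/
def vlE (W : List Bool) (L : List (List (ℕ × ℚ))) : List El :=
  L.foldl (fun V l => V ++ [capE W (evC (sbR V l))]) []

/-- the formula with numbers for the references (values `V`) and for the variables `x_i` with
`h i ≠ none` -/
def toFm (V : ℕ → El) (h : ℕ → Option ℚ) : Fr → Fm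
  | .const q => .const q
  | .var i => (h i).elim (.var (2 * i)) .const
  | .ref j => elFm (V j)
  | .add F G => .add (toFm V h F) (toFm V h G)
  | .mul F G => .mul (toFm V h F) (toFm V h G)

/-! ### Heavy variables -/

/-- the number of the tokens with the number `x` -/
def tok (x : ℕ) (l : List (ℕ × ℚ)) : ℕ := (l.filter fun t => decide (t.1 = x)).length

/-- the token stands for a heavy variable -/
def isHv (r : ℕ) (p : List (List (ℕ × ℚ)) × List (ℕ × ℚ)) (t : ℕ × ℚ) : Bool :=
  decide (3 ≤ t.1) && (decide (t.1 % 2 = 1) &&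
    (decide (1 ≤ tok t.1 p.1.flatten) || decide (r + 1 ≤ tok t.1 p.2)))

/-- the tokens of the heavy variables, with repetitions -/
def hvl (r : ℕ) (p : List (List (ℕ × ℚ)) × List (ℕ × ℚ)) : List ℕ :=
  ((p.1.flatten ++ p.2).filter (isHv r p)).map Prod.fst

/-- the tokens of the references -/
def rft (p : List (List (ℕ × ℚ)) × List (ℕ × ℚ)) : List (ℕ × ℚ) :=
  (p.1.flatten ++ p.2).filter isRf

/-- the substitution of the numbers `x` for the heavy variables in a token -/
def sbH (r : ℕ) (p : List (List (ℕ × ℚ)) × List (ℕ × ℚ)) (x : List ℕ) (t : ℕ × ℚ) : ℕ × ℚ :=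
  if isHv r p t then (0, ((x.getD ((hvl r p).idxOf t.1) 0 : ℕ) : ℚ)) else t

/-- the gates after the substitution -/
def sbG (r : ℕ) (p : List (List (ℕ × ℚ)) × List (ℕ × ℚ)) (x : List ℕ) :
    List (List (ℕ × ℚ)) := p.1.map fun l => l.map (sbH r p x)

/-- the output formula after the substitution -/
def sbO (r : ℕ) (p : List (List (ℕ × ℚ)) × List (ℕ × ℚ)) (x : List ℕ) : List (ℕ × ℚ) :=
  p.2.map (sbH r p x)

/-- the value of the variable number `i` -/
def hx (r : ℕ) (p : List (List (ℕ × ℚ)) × List (ℕ × ℚ)) (x : List ℕ) (i : ℕ) : Option ℚ :=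
  if isHv r p (2 * i + 3, 0) then some ((x.getD ((hvl r p).idxOf (2 * i + 3)) 0 : ℕ) : ℚ)
  else none

/-- the bound for the lengths of the numbers -/
def wd (v : List Bool) (L : List (List (ℕ × ℚ))) : List Bool :=
  un (v.length * (3 * (sz L + 1)))

/-- the input of the test for formulas -/
def tin (r : ℕ) (v : List Bool) (p : List (List (ℕ × ℚ)) × List (ℕ × ℚ)) (x : List ℕ) :
    List (ℕ × ℚ) × List (List (List (ℕ × ℚ))) :=
  ([(3, 0)], [[sbR (vlE (wd v (sbG r p x)) (sbG r p x)) (sbO r p x)]])

end Pool.Agent.CK
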