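import Pool.Agent.CK.TDefs
import Pool.Agent.CK.TA

set_option autoImplicit false

/-!
CK-TE. Polynomial time: evaluation of the gates.

Plan. `fp_isRf`: `FP.natLe`, `fp_par` and `FP.not` (`t.1 % 2 = 0` iff not `t.1 % 2 = 1`). `fp_cod`: a list of five pairs: `FP.cons`, `FP.pair`, `fp_natQ` (`Helper6/SP/Search.lean`), `fp_negN`, `fp_invN`. `fp_sbR`: `fp_flatMap` with the context `V`, `fp_getN`, `fp_half`, `Pool.Agent.PQ.fp_natSub`. `fp_evC`: `fp_run` with the constant
environment `[]`, `FP.headD`. `fp_capE`: `bt e = (e.1.1 + e.1.2 + e.2).size` (`fp_size`, `FP.natAdd`), `FP.natLe`, `FP.length`, `FP.ite`. `fp_vlE`: `FP.foldl` with the state `(W, V) : List Bool × List El` and the step `(W, V) l ↦ (W, V ++ [capE W (evC (sbR V l))])` (`FP.append`, `FP.cons`);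
size: `sz_el_le`: `sz (capE W e) ≤ 7 * bt + 3 ≤ 7 * (W.length + 1) + 3` (`bt e0 = 1`), so after the list `l` the size is at most `sz (W, V) + l.length * (2 * (7 * (W.length + 1) + 3) + 2)` or similar (look at `sz_cons`, `sz_append`-like lemma by induction, `length_le_sz`), a polynomial in `sz l + sz a`;
then project to the second component; the `foldl` over the pair has second component the `foldl` in `vlE` (induction).
-/

namespace Pool.Agent.CK

open MvPolynomial N487b59b3 N68a2faeb Pool.Agent.Helper22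
open Pool.Agent.Helper6.WB (Fm El toQ elAdd elMul qEl e0 bt run evE)

variable {α : Type} [N487b59b3 α]

theorem fp_isRf {f : α → ℕ × ℚ} (hf : FP f) : FP fun a => isRf (f a) := by
  have h1 : FP fun a => decide (4 ≤ (f a).1) :=
    Pool.Agent.Helper47.TR.FP.natLe (FP.const 4) hf.fst'
  have h2 : FP fun a => !decide ((f a).1 % 2 = 1) := FP.not (fp_par hf.fst')
  refine (congrArg FP (funext fun a => ?_)).mp (FP.and h1 h2)
  show (decide (4 ≤ (f a).1) && !decide ((f a).1 % 2 = 1)) = isRf (f a)
  rw [isRf]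
  rcases Nat.mod_two_eq_zero_or_one (f a).1 with h | h <;> simp [h]

theorem fp_cod {f : α → El} (hf : FP f) : FP fun a => cod (f a) := by
  have h1 : FP fun a => ((0 : ℕ), ((f a).1.1 : ℚ)) :=
    FP.pair (FP.const 0) (Pool.Agent.Helper6.SP.fp_natQ hf.fst'.fst')
  have h2 : FP fun a => ((0 : ℕ), (-((f a).1.2 : ℚ))) :=
    FP.pair (FP.const 0) (fp_negN hf.fst'.snd')
  have h3 : FP fun a => ((0 : ℕ), (((f a).2 : ℚ)⁻¹)) :=
    FP.pair (FP.const 0) (fp_invN hf.snd')
  exact FP.cons h1 (FP.cons h2 (FP.cons (FP.const ((1 : ℕ), (0 : ℚ)))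
    (FP.cons h3 (FP.cons (FP.const ((2 : ℕ), (0 : ℚ))) (FP.const [])))))

theorem fp_sbR {V : α → List El} {l : α → List (ℕ × ℚ)} (hV : FP V) (hl : FP l) :
    FP fun a => sbR (V a) (l a) := by
  have h1 : FP fun q : α × (ℕ × ℚ) => (V q.1).getD (q.2.1 / 2 - 2) e0 :=
    fp_getN (hV.comp FP.fst) (Pool.Agent.PQ.fp_natSub (fp_half FP.snd.fst') (FP.const 2)) e0
  exact Pool.Agent.Helper6.SP.fp_flatMap (f := l)
    (h := fun q : α × (ℕ × ℚ) => if isRf q.2 then cod ((V q.1).getD (q.2.1 / 2 - 2) e0) else [q.2])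
    hl (FP.ite (fp_isRf FP.snd) (fp_cod h1) (FP.cons FP.snd (FP.const [])))

theorem fp_evC {l : α → List (ℕ × ℚ)} (hl : FP l) : FP fun a => evC (l a) :=
  FP.headD (Pool.Agent.Helper6.WB.fp_run hl (FP.const [])).fst' e0

theorem fp_capE {W : α → List Bool} {e : α → El} (hW : FP W) (he : FP e) :
    FP fun a => capE (W a) (e a) := by
  have hb : FP fun a => bt (e a) :=
    Pool.Agent.QH.fp_size (Pool.Agent.Helper6.WB.FP.natAdd
      (Pool.Agent.Helper6.WB.FP.natAdd he.fst'.fst' he.fst'.snd') he.snd')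
  exact FP.ite (Pool.Agent.Helper47.TR.FP.natLe hb (Pool.Agent.Helper47.TR.FP.length hW)) he
    (FP.const e0)

/-- a step with the bound as a part of the state -/
private def vst (s : List Bool × List El) (l : List (ℕ × ℚ)) : List Bool × List El :=
  (s.1, s.2 ++ [capE s.1 (evC (sbR s.2 l))])

private theorem vst_foldl (W : List Bool) (L : List (List (ℕ × ℚ))) (V : List El) :
    L.foldl vst (W, V) = (W, L.foldl (fun V l => V ++ [capE W (evC (sbR V l))]) V) := by
  induction L generalizing V with
  | nil => rfl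
  | cons l L ih =>
    rw [List.foldl_cons, List.foldl_cons]
    exact ih _

private theorem sz_capE (W : List Bool) (e : El) : sz (capE W e) ≤ 7 * (W.length + 1) + 3 := by
  have h0 : bt e0 = 1 := by decide
  unfold capE
  by_cases h : bt e ≤ W.length
  · rw [if_pos (decide_eq_true h)]
    have := Pool.Agent.Helper6.WB.sz_el_le e
    omega
  · rw [if_neg (by simpa using h)]
    have := Pool.Agent.Helper6.WB.sz_el_le e0
    omega

private theorem vst_size (W : List Bool) (L : List (List (ℕ × ℚ))) (V : List El) :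
    sz (L.foldl (fun V l => V ++ [capE W (evC (sbR V l))]) V) ≤
      sz V + L.length * (14 * W.length + 21) := by
  induction L generalizing V with
  | nil => simp
  | cons l L ih =>
    rw [List.foldl_cons, List.length_cons]
    refine (ih _).trans ?_
    have h := sz_capE W (evC (sbR V l))
    rw [sz_append, sz_cons, sz_nil, add_mul, one_mul]
    omega

theorem fp_vlE {W : α → List Bool} {L : α → List (List (ℕ × ℚ))} (hW : FP W) (hL : FP L) :
    FP fun a => vlE (W a) (L a) := by
  have hg : FP fun p : (List Bool × List El) × List (ℕ × ℚ) => vst p.1 p.2 :=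
    FP.pair FP.fst.fst' (FP.append FP.fst.snd' (FP.cons
      (fp_capE FP.fst.fst' (fp_evC (fp_sbR FP.fst.snd' FP.snd))) (FP.const [])))
  have h1 : FP fun p : List (List (ℕ × ℚ)) × (List Bool × List El) => p.1.foldl vst p.2 := by
    refine FP.foldl (g := vst) hg (B := fun n => n * (14 * n + 21) + 3 * n + 1) (by fun_prop) ?_
    rintro l ⟨W, V⟩
    rw [vst_foldl]
    have h2 := vst_size W l V
    have h3 := length_le_sz l
    have h4 := length_le_sz W
    simp only [sz_pair]
    have h5 : l.length * (14 * W.length + 21) ≤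
        (sz l + (2 * sz W + 1 + sz V)) * (14 * (sz l + (2 * sz W + 1 + sz V)) + 21) :=
      Nat.mul_le_mul (by omega) (by omega)
    omega
  have h2 := (h1.comp (hL.pair (hW.pair (FP.const ([] : List El))))).snd'
  refine (congrArg FP (funext fun a => ?_)).mp h2
  simp only [vst_foldl]
  rfl

end Pool.Agent.CK
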