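import Pool.Agent.CK.TDefs

set_option autoImplicit false

/-!
CK-TFm. Formulas after the substitution of numbers.

Plan: all by induction on `F`. `toFm_code`: tokens: `(0, q)`, `(1, 0)`, `(2, 0)` are no references and no heavy variables (`3 ≤ t.1` fails), `(2 * i + 3, 0)` is odd, `(2 * j + 4) / 2 - 2 = j`, `(2 * j + 4) % 2 = 0` so `sbH` does not change it; `sbR`
is a `flatMap` (`List.flatMap_append`, `List.map_append`), `(elFm e).code = cod e` by `rfl`. `toFm_poly`: `toQ e = (e.1.1 - e.1.2) / e.2`, `C` is a ring homomorphism. `toFm_occ`: `QH.occ n (toFm V h F)` is `F.occ i` if `n = 2 * i` and `h i = none`, else `0`;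
`toFm_reads` follows with `QH.reads_le_occ`. `toFm_eval`: `toQ_add` needs denominators `≠ 0` (`evE_den`), `toQ_mul`, `toQ_qEl`; variable leaves: `h i = some q` by the hypothesis. `evE_elFm`: `qEl (n : ℚ) = ((n, 0), 1)`, `qEl (-(n : ℚ)) = ((0, n), 1)`,
`qEl ((d : ℚ)⁻¹) = ((1, 0), d)` for `d ≠ 0` (`Rat.inv_natCast_num`, `Rat.inv_natCast_den`), then `elAdd`, `elMul` compute. `bt_toFm`: `bt_add`, `bt_mul`; leaf `const q`: `bt_le`/`bt (qEl q) ≤ sz q + 2` (`sz (qEl q) = sz q`, the encodings agree by `rfl`) and `sz [(0, q)]` is at least `sz q + 1`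
(`sz_cons`, `sz_pair`, `sz_nat`); leaf `var i` with `h i = some (n : ℚ)`: the token is `(0, n)`; reference: `evE_elFm`, one `M`; `sz` of lists is additive (`sz_cons`; induction for `++`).
-/

namespace Pool.Agent.CK

open MvPolynomial N487b59b3 N68a2faeb Pool.Agent.Helper22
open Pool.Agent.Helper6.WB (Fm El toQ elAdd elMul qEl e0 bt run evE)

private theorem isRf_zero (q : ℚ) : isRf (0, q) = false := by simp [isRf]

private theorem isHv_zero (r : ℕ) (p : List (List (ℕ × ℚ)) × List (ℕ × ℚ)) (q : ℚ) :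
    isHv r p (0, q) = false := by simp [isHv]

private theorem isHv_one (r : ℕ) (p : List (List (ℕ × ℚ)) × List (ℕ × ℚ)) (q : ℚ) :
    isHv r p (1, q) = false := by simp [isHv]

private theorem isHv_two (r : ℕ) (p : List (List (ℕ × ℚ)) × List (ℕ × ℚ)) (q : ℚ) :
    isHv r p (2, q) = false := by simp [isHv]

private theorem isHv_ref (r : ℕ) (p : List (List (ℕ × ℚ)) × List (ℕ × ℚ)) (j : ℕ) :
    isHv r p (2 * j + 4, 0) = false := by
  simp [isHv]

private theorem isRf_ref (j : ℕ) : isRf (2 * j + 4, 0) = true := by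
  simp [isRf]

private theorem isRf_var (i : ℕ) : isRf (2 * i + 3, 0) = false := by
  have h : ¬ (2 * i + 3) % 2 = 0 := by omega
  simp [isRf, h]

private theorem sbH_zero (r : ℕ) (p : List (List (ℕ × ℚ)) × List (ℕ × ℚ)) (x : List ℕ) (q : ℚ) :
    sbH r p x (0, q) = (0, q) := by simp [sbH, isHv_zero]

private theorem sbH_one (r : ℕ) (p : List (List (ℕ × ℚ)) × List (ℕ × ℚ)) (x : List ℕ) (q : ℚ) :
    sbH r p x (1, q) = (1, q) := by simp [sbH, isHv_one]

private theorem sbH_two (r : ℕ) (p : List (List (ℕ × ℚ)) × List (ℕ × ℚ)) (x : List ℕ) (q : ℚ) :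
    sbH r p x (2, q) = (2, q) := by simp [sbH, isHv_two]

private theorem sbH_ref (r : ℕ) (p : List (List (ℕ × ℚ)) × List (ℕ × ℚ)) (x : List ℕ) (j : ℕ) :
    sbH r p x (2 * j + 4, 0) = (2 * j + 4, 0) := by simp [sbH, isHv_ref]

private theorem sbR_append (V : List El) (l l' : List (ℕ × ℚ)) :
    sbR V (l ++ l') = sbR V l ++ sbR V l' := by
  simp [sbR, List.flatMap_append]

private theorem sbR_single (V : List El) (t : ℕ × ℚ) (h : isRf t = false) : sbR V [t] = [t] := by
  simp [sbR, h]

theorem toFm_code (r : ℕ) (p : List (List (ℕ × ℚ)) × List (ℕ × ℚ)) (x : List ℕ) (V : List El)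
    (F : Fr) : (toFm (fun j => V.getD j e0) (hx r p x) F).code =
      sbR V (F.code.map (sbH r p x)) := by
  induction F with
  | const q =>
    simp only [toFm, Fm.code, Fr.code, List.map_cons, List.map_nil, sbH_zero]
    rw [sbR_single V _ (isRf_zero q)]
  | var i =>
    simp only [toFm, Fr.code, List.map_cons, List.map_nil]
    by_cases h : isHv r p (2 * i + 3, 0) = true
    · have h1 : hx r p x i = some ((x.getD ((hvl r p).idxOf (2 * i + 3)) 0 : ℕ) : ℚ) := by
        simp only [hx, h, if_true]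
      have h2 : sbH r p x (2 * i + 3, 0) =
          (0, ((x.getD ((hvl r p).idxOf (2 * i + 3)) 0 : ℕ) : ℚ)) := by
        simp only [sbH, h, if_true]
      rw [h1, h2, sbR_single V _ (isRf_zero _)]
      rfl
    · have h1 : hx r p x i = none := by
        simp only [hx, h, if_false, Bool.false_eq_true]
      have h2 : sbH r p x (2 * i + 3, 0) = (2 * i + 3, 0) := by
        simp only [sbH, h, if_false, Bool.false_eq_true]
      rw [h1, h2, sbR_single V _ (isRf_var i)]
      rfl
  | ref j =>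
    simp only [toFm, Fr.code, List.map_cons, List.map_nil, sbH_ref]
    have h1 : (2 * j + 4) / 2 - 2 = j := by omega
    simp only [sbR, List.flatMap_cons, List.flatMap_nil, List.append_nil, isRf_ref, if_true, h1]
    rfl
  | add F G ihF ihG =>
    simp only [toFm, Fm.code, Fr.code, List.map_append, List.map_cons, List.map_nil, sbH_one,
      sbR_append, ihF, ihG]
    rw [sbR_single V (1, 0) (by simp [isRf])]
  | mul F G ihF ihG =>
    simp only [toFm, Fm.code, Fr.code, List.map_append, List.map_cons, List.map_nil, sbH_two,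
      sbR_append, ihF, ihG]
    rw [sbR_single V (2, 0) (by simp [isRf])]

private theorem elFm_poly (e : El) : (elFm e).poly = C (toQ e) := by
  simp only [elFm, Fm.poly, toQ]
  rw [← C_add, ← C_mul, ← sub_eq_add_neg, div_eq_mul_inv]

theorem toFm_poly (V : ℕ → El) (h : ℕ → Option ℚ) (F : Fr) :
    (toFm V h F).poly = F.evl (fun i => (h i).elim (X (2 * i) : MvPolynomial ℕ ℚ) C)
      fun j => C (toQ (V j)) := by
  induction F with
  | const q => rfl
  | var i =>
    simp only [toFm, Fr.evl]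
    rcases h i with _ | q
    · rfl
    · rfl
  | ref j =>
    simp only [toFm, Fr.evl]
    exact elFm_poly _
  | add F G ihF ihG => simp only [toFm, Fm.poly, Fr.evl, ihF, ihG]
  | mul F G ihF ihG => simp only [toFm, Fm.poly, Fr.evl, ihF, ihG]

private theorem occ_toFm (V : ℕ → El) (h : ℕ → Option ℚ) (F : Fr) (n : ℕ) :
    Pool.Agent.QH.occ n (toFm V h F) =
      if n % 2 = 0 ∧ h (n / 2) = none then F.occ (n / 2) else 0 := by
  induction F with
  | const q => simp [toFm, Pool.Agent.QH.occ, Fr.occ]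
  | var i =>
    simp only [toFm, Fr.occ]
    rcases hi : h i with _ | q
    · simp only [Option.elim_none, Pool.Agent.QH.occ]
      by_cases hn : 2 * i = n
      · have h1 : n % 2 = 0 := by omega
        have h2 : n / 2 = i := by omega
        simp [hn, h1, h2, hi]
      · rw [if_neg hn]
        split_ifs with h1 h2
        · exact absurd (by omega) hn
        · rfl
        · rfl
    · simp only [Option.elim_some, Pool.Agent.QH.occ]
      split_ifs with h1 h2
      · rw [← h2, hi] at h1
        exact absurd h1.2 (by simp)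
      · rfl
      · rfl
  | ref j =>
    simp [toFm, elFm, Pool.Agent.QH.occ, Fr.occ]
  | add F G ihF ihG =>
    simp only [toFm, Pool.Agent.QH.occ, Fr.occ, ihF, ihG]
    split_ifs <;> rfl
  | mul F G ihF ihG =>
    simp only [toFm, Pool.Agent.QH.occ, Fr.occ, ihF, ihG]
    split_ifs <;> rfl

theorem toFm_reads {r : ℕ} {V : ℕ → El} {h : ℕ → Option ℚ} {F : Fr}
    (hh : ∀ i, h i = none → F.occ i ≤ r) (i : ℕ) : (toFm V h F).reads i ≤ r := by
  refine (Pool.Agent.QH.reads_le_occ i _).trans ?_
  rw [occ_toFm]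
  split_ifs with h1
  · exact hh _ h1.2
  · exact Nat.zero_le r

private theorem ev_elFm (γ : ℕ → ℚ) (e : El) : (elFm e).ev γ = toQ e := by
  simp only [elFm, Fm.ev, toQ]
  rw [← sub_eq_add_neg, div_eq_mul_inv]

private theorem ev_toFm {V : ℕ → El} {h : ℕ → Option ℚ} (γ : ℕ → ℚ) {F : Fr}
    (hh : ∀ i ∈ F.lvs, h i ≠ none) :
    (toFm V h F).ev γ = F.evl (fun i => (h i).getD 0) fun j => toQ (V j) := by
  induction F with
  | const q => rfl
  | var i =>
    have h1 : h i ≠ none := hh i (by simp [Fr.lvs])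
    simp only [toFm, Fr.evl]
    rcases hi : h i with _ | q
    · exact absurd hi h1
    · rfl
  | ref j =>
    simp only [toFm, Fr.evl]
    exact ev_elFm γ _
  | add F G ihF ihG =>
    simp only [toFm, Fm.ev, Fr.evl]
    rw [ihF (fun i hi => hh i (by simp only [Fr.lvs, Multiset.mem_add]; exact Or.inl hi)),
      ihG (fun i hi => hh i (by simp only [Fr.lvs, Multiset.mem_add]; exact Or.inr hi))]
  | mul F G ihF ihG =>
    simp only [toFm, Fm.ev, Fr.evl]
    rw [ihF (fun i hi => hh i (by simp only [Fr.lvs, Multiset.mem_add]; exact Or.inl hi)),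
      ihG (fun i hi => hh i (by simp only [Fr.lvs, Multiset.mem_add]; exact Or.inr hi))]

theorem toFm_eval {V : ℕ → El} {h : ℕ → Option ℚ} {F : Fr} (hh : ∀ i ∈ F.lvs, h i ≠ none) :
    toQ (evE [] (toFm V h F)) = F.evl (fun i => (h i).getD 0) fun j => toQ (V j) := by
  rw [Pool.Agent.Helper6.WB.toQ_evE]
  exact ev_toFm _ hh

theorem evE_elFm {e : El} (he : e.2 ≠ 0) : evE [] (elFm e) = e := by
  obtain ⟨⟨a, b⟩, d⟩ := e
  have hd : d ≠ 0 := he
  have h1 : qEl ((a : ℕ) : ℚ) = ((a, 0), 1) := by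
    simp only [qEl, Rat.num_natCast, Rat.den_natCast]
    simp
  have h2 : qEl (-((b : ℕ) : ℚ)) = ((0, b), 1) := by
    simp only [qEl, Rat.num_neg_eq_neg_num, Rat.den_neg_eq_den, Rat.num_natCast,
      Rat.den_natCast]
    simp
  have h3 : qEl (((d : ℕ) : ℚ)⁻¹) = ((1, 0), d) := by
    simp only [qEl]
    have h4 : (((d : ℕ) : ℚ)⁻¹).num = 1 := by
      rw [Rat.inv_natCast_num, Int.sign_eq_one_of_pos (by omega)]
    have h5 : (((d : ℕ) : ℚ)⁻¹).den = d := by
      rw [Rat.inv_natCast_den, if_neg hd]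
    rw [h4, h5]
    rfl
  show elMul (evE [] (.const ((d : ℚ)⁻¹))) (elAdd (evE [] (.const (-(b : ℚ))))
    (evE [] (.const (a : ℚ)))) = _
  simp only [evE, h1, h2, h3, elAdd, elMul]
  simp

private theorem bt_qEl (q : ℚ) : bt (qEl q) ≤ sz q + 2 := by
  have h := Pool.Agent.Helper6.WB.bt_le (qEl q)
  have h1 : sz (qEl q) = sz q := rfl
  omega

private theorem bt_const (q : ℚ) : bt (evE [] (.const q)) ≤ 3 * sz [((0 : ℕ), q)] := by
  have h := bt_qEl q
  have h1 : sz [((0 : ℕ), q)] = 2 * (2 * sz (0 : ℕ) + 1 + sz q) + 1 + 0 := by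
    rw [sz_cons, sz_pair, sz_nil]
  have h2 : evE [] (.const q) = qEl q := rfl
  rw [h2, h1]
  omega

theorem bt_toFm {r : ℕ} {p : List (List (ℕ × ℚ)) × List (ℕ × ℚ)} {x : List ℕ} {V : ℕ → El}
    {M : ℕ} (hV : ∀ j, bt (V j) ≤ M) (hd : ∀ j, (V j).2 ≠ 0) {F : Fr}
    (hh : ∀ i ∈ F.lvs, hx r p x i ≠ none) :
    bt (evE [] (toFm V (hx r p x) F)) ≤ M * F.refs + 3 * sz (F.code.map (sbH r p x)) := by
  induction F with
  | const q =>
    simp only [toFm, Fr.code, List.map_cons, List.map_nil, sbH_zero]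
    exact (bt_const q).trans (Nat.le_add_left _ _)
  | var i =>
    have h0 : hx r p x i ≠ none := hh i (by simp [Fr.lvs])
    simp only [toFm, Fr.code, List.map_cons, List.map_nil]
    by_cases h : isHv r p (2 * i + 3, 0) = true
    · have h1 : hx r p x i = some ((x.getD ((hvl r p).idxOf (2 * i + 3)) 0 : ℕ) : ℚ) := by
        simp only [hx, h, if_true]
      have h2 : sbH r p x (2 * i + 3, 0) =
          (0, ((x.getD ((hvl r p).idxOf (2 * i + 3)) 0 : ℕ) : ℚ)) := by
        simp only [sbH, h, if_true]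
      rw [h1, h2]
      exact (bt_const _).trans (Nat.le_add_left _ _)
    · refine absurd ?_ h0
      simp only [hx, h, if_false, Bool.false_eq_true]
  | ref j =>
    simp only [toFm, Fr.refs]
    rw [evE_elFm (hd j)]
    have := hV j
    omega
  | add F G ihF ihG =>
    have iF := ihF (fun i hi => hh i (by simp only [Fr.lvs, Multiset.mem_add]; exact Or.inl hi))
    have iG := ihG (fun i hi => hh i (by simp only [Fr.lvs, Multiset.mem_add]; exact Or.inr hi))
    have h1 := Pool.Agent.Helper6.WB.bt_add (evE [] (toFm V (hx r p x) G))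
      (evE [] (toFm V (hx r p x) F))
    simp only [toFm, evE, Fr.refs, Fr.code, List.map_append, sz_append]
    rw [Nat.mul_add]
    omega
  | mul F G ihF ihG =>
    have iF := ihF (fun i hi => hh i (by simp only [Fr.lvs, Multiset.mem_add]; exact Or.inl hi))
    have iG := ihG (fun i hi => hh i (by simp only [Fr.lvs, Multiset.mem_add]; exact Or.inr hi))
    have h1 := Pool.Agent.Helper6.WB.bt_mul (evE [] (toFm V (hx r p x) G))
      (evE [] (toFm V (hx r p x) F))
    simp only [toFm, evE, Fr.refs, Fr.code, List.map_append, sz_append]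
    rw [Nat.mul_add]
    omega

end Pool.Agent.CK
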