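import Pool.Agent.CK.TPDefs
import Pool.Agent.CK.TA

set_option autoImplicit false

/-!
CK-TG. Polynomial time: the generator with seeds from a list.

Plan: as `fpt_gen` (and `fpt_sum`, `fpt_prod`, `fpt_pow`, `fpt_hsh`, `fpt_b`) in `Pool/Agent/QH/FpPt.lean`, copy these private lemmas and replace the digits by `ct.getD` and `y.getD` (`fp_getN`).
-/

namespace Pool.Agent.CK

open N487b59b3 N68a2faeb Pool.Agent.Helper22 Pool.Agent.Helper6.WB Pool.Agent.Helper47.TR
  Pool.Agent.QH

section

variable {α : Type} [N487b59b3 α]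

private theorem tgl_sum_range (N : ℕ) (f : ℕ → ℕ) :
    ((List.range N).map f).sum = ∑ i ∈ Finset.range N, f i := by
  induction N with
  | zero => simp
  | succ N ih =>
    rw [List.range_succ, List.map_append, List.sum_append, ih, Finset.sum_range_succ]
    simp

private theorem tgl_prod_range (N : ℕ) (f : ℕ → ℕ) :
    ((List.range N).map f).prod = ∏ i ∈ Finset.range N, f i := by
  induction N with
  | zero => simp
  | succ N ih =>
    rw [List.range_succ, List.map_append, List.prod_append, ih, Finset.prod_range_succ]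
    simp

private theorem tgl_min {f g : α → ℕ} (hf : FP f) (hg : FP g) : FP fun a => min (f a) (g a) := by
  refine (congrArg FP (funext fun a => ?_)).mp (FP.ite (FP.natLe hf hg) hf hg)
  by_cases h : f a ≤ g a
  · simp [h]
  · rw [min_eq_right (by omega)]
    simp [h]

/-- sums over a range with a unary bound -/
private theorem tgl_sum {N : α → ℕ} {U : α → List Bool} {h : α × ℕ → ℕ} (hN : FP N) (hU : FP U)
    (hh : FP h) : FP fun a => ∑ x ∈ Finset.range (min (N a) (U a).length), h (a, x) := by
  have h1 : FP fun q : α × ℕ => if decide (N q.1 ≤ q.2) then 0 else h q :=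
    FP.ite (FP.natLe (hN.comp FP.fst) FP.snd) (FP.const 0) hh
  have h2 := fp_natSum (Pool.Agent.Helper6.SP.fp_map (FP.range hU) h1)
  refine (congrArg FP (funext fun a => ?_)).mp h2
  simp only
  rw [tgl_sum_range]
  symm
  calc ∑ x ∈ Finset.range (min (N a) (U a).length), h (a, x)
      = ∑ x ∈ Finset.range (min (N a) (U a).length),
          (if decide (N a ≤ x) = true then 0 else h (a, x)) := by
        refine Finset.sum_congr rfl fun x hx => ?_
        have h3 := Finset.mem_range.1 hx
        rw [if_neg]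
        rw [decide_eq_true_iff]
        omega
    _ = _ := by
        refine Finset.sum_subset ?_ fun x hx hx' => ?_
        · intro x hx
          have h3 := Finset.mem_range.1 hx
          exact Finset.mem_range.2 (by omega)
        · rw [Finset.mem_range] at hx hx'
          rw [if_pos]
          rw [decide_eq_true_iff]
          omega

/-- products over a range with a unary bound -/
private theorem tgl_prod {N : α → ℕ} {U : α → List Bool} {h : α × ℕ → ℕ} (hN : FP N) (hU : FP U)
    (hh : FP h) : FP fun a => ∏ x ∈ Finset.range (min (N a) (U a).length), h (a, x) := by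
  have h1 : FP fun q : α × ℕ => if decide (N q.1 ≤ q.2) then 1 else h q :=
    FP.ite (FP.natLe (hN.comp FP.fst) FP.snd) (FP.const 1) hh
  have h2 := Pool.Agent.PQ.fp_natProd (Pool.Agent.Helper6.SP.fp_map (FP.range hU) h1)
  refine (congrArg FP (funext fun a => ?_)).mp h2
  simp only
  rw [tgl_prod_range]
  symm
  calc ∏ x ∈ Finset.range (min (N a) (U a).length), h (a, x)
      = ∏ x ∈ Finset.range (min (N a) (U a).length),
          (if decide (N a ≤ x) = true then 1 else h (a, x)) := by
        refine Finset.prod_congr rfl fun x hx => ?_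
        have h3 := Finset.mem_range.1 hx
        rw [if_neg]
        rw [decide_eq_true_iff]
        omega
    _ = _ := by
        refine Finset.prod_subset ?_ fun x hx hx' => ?_
        · intro x hx
          have h3 := Finset.mem_range.1 hx
          exact Finset.mem_range.2 (by omega)
        · rw [Finset.mem_range] at hx hx'
          rw [if_pos]
          rw [decide_eq_true_iff]
          omega

private theorem tgl_pow {f g : α → ℕ} {U : α → List Bool} (hf : FP f) (hg : FP g) (hU : FP U) :
    FP fun a => f a ^ min (g a) (U a).length := by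
  have h1 := tgl_prod hg hU (hf.comp (FP.fst (α := α) (β := ℕ)))
  refine (congrArg FP (funext fun a => ?_)).mp h1
  simp only
  rw [Finset.prod_const, Finset.card_range]

private theorem tgl_powC {f : α → ℕ} (hf : FP f) (k : ℕ) : FP fun a => f a ^ k := by
  have h1 := tgl_pow hf (FP.const k) (FP.const (List.replicate k true))
  refine (congrArg FP (funext fun a => ?_)).mp h1
  simp only [List.length_replicate, min_self]

private theorem tgl_hsh {b v x : α → ℕ} {V : α → List Bool} (d : ℕ) (hb : FP b) (hv : FP v)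
    (hV : FP V) (hx : FP x) : FP fun a => hsh (b a) d (min (v a) (V a).length) (x a) := by
  have hR : FP fun _ : α × ℕ => List.replicate d true := FP.const _
  have h1 : FP fun q : α × ℕ => b q.1 ^ min q.2 (List.replicate d true).length :=
    tgl_pow (hb.comp FP.fst) FP.snd hR
  have h2 : FP fun q : α × ℕ => x q.1 ^ min q.2 (List.replicate d true).length :=
    tgl_pow (hx.comp FP.fst) FP.snd hR
  have h3 := fp_div (hv.comp (FP.fst (α := α) (β := ℕ))) h1 (hV.comp FP.fst)
  have h4 := fp_mod h3 (hb.comp FP.fst) (hV.comp FP.fst)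
  have h5 := tgl_sum (FP.const d) (FP.const (List.replicate d true)) (FP.natMul h4 h2)
  refine (congrArg FP (funext fun a => ?_)).mp h5
  simp only [List.length_replicate, min_self, hsh]
  refine Finset.sum_congr rfl fun i hi => ?_
  have h6 := Finset.mem_range.1 hi
  have h7 : min (v a) (V a).length / b a ^ i ≤ (V a).length :=
    (Nat.div_le_self _ _).trans (min_le_right _ _)
  rw [min_eq_left h6.le, min_eq_left h7]

/-- the block -/
private def tgl_blk (K v : α → ℕ) (ct : α → List ℕ) (V : α → List Bool) (a : α) : ℕ :=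
  ((Finset.range (K a)).filter fun k => (ct a).getD k 0 ≤ min (v a) (V a).length).card

private theorem tgl_b {K v : α → ℕ} {ct : α → List ℕ} {U V : α → List Bool} (hK : FP K)
    (hv : FP v) (hct : FP ct) (hU : FP U) (hV : FP V) (hKU : ∀ a, K a ≤ (U a).length) :
    FP (tgl_blk K v ct V) := by
  have h1 : FP fun q : α × ℕ => (ct q.1).getD q.2 0 := fp_getN (hct.comp FP.fst) FP.snd 0
  have h2 : FP fun q : α × ℕ => min (v q.1) (V q.1).length :=
    (tgl_min hv (FP.length hV)).comp FP.fst
  have h3 : FP fun q : α × ℕ =>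
      if decide ((ct q.1).getD q.2 0 ≤ min (v q.1) (V q.1).length) then 1 else 0 :=
    FP.ite (FP.natLe h1 h2) (FP.const 1) (FP.const 0)
  have h4 := tgl_sum hK hU h3
  refine (congrArg FP (funext fun a => ?_)).mp h4
  simp only
  rw [min_eq_left (hKU a), tgl_blk, Finset.card_filter]
  refine Finset.sum_congr rfl fun k _ => ?_
  simp only [decide_eq_true_eq]

end

theorem fp_gnL {α : Type} [N487b59b3 α] {b L K v : α → ℕ} {ct y : α → List ℕ}
    {U V : α → List Bool} (d : ℕ) (hb : FP b) (hL : FP L) (hK : FP K) (hv : FP v) (hct : FP ct)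
    (hy : FP y) (hU : FP U) (hV : FP V) (hKU : ∀ a, K a ≤ (U a).length)
    (hLU : ∀ a, 2 ^ L a ≤ (U a).length) :
    FP fun a => gnL (b a) d (L a) (K a) (ct a) (y a) (min (v a) (V a).length) := by
  have hLU' : ∀ a, L a ≤ (U a).length := fun a => Nat.lt_two_pow_self.le.trans (hLU a)
  have hB : FP (tgl_blk K v ct V) := tgl_b hK hv hct hU hV hKU
  have h2L : FP fun a => 2 ^ L a := by
    have h1 := tgl_pow (FP.const 2) hL hU
    refine (congrArg FP (funext fun a => ?_)).mp h1
    rw [min_eq_left (hLU' a)]
  have hqb : FP fun a => qb (b a) d (L a) :=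
    FP.natAdd (FP.natMul (FP.natMul (FP.const d) hb) (tgl_powC hL d)) (FP.const 1)
  -- the seed number `j`
  have hd : FP fun q : α × ℕ => (y q.1).getD q.2 0 := fp_getN (hy.comp FP.fst) FP.snd 0
  -- the factor number `x`
  have hh : FP fun q : α × ℕ => hsh (b q.1) d (min (v q.1) (V q.1).length) q.2 :=
    tgl_hsh d (hb.comp FP.fst) (hv.comp FP.fst) (hV.comp FP.fst) FP.snd
  have h2K : FP fun a => K a + 1 := FP.natAdd hK (FP.const 1)
  have hyx : FP fun q : α × ℕ => (y q.1).getD (K q.1 + 1 + 2 ^ L q.1 +
      ((tgl_blk K v ct V q.1 * L q.1 + q.2) * qb (b q.1) d (L q.1) +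
        hsh (b q.1) d (min (v q.1) (V q.1).length) q.2)) 0 := by
    have h1 : FP fun q : α × ℕ => tgl_blk K v ct V q.1 * L q.1 + q.2 :=
      FP.natAdd (FP.natMul (hB.comp FP.fst) (hL.comp FP.fst)) FP.snd
    have h2 : FP fun q : α × ℕ => K q.1 + 1 + 2 ^ L q.1 +
        ((tgl_blk K v ct V q.1 * L q.1 + q.2) * qb (b q.1) d (L q.1) +
          hsh (b q.1) d (min (v q.1) (V q.1).length) q.2) :=
      FP.natAdd (FP.natAdd (h2K.comp FP.fst) (h2L.comp FP.fst))
        (FP.natAdd (FP.natMul h1 (hqb.comp FP.fst)) hh)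
    exact hd.comp (FP.pair FP.fst h2)
  -- the product number `S`
  have ht : FP fun r : (α × ℕ) × ℕ =>
      min (min r.1.2 (U r.1.1).length / 2 ^ min r.2 (U r.1.1).length) (U r.1.1).length % 2 := by
    have hU2 : FP fun r : (α × ℕ) × ℕ => U r.1.1 := hU.comp (FP.fst.comp FP.fst)
    have h1 : FP fun r : (α × ℕ) × ℕ => 2 ^ min r.2 (U r.1.1).length :=
      tgl_pow (FP.const 2) FP.snd hU2
    exact fp_mod (fp_div (FP.snd.comp FP.fst) h1 hU2) (FP.const 2) hU2
  have hyr : FP fun r : (α × ℕ) × ℕ => (y r.1.1).getD (K r.1.1 + 1 + 2 ^ L r.1.1 +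
      ((tgl_blk K v ct V r.1.1 * L r.1.1 + r.2) * qb (b r.1.1) d (L r.1.1) +
        hsh (b r.1.1) d (min (v r.1.1) (V r.1.1).length) r.2)) 0 :=
    hyx.comp (FP.pair (FP.fst.comp FP.fst) FP.snd)
  have hpr := tgl_prod (hL.comp (FP.fst (α := α) (β := ℕ))) (hU.comp FP.fst)
    (FP.ite (FP.natEq ht (FP.const 1)) hyr (FP.const 1))
  have hth : FP fun q : α × ℕ => (y q.1).getD (K q.1 + 1 + q.2) 0 :=
    hd.comp (FP.pair FP.fst (FP.natAdd (h2K.comp FP.fst) FP.snd))
  have hsum := tgl_sum h2L hU (FP.natMul hth hpr)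
  have hz : FP fun a => (y a).getD (tgl_blk K v ct V a) 0 := fp_getN hy hB 0
  refine (congrArg FP (funext fun a => ?_)).mp (FP.natAdd hz hsum)
  simp only
  rw [min_eq_left (hLU a), min_eq_left (hLU' a)]
  change _ = (y a).getD (tgl_blk K v ct V a) 0 + ∑ S ∈ Finset.range (2 ^ L a),
    (y a).getD (K a + 1 + S) 0 * ∏ x ∈ (Finset.range (L a)).filter (fun x => S.testBit x),
      (y a).getD (K a + 1 + 2 ^ L a + ((tgl_blk K v ct V a * L a + x) * qb (b a) d (L a) +
        hsh (b a) d (min (v a) (V a).length) x)) 0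
  refine congrArg₂ _ rfl (Finset.sum_congr rfl fun S hS => congrArg₂ _ rfl ?_)
  rw [Finset.prod_filter]
  refine Finset.prod_congr rfl fun x hx => ?_
  have hS' := Finset.mem_range.1 hS
  have hx' := Finset.mem_range.1 hx
  have h1 := hLU a
  have h2 := hLU' a
  have h3 : S / 2 ^ x ≤ (U a).length := (Nat.div_le_self _ _).trans (by omega)
  rw [min_eq_left (show S ≤ (U a).length by omega), min_eq_left (show x ≤ (U a).length by omega),
    min_eq_left h3, Nat.testBit_eq_decide_div_mod_eq]

end Pool.Agent.CK
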