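import Pool.Agent.CK.TE
import Pool.Agent.Helper22.SparseTools

set_option autoImplicit false

/-!
CK-TH. Polynomial time: the heavy variables, the substitution, and the input of the test.
-/

namespace Pool.Agent.CK

open MvPolynomial N487b59b3 N68a2faeb Pool.Agent.Helper22
open Pool.Agent.Helper6.WB (Fm El toQ elAdd elMul qEl e0 bt run evE)
open Pool.Agent.Helper6.SP Pool.Agent.Helper47.TR Pool.Agent.Helper6.WB

private theorem fp_tok {α : Type} [N487b59b3 α] {x : α → ℕ} {l : α → List (ℕ × ℚ)} (hx : FP x)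
    (hl : FP l) : FP fun a => tok (x a) (l a) := by
  have h1 : FP fun q : α × (ℕ × ℚ) => decide (q.2.1 = x q.1) :=
    FP.natEq FP.snd.fst' (hx.comp FP.fst)
  exact FP.length (fp_filt hl h1)

private theorem fp_isHv {α : Type} [N487b59b3 α] (r : ℕ)
    {p : α → List (List (ℕ × ℚ)) × List (ℕ × ℚ)} {t : α → ℕ × ℚ} (hp : FP p) (ht : FP t) :
    FP fun a => isHv r (p a) (t a) := by
  have h1 : FP fun a => decide (3 ≤ (t a).1) := FP.natLe (FP.const 3) ht.fst'
  have h2 : FP fun a => decide ((t a).1 % 2 = 1) := fp_par ht.fst'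
  have h3 : FP fun a => tok (t a).1 (p a).1.flatten := fp_tok ht.fst' (fp_flatten hp.fst')
  have h4 : FP fun a => tok (t a).1 (p a).2 := fp_tok ht.fst' hp.snd'
  exact FP.and h1 (FP.and h2 (FP.or (FP.natLe (FP.const 1) h3) (FP.natLe (FP.const (r + 1)) h4)))

theorem fp_hvl (r : ℕ) : FP (hvl r) := by
  have h0 : FP fun p : List (List (ℕ × ℚ)) × List (ℕ × ℚ) => p.1.flatten ++ p.2 :=
    FP.append (fp_flatten FP.fst) FP.snd
  have h1 : FP fun p : List (List (ℕ × ℚ)) × List (ℕ × ℚ) =>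
      (p.1.flatten ++ p.2).filter fun t => isHv r p t :=
    fp_filt (c := fun q : (List (List (ℕ × ℚ)) × List (ℕ × ℚ)) × (ℕ × ℚ) => isHv r q.1 q.2) h0
      (fp_isHv r FP.fst FP.snd)
  have h2 : FP fun q : (List (List (ℕ × ℚ)) × List (ℕ × ℚ)) × (ℕ × ℚ) => q.2.1 := FP.snd.fst'
  exact fp_map h1 h2

theorem fp_rft : FP rft := by
  have h0 : FP fun p : List (List (ℕ × ℚ)) × List (ℕ × ℚ) => p.1.flatten ++ p.2 :=
    FP.append (fp_flatten FP.fst) FP.snd
  exact fp_filt (c := fun q : (List (List (ℕ × ℚ)) × List (ℕ × ℚ)) × (ℕ × ℚ) => isRf q.2) h0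
    (fp_isRf FP.snd)

private theorem idxOf_tw (i : ℕ) (L : List ℕ) :
    L.idxOf i = (L.takeWhile fun b => !(decide (b = i))).length := by
  induction L with
  | nil => rfl
  | cons b L ih =>
    by_cases h : b = i
    · subst h
      simp
    · rw [List.idxOf_cons_ne L h, List.takeWhile_cons, ih]
      simp [h]

private theorem fp_sbH {α : Type} [N487b59b3 α] (r : ℕ)
    {p : α → List (List (ℕ × ℚ)) × List (ℕ × ℚ)} {x : α → List ℕ} {t : α → ℕ × ℚ} (hp : FP p)
    (hx : FP x) (ht : FP t) : FP fun a => sbH r (p a) (x a) (t a) := by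
  have h1 : FP fun a => isHv r (p a) (t a) := fp_isHv r hp ht
  have h2 : FP fun a => hvl r (p a) := (fp_hvl r).comp hp
  have h4 : FP fun q : α × ℕ => !(decide (q.2 = (t q.1).1)) :=
    FP.not (FP.natEq FP.snd (ht.fst'.comp FP.fst))
  have h5 := (FP.takeWhile_ctx h4).comp (FP.id.pair h2)
  have h6 : FP fun a => (x a).getD ((hvl r (p a)).idxOf (t a).1) 0 := by
    have h7 := FP.headD (FP.drop hx h5) 0
    refine (congrArg FP (funext fun a => ?_)).mp h7
    have h9 := idxOf_tw (t a).1 (hvl r (p a))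
    show ((x a).drop ((hvl r (p a)).takeWhile fun b => !(decide (b = (t a).1))).length).headD 0 = _
    rw [← h9, List.getD_eq_getElem?_getD, List.headD_eq_head?_getD, List.head?_drop]
  exact FP.ite h1 (FP.pair (FP.const 0) (fp_natQ h6)) ht

private theorem fp_sbO {α : Type} [N487b59b3 α] (r : ℕ)
    {p : α → List (List (ℕ × ℚ)) × List (ℕ × ℚ)} {x : α → List ℕ} (hp : FP p) (hx : FP x) :
    FP fun a => sbO r (p a) (x a) := by
  have h1 : FP fun q : α × (ℕ × ℚ) => sbH r (p q.1) (x q.1) q.2 :=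
    fp_sbH r (hp.comp FP.fst) (hx.comp FP.fst) FP.snd
  exact fp_map hp.snd' h1

private theorem fp_sbG {α : Type} [N487b59b3 α] (r : ℕ)
    {p : α → List (List (ℕ × ℚ)) × List (ℕ × ℚ)} {x : α → List ℕ} (hp : FP p) (hx : FP x) :
    FP fun a => sbG r (p a) (x a) := by
  have h1 : FP fun q : (α × List (ℕ × ℚ)) × (ℕ × ℚ) => sbH r (p q.1.1) (x q.1.1) q.2 :=
    fp_sbH r (hp.comp FP.fst.fst') (hx.comp FP.fst.fst') FP.snd
  have h2 : FP fun q : α × List (ℕ × ℚ) => q.2.map fun t => sbH r (p q.1) (x q.1) t :=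
    fp_map (f := fun q : α × List (ℕ × ℚ) => q.2) FP.snd h1
  exact fp_map hp.fst' h2

private theorem fp_wd {α : Type} [N487b59b3 α] {v : α → List Bool}
    {L : α → List (List (ℕ × ℚ))} (hv : FP v) (hL : FP L) : FP fun a => wd (v a) (L a) := by
  have h1 : FP fun a => true :: (bitEncode (L a) : List Bool) := FP.cons (FP.const true) (fp_raw hL)
  have h2 := FP.unMul hv (FP.unMul (FP.const [true, true, true]) h1)
  refine (congrArg FP (funext fun a => ?_)).mp h2
  show un _ = un _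
  rw [un_length]
  rfl

theorem fp_tin (r : ℕ) :
    FP fun q : (List Bool × (List (List (ℕ × ℚ)) × List (ℕ × ℚ))) × List ℕ =>
      tin r q.1.1 q.1.2 q.2 := by
  have hv : FP fun q : (List Bool × (List (List (ℕ × ℚ)) × List (ℕ × ℚ))) × List ℕ => q.1.1 :=
    FP.fst.fst'
  have hp : FP fun q : (List Bool × (List (List (ℕ × ℚ)) × List (ℕ × ℚ))) × List ℕ => q.1.2 :=
    FP.fst.snd'
  have hx : FP fun q : (List Bool × (List (List (ℕ × ℚ)) × List (ℕ × ℚ))) × List ℕ => q.2 :=
    FP.snd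
  have hG := fp_sbG r hp hx
  have hV := fp_vlE (fp_wd hv hG) hG
  have hR := fp_sbR hV (fp_sbO r hp hx)
  exact FP.pair (FP.const [(3, 0)]) (FP.cons (FP.cons hR (FP.const [])) (FP.const []))

end Pool.Agent.CK
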