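import Pool.Agent.CK.TDefs

set_option autoImplicit false

/-!
CK-THv. The heavy variables of a circuit and its code: the tokens of the code of a formula are counted by induction on
the formula, and summed over the gates.
-/

namespace Pool.Agent.CK

open MvPolynomial N487b59b3 N68a2faeb Pool.Agent.Helper22

theorem tok_code (i : ℕ) (F : Fr) : tok (2 * i + 3) F.code = F.occ i := by
  induction F with
  | const q => simp [tok, Fr.code, Fr.occ]
  | var j =>
    unfold Fr.code Fr.occ tok
    by_cases h : j = i
    · simp [h]
    · simp [h]
  | ref j =>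
    unfold Fr.code Fr.occ tok
    have h : ¬ (2 * j + 4 = 2 * i + 3) := by omega
    simp [h]
  | add F G hF hG =>
    unfold tok at hF hG ⊢
    unfold Fr.code Fr.occ
    rw [List.filter_append, List.filter_append, List.length_append, List.length_append, hF, hG]
    simp
  | mul F G hF hG =>
    unfold tok at hF hG ⊢
    unfold Fr.code Fr.occ
    rw [List.filter_append, List.filter_append, List.length_append, List.length_append, hF, hG]
    simp

theorem mem_lvs {i : ℕ} {F : Fr} : i ∈ F.lvs ↔ 0 < F.occ i := by
  induction F with
  | const q => simp [Fr.lvs, Fr.occ]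
  | var j =>
    unfold Fr.lvs Fr.occ
    by_cases h : j = i
    · simp [h]
    · simp [h, Ne.symm h]
  | ref j => simp [Fr.lvs, Fr.occ]
  | add F G hF hG =>
    unfold Fr.lvs Fr.occ
    rw [Multiset.mem_add, hF, hG]
    omega
  | mul F G hF hG =>
    unfold Fr.lvs Fr.occ
    rw [Multiset.mem_add, hF, hG]
    omega

private theorem tok_append (x : ℕ) (l l' : List (ℕ × ℚ)) : tok x (l ++ l') = tok x l + tok x l' := by
  unfold tok
  rw [List.filter_append, List.length_append]

private theorem tok_flat (i : ℕ) (L : List Fr) :
    1 ≤ tok (2 * i + 3) (L.map Fr.code).flatten ↔ ∃ F ∈ L, i ∈ F.lvs := by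
  induction L with
  | nil => simp [tok]
  | cons F L ih =>
    rw [List.map_cons, List.flatten_cons, tok_append, tok_code]
    constructor
    · intro h
      by_cases h0 : 0 < F.occ i
      · exact ⟨F, List.mem_cons_self, mem_lvs.2 h0⟩
      · obtain ⟨G, hG, hi⟩ := ih.1 (by omega)
        exact ⟨G, List.mem_cons_of_mem _ hG, hi⟩
    · rintro ⟨G, hG, hi⟩
      rcases List.mem_cons.1 hG with h | h
      · subst h
        have := mem_lvs.1 hi
        omega
      · have := ih.2 ⟨G, h, hi⟩
        omega

theorem isHv_iff {r : ℕ} {C : Cir} {i : ℕ} :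
    isHv r C.code (2 * i + 3, 0) = true ↔ C.Heavy r i := by
  have h1 : 3 ≤ 2 * i + 3 := by omega
  have h2 : (2 * i + 3) % 2 = 1 := by omega
  unfold isHv Cir.code Cir.Heavy
  simp only [Bool.and_eq_true, Bool.or_eq_true, decide_eq_true_eq, h1, h2, true_and, tok_code,
    tok_flat]
  exact Iff.rfl

/-- a test which only accepts tokens of variables -/
private theorem flt_code (c : ℕ × ℚ → Bool) (h0 : ∀ q, c (0, q) = false) (h1 : c (1, 0) = false)
    (h2 : c (2, 0) = false) (hr : ∀ j, c (2 * j + 4, 0) = false) (F : Fr) :
    (F.code.filter c).length = (F.lvs.filter fun i => c (2 * i + 3, 0) = true).card := by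
  induction F with
  | const q => simp [Fr.code, Fr.lvs, h0]
  | var i =>
    unfold Fr.code Fr.lvs
    by_cases h : c (2 * i + 3, 0) = true
    · simp [h, Multiset.filter_singleton]
    · simp [h, Multiset.filter_singleton]
  | ref j => simp [Fr.code, Fr.lvs, hr]
  | add F G hF hG =>
    unfold Fr.code Fr.lvs
    rw [List.filter_append, List.filter_append, List.length_append, List.length_append, hF, hG,
      Multiset.filter_add, Multiset.card_add]
    simp [h1]
  | mul F G hF hG =>
    unfold Fr.code Fr.lvs
    rw [List.filter_append, List.filter_append, List.length_append, List.length_append, hF, hG,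
      Multiset.filter_add, Multiset.card_add]
    simp [h2]

private theorem flt_flat (c : ℕ × ℚ → Bool) (h0 : ∀ q, c (0, q) = false) (h1 : c (1, 0) = false)
    (h2 : c (2, 0) = false) (hr : ∀ j, c (2 * j + 4, 0) = false) (L : List Fr) :
    ((L.map Fr.code).flatten.filter c).length =
      ((L.map Fr.lvs).sum.filter fun i => c (2 * i + 3, 0) = true).card := by
  induction L with
  | nil => simp
  | cons F L ih =>
    rw [List.map_cons, List.flatten_cons, List.filter_append, List.length_append, ih,
      flt_code c h0 h1 h2 hr, List.map_cons, List.sum_cons, Multiset.filter_add,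
      Multiset.card_add]

private theorem isHv_lt {r : ℕ} {p : List (List (ℕ × ℚ)) × List (ℕ × ℚ)} {t : ℕ × ℚ}
    (h : t.1 < 3) : isHv r p t = false := by
  unfold isHv
  rw [decide_eq_false (by omega), Bool.false_and]

private theorem isHv_ref {r : ℕ} {p : List (List (ℕ × ℚ)) × List (ℕ × ℚ)} {t : ℕ × ℚ}
    (h : t.1 % 2 = 0) : isHv r p t = false := by
  unfold isHv
  rw [decide_eq_false (p := t.1 % 2 = 1) (by omega), Bool.false_and, Bool.and_false]

theorem hvl_length (r : ℕ) (C : Cir) : (hvl r C.code).length = C.heavy r := by
  have h0 : ∀ q : ℚ, isHv r C.code (0, q) = false := fun q => isHv_lt (by norm_num)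
  have h1 : isHv r C.code (1, 0) = false := isHv_lt (by norm_num)
  have h2 : isHv r C.code (2, 0) = false := isHv_lt (by norm_num)
  have hr : ∀ j : ℕ, isHv r C.code (2 * j + 4, 0) = false := fun j =>
    isHv_ref (by show (2 * j + 4) % 2 = 0; omega)
  have e1 := flt_flat (isHv r C.code) h0 h1 h2 hr C.gates
  have e2 := flt_code (isHv r C.code) h0 h1 h2 hr C.out
  have e3 : (C.lvs.filter fun i => C.Heavy r i) =
      C.lvs.filter fun i => isHv r C.code (2 * i + 3, 0) = true :=
    Multiset.filter_congr fun i _ => isHv_iff.symm
  unfold Cir.heavy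
  rw [e3]
  unfold hvl
  rw [List.length_map, List.filter_append, List.length_append]
  unfold Cir.lvs
  rw [Multiset.filter_add, Multiset.card_add, ← e1, ← e2]
  rfl

private theorem rft_code (F : Fr) : (F.code.filter isRf).length = F.refs := by
  induction F with
  | const q => simp [Fr.code, Fr.refs, isRf]
  | var i =>
    unfold Fr.code Fr.refs
    have h : isRf (2 * i + 3, (0 : ℚ)) = false := by
      unfold isRf
      rw [decide_eq_false (p := (2 * i + 3) % 2 = 0) (by omega), Bool.and_false]
    simp [h]
  | ref j =>
    unfold Fr.code Fr.refs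
    have h : isRf (2 * j + 4, (0 : ℚ)) = true := by
      unfold isRf
      rw [decide_eq_true (p := (2 * j + 4) % 2 = 0) (by omega), decide_eq_true (by omega)]
      rfl
    simp [h]
  | add F G hF hG =>
    unfold Fr.code Fr.refs
    rw [List.filter_append, List.filter_append, List.length_append, List.length_append, hF, hG]
    simp [isRf]
  | mul F G hF hG =>
    unfold Fr.code Fr.refs
    rw [List.filter_append, List.filter_append, List.length_append, List.length_append, hF, hG]
    simp [isRf]

theorem rft_length (C : Cir) : (rft C.code).length = C.refs := by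
  have h : ∀ L : List Fr, ((L.map Fr.code).flatten.filter isRf).length =
      (L.map Fr.refs).sum := by
    intro L
    induction L with
    | nil => simp
    | cons F L ih =>
      rw [List.map_cons, List.flatten_cons, List.filter_append, List.length_append, ih,
        rft_code, List.map_cons, List.sum_cons]
  unfold rft Cir.code Cir.refs
  rw [List.filter_append, List.length_append, rft_code, h]

private theorem mem_code {i : ℕ} {F : Fr} (h : i ∈ F.lvs) : (2 * i + 3, (0 : ℚ)) ∈ F.code := by
  induction F with
  | const q => simp [Fr.lvs] at h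
  | var j =>
    unfold Fr.lvs at h
    rw [Multiset.mem_singleton] at h
    subst h
    exact List.mem_singleton.2 rfl
  | ref j => simp [Fr.lvs] at h
  | add F G hF hG =>
    unfold Fr.lvs at h
    unfold Fr.code
    rcases Multiset.mem_add.1 h with h | h
    · exact List.mem_append_left _ (List.mem_append_left _ (hF h))
    · exact List.mem_append_left _ (List.mem_append_right _ (hG h))
  | mul F G hF hG =>
    unfold Fr.lvs at h
    unfold Fr.code
    rcases Multiset.mem_add.1 h with h | h
    · exact List.mem_append_left _ (List.mem_append_left _ (hF h))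
    · exact List.mem_append_left _ (List.mem_append_right _ (hG h))

private theorem mem_flat {i : ℕ} (L : List Fr) (h : i ∈ (L.map Fr.lvs).sum) :
    (2 * i + 3, (0 : ℚ)) ∈ (L.map Fr.code).flatten := by
  induction L with
  | nil => simp at h
  | cons F L ih =>
    rw [List.map_cons, List.sum_cons, Multiset.mem_add] at h
    rw [List.map_cons, List.flatten_cons]
    rcases h with h | h
    · exact List.mem_append_left _ (mem_code h)
    · exact List.mem_append_right _ (ih h)

theorem mem_hvl {r : ℕ} {C : Cir} {i : ℕ} (hi : i ∈ C.lvs) (hH : C.Heavy r i) :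
    2 * i + 3 ∈ hvl r C.code := by
  unfold hvl
  refine List.mem_map.2 ⟨(2 * i + 3, 0), List.mem_filter.2 ⟨?_, isHv_iff.2 hH⟩, rfl⟩
  unfold Cir.lvs at hi
  rcases Multiset.mem_add.1 hi with h | h
  · exact List.mem_append_left _ (mem_flat _ h)
  · exact List.mem_append_right _ (mem_code h)

end Pool.Agent.CK
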