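import Pool.Agent.CK.Defs

set_option autoImplicit false

/-!
The points of the hitting set, as lists.
-/

namespace Pool.Agent.CK

open Pool.Agent.QH (gen qb)

/-- numbers with more than `W` bits are replaced by `0` -/
def cp (W x : ℕ) : ℕ := if x.size ≤ W then x else 0

/-- the point number `i` for `n` variables with `J` levels, the numbers are cut off at `W` bits -/
def PtC (W T : ℕ) : ℕ → ℕ → ℕ → List ℕ
  | 0, n, i => (List.range n).map fun v => cp W (dg T 3 i v)
  | J + 1, n, i => (List.range n).map fun v => cp W (lf (n - n / 4) (dg T (n - n / 4) i)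
      (fun l => (PtC W T J (n - n / 4) (i / 2 ^ T)).getD l 0) v)

/-- the bound for the lengths of the coordinates -/
def wdP (T J n : ℕ) : ℕ := (J + 1) * (n * n + n + T + 2)

/-- the coordinate `v` of the generator; `ct` is the list of the cuts, `y` the list of the seeds -/
def gnL (b d L K : ℕ) (ct y : List ℕ) (v : ℕ) : ℕ :=
  gen b d L (fun v => ((Finset.range K).filter fun k => ct.getD k 0 ≤ v).card)
    (fun S => y.getD (K + 1 + S) 0) (fun k => y.getD k 0)
    (fun k a h => y.getD (K + 1 + 2 ^ L + ((k * L + a) * qb b d L + h)) 0) v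

end Pool.Agent.CK
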