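import Pool.Agent.CK.TPDefs

set_option autoImplicit false

/-!
CK-TPb. The coordinates of the points are short, and the points computed with the cut off are the points.
-/

namespace Pool.Agent.CK

private theorem dg_size (T m i l : ℕ) : dg T m i l < 2 ^ T := by
  unfold dg
  refine lt_of_lt_of_le (Nat.mod_lt _ (by positivity)) ?_
  exact Nat.pow_le_pow_right (by norm_num) (Nat.div_le_self _ _)

private theorem wdP_mono (T J : ℕ) {m n : ℕ} (h : m ≤ n) : wdP T J m ≤ wdP T J n := by
  unfold wdP
  refine Nat.mul_le_mul_left _ ?_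
  have := Nat.mul_le_mul h h
  omega

private theorem wdP_succ (T J n : ℕ) : wdP T (J + 1) n = wdP T J n + (n * n + n + T + 2) := by
  unfold wdP
  ring

theorem Pt_size (T J : ℕ) : ∀ n i v : ℕ, v < n → (Pt T J n i v).size ≤ wdP T J n := by
  induction J with
  | zero =>
    intro n i v _
    rw [Nat.size_le]
    show dg T 3 i v < _
    refine lt_of_lt_of_le (dg_size T 3 i v) ?_
    refine Nat.pow_le_pow_right (by norm_num) ?_
    unfold wdP
    rw [Nat.zero_add, Nat.one_mul]
    omega
  | succ J ih =>
    intro n i v hv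
    set m := n - n / 4 with hm
    have hmn : m ≤ n := Nat.sub_le _ _
    have hP : Pt T (J + 1) n i v = lf m (dg T m i) (Pt T J m (i / 2 ^ T)) v := rfl
    rw [hP, wdP_succ]
    unfold lf
    split_ifs with hvm
    · exact (ih m _ v hvm).trans ((wdP_mono T J hmn).trans (Nat.le_add_right _ _))
    · rw [Nat.size_le]
      have hterm : ∀ l ∈ Finset.range m, (l + 1) ^ (v - m) * dg T m i l * Pt T J m (i / 2 ^ T) l ≤
          2 ^ (n * n) * 2 ^ T * 2 ^ wdP T J n := by
        intro l hl
        have hl' : l < m := Finset.mem_range.1 hl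
        have h1 : (l + 1) ^ (v - m) ≤ 2 ^ (n * n) := by
          calc (l + 1) ^ (v - m) ≤ (2 ^ n) ^ (v - m) := by
                refine Nat.pow_le_pow_left ?_ _
                have := Nat.lt_two_pow_self (n := n)
                omega
            _ ≤ (2 ^ n) ^ n := Nat.pow_le_pow_right (by positivity) (by omega)
            _ = 2 ^ (n * n) := by rw [← pow_mul]
        have h2 : dg T m i l ≤ 2 ^ T := (dg_size T m i l).le
        have h3 : Pt T J m (i / 2 ^ T) l ≤ 2 ^ wdP T J n := by
          refine ((Nat.size_le.1 (ih m (i / 2 ^ T) l hl')).le).trans ?_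
          exact Nat.pow_le_pow_right (by norm_num) (wdP_mono T J hmn)
        exact Nat.mul_le_mul (Nat.mul_le_mul h1 h2) h3
      have hsum := Finset.sum_le_card_nsmul (Finset.range m) _ _ hterm
      rw [Finset.card_range, smul_eq_mul] at hsum
      have hpos : 0 < 2 ^ (n * n) * 2 ^ T * 2 ^ wdP T J n := by positivity
      have hm2 : m < 2 ^ n := lt_of_le_of_lt hmn Nat.lt_two_pow_self
      calc ∑ l ∈ Finset.range m, (l + 1) ^ (v - m) * dg T m i l * Pt T J m (i / 2 ^ T) l
          ≤ m * (2 ^ (n * n) * 2 ^ T * 2 ^ wdP T J n) := hsum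
        _ < 2 ^ n * (2 ^ (n * n) * 2 ^ T * 2 ^ wdP T J n) := Nat.mul_lt_mul_of_pos_right hm2 hpos
        _ = 2 ^ (n + (n * n + T + wdP T J n)) := by
          rw [pow_add, pow_add, pow_add]
        _ ≤ 2 ^ (wdP T J n + (n * n + n + T + 2)) :=
          Nat.pow_le_pow_right (by norm_num) (by omega)

private theorem cp_eq {W x : ℕ} (h : x.size ≤ W) : cp W x = x := by
  unfold cp
  rw [if_pos h]

private theorem lf_cong (m : ℕ) (θ y z : ℕ → ℕ) (h : ∀ l < m, y l = z l) (v : ℕ) :
    lf m θ y v = lf m θ z v := by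
  unfold lf
  split_ifs with hv
  · exact h v hv
  · refine Finset.sum_congr rfl fun l hl => ?_
    rw [h l (Finset.mem_range.1 hl)]

theorem PtC_eq {W T J n : ℕ} (hW : wdP T J n ≤ W) (i : ℕ) :
    PtC W T J n i = (List.range n).map fun v => Pt T J n i v := by
  induction J generalizing n i with
  | zero =>
    show (List.range n).map (fun v => cp W (dg T 3 i v)) = _
    refine List.map_congr_left fun v hv => ?_
    exact cp_eq ((Pt_size T 0 n i v (List.mem_range.1 hv)).trans hW)
  | succ J ih =>
    show (List.range n).map (fun v => cp W (lf (n - n / 4) (dg T (n - n / 4) i)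
      (fun l => (PtC W T J (n - n / 4) (i / 2 ^ T)).getD l 0) v)) = _
    have hmn : n - n / 4 ≤ n := Nat.sub_le _ _
    have hW' : wdP T J (n - n / 4) ≤ W := by
      refine (wdP_mono T J hmn).trans ?_
      rw [wdP_succ] at hW
      omega
    refine List.map_congr_left fun v hv => ?_
    have h1 : lf (n - n / 4) (dg T (n - n / 4) i)
        (fun l => (PtC W T J (n - n / 4) (i / 2 ^ T)).getD l 0) v = Pt T (J + 1) n i v := by
      show _ = lf (n - n / 4) (dg T (n - n / 4) i) (Pt T J (n - n / 4) (i / 2 ^ T)) v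
      refine lf_cong _ _ _ _ (fun l hl => ?_) v
      rw [ih hW' (i / 2 ^ T), List.getD_eq_getElem?_getD, List.getElem?_map,
        List.getElem?_range hl]
      rfl
    rw [h1]
    exact cp_eq ((Pt_size T (J + 1) n i v (List.mem_range.1 hv)).trans hW)

end Pool.Agent.CK
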