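import Pool.Agent.CK.TPDefs
import Pool.Agent.CK.TA

set_option autoImplicit false

/-!
CK-TPt. Polynomial time: the points of the levels.

The levels are computed from the last one to the first one by a fold over `[J - 1, .., 0]`; the
numbers `nx j n` of the variables are lengths of lists, the exponents are cut off.
-/

namespace Pool.Agent.CK

open N487b59b3 N68a2faeb Pool.Agent.Helper22 Pool.Agent.Helper6.WB Pool.Agent.Helper47.TR
  Pool.Agent.QH

open Pool.Agent.Helper6.SP (fp_map)
open Pool.Agent.PQ (fp_natSub)

/-! ### The number of the variables -/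

private theorem fp_nxStep : FP fun l : List Bool => l.drop (un (min (l.length / 2 / 2) l.length)).length :=
  FP.drop FP.id (fp_unMin (fp_half (fp_half (FP.length FP.id))) FP.id)

private theorem nxStep_iter (k n : ℕ) :
    (fun l : List Bool => l.drop (un (min (l.length / 2 / 2) l.length)).length)^[k] (un n) =
      un (nx k n) := by
  induction k generalizing n with
  | zero => rfl
  | succ k ih =>
    rw [Function.iterate_succ_apply]
    have h : (un n).drop (un (min ((un n).length / 2 / 2) (un n).length)).length =
        un (n - n / 4) := by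
      rw [un_length, un_length, Nat.div_div_eq_div_mul, min_eq_left (Nat.div_le_self _ _)]
      unfold un
      rw [List.drop_replicate]
    rw [h, ih]
    rfl

private theorem fp_nx {α : Type} [N487b59b3 α] {k n : α → List Bool} (hk : FP k) (hn : FP n) :
    FP fun a => un (nx (k a).length (n a).length) := by
  have h1 : FP fun p : List Bool × List Bool =>
      (fun l : List Bool => l.drop (un (min (l.length / 2 / 2) l.length)).length)^[p.1.length] p.2 := by
    refine FP.iterate (f := fun l : List Bool =>
      l.drop (un (min (l.length / 2 / 2) l.length)).length) fp_nxStep (B := fun n => n)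
      (by fun_prop) ?_
    intro l a i _
    have h : sz ((fun l : List Bool =>
        l.drop (un (min (l.length / 2 / 2) l.length)).length)^[i] a) ≤ sz a := by
      induction i with
      | zero => exact le_refl _
      | succ i ih =>
        rw [Function.iterate_succ_apply']
        exact (sz_drop _ _).trans (ih (by omega))
    omega
  refine (congrArg FP (funext fun a => ?_)).mp (h1.comp (hk.pair (FP.un_length hn)))
  exact nxStep_iter _ _

private theorem nx_succ' (k n : ℕ) : nx (k + 1) n = nx k n - nx k n / 4 := by
  induction k generalizing n with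
  | zero => rfl
  | succ k ih => exact ih (n - n / 4)

/-! ### Digits -/

private theorem div_pow_clamp {i w e : ℕ} (hi : i ≤ w) : i / 2 ^ min e w = i / 2 ^ e := by
  rcases le_total e w with h | h
  · rw [min_eq_left h]
  · rw [min_eq_right h]
    have h1 : w < 2 ^ w := Nat.lt_two_pow_self
    have h2 : 2 ^ w ≤ 2 ^ e := Nat.pow_le_pow_right (by norm_num) h
    rw [Nat.div_eq_of_lt (by omega), Nat.div_eq_of_lt (by omega)]

private theorem fp_dg {α : Type} [N487b59b3 α] {T w : α → List Bool} {m i l : α → ℕ} (hT : FP T)
    (hw : FP w) (hm : FP m) (hi : FP i) (hl : FP l) :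
    FP fun a => dg (T a).length (m a) (min (i a) (w a).length) (l a) := by
  have hq : FP fun a => min (T a).length (T a).length / m a := fp_div (FP.length hT) hm hT
  have h1 : FP fun a => 2 ^ min (min (T a).length (T a).length / m a * l a) (w a).length :=
    fp_pow2 (FP.const 2) (FP.natMul hq hl) hw
  have h2 : FP fun a => 2 ^ min (min (T a).length (T a).length / m a) (T a).length :=
    fp_pow2 (FP.const 2) hq hT
  have h3 := fp_mod (fp_div hi h1 hw) h2 hw
  refine (congrArg FP (funext fun a => ?_)).mp h3
  rw [min_self, div_pow_clamp (min_le_right _ _), min_eq_left (Nat.div_le_self _ _),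
    min_eq_left ((Nat.div_le_self _ _).trans (min_le_right _ _))]
  rfl

/-! ### One level -/

private theorem sum_range_list (m : ℕ) (f : ℕ → ℕ) :
    ((List.range m).map f).sum = ∑ l ∈ Finset.range m, f l := by
  induction m with
  | zero => rfl
  | succ m ih =>
    rw [List.range_succ, List.map_append, List.sum_append, ih, Finset.sum_range_succ]
    simp

private theorem fp_row {α : Type} [N487b59b3 α] {W T w N M : α → List Bool} {i : α → ℕ}
    {y : α → List ℕ} (hW : FP W) (hT : FP T) (hw : FP w) (hN : FP N) (hM : FP M) (hi : FP i)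
    (hy : FP y) :
    FP fun a => (List.range (N a).length).map fun v => cp (W a).length
      (lf (M a).length (dg (T a).length (M a).length (min (i a) (w a).length))
        (fun l => (y a).getD l 0) v) := by
  have hin : FP fun p : α × ℕ => ((List.range (M p.1).length).map fun l =>
      (l + 1) ^ min (p.2 - (M p.1).length) (N p.1).length *
        dg (T p.1).length (M p.1).length (min (i p.1) (w p.1).length) l *
        (y p.1).getD l 0).sum := by
    refine fp_natSum (fp_map (f := fun p : α × ℕ => List.range (M p.1).length)
      (h := fun q : (α × ℕ) × ℕ => (q.2 + 1) ^ min (q.1.2 - (M q.1.1).length) (N q.1.1).length *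
        dg (T q.1.1).length (M q.1.1).length (min (i q.1.1) (w q.1.1).length) q.2 *
        (y q.1.1).getD q.2 0) (FP.range (hM.comp FP.fst)) ?_)
    have e1 : FP fun q : (α × ℕ) × ℕ => q.1.1 := FP.fst.comp FP.fst
    have e2 : FP fun q : (α × ℕ) × ℕ => q.1.2 := FP.snd.comp FP.fst
    have e3 : FP fun q : (α × ℕ) × ℕ => q.2 := FP.snd
    have f1 : FP fun q : (α × ℕ) × ℕ =>
        (q.2 + 1) ^ min (q.1.2 - (M q.1.1).length) (N q.1.1).length :=
      fp_pow2 (FP.natAdd e3 (FP.const 1)) (fp_natSub e2 (FP.length (hM.comp e1))) (hN.comp e1)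
    have f2 : FP fun q : (α × ℕ) × ℕ =>
        dg (T q.1.1).length (M q.1.1).length (min (i q.1.1) (w q.1.1).length) q.2 :=
      fp_dg (T := fun q : (α × ℕ) × ℕ => T q.1.1) (w := fun q => w q.1.1)
        (m := fun q => (M q.1.1).length) (i := fun q => i q.1.1) (l := fun q => q.2)
        (hT.comp e1) (hw.comp e1) (FP.length (hM.comp e1)) (hi.comp e1) e3
    have f3 : FP fun q : (α × ℕ) × ℕ => (y q.1.1).getD q.2 0 :=
      fp_getN (f := fun q : (α × ℕ) × ℕ => y q.1.1) (i := fun q => q.2) (hy.comp e1) e3 0
    exact FP.natMul (FP.natMul f1 f2) f3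
  have hlf : FP fun p : α × ℕ => if decide (p.2 + 1 ≤ (M p.1).length) then (y p.1).getD p.2 0 else
      ((List.range (M p.1).length).map fun l =>
      (l + 1) ^ min (p.2 - (M p.1).length) (N p.1).length *
        dg (T p.1).length (M p.1).length (min (i p.1) (w p.1).length) l *
        (y p.1).getD l 0).sum :=
    FP.ite (FP.natLe (FP.natAdd FP.snd (FP.const 1)) (FP.length (hM.comp FP.fst)))
      (fp_getN (f := fun p : α × ℕ => y p.1) (i := fun p => p.2) (hy.comp FP.fst) FP.snd 0) hin
  have hcp := fp_capN (W := fun p : α × ℕ => W p.1) hlf (hW.comp FP.fst)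
  refine (congrArg FP (funext fun a => ?_)).mp (fp_map (FP.range hN) hcp)
  refine List.map_congr_left fun v hv => ?_
  rw [List.mem_range] at hv
  have key : (if decide (v + 1 ≤ (M a).length) = true then (y a).getD v 0 else
      ((List.range (M a).length).map fun l =>
      (l + 1) ^ min (v - (M a).length) (N a).length *
        dg (T a).length (M a).length (min (i a) (w a).length) l *
        (y a).getD l 0).sum) = lf (M a).length
        (dg (T a).length (M a).length (min (i a) (w a).length)) (fun l => (y a).getD l 0) v := by
    unfold lf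
    rw [min_eq_left (show v - (M a).length ≤ (N a).length by omega), sum_range_list]
    by_cases h : v < (M a).length
    · rw [if_pos h, if_pos (by simpa using h)]
    · rw [if_neg h, if_neg (by simpa using h)]
  show (if Nat.size (if decide (v + 1 ≤ (M a).length) = true then (y a).getD v 0 else _) ≤ _
    then (if decide (v + 1 ≤ (M a).length) = true then (y a).getD v 0 else _) else 0) = _
  rw [key]
  rfl

private theorem fp_bas {α : Type} [N487b59b3 α] {W T w N : α → List Bool} {i : α → ℕ}
    (hW : FP W) (hT : FP T) (hw : FP w) (hN : FP N) (hi : FP i) :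
    FP fun a => (List.range (N a).length).map fun v => cp (W a).length
      (dg (T a).length 3 (min (i a) (w a).length) v) := by
  have f2 : FP fun q : α × ℕ => dg (T q.1).length 3 (min (i q.1) (w q.1).length) q.2 :=
    fp_dg (T := fun q : α × ℕ => T q.1) (w := fun q => w q.1)
      (m := fun _ => 3) (i := fun q => i q.1) (l := fun q => q.2)
      (hT.comp FP.fst) (hw.comp FP.fst) (FP.const 3) (hi.comp FP.fst) FP.snd
  have hcp := fp_capN (W := fun p : α × ℕ => W p.1) f2 (hW.comp FP.fst)
  exact fp_map (FP.range hN) hcp

/-! ### The fold -/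

/-- level `j` from level `j + 1` -/
private def lev (W T J n w i j : ℕ) (y : List ℕ) : List ℕ :=
  (List.range (nx (min j J) n)).map fun v => cp W
    (lf (nx (min j J + 1) n) (dg T (nx (min j J + 1) n)
      (min (min i w / 2 ^ (T * min j J)) w)) (fun l => y.getD l 0) v)

private def bas (W T J n w i : ℕ) : List ℕ :=
  (List.range (nx J n)).map fun v => cp W (dg T 3 (min (min i w / 2 ^ (T * J)) w) v)

private theorem lev_eq (W T J n w i j : ℕ) (hj : j < J) :
    lev W T J n w i j (PtC W T (J - (j + 1)) (nx (j + 1) n) (min i w / 2 ^ (T * (j + 1)))) =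
      PtC W T (J - j) (nx j n) (min i w / 2 ^ (T * j)) := by
  obtain ⟨k, hk⟩ : ∃ k, J - j = k + 1 := ⟨J - j - 1, by omega⟩
  have hk' : J - (j + 1) = k := by omega
  rw [hk, hk']
  unfold lev
  rw [min_eq_left hj.le, min_eq_left ((Nat.div_le_self _ _).trans (min_le_right i w)),
    nx_succ', mul_add, mul_one, pow_add, ← Nat.div_div_eq_div_mul]
  rfl

private theorem fold_lev (W T J n w i k : ℕ) (hk : k ≤ J) :
    (List.range k).foldr (fun j y => lev W T J n w i j y)
      (PtC W T (J - k) (nx k n) (min i w / 2 ^ (T * k))) = PtC W T J n (min i w) := by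
  induction k with
  | zero => simp [nx]
  | succ k ih =>
    rw [List.range_succ, List.foldr_append, List.foldr_cons, List.foldr_nil,
      lev_eq W T J n w i k (by omega)]
    exact ih (by omega)

private theorem bas_eq (W T J n w i : ℕ) :
    bas W T J n w i = PtC W T (J - J) (nx J n) (min i w / 2 ^ (T * J)) := by
  unfold bas
  rw [min_eq_left ((Nat.div_le_self _ _).trans (min_le_right i w)), Nat.sub_self]
  rfl

private theorem sz_lev (W T J n w i j : ℕ) (y : List ℕ) :
    sz (lev W T J n w i j y) ≤ n * (2 * W + 1) := by
  have hnx : ∀ k n, nx k n ≤ n := by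
    intro k
    induction k with
    | zero => exact fun n => le_refl n
    | succ k ih => exact fun n => (ih (n - n / 4)).trans (Nat.sub_le _ _)
  unfold lev
  refine (sz_map_le _ _ W ?_).trans ?_
  · intro v _
    rw [sz_nat]
    unfold cp
    split_ifs with h
    · exact h
    · simp
  · rw [List.length_range]
    exact Nat.mul_le_mul_right _ (hnx _ _)

theorem fp_PtC {α : Type} [N487b59b3 α] {W T J n w : α → List Bool} {i : α → ℕ} (hW : FP W)
    (hT : FP T) (hJ : FP J) (hn : FP n) (hw : FP w) (hi : FP i) :
    FP fun a => PtC (W a).length (T a).length (J a).length (n a).length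
      (min (i a) (w a).length) := by
  obtain ⟨BW, hBW, hBWm, hBWle⟩ := hW.bound
  obtain ⟨Bn, hBn, hBnm, hBnle⟩ := hn.bound
  -- the step
  have e1 : FP fun p : (α × List ℕ) × ℕ => p.1.1 := FP.fst.comp FP.fst
  have e2 : FP fun p : (α × List ℕ) × ℕ => p.1.2 := FP.snd.comp FP.fst
  have hU : FP fun p : (α × List ℕ) × ℕ => un (min p.2 (J p.1.1).length) :=
    fp_unMin FP.snd (hJ.comp e1)
  have hpow : FP fun p : (α × List ℕ) × ℕ =>
      2 ^ (un ((T p.1.1).length * (un (min p.2 (J p.1.1).length)).length)).length :=
    FP.powU (FP.const 2) (FP.unMul (hT.comp e1) hU)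
  have hij : FP fun p : (α × List ℕ) × ℕ => min (i p.1.1) (w p.1.1).length /
      2 ^ (un ((T p.1.1).length * (un (min p.2 (J p.1.1).length)).length)).length :=
    fp_div (hi.comp e1) hpow (hw.comp e1)
  have hNj := fp_nx hU (hn.comp e1)
  have hMj := fp_nx (FP.cons (FP.const (α := (α × List ℕ) × ℕ) true) hU) (hn.comp e1)
  have hrow := fp_row (hW.comp e1) (hT.comp e1) (hw.comp e1) hNj hMj hij e2
  have hlev : FP fun p : (α × List ℕ) × ℕ => lev (W p.1.1).length (T p.1.1).length
      (J p.1.1).length (n p.1.1).length (w p.1.1).length (i p.1.1) p.2 p.1.2 := by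
    refine (congrArg FP (funext fun p => ?_)).mp hrow
    unfold lev
    simp only [un_length, List.length_cons]
  have hg : FP fun p : (α × List ℕ) × ℕ => (p.1.1, lev (W p.1.1).length (T p.1.1).length
      (J p.1.1).length (n p.1.1).length (w p.1.1).length (i p.1.1) p.2 p.1.2) := e1.pair hlev
  -- the fold
  have hfold : FP fun p : List ℕ × (α × List ℕ) => p.1.foldl (fun (s : α × List ℕ) (j : ℕ) =>
      (s.1, lev (W s.1).length (T s.1).length (J s.1).length (n s.1).length (w s.1).length
        (i s.1) j s.2)) p.2 := by
    refine FP.foldl (g := fun (s : α × List ℕ) (j : ℕ) =>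
      (s.1, lev (W s.1).length (T s.1).length (J s.1).length (n s.1).length (w s.1).length
        (i s.1) j s.2)) hg
      (B := fun N => 2 * N + 1 + (N + Bn N * (2 * BW N + 1))) (by fun_prop) ?_
    rintro l ⟨a, y⟩
    have key : ∀ (l : List ℕ) (y : List ℕ), (l.foldl (fun (s : α × List ℕ) (j : ℕ) =>
        (s.1, lev (W s.1).length (T s.1).length (J s.1).length (n s.1).length (w s.1).length
        (i s.1) j s.2)) (a, y)).1 = a ∧
        sz (l.foldl (fun (s : α × List ℕ) (j : ℕ) =>
        (s.1, lev (W s.1).length (T s.1).length (J s.1).length (n s.1).length (w s.1).length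
        (i s.1) j s.2)) (a, y)).2 ≤ sz y + (n a).length * (2 * (W a).length + 1) := by
      intro l
      induction l using List.reverseRecOn with
      | nil => exact fun y => ⟨rfl, by simp⟩
      | append_singleton l j ih =>
        intro y
        rw [List.foldl_append, List.foldl_cons, List.foldl_nil]
        obtain ⟨h1, -⟩ := ih y
        refine ⟨h1, ?_⟩
        simp only [h1]
        exact (sz_lev _ _ _ _ _ _ _ _).trans (Nat.le_add_left _ _)
    obtain ⟨h1, h2⟩ := key l y
    rw [← Prod.mk.eta (p := List.foldl _ _ _), sz_pair, h1, sz_pair]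
    have h3 : (n a).length ≤ Bn (sz l + (2 * sz a + 1 + sz y)) :=
      (length_le_sz _).trans ((hBnle a).trans (hBnm (by omega)))
    have h4 : (W a).length ≤ BW (sz l + (2 * sz a + 1 + sz y)) :=
      (length_le_sz _).trans ((hBWle a).trans (hBWm (by omega)))
    have h5 := Nat.mul_le_mul h3 (show 2 * (W a).length + 1 ≤
      2 * BW (sz l + (2 * sz a + 1 + sz y)) + 1 by omega)
    omega
  -- the initial list
  have hpowJ : FP fun a => 2 ^ (un ((T a).length * (J a).length)).length :=
    FP.powU (FP.const 2) (FP.unMul hT hJ)
  have hiJ : FP fun a => min (i a) (w a).length /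
      2 ^ (un ((T a).length * (J a).length)).length := fp_div hi hpowJ hw
  have hbas : FP fun a => bas (W a).length (T a).length (J a).length (n a).length
      (w a).length (i a) := by
    refine (congrArg FP (funext fun a => ?_)).mp (fp_bas hW hT hw (fp_nx hJ hn) hiJ)
    unfold bas
    simp only [un_length]
  have h := (hfold.comp (FP.pair (FP.reverse (FP.range hJ)) (FP.pair FP.id hbas))).snd'
  refine (congrArg FP (funext fun a => ?_)).mp h
  have key : ∀ (l : List ℕ) (y : List ℕ), (l.foldl (fun (s : α × List ℕ) (j : ℕ) =>
      (s.1, lev (W s.1).length (T s.1).length (J s.1).length (n s.1).length (w s.1).length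
      (i s.1) j s.2)) (a, y)) = (a, l.foldl (fun y j => lev (W a).length (T a).length
        (J a).length (n a).length (w a).length (i a) j y) y) := by
    intro l
    induction l with
    | nil => exact fun y => rfl
    | cons j l ih => exact fun y => ih _
  refine (congrArg Prod.snd (key (List.range (J a).length).reverse
    (bas (W a).length (T a).length (J a).length (n a).length (w a).length (i a)))).trans ?_
  show List.foldl _ _ _ = _
  rw [List.foldl_reverse, bas_eq]
  exact fold_lev _ _ _ _ _ _ _ (le_refl _)

end Pool.Agent.CK
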