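import Pool.Agent.CK.Defs

set_option autoImplicit false

/-!
CK-TSp. Homomorphisms, and the specialisation of the light variables: `sp` replaces `x_i` by
`x_(ix i)` if `H i`, by the constant `a i` otherwise.
-/

namespace Pool.Agent.CK

open MvPolynomial

theorem Fr.evl_hom {A B : Type} [CommSemiring A] [Algebra ℚ A] [CommSemiring B] [Algebra ℚ B]
    (φ : A →ₐ[ℚ] B) (σ y : ℕ → A) (F : Fr) :
    φ (F.evl σ y) = F.evl (fun i => φ (σ i)) fun j => φ (y j) := by
  induction F with
  | const q => exact φ.commutes q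
  | var i => rfl
  | ref j => rfl
  | add F G hF hG =>
    change φ (F.evl σ y + G.evl σ y) = _
    rw [map_add, hF, hG]
    rfl
  | mul F G hF hG =>
    change φ (F.evl σ y * G.evl σ y) = _
    rw [map_mul, hF, hG]
    rfl

private lemma vals_append {A : Type} [CommSemiring A] [Algebra ℚ A] (σ : ℕ → A) (l : List Fr)
    (F : Fr) : vals σ (l ++ [F]) = vals σ l ++ [F.evl σ fun j => (vals σ l).getD j 0] := by
  unfold vals
  rw [List.foldl_append]
  rfl

theorem vals_hom {A B : Type} [CommSemiring A] [Algebra ℚ A] [CommSemiring B] [Algebra ℚ B]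
    (φ : A →ₐ[ℚ] B) (σ : ℕ → A) (l : List Fr) :
    (vals σ l).map φ = vals (fun i => φ (σ i)) l := by
  induction l using List.reverseRecOn with
  | nil => rfl
  | append_singleton l F ih =>
    rw [vals_append, vals_append, List.map_append, ih, List.map_singleton, Fr.evl_hom, ← ih]
    have h : (fun j => φ ((vals σ l).getD j 0)) = fun j => (List.map φ (vals σ l)).getD j 0 := by
      funext j
      have h0 := List.getD_map (l := vals σ l) (d := (0 : A)) (n := j) (φ : A → B)
      rw [map_zero] at h0
      exact h0.symm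
    rw [h]

theorem Cir.evl_hom {A B : Type} [CommSemiring A] [Algebra ℚ A] [CommSemiring B] [Algebra ℚ B]
    (φ : A →ₐ[ℚ] B) (σ : ℕ → A) (C : Cir) : φ (C.evl σ) = C.evl fun i => φ (σ i) := by
  unfold Cir.evl
  rw [Fr.evl_hom, ← vals_hom]
  have h : (fun j => φ ((vals σ C.gates).getD j 0)) =
      fun j => (List.map φ (vals σ C.gates)).getD j 0 := by
    funext j
    have h0 := List.getD_map (l := vals σ C.gates) (d := (0 : A)) (n := j) (φ : A → B)
    rw [map_zero] at h0
    exact h0.symm
  rw [h]

private lemma Fr_evl_congr {A : Type} [CommSemiring A] [Algebra ℚ A] {σ τ y : ℕ → A} {F : Fr}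
    (h : ∀ i ∈ F.lvs, σ i = τ i) : F.evl σ y = F.evl τ y := by
  induction F with
  | const q => rfl
  | var i => exact h i (Multiset.mem_singleton_self i)
  | ref j => rfl
  | add F G hF hG =>
    change F.evl σ y + G.evl σ y = F.evl τ y + G.evl τ y
    rw [hF fun i hi => h i (Multiset.mem_add.2 (Or.inl hi)),
      hG fun i hi => h i (Multiset.mem_add.2 (Or.inr hi))]
  | mul F G hF hG =>
    change F.evl σ y * G.evl σ y = F.evl τ y * G.evl τ y
    rw [hF fun i hi => h i (Multiset.mem_add.2 (Or.inl hi)),
      hG fun i hi => h i (Multiset.mem_add.2 (Or.inr hi))]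

private lemma vals_congr {A : Type} [CommSemiring A] [Algebra ℚ A] {σ τ : ℕ → A} {l : List Fr}
    (h : ∀ i ∈ (l.map Fr.lvs).sum, σ i = τ i) : vals σ l = vals τ l := by
  induction l using List.reverseRecOn with
  | nil => rfl
  | append_singleton l F ih =>
    rw [List.map_append, List.sum_append, List.map_singleton, List.sum_singleton] at h
    rw [vals_append, vals_append, ih fun i hi => h i (Multiset.mem_add.2 (Or.inl hi)),
      Fr_evl_congr fun i hi => h i (Multiset.mem_add.2 (Or.inr hi))]

/-- the values of the variables which do not occur do not matter -/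
theorem Cir.evl_congr {A : Type} [CommSemiring A] [Algebra ℚ A] {σ τ : ℕ → A} {C : Cir}
    (h : ∀ i ∈ C.lvs, σ i = τ i) : C.evl σ = C.evl τ := by
  unfold Cir.evl
  rw [vals_congr fun i hi => h i (Multiset.mem_add.2 (Or.inl hi)),
    Fr_evl_congr fun i hi => h i (Multiset.mem_add.2 (Or.inr hi))]

/-- the specialisation of a formula -/
def spF (H : ℕ → Prop) [DecidablePred H] (ix : ℕ → ℕ) (a : ℕ → ℚ) : Fr → Fr
  | .const q => .const q
  | .var i => if H i then .var (ix i) else .const (a i)
  | .ref j => .ref j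
  | .add F G => .add (spF H ix a F) (spF H ix a G)
  | .mul F G => .mul (spF H ix a F) (spF H ix a G)

/-- the specialisation of a circuit -/
def sp (H : ℕ → Prop) [DecidablePred H] (ix : ℕ → ℕ) (a : ℕ → ℚ) (C : Cir) : Cir :=
  ⟨C.gates.map (spF H ix a), spF H ix a C.out⟩

private lemma spF_evl {A : Type} [CommSemiring A] [Algebra ℚ A] (H : ℕ → Prop)
    [DecidablePred H] (ix : ℕ → ℕ) (a : ℕ → ℚ) (σ y : ℕ → A) (F : Fr) :
    (spF H ix a F).evl σ y =
      F.evl (fun i => if H i then σ (ix i) else algebraMap ℚ A (a i)) y := by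
  induction F with
  | const q => rfl
  | var i =>
    change (if H i then Fr.var (ix i) else Fr.const (a i)).evl σ y =
      if H i then σ (ix i) else algebraMap ℚ A (a i)
    split_ifs <;> rfl
  | ref j => rfl
  | add F G hF hG =>
    change (spF H ix a F).evl σ y + (spF H ix a G).evl σ y = _
    rw [hF, hG]
    rfl
  | mul F G hF hG =>
    change (spF H ix a F).evl σ y * (spF H ix a G).evl σ y = _
    rw [hF, hG]
    rfl

private lemma sp_vals {A : Type} [CommSemiring A] [Algebra ℚ A] (H : ℕ → Prop)
    [DecidablePred H] (ix : ℕ → ℕ) (a : ℕ → ℚ) (σ : ℕ → A) (l : List Fr) :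
    vals σ (l.map (spF H ix a)) =
      vals (fun i => if H i then σ (ix i) else algebraMap ℚ A (a i)) l := by
  induction l using List.reverseRecOn with
  | nil => rfl
  | append_singleton l F ih =>
    rw [List.map_append, List.map_singleton, vals_append, vals_append, ih, spF_evl]

theorem sp_poly (H : ℕ → Prop) [DecidablePred H] (ix : ℕ → ℕ) (a : ℕ → ℚ) (C : Cir) :
    (sp H ix a C).poly = aeval (fun i => if H i then (X (ix i) : MvPolynomial ℕ ℚ) else
      MvPolynomial.C (a i)) C.poly := by
  unfold Cir.poly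
  rw [Cir.evl_hom]
  have h1 : (fun i => (aeval (fun i => if H i then (X (ix i) : MvPolynomial ℕ ℚ) else
      MvPolynomial.C (a i))) (X i : MvPolynomial ℕ ℚ)) =
      fun i => if H i then (X (ix i) : MvPolynomial ℕ ℚ) else
        algebraMap ℚ (MvPolynomial ℕ ℚ) (a i) := by
    funext i
    rw [aeval_X, MvPolynomial.algebraMap_eq]
  rw [h1]
  change (spF H ix a C.out).evl X (fun j => (vals X (C.gates.map (spF H ix a))).getD j 0) = _
  rw [spF_evl, sp_vals]
  rfl

private lemma spF_refs (H : ℕ → Prop) [DecidablePred H] (ix : ℕ → ℕ) (a : ℕ → ℚ) (F : Fr) :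
    (spF H ix a F).refs = F.refs := by
  induction F with
  | const q => rfl
  | var i =>
    change (if H i then Fr.var (ix i) else Fr.const (a i)).refs = 0
    split_ifs <;> rfl
  | ref j => rfl
  | add F G hF hG =>
    change (spF H ix a F).refs + (spF H ix a G).refs = _
    rw [hF, hG]
    rfl
  | mul F G hF hG =>
    change (spF H ix a F).refs + (spF H ix a G).refs = _
    rw [hF, hG]
    rfl

theorem sp_refs (H : ℕ → Prop) [DecidablePred H] (ix : ℕ → ℕ) (a : ℕ → ℚ) (C : Cir) :
    (sp H ix a C).refs = C.refs := by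
  change ((C.gates.map (spF H ix a)).map Fr.refs).sum + (spF H ix a C.out).refs =
    (C.gates.map Fr.refs).sum + C.out.refs
  rw [spF_refs, List.map_map]
  congr 2
  exact List.map_congr_left fun F _ => spF_refs H ix a F

private lemma spF_lvs (H : ℕ → Prop) [DecidablePred H] (ix : ℕ → ℕ) (a : ℕ → ℚ) (F : Fr) :
    (spF H ix a F).lvs = (F.lvs.filter H).map ix := by
  induction F with
  | const q => rfl
  | var i =>
    change (if H i then Fr.var (ix i) else Fr.const (a i)).lvs =
      (({i} : Multiset ℕ).filter H).map ix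
    rw [Multiset.filter_singleton]
    split_ifs
    · rw [Multiset.map_singleton]
      rfl
    · rfl
  | ref j => rfl
  | add F G hF hG =>
    change (spF H ix a F).lvs + (spF H ix a G).lvs = ((F.lvs + G.lvs).filter H).map ix
    rw [hF, hG, Multiset.filter_add, Multiset.map_add]
  | mul F G hF hG =>
    change (spF H ix a F).lvs + (spF H ix a G).lvs = ((F.lvs + G.lvs).filter H).map ix
    rw [hF, hG, Multiset.filter_add, Multiset.map_add]

private lemma sp_lvs_list (H : ℕ → Prop) [DecidablePred H] (ix : ℕ → ℕ) (a : ℕ → ℚ)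
    (l : List Fr) : ((l.map (spF H ix a)).map Fr.lvs).sum =
      ((l.map Fr.lvs).sum.filter H).map ix := by
  induction l with
  | nil => rfl
  | cons F l ih =>
    rw [List.map_cons, List.map_cons, List.sum_cons, ih, List.map_cons, List.sum_cons,
      Multiset.filter_add, Multiset.map_add, spF_lvs]

theorem sp_lvs (H : ℕ → Prop) [DecidablePred H] (ix : ℕ → ℕ) (a : ℕ → ℚ) (C : Cir) :
    (sp H ix a C).lvs = (C.lvs.filter H).map ix := by
  change ((C.gates.map (spF H ix a)).map Fr.lvs).sum + (spF H ix a C.out).lvs =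
    (((C.gates.map Fr.lvs).sum + C.out.lvs).filter H).map ix
  rw [sp_lvs_list, spF_lvs, Multiset.filter_add, Multiset.map_add]

end Pool.Agent.CK
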