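import Pool.Agent.CK.Der

set_option autoImplicit false

/-!
CK-Tr. The order of `f` along the subspace `z = w(θ)`: the substitution `ph` is injective, its constant
coefficient is the substitution `sb`, and if `f ≠ 0` vanishes on the subspace then some derivative
`∂_(m + i) f` vanishes to an order which is smaller than that of all `∂_l f + θ_l c_l f`.
-/

namespace Pool.Agent.CK

open MvPolynomial

private theorem tr_ph_lt (m : ℕ) (θ : ℕ → ℕ) {v : ℕ} (h : v < m) :
    ph m θ v = Polynomial.C (X v) := by rw [ph, if_pos h]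

private theorem tr_ph_ge (m : ℕ) (θ : ℕ → ℕ) {v : ℕ} (h : ¬ v < m) :
    ph m θ v = Polynomial.C (wl m θ (v - m)) + Polynomial.X * Polynomial.C (X v) := by
  rw [ph, if_neg h]

theorem ph_injective (m : ℕ) (θ : ℕ → ℕ) : Function.Injective (aeval (ph m θ) :
    MvPolynomial ℕ ℚ →ₐ[ℚ] Polynomial (MvPolynomial ℕ ℚ)) := by
  let g : ℕ → MvPolynomial ℕ ℚ := fun v => if v < m then X v else X v - wl m θ (v - m)
  let ψ : Polynomial (MvPolynomial ℕ ℚ) →ₐ[ℚ] MvPolynomial ℕ ℚ :=
    (aeval g).comp ((Polynomial.aeval (1 : MvPolynomial ℕ ℚ)).restrictScalars ℚ)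
  have hg : ∀ i, aeval g (wl m θ i) = wl m θ i := by
    intro i
    rw [wl, map_sum]
    refine Finset.sum_congr rfl fun l hl => ?_
    rw [map_mul, aeval_X, algHom_C]
    have h1 : g l = X l := if_pos (Finset.mem_range.1 hl)
    rw [h1]
    rfl
  have h1 : ψ.comp (aeval (ph m θ)) = AlgHom.id ℚ (MvPolynomial ℕ ℚ) := by
    apply MvPolynomial.algHom_ext
    intro v
    rw [AlgHom.comp_apply, aeval_X, AlgHom.id_apply]
    by_cases hv : v < m
    · rw [tr_ph_lt m θ hv]
      show aeval g (Polynomial.aeval (1 : MvPolynomial ℕ ℚ) (Polynomial.C (X v))) = X v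
      rw [Polynomial.aeval_C, Algebra.algebraMap_self_apply, aeval_X]
      exact if_pos hv
    · rw [tr_ph_ge m θ hv]
      show aeval g (Polynomial.aeval (1 : MvPolynomial ℕ ℚ)
        (Polynomial.C (wl m θ (v - m)) + Polynomial.X * Polynomial.C (X v))) = X v
      rw [map_add, map_mul, Polynomial.aeval_C, Polynomial.aeval_C, Polynomial.aeval_X,
        Algebra.algebraMap_self_apply, Algebra.algebraMap_self_apply, one_mul, map_add, hg,
        aeval_X]
      have h2 : g v = X v - wl m θ (v - m) := if_neg hv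
      rw [h2]
      ring
  intro p q hpq
  have h2 := congrArg ψ hpq
  have h3 : ∀ p, ψ (aeval (ph m θ) p) = p := fun p => by
    rw [← AlgHom.comp_apply, h1, AlgHom.id_apply]
  rw [h3, h3] at h2
  exact h2

theorem ph_coeff_zero (m : ℕ) (θ : ℕ → ℕ) (p : MvPolynomial ℕ ℚ) :
    (aeval (ph m θ) p).coeff 0 = aeval (sb m θ) p := by
  let ψ : Polynomial (MvPolynomial ℕ ℚ) →ₐ[ℚ] MvPolynomial ℕ ℚ :=
    (Polynomial.aeval (0 : MvPolynomial ℕ ℚ)).restrictScalars ℚ
  have hψ : ∀ P, ψ P = P.coeff 0 := by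
    intro P
    show Polynomial.aeval (0 : MvPolynomial ℕ ℚ) P = P.coeff 0
    rw [← Polynomial.coeff_zero_eq_aeval_zero]
  have h1 : ψ.comp (aeval (ph m θ)) = aeval (sb m θ) := by
    apply MvPolynomial.algHom_ext
    intro v
    rw [AlgHom.comp_apply, aeval_X, aeval_X, hψ]
    by_cases hv : v < m
    · rw [tr_ph_lt m θ hv, sb, if_pos hv, Polynomial.coeff_C_zero]
    · rw [tr_ph_ge m θ hv, sb, if_neg hv, Polynomial.coeff_add, Polynomial.coeff_C_zero,
        Polynomial.coeff_X_mul_zero, add_zero]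
  rw [← hψ, ← AlgHom.comp_apply, h1]

private theorem tr_pow (δ : Derivation ℚ (Polynomial (MvPolynomial ℕ ℚ))
    (Polynomial (MvPolynomial ℕ ℚ))) (hX : δ Polynomial.X = 0) (n : ℕ)
    (F : Polynomial (MvPolynomial ℕ ℚ)) :
    δ (Polynomial.X ^ n * F) = Polynomial.X ^ n * δ F := by
  rw [Derivation.leibniz, Derivation.leibniz_pow, hX, smul_zero, smul_zero, smul_zero, add_zero,
    smul_eq_mul]

theorem tr {m r : ℕ} {θ : ℕ → ℕ} {f : MvPolynomial ℕ ℚ} (hv : ∀ i ∈ f.vars, i < m + r)
    (h0 : f ≠ 0) (hz : aeval (sb m θ) f = 0) :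
    ∃ (μ : ℕ) (G H : ℕ → Polynomial (MvPolynomial ℕ ℚ)),
      (∀ i < r, aeval (ph m θ) (pderiv (m + i) f) = Polynomial.X ^ μ * G i) ∧
      (∀ l < m, aeval (ph m θ) (pderiv l f + C ((θ l : ℕ) : ℚ) * cc m r l f) =
        Polynomial.X ^ (μ + 1) * H l) ∧
      ∃ i < r, (G i).coeff 0 ≠ 0 := by
  set P := aeval (ph m θ) f with hP
  have hP0 : P ≠ 0 := by
    intro h
    apply h0
    apply ph_injective m θ
    rw [map_zero]
    exact h
  have hPc : P.coeff 0 = 0 := by rw [hP, ph_coeff_zero, hz]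
  obtain ⟨μ, F, hF, hF0⟩ : ∃ (μ : ℕ) (F : Polynomial (MvPolynomial ℕ ℚ)),
      P = Polynomial.X ^ (μ + 1) * F ∧ F.coeff 0 ≠ 0 := by
    have h1 : Polynomial.X ^ P.natTrailingDegree ∣ P := by
      rw [Polynomial.X_pow_dvd_iff]
      intro d hd
      exact Polynomial.coeff_eq_zero_of_lt_natTrailingDegree hd
    obtain ⟨F, hF⟩ := h1
    have h2 : P.coeff P.natTrailingDegree ≠ 0 := by
      have := Polynomial.trailingCoeff_nonzero_iff_nonzero.2 hP0
      exact this
    have h3 : P.natTrailingDegree ≠ 0 := by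
      intro h
      rw [h] at h2
      exact h2 hPc
    obtain ⟨μ, hμ⟩ := Nat.exists_eq_succ_of_ne_zero h3
    refine ⟨μ, F, ?_, ?_⟩
    · conv_lhs => rw [hF]
      rw [hμ]
    · have h4 : P.coeff P.natTrailingDegree = F.coeff 0 := by
        conv_lhs => rw [hF]
        have h5 := Polynomial.coeff_X_pow_mul F P.natTrailingDegree 0
        rw [zero_add] at h5
        rw [← hF]
        rw [← h5, ← hF]
      rw [← h4]
      exact h2
  choose δ hδ hδX using co_deriv
  refine ⟨μ, fun i => δ (m + i) F, fun l => δ l F, ?_, ?_, ?_⟩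
  · intro i _
    have h1 := phZ (m := m) (r := r) (θ := θ) (f := f) hv (i := i) (δ (m + i)) (hδ (m + i))
    rw [← hP, hF, tr_pow _ (hδX _), pow_succ', mul_assoc] at h1
    exact (mul_left_cancel₀ Polynomial.X_ne_zero h1).symm
  · intro l hl
    have h1 := phY (m := m) (r := r) (θ := θ) (f := f) hv hl (δ l) (hδ l)
    rw [← h1, ← hP, hF, tr_pow _ (hδX _)]
  · by_contra hcon
    push Not at hcon
    have h1 := phT (m := m) (r := r) (θ := θ) (f := f) hv
    rw [← hP] at h1
    have h2 : ∑ i ∈ Finset.range r, Polynomial.C (X (m + i)) *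
        aeval (ph m θ) (pderiv (m + i) f) = Polynomial.X ^ μ *
        ∑ i ∈ Finset.range r, Polynomial.C (X (m + i)) * δ (m + i) F := by
      rw [Finset.mul_sum]
      refine Finset.sum_congr rfl fun i _ => ?_
      have h1 := phZ (m := m) (r := r) (θ := θ) (f := f) hv (i := i) (δ (m + i)) (hδ (m + i))
      rw [← hP, hF, tr_pow _ (hδX _), pow_succ', mul_assoc] at h1
      rw [← mul_left_cancel₀ Polynomial.X_ne_zero h1]
      ring
    have h3 : Polynomial.derivative P = Polynomial.X ^ μ *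
        (Polynomial.C ((μ : MvPolynomial ℕ ℚ) + 1) * F +
          Polynomial.X * Polynomial.derivative F) := by
      rw [hF, Polynomial.derivative_mul, Polynomial.derivative_X_pow]
      simp only [Nat.cast_add, Nat.cast_one, map_add, map_one, Nat.add_sub_cancel, map_natCast]
      ring
    rw [h2, h3] at h1
    have h4 := mul_left_cancel₀ (pow_ne_zero μ Polynomial.X_ne_zero) h1
    have h5 := congrArg (fun p => Polynomial.coeff p 0) h4
    simp only [Polynomial.coeff_add, Polynomial.coeff_C_mul, Polynomial.coeff_X_mul_zero,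
      add_zero, Polynomial.finsetSum_coeff] at h5
    rw [Finset.sum_eq_zero] at h5
    · rcases mul_eq_zero.1 h5 with h6 | h6
      · have h7 : ((μ : MvPolynomial ℕ ℚ) + 1) = ((μ + 1 : ℕ) : MvPolynomial ℕ ℚ) := by
          push_cast; ring
        rw [h7, Nat.cast_eq_zero] at h6
        omega
      · exact hF0 h6
    · intro i hi
      rw [hcon i (Finset.mem_range.1 hi), mul_zero]

end Pool.Agent.CK
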