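import Pool.Agent.CK.Defs2
import Pool.Agent.CK.EvB

set_option autoImplicit false

/-!
CK-Unf. Unfolding a circuit to a formula: the polynomial, the number of the leaves labelled by a
variable, the code.
-/

namespace Pool.Agent.CK

open MvPolynomial

open Pool.Agent.QH
open Pool.Agent.Helper6.WB (Fm)

private theorem frunf_poly (ys : List Fm) (F : Fr) :
    (F.unf ys).poly = F.evl X (fun j => (ys.map Fm.poly).getD j 0) := by
  induction F with
  | const q => rfl
  | var i => rfl
  | ref j =>
    have h := List.getD_map (f := Fm.poly) (l := ys) (d := Fm.const 0) (n := j)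
    have h0 : (Fm.const 0).poly = 0 := by
      change MvPolynomial.C 0 = 0
      exact MvPolynomial.C_0
    rw [h0] at h
    change (ys.getD j (.const 0)).poly = (ys.map Fm.poly).getD j 0
    exact h.symm
  | add F G hF hG =>
    change (F.unf ys).poly + (G.unf ys).poly = F.evl X _ + G.evl X _
    rw [hF, hG]
  | mul F G hF hG =>
    change (F.unf ys).poly * (G.unf ys).poly = F.evl X _ * G.evl X _
    rw [hF, hG]

theorem unfs_append (l : List Fr) (F : Fr) : unfs (l ++ [F]) = unfs l ++ [F.unf (unfs l)] := by
  unfold unfs
  rw [List.foldl_append]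
  rfl

private theorem unfs_poly (l : List Fr) : (unfs l).map Fm.poly = vals X l := by
  induction l using List.reverseRecOn with
  | nil => rfl
  | append_singleton l F ih =>
    rw [unfs_append, vals_append, List.map_append, List.map_singleton, frunf_poly, ih]

theorem unf_poly (C : Cir) : C.unf.poly = C.poly := by
  unfold Cir.unf Cir.poly Cir.evl
  rw [frunf_poly, unfs_poly]

private theorem frunf_occ {ys : List Fm} {i : ℕ} (h : ∀ y ∈ ys, QH.occ i y = 0) (F : Fr) :
    QH.occ i (F.unf ys) = F.occ i := by
  induction F with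
  | const q => rfl
  | var i => rfl
  | ref j =>
    change QH.occ i (ys.getD j (.const 0)) = 0
    by_cases hj : j < ys.length
    · rw [List.getD_eq_getElem _ _ hj]
      exact h _ (List.getElem_mem hj)
    · rw [List.getD_eq_default _ _ (not_lt.1 hj)]
      rfl
  | add F G hF hG =>
    change QH.occ i (F.unf ys) + QH.occ i (G.unf ys) = F.occ i + G.occ i
    rw [hF, hG]
  | mul F G hF hG =>
    change QH.occ i (F.unf ys) + QH.occ i (G.unf ys) = F.occ i + G.occ i
    rw [hF, hG]

private theorem occ_zero {i : ℕ} (F : Fr) (h : i ∉ F.lvs) : F.occ i = 0 := by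
  induction F with
  | const q => rfl
  | var j =>
    have hj : i ≠ j := by
      intro hij
      apply h
      rw [hij]
      exact Multiset.mem_singleton_self j
    change (if j = i then 1 else 0) = 0
    rw [if_neg (Ne.symm hj)]
  | ref j => rfl
  | add F G hF hG =>
    have h' : i ∉ F.lvs + G.lvs := h
    rw [Multiset.mem_add, not_or] at h'
    change F.occ i + G.occ i = 0
    rw [hF h'.1, hG h'.2]
  | mul F G hF hG =>
    have h' : i ∉ F.lvs + G.lvs := h
    rw [Multiset.mem_add, not_or] at h'
    change F.occ i + G.occ i = 0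
    rw [hF h'.1, hG h'.2]

private theorem unfs_occ {l : List Fr} {i : ℕ} (h : ∀ F ∈ l, i ∉ F.lvs) :
    ∀ y ∈ unfs l, QH.occ i y = 0 := by
  induction l using List.reverseRecOn with
  | nil =>
    intro y hy
    simp [unfs] at hy
  | append_singleton l F ih =>
    have ih' := ih (fun G hG => h G (List.mem_append_left _ hG))
    intro y hy
    rw [unfs_append, List.mem_append, List.mem_singleton] at hy
    rcases hy with hy | rfl
    · exact ih' y hy
    · rw [frunf_occ ih', occ_zero F (h F (List.mem_append_right _ (List.mem_singleton_self F)))]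

theorem occ_unf {C : Cir} {i : ℕ} (h : ∀ F ∈ C.gates, i ∉ F.lvs) :
    QH.occ i C.unf = C.out.occ i := frunf_occ (unfs_occ h) _

theorem cdu_code (ys : List Fm) (F : Fr) : cdu (ys.map Fm.code) F.code = (F.unf ys).code := by
  induction F with
  | const q => rfl
  | var i =>
    have h1 : ¬ (2 * i + 3 ≤ 2) := by omega
    have h2 : (2 * i + 3) % 2 = 1 := by omega
    have h3 : (2 * i + 3 - 3) / 2 + 3 = i + 3 := by omega
    change (tku (ys.map Fm.code) (2 * i + 3, 0)) ++ [] = [(i + 3, 0)]
    rw [List.append_nil]
    unfold tku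
    simp only [h1, h2, if_false, if_true, h3]
  | ref j =>
    have h1 : ¬ (2 * j + 4 ≤ 2) := by omega
    have h2 : ¬ (2 * j + 4) % 2 = 1 := by omega
    have h3 : (2 * j + 4 - 4) / 2 = j := by omega
    change (tku (ys.map Fm.code) (2 * j + 4, 0)) ++ [] = (ys.getD j (.const 0)).code
    rw [List.append_nil]
    unfold tku
    simp only [h1, h2, if_false, h3]
    exact List.getD_map (f := Fm.code) (l := ys) (d := Fm.const 0) (n := j)
  | add F G hF hG =>
    change cdu _ (F.code ++ G.code ++ [(1, 0)]) = (F.unf ys).code ++ (G.unf ys).code ++ [(1, 0)]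
    unfold cdu at hF hG ⊢
    rw [List.flatMap_append, List.flatMap_append, hF, hG]
    rfl
  | mul F G hF hG =>
    change cdu _ (F.code ++ G.code ++ [(2, 0)]) = (F.unf ys).code ++ (G.unf ys).code ++ [(2, 0)]
    unfold cdu at hF hG ⊢
    rw [List.flatMap_append, List.flatMap_append, hF, hG]
    rfl

end Pool.Agent.CK
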